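import Pool.Agent.Helper12.MM.Defs

/-!
PROJECT MM, module MM-17. The number of bad places, for one residue `b`.

The bad places are contained in the union of the sets on the right and of `{i : E + W < i + H0 D}` (at most `H0 D` elements of `(E, E + W]`) and of the set `X` of the `i` with `q_i = gcd (b+i, Q) ≤ D`, `i + H0 D ≤ E + W`,
and `Same i h`, `2 ^ T < tau (sm (i + h q_i))` for some `h ≤ H0`. For `i ∈ X` choose such an `h` and put `i' = i + h q_i`: `i' ∈ (E, E + W]`, `gcd (b + i', Q) = q_i` (this is `Same`), so `i = i' - h gcd (b + i', Q)` is determined by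
`(h, i')`: `|X| ≤ (H0 + 1) * #{i' ∈ (E, E+W] : 2 ^ T < tau (sm i')}` (`Finset.card_le_card_of_injOn` into a product).
-/

set_option autoImplicit false

namespace Pool.Agent.Helper12.MM

open Finset

open Classical in
private theorem x_le (Q y1 E0 D H0 T E W b : ℕ) :
    ((Ioc E (E + W)).filter (fun i => (b + i).gcd Q ≤ D ∧ i + H0 * D ≤ E + W ∧
      ∃ h, h ≤ H0 ∧ Same Q b i h ∧ 2 ^ T < (sm y1 E0 b (i + h * (b + i).gcd Q)).divisors.card)).card ≤
      (H0 + 1) * ((Ioc E (E + W)).filter (fun i => 2 ^ T < (sm y1 E0 b i).divisors.card)).card := by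
  have hex : ∀ i : ℕ, ∃ h : ℕ, (∃ h, h ≤ H0 ∧ Same Q b i h ∧
      2 ^ T < (sm y1 E0 b (i + h * (b + i).gcd Q)).divisors.card) →
      (h ≤ H0 ∧ Same Q b i h ∧ 2 ^ T < (sm y1 E0 b (i + h * (b + i).gcd Q)).divisors.card) := by
    intro i
    by_cases hh : ∃ h, h ≤ H0 ∧ Same Q b i h ∧
      2 ^ T < (sm y1 E0 b (i + h * (b + i).gcd Q)).divisors.card
    · obtain ⟨h, h1⟩ := hh
      exact ⟨h, fun _ => h1⟩
    · exact ⟨0, fun h1 => absurd h1 hh⟩
  choose f hf using hex
  have hc : (H0 + 1) * ((Ioc E (E + W)).filter (fun i => 2 ^ T < (sm y1 E0 b i).divisors.card)).card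
      = ((range (H0 + 1)) ×ˢ
        ((Ioc E (E + W)).filter (fun i => 2 ^ T < (sm y1 E0 b i).divisors.card))).card := by
    rw [card_product, card_range]
  rw [hc]
  apply Finset.card_le_card_of_injOn (fun i => (f i, i + f i * (b + i).gcd Q))
  · intro i hi
    simp only [coe_filter, mem_Ioc, Set.mem_setOf_eq] at hi
    obtain ⟨⟨h1, h2⟩, h3, h4, h5⟩ := hi
    obtain ⟨h6, h7, h8⟩ := hf i h5
    have h9 : f i * (b + i).gcd Q ≤ H0 * D := Nat.mul_le_mul h6 h3
    simp only [coe_product, Set.mem_prod, coe_range, Set.mem_Iio, coe_filter, mem_Ioc,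
      Set.mem_setOf_eq]
    refine ⟨by omega, ⟨by omega, by omega⟩, h8⟩
  · intro i hi i' hi' hii
    simp only [coe_filter, mem_Ioc, Set.mem_setOf_eq] at hi hi'
    obtain ⟨-, -, -, h5⟩ := hi
    obtain ⟨-, -, -, h5'⟩ := hi'
    obtain ⟨-, h7, -⟩ := hf i h5
    obtain ⟨-, h7', -⟩ := hf i' h5'
    simp only [Prod.mk.injEq] at hii
    obtain ⟨e1, e2⟩ := hii
    unfold Same at h7 h7'
    have e3 : b + i + f i * (b + i).gcd Q = b + i' + f i' * (b + i').gcd Q := by omega
    rw [e3, h7'] at h7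
    rw [e1, h7] at e2
    omega

open Classical in
private theorem y_le (D H0 E W : ℕ) :
    ((Ioc E (E + W)).filter (fun i => E + W < i + H0 * D)).card ≤ H0 * D := by
  have h1 : (Ioc E (E + W)).filter (fun i => E + W < i + H0 * D) ⊆
      Ioc (E + W - H0 * D) (E + W) := by
    intro i hi
    simp only [mem_filter, mem_Ioc] at hi ⊢
    omega
  refine (card_le_card h1).trans ?_
  rw [Nat.card_Ioc]
  omega

open Classical in
theorem abad_le (Q G y y1 E0 D H0 T E W b : ℕ) :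
    ((Ioc E (E + W)).filter (fun i => ABad Q G y y1 E0 D H0 T E W b i)).card ≤
      ((Ioc E (E + W)).filter (fun i => D < (b + i).gcd Q)).card +
      ((Ioc E (E + W)).filter (fun i => ∃ j, 1 ≤ j ∧ j ≤ G ∧ Same Q b i j)).card +
      ((Ioc E (E + W)).filter (fun i => ∃ p, p.Prime ∧ G < p ∧ p ≤ y ∧ p ^ 2 ∣ b + i)).card +
      (H0 + 1) * ((Ioc E (E + W)).filter (fun i => 2 ^ T < (sm y1 E0 b i).divisors.card)).card +
      H0 * D := by
  have hsub : (Ioc E (E + W)).filter (fun i => ABad Q G y y1 E0 D H0 T E W b i) ⊆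
      ((((Ioc E (E + W)).filter (fun i => D < (b + i).gcd Q)) ∪
      ((Ioc E (E + W)).filter (fun i => ∃ j, 1 ≤ j ∧ j ≤ G ∧ Same Q b i j))) ∪
      ((Ioc E (E + W)).filter (fun i => ∃ p, p.Prime ∧ G < p ∧ p ≤ y ∧ p ^ 2 ∣ b + i))) ∪
      (((Ioc E (E + W)).filter (fun i => (b + i).gcd Q ≤ D ∧ i + H0 * D ≤ E + W ∧
      ∃ h, h ≤ H0 ∧ Same Q b i h ∧ 2 ^ T < (sm y1 E0 b (i + h * (b + i).gcd Q)).divisors.card)) ∪
      ((Ioc E (E + W)).filter (fun i => E + W < i + H0 * D))) := by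
    intro i hi
    rw [mem_filter] at hi
    obtain ⟨h1, h2⟩ := hi
    simp only [mem_union, mem_filter, h1, true_and]
    unfold ABad at h2
    by_cases ha : D < (b + i).gcd Q
    · exact Or.inl (Or.inl (Or.inl ha))
    by_cases hb : E + W < i + H0 * D
    · exact Or.inr (Or.inr hb)
    rcases h2 with h2 | h2 | h2 | h2 | h2
    · exact absurd h2 ha
    · exact absurd h2 hb
    · exact Or.inl (Or.inl (Or.inr h2))
    · exact Or.inl (Or.inr h2)
    · exact Or.inr (Or.inl ⟨not_lt.mp ha, not_lt.mp hb, h2⟩)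
  refine (card_le_card hsub).trans ?_
  refine (card_union_le _ _).trans ?_
  have k1 := card_union_le
    (((Ioc E (E + W)).filter (fun i => D < (b + i).gcd Q)) ∪
      ((Ioc E (E + W)).filter (fun i => ∃ j, 1 ≤ j ∧ j ≤ G ∧ Same Q b i j)))
    ((Ioc E (E + W)).filter (fun i => ∃ p, p.Prime ∧ G < p ∧ p ≤ y ∧ p ^ 2 ∣ b + i))
  have k2 := card_union_le
    ((Ioc E (E + W)).filter (fun i => D < (b + i).gcd Q))
    ((Ioc E (E + W)).filter (fun i => ∃ j, 1 ≤ j ∧ j ≤ G ∧ Same Q b i j))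
  have k3 := card_union_le
    ((Ioc E (E + W)).filter (fun i => (b + i).gcd Q ≤ D ∧ i + H0 * D ≤ E + W ∧
      ∃ h, h ≤ H0 ∧ Same Q b i h ∧ 2 ^ T < (sm y1 E0 b (i + h * (b + i).gcd Q)).divisors.card))
    ((Ioc E (E + W)).filter (fun i => E + W < i + H0 * D))
  have k4 := x_le Q y1 E0 D H0 T E W b
  have k5 := y_le D H0 E W
  omega

end Pool.Agent.Helper12.MM
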