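import Pool.Agent.Helper12.MM.Cval

/-!
PROJECT MM, module MM-02. The coefficients are multiplicative away from `M`.

`v` is odd (`2 ∣ M`, `v` coprime to `M`). By `a_div` the left side is the sum over the divisors of `u v`, i.e. over the pairs `n = n₁ n₂`, `n₁ ∣ u`, `n₂ ∣ v` (`Nat.Coprime`: the map `(n₁, n₂) ↦ n₁ n₂` is a bijection
`u.divisors ×ˢ v.divisors → (u * v).divisors`; e.g. `Nat.divisors_mul` and `Finset.sum_nbij'` with inverse `n ↦ (n.gcd u, n.gcd v)`, or a Mathlib lemma such as `Nat.Coprime.sum_divisors_mul`..).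
`n₁` and `n₂` are coprime, `n₂` is coprime to `M`, so `n₁ n₂ ∈ A ↔ n₁ ∈ A ∧ n₂ ∈ B` by `h.mul`. So it is enough to show: for `n₁ ∣ u`, `n₂ ∣ v`
  `Fib.c (n₁ n₂) (u v) = Fib.c n₁ u * (if Even u then 1 else chi v * chi n₂)`.
* `u` even: `(u v) / (n₁ n₂) = (u / n₁) (v / n₂)` and `v / n₂` is odd, so it is odd iff `u / n₁` is odd. If not, both sides are `0` (`Fib.c_ne_zero_iff`). If it is odd, `n₁` is even (`u` is), both sides are `1` by `c_even`.
* `u` odd: `n₁`, `n₂` odd, `c_odd` for both and `chi` multiplicative (`theta_chi.mul`).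
Then factor the double sum (`Finset.sum_mul_sum`, `Finset.sum_product`), with `XX B u v = ∑ n₂ ∈ v.divisors, if n₂ ∈ B then (if Even u then 1 else chi v * chi n₂) else 0`.
-/

set_option autoImplicit false

namespace Pool.Agent.Helper12.MM

open Finset Pool.Agent.Helper9.PF

private theorem odd_of_coprime {A B : Set ℕ} {M : ℕ} (h : MA A B M) {v : ℕ} (hvM : v.Coprime M) : Odd v := by
  have h2 : v.Coprime 2 := hvM.coprime_dvd_right h.two
  exact Nat.coprime_two_right.1 h2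

private theorem c_mul {u v n₁ n₂ : ℕ} (hu : 0 < u) (hv : 0 < v) (hvo : Odd v) (h1 : n₁ ∣ u) (h2 : n₂ ∣ v) :
    Pool.Agent.Helper9.Fib.c (n₁ * n₂) (u * v) =
      Pool.Agent.Helper9.Fib.c n₁ u * (if Even u then 1 else chi v * chi n₂) := by
  have hn1 : 0 < n₁ := Nat.pos_of_dvd_of_pos h1 hu
  have hn2 : 0 < n₂ := Nat.pos_of_dvd_of_pos h2 hv
  have hdvd : n₁ * n₂ ∣ u * v := Nat.mul_dvd_mul h1 h2
  have hn2o : Odd n₂ := Odd.of_dvd_nat hvo h2
  by_cases he : Even u
  · rw [if_pos he, mul_one]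
    have hq : (u * v) / (n₁ * n₂) = (u / n₁) * (v / n₂) := Nat.mul_div_mul_comm h1 h2
    have hlo : Odd (v / n₂) := Odd.of_dvd_nat hvo (Nat.div_dvd_of_dvd h2)
    rcases Nat.even_or_odd (u / n₁) with hk | hk
    · have e1 : Pool.Agent.Helper9.Fib.c n₁ u = 0 := by
        by_contra hc
        exact Nat.not_odd_iff_even.2 hk ((Pool.Agent.Helper9.Fib.c_ne_zero_iff n₁ u).1 hc).2
      have e2 : Pool.Agent.Helper9.Fib.c (n₁ * n₂) (u * v) = 0 := by
        by_contra hc
        have h3 := ((Pool.Agent.Helper9.Fib.c_ne_zero_iff (n₁ * n₂) (u * v)).1 hc).2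
        rw [hq] at h3
        exact Nat.not_odd_iff_even.2 (hk.mul_right _) h3
      rw [e1, e2]
    · have hn1e : Even n₁ := by
        by_contra hc
        have h4 : Odd n₁ := Nat.not_even_iff_odd.1 hc
        have h5 : u = n₁ * (u / n₁) := (Nat.mul_div_cancel' h1).symm
        rw [h5] at he
        exact Nat.not_even_iff_odd.2 (h4.mul hk) he
      rw [c_even hn1e h1 hk, c_even (hn1e.mul_right _) hdvd (by rw [hq]; exact hk.mul hlo)]
  · rw [if_neg he]
    have huo : Odd u := Nat.not_even_iff_odd.1 he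
    have hn1o : Odd n₁ := Odd.of_dvd_nat huo h1
    rw [c_odd hn1o h1, c_odd (hn1o.mul hn2o) hdvd, theta_chi.mul, theta_chi.mul]
    ring

theorem a_mul {A B : Set ℕ} {M : ℕ} (h : MA A B M) {u v : ℕ} (hu : 0 < u) (hv : 0 < v)
    (huv : u.Coprime v) (hvM : v.Coprime M) :
    Pool.Agent.Helper9.Fib.a A (u * v) = Pool.Agent.Helper9.Fib.a A u * XX B u v := by
  classical
  have hvo : Odd v := odd_of_coprime h hvM
  rw [a_div, a_div]
  have hdiv : (u * v).divisors = ((u.divisors ×ˢ v.divisors).image fun p => p.1 * p.2) := by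
    ext k
    simp only [Finset.mem_image, Finset.mem_product, Nat.mem_divisors, Prod.exists]
    constructor
    · rintro ⟨hk, -⟩
      obtain ⟨a, b, ha, hb, rfl⟩ := (Nat.dvd_mul).1 hk
      exact ⟨a, b, ⟨⟨ha, hu.ne'⟩, hb, hv.ne'⟩, rfl⟩
    · rintro ⟨a, b, ⟨⟨ha, -⟩, hb, -⟩, rfl⟩
      exact ⟨Nat.mul_dvd_mul ha hb, (Nat.mul_pos hu hv).ne'⟩
  rw [hdiv, Finset.sum_image (fun x hx y hy hxy => huv.mul_injOn_divisors hx hy hxy)]
  have hX : XX B u v = ∑ n ∈ v.divisors, if n ∈ B then (if Even u then (1 : ℤ) else chi v * chi n) else 0 := by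
    unfold XX gB hB
    by_cases he : Even u
    · simp only [if_pos he]
    · simp only [if_neg he]
      rw [Finset.mul_sum]
      refine Finset.sum_congr rfl fun n _ => ?_
      by_cases hn : n ∈ B
      · simp only [if_pos hn]
      · simp only [if_neg hn, mul_zero]
  rw [hX, Finset.sum_mul_sum, ← Finset.sum_product']
  refine Finset.sum_congr rfl fun x hx => ?_
  rw [Finset.mem_product, Nat.mem_divisors, Nat.mem_divisors] at hx
  obtain ⟨⟨h1, -⟩, h2, -⟩ := hx
  have hn1 : 0 < x.1 := Nat.pos_of_dvd_of_pos h1 hu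
  have hn2 : 0 < x.2 := Nat.pos_of_dvd_of_pos h2 hv
  have hco : x.1.Coprime x.2 := (huv.coprime_dvd_left h1).coprime_dvd_right h2
  have hm := h.mul x.1 x.2 hn1 hn2 hco (hvM.coprime_dvd_left h2)
  by_cases hA : x.1 ∈ A
  · by_cases hB : x.2 ∈ B
    · rw [if_pos (hm.2 ⟨hA, hB⟩), if_pos hA, if_pos hB]
      exact c_mul hu hv hvo h1 h2
    · rw [if_neg (fun hc => hB (hm.1 hc).2), if_neg hB, mul_zero]
  · rw [if_neg (fun hc => hA (hm.1 hc).1), if_neg hA, zero_mul]

end Pool.Agent.Helper12.MM
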