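import Mathlib

/-!
PROJECT MM, module MM-13. Counting residues.

* `per_count`: `#{b < R1 : P (b + i)} = #{n ∈ Ico i (i + R1) : P n}` (shift) and this interval consists of `R1 / R` periods (`Nat.filter_Ico_card_eq_of_periodic`, `Nat.count` additive; or see `ea_per` in
  `Pool/Agent/Helper9/PF/ExistsA.lean`, and induction on `R1 / R`).
* `swap_card`: double counting, `Finset.sum_comm` with `Finset.card_filter`.
* `markov_card`: if the sum of a nonnegative function over `range R` is `≤ c` then at most `c / K` of the values are `> K` (`0 < K`): the number times `K` is at most the sum.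
-/

set_option autoImplicit false

namespace Pool.Agent.Helper12.MM

open Finset

open Classical in
theorem per_count (R R1 i : ℕ) (hR : 0 < R) (h : R ∣ R1) (P : ℕ → Prop)
    (hP : ∀ n, P (n + R) ↔ P n) :
    ((range R1).filter (fun b => P (b + i))).card = R1 / R * ((range R).filter P).card := by
  have hPi : Function.Periodic P R := fun n => propext (hP n)
  have hQ : Function.Periodic (fun b => P (b + i)) R := by
    intro n
    show P (n + R + i) = P (n + i)
    rw [show n + R + i = (n + i) + R by ring]
    exact hPi (n + i)
  have hshift : ((range R).filter (fun b => P (b + i))).card = ((range R).filter P).card := by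
    have h1 : ((range R).filter (fun b => P (b + i))).card =
        ((Ico i (i + R)).filter P).card := by
      apply Finset.card_bij (fun b _ => b + i)
      · intro b hb
        simp only [mem_filter, mem_range, mem_Ico] at hb ⊢
        exact ⟨⟨by omega, by omega⟩, hb.2⟩
      · intro a _ b _ hab
        exact Nat.add_right_cancel hab
      · intro n hn
        simp only [mem_filter, mem_Ico] at hn
        refine ⟨n - i, ?_, by omega⟩
        simp only [mem_filter, mem_range]
        refine ⟨by omega, ?_⟩
        rw [show n - i + i = n by omega]
        exact hn.2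
    rw [h1, Nat.filter_Ico_card_eq_of_periodic i R P hPi, Nat.count_eq_card_filter_range]
  obtain ⟨q, rfl⟩ := h
  rw [Nat.mul_div_cancel_left q hR]
  have key : ∀ q : ℕ, ((range (R * q)).filter (fun b => P (b + i))).card =
      q * ((range R).filter P).card := by
    intro q
    induction q with
    | zero => simp
    | succ q ih =>
      have hsplit : (range (R * (q + 1))).filter (fun b => P (b + i)) =
          (range (R * q)).filter (fun b => P (b + i)) ∪
            (Ico (R * q) (R * q + R)).filter (fun b => P (b + i)) := by
        ext n
        simp only [mem_filter, mem_union, mem_range, mem_Ico]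
        have : R * (q + 1) = R * q + R := by ring
        rw [this]
        constructor
        · rintro ⟨h1, h2⟩
          rcases lt_or_ge n (R * q) with h3 | h3
          · exact Or.inl ⟨h3, h2⟩
          · exact Or.inr ⟨⟨h3, h1⟩, h2⟩
        · rintro (⟨h1, h2⟩ | ⟨⟨h1, h1'⟩, h2⟩)
          · exact ⟨by omega, h2⟩
          · exact ⟨h1', h2⟩
      have hdisj : Disjoint ((range (R * q)).filter (fun b => P (b + i)))
          ((Ico (R * q) (R * q + R)).filter (fun b => P (b + i))) := by
        rw [Finset.disjoint_left]
        intro n h1 h2
        simp only [mem_filter, mem_range, mem_Ico] at h1 h2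
        omega
      rw [hsplit, card_union_of_disjoint hdisj, ih,
        Nat.filter_Ico_card_eq_of_periodic (R * q) R (fun b => P (b + i)) hQ,
        Nat.count_eq_card_filter_range, hshift]
      ring
  exact key q

open Classical in
theorem swap_card (I : Finset ℕ) (R : ℕ) (P : ℕ → ℕ → Prop) :
    ∑ b ∈ range R, (I.filter (fun i => P b i)).card =
      ∑ i ∈ I, ((range R).filter (fun b => P b i)).card := by
  simp only [Finset.card_filter]
  exact Finset.sum_comm

open Classical in
theorem markov_card (S : Finset ℕ) (f : ℕ → ℝ) (c K : ℝ) (hK : 0 < K) (hf : ∀ b ∈ S, 0 ≤ f b)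
    (h : ∑ b ∈ S, f b ≤ c) : ((S.filter (fun b => K < f b)).card : ℝ) ≤ c / K := by
  rw [le_div_iff₀ hK]
  calc ((S.filter (fun b => K < f b)).card : ℝ) * K
      = ∑ _b ∈ S.filter (fun b => K < f b), K := by
        rw [Finset.sum_const, nsmul_eq_mul]
    _ ≤ ∑ b ∈ S.filter (fun b => K < f b), f b := by
        apply Finset.sum_le_sum
        intro b hb
        exact (Finset.mem_filter.1 hb).2.le
    _ ≤ ∑ b ∈ S, f b := by
        apply Finset.sum_le_sum_of_subset_of_nonneg (Finset.filter_subset _ _)
        intro b hb _
        exact hf b hb
    _ ≤ c := h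

end Pool.Agent.Helper12.MM
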