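import Pool.Agent.Helper12.MM.Recip

/-!
PROJECT MM, module MM-06. Mertens products, crude form with a power of the logarithm.

* `prod_up`: for `0 ≤ x ≤ 1/2`, `(1 - x)⁻¹ ≤ exp (x + x ^ 2)` (e.g. `Real.add_one_le_exp`-type bounds: `1 - x ≥ exp (-(x + x ^ 2))`; `(1 - x)⁻¹ = 1 + x / (1 - x) ≤ ...`; or `Real.one_sub_inv_le_log_of_pos`,
  or: `- log (1 - x) = log (1 + x / (1 - x)) ≤ x / (1 - x) = x + x ^ 2 / (1 - x) ≤ x + 2 x ^ 2`, which is also enough: use `x + 2 x ^ 2`). So the product is at most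
  `exp (∑ 1/p + 2 ∑ 1/p ^ 2) ≤ exp (2 log J + 3 + 2)` (`recip_le`; `∑_{p} 1/p ^ 2 ≤ ∑_{n ≥ 2} 1/(n (n-1)) ≤ 1`), and `exp 5 ≤ 200`.
* `log_le_prod`: `∏_{p ≤ y} (1 - 1/p)⁻¹ ≥ ∑_{n ≤ y} 1/n ≥ log y`: copy the proof of the private lemmas of `Pool/Agent/Helper9/PF/ProdBound.lean` (Euler product over smooth numbers).
* `prod_range`: divide: `∏_{G < p ≤ y} (1 - 1/p) = ∏_{p ≤ y} (1 - 1/p) * ∏_{p ≤ G} (1 - 1/p)⁻¹`; the last product is at most the one over `p ≤ 2 ^ J` (all factors are `≥ 1`).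
-/

set_option autoImplicit false

namespace Pool.Agent.Helper12.MM

open Finset

private lemma mm06_one_le {p : ℕ} (hp : 2 ≤ p) : 1 ≤ (1 - 1 / (p : ℝ))⁻¹ := by
  have h2 : (2 : ℝ) ≤ p := by exact_mod_cast hp
  have h0 : (0 : ℝ) < 1 / (p : ℝ) := by positivity
  have h1 : 1 / (p : ℝ) ≤ 1 / 2 := one_div_le_one_div_of_le (by norm_num) h2
  rw [one_le_inv₀ (by linarith)]
  linarith

private lemma mm06_tele (M : ℕ) (hM : 1 ≤ M) :
    ∑ n ∈ Ioc 1 M, 1 / ((n : ℝ) * ((n : ℝ) - 1)) = 1 - 1 / (M : ℝ) := by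
  induction M, hM using Nat.le_induction with
  | base => simp
  | succ k hk ih =>
    rw [Finset.sum_Ioc_succ_top hk, ih]
    have hk0 : (0 : ℝ) < k := by exact_mod_cast hk
    push_cast
    rw [add_sub_cancel_right]
    field_simp
    ring

private lemma mm06_factor {p : ℕ} (hp : 2 ≤ p) :
    (1 - 1 / (p : ℝ))⁻¹ ≤ Real.exp (1 / (p : ℝ) + 1 / ((p : ℝ) * ((p : ℝ) - 1))) := by
  have h2 : (2 : ℝ) ≤ p := by exact_mod_cast hp
  have hp0 : (0 : ℝ) < p := by linarith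
  have hp1 : (0 : ℝ) < (p : ℝ) - 1 := by linarith
  have e1 : (1 - 1 / (p : ℝ))⁻¹ = 1 / (p : ℝ) + 1 / ((p : ℝ) * ((p : ℝ) - 1)) + 1 := by
    have : 1 - 1 / (p : ℝ) = ((p : ℝ) - 1) / p := by field_simp
    rw [this, inv_div]
    field_simp
    ring
  rw [e1]
  exact Real.add_one_le_exp _

theorem prod_up (J : ℕ) (hJ : 1 ≤ J) :
    ∏ p ∈ (range (2 ^ J + 1)).filter Nat.Prime, (1 - 1 / (p : ℝ))⁻¹ ≤ 200 * (J : ℝ) ^ 2 := by
  have hJ0 : (0 : ℝ) < J := by exact_mod_cast hJ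
  have h1 : ∏ p ∈ (range (2 ^ J + 1)).filter Nat.Prime, (1 - 1 / (p : ℝ))⁻¹ ≤
      ∏ p ∈ (range (2 ^ J + 1)).filter Nat.Prime,
        Real.exp (1 / (p : ℝ) + 1 / ((p : ℝ) * ((p : ℝ) - 1))) := by
    refine Finset.prod_le_prod (fun p hp => ?_) (fun p hp => ?_)
    · exact zero_le_one.trans (mm06_one_le (Finset.mem_filter.mp hp).2.two_le)
    · exact mm06_factor (Finset.mem_filter.mp hp).2.two_le
  have h2 : ∑ p ∈ (range (2 ^ J + 1)).filter Nat.Prime, 1 / ((p : ℝ) * ((p : ℝ) - 1)) ≤ 1 := by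
    have h3 : ∑ p ∈ (range (2 ^ J + 1)).filter Nat.Prime, 1 / ((p : ℝ) * ((p : ℝ) - 1)) ≤
        ∑ n ∈ Ioc (1 : ℕ) (2 ^ J : ℕ), 1 / ((n : ℝ) * ((n : ℝ) - 1)) := by
      refine Finset.sum_le_sum_of_subset_of_nonneg ?_ ?_
      · intro p hp
        rw [mem_filter, mem_range] at hp
        rw [mem_Ioc]
        have := hp.2.two_le
        omega
      · intro n hn _
        rw [mem_Ioc] at hn
        have h4 : (1 : ℝ) < n := by exact_mod_cast hn.1
        have h5 : (0 : ℝ) < (n : ℝ) - 1 := by linarith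
        positivity
    have h4 := mm06_tele (2 ^ J) Nat.one_le_two_pow
    have h5 : (0 : ℝ) ≤ 1 / ((2 ^ J : ℕ) : ℝ) := by positivity
    linarith
  have h3 := recip_le J hJ
  rw [← Real.exp_sum, Finset.sum_add_distrib] at h1
  refine h1.trans ?_
  have h4 : Real.exp (∑ p ∈ (range (2 ^ J + 1)).filter Nat.Prime, 1 / (p : ℝ) +
      ∑ p ∈ (range (2 ^ J + 1)).filter Nat.Prime, 1 / ((p : ℝ) * ((p : ℝ) - 1))) ≤
      Real.exp (2 * Real.log J + 4) := Real.exp_le_exp.mpr (by linarith)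
  refine h4.trans ?_
  have e1 : Real.exp (2 * Real.log J + 4) = (J : ℝ) ^ 2 * Real.exp 1 ^ 4 := by
    rw [Real.exp_add, ← Real.exp_nat_mul, show (2 : ℝ) * Real.log J = Real.log J + Real.log J by ring,
      Real.exp_add, Real.exp_log hJ0]
    norm_num
    ring
  rw [e1]
  have h5 : Real.exp 1 ^ 4 ≤ 200 := by
    have h6 : Real.exp 1 ^ 4 ≤ 3 ^ 4 :=
      pow_le_pow_left₀ (Real.exp_pos 1).le Real.exp_one_lt_three.le 4
    linarith
  nlinarith [sq_nonneg (J : ℝ), mul_le_mul_of_nonneg_left h5 (sq_nonneg (J : ℝ))]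

/-- the completely multiplicative function `n ↦ 1/n` -/
private noncomputable def mm06_hom : ℕ →* ℝ where
  toFun n := (n : ℝ)⁻¹
  map_one' := by simp
  map_mul' m n := by push_cast; rw [mul_inv]

private theorem mm06_harm (n : ℕ) :
    ∑ i ∈ Icc 1 n, (i : ℝ)⁻¹ ≤ ∏ p ∈ (n + 1).primesBelow, (1 - (p : ℝ)⁻¹)⁻¹ := by
  have h := (EulerProduct.summable_and_hasSum_smoothNumbers_prod_primesBelow_geometric
    (f := mm06_hom) (by
      intro p hp
      show ‖(p : ℝ)⁻¹‖ < 1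
      rw [norm_inv, Real.norm_natCast]
      exact inv_lt_one_of_one_lt₀ (by exact_mod_cast hp.one_lt)) (n + 1)).2
  have h2 := sum_le_hasSum ((Icc 1 n).subtype (· ∈ Nat.smoothNumbers (n + 1))) (fun i _ => by
    show 0 ≤ ((i : ℕ) : ℝ)⁻¹
    positivity) h
  refine le_trans (le_of_eq ?_) h2
  rw [Finset.sum_subtype_of_mem (p := (· ∈ Nat.smoothNumbers (n + 1)))
    (fun i => (mm06_hom i : ℝ))]
  · rfl
  · intro x hx
    rw [mem_Icc] at hx
    rw [Nat.mem_smoothNumbers']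
    intro p hp hpx
    exact lt_of_le_of_lt (Nat.le_of_dvd (by omega) hpx) (by omega)

theorem log_le_prod (y : ℕ) (hy : 1 ≤ y) :
    Real.log y ≤ ∏ p ∈ (range (y + 1)).filter Nat.Prime, (1 - 1 / (p : ℝ))⁻¹ := by
  have hy0 : (0 : ℝ) < y := by exact_mod_cast hy
  have h := log_add_one_le_harmonic y
  rw [harmonic_eq_sum_Icc] at h
  push_cast at h
  have h1 : Real.log y ≤ Real.log (y + 1) := Real.log_le_log hy0 (by linarith)
  refine h1.trans (h.trans ((mm06_harm y).trans (le_of_eq ?_)))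
  refine Finset.prod_congr rfl fun p _ => ?_
  rw [one_div]

theorem prod_range (G y J : ℕ) (hJ : 1 ≤ J) (hGJ : G ≤ 2 ^ J) (hGy : G ≤ y) (hy : 2 ≤ y) :
    ∏ p ∈ (Ioc G y).filter Nat.Prime, (1 - 1 / (p : ℝ)) ≤ 200 * (J : ℝ) ^ 2 / Real.log y := by
  have hy1 : (1 : ℝ) < y := by exact_mod_cast (by omega : 1 < y)
  have hlog : 0 < Real.log y := Real.log_pos hy1
  have hlogy := log_le_prod y (by omega)
  have hsplit : (range (y + 1)).filter Nat.Prime =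
      (Ioc 1 G).filter Nat.Prime ∪ (Ioc G y).filter Nat.Prime := by
    ext p
    rw [mem_filter, mem_range, mem_union, mem_filter, mem_filter, mem_Ioc, mem_Ioc]
    constructor
    · rintro ⟨h1, h2⟩
      have := h2.two_le
      by_cases h3 : p ≤ G
      · exact Or.inl ⟨⟨by omega, h3⟩, h2⟩
      · exact Or.inr ⟨⟨by omega, by omega⟩, h2⟩
    · rintro (⟨⟨h1, h2⟩, h3⟩ | ⟨⟨h1, h2⟩, h3⟩)
      · exact ⟨by omega, h3⟩
      · exact ⟨by omega, h3⟩
  have hdisj : Disjoint ((Ioc 1 G).filter Nat.Prime) ((Ioc G y).filter Nat.Prime) := by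
    rw [Finset.disjoint_left]
    intro p h1 h2
    rw [mem_filter, mem_Ioc] at h1 h2
    omega
  rw [hsplit, Finset.prod_union hdisj] at hlogy
  have hle : ∏ p ∈ (Ioc 1 G).filter Nat.Prime, (1 - 1 / (p : ℝ))⁻¹ ≤ 200 * (J : ℝ) ^ 2 := by
    refine le_trans ?_ (prod_up J hJ)
    refine Finset.prod_le_prod_of_subset_of_one_le ?_ ?_ ?_
    · intro p hp
      rw [mem_filter, mem_Ioc] at hp
      rw [mem_filter, mem_range]
      exact ⟨by omega, hp.2⟩
    · intro p hp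
      rw [mem_filter] at hp
      exact le_trans zero_le_one (mm06_one_le hp.2.two_le)
    · intro p hp _
      rw [mem_filter] at hp
      exact mm06_one_le hp.2.two_le
  have hpos : 0 < ∏ p ∈ (Ioc G y).filter Nat.Prime, (1 - 1 / (p : ℝ)) := by
    refine Finset.prod_pos fun p hp => ?_
    rw [mem_filter] at hp
    have h2 : (2 : ℝ) ≤ p := by exact_mod_cast hp.2.two_le
    have h1 : 1 / (p : ℝ) ≤ 1 / 2 := one_div_le_one_div_of_le (by norm_num) h2
    linarith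
  rw [Finset.prod_inv_distrib (f := fun p : ℕ => 1 - 1 / (p : ℝ))
    (s := (Ioc G y).filter Nat.Prime)] at hlogy
  rw [le_div_iff₀ hlog]
  set P := ∏ p ∈ (Ioc G y).filter Nat.Prime, (1 - 1 / (p : ℝ)) with hP
  have h3 : Real.log y ≤ 200 * (J : ℝ) ^ 2 * P⁻¹ :=
    hlogy.trans (mul_le_mul_of_nonneg_right hle (inv_nonneg.2 hpos.le))
  calc P * Real.log y ≤ P * (200 * (J : ℝ) ^ 2 * P⁻¹) := mul_le_mul_of_nonneg_left h3 hpos.le
    _ = 200 * (J : ℝ) ^ 2 := by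
      rw [mul_comm (200 * (J : ℝ) ^ 2), ← mul_assoc, mul_inv_cancel₀ hpos.ne', one_mul]

end Pool.Agent.Helper12.MM
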