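import Pool.Agent.Helper12.MM.SameC
import Pool.Agent.Helper12.MM.ProdUp

/-!
PROJECT MM, module MM-11. The proportion of `n` with `Same`.

`card_same2` with `S = (Ioc G y).filter Nat.Prime`, `Q = QQ G y = ∏ p ∈ S, p`: the number is at most
`Q * ∏_{p ∈ S, ¬ p ∣ h} (1 - 1/p) = Q * ∏_{p ∈ S} (1 - 1/p) / ∏_{p ∈ S, p ∣ h} (1 - 1/p)`. The primes `p ∈ S` dividing `h` (say `n` of them) are `> G ≥ 2`, so `2 ^ n ≤ h` (`Nat.prod_primeFactors_dvd`), `4 ^ n ≤ h ^ 2 ≤ 2 ^ G`, `2 n ≤ G`,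
and `∏_{p ∈ S, p ∣ h} (1 - 1/p) ≥ (1 - 1/G) ^ n ≥ 1 - n/G ≥ 1/2` (Bernoulli, `one_add_mul_le_pow`). Then `prod_range`.
-/

set_option autoImplicit false

namespace Pool.Agent.Helper12.MM

open Finset Pool.Agent.Helper9.PF

theorem same_avg (G y J h : ℕ) (hG : 2 ≤ G) (hGy : G ≤ y) (hJ : 1 ≤ J) (hGJ : G ≤ 2 ^ J) (hh : 0 < h)
    (h2 : h ^ 2 ≤ 2 ^ G) :
    (((range (QQ G y)).filter
      (fun n => (n + h * n.gcd (QQ G y)).gcd (QQ G y) = n.gcd (QQ G y))).card : ℝ) ≤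
      (QQ G y : ℝ) * (400 * (J : ℝ) ^ 2 / Real.log y) := by
  classical
  obtain ⟨S, hS⟩ : ∃ S : Finset ℕ, S = (Ioc G y).filter Nat.Prime := ⟨_, rfl⟩
  have hSp : ∀ p ∈ S, p.Prime := fun p hp => by
    rw [hS] at hp
    exact (Finset.mem_filter.1 hp).2
  have hSG : ∀ p ∈ S, G < p := fun p hp => by
    rw [hS] at hp
    exact (Finset.mem_Ioc.1 (Finset.mem_filter.1 hp).1).1
  have hQ : QQ G y = ∏ p ∈ S, p := by
    rw [hS]
    rfl
  have h3 := card_same2 S hSp h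
  rw [← hQ] at h3
  have h4 : (((range (QQ G y)).filter
      (fun n => (n + h * n.gcd (QQ G y)).gcd (QQ G y) = n.gcd (QQ G y))).card : ℝ) ≤
      ((∏ p ∈ S, (if p ∣ h then p else p - 1) : ℕ) : ℝ) := by exact_mod_cast h3
  refine h4.trans ?_
  obtain ⟨X, hX⟩ : ∃ X : ℝ, X = ∏ p ∈ S, (if p ∣ h then (1 : ℝ) else 1 - 1 / (p : ℝ)) := ⟨_, rfl⟩
  have h5 : ((∏ p ∈ S, (if p ∣ h then p else p - 1) : ℕ) : ℝ) = (QQ G y : ℝ) * X := by
    rw [hQ, hX, Nat.cast_prod, Nat.cast_prod, ← Finset.prod_mul_distrib]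
    refine Finset.prod_congr rfl fun p hp => ?_
    have hp0 : (p : ℝ) ≠ 0 := by exact_mod_cast (hSp p hp).pos.ne'
    by_cases hd : p ∣ h
    · rw [if_pos hd, if_pos hd, mul_one]
    · rw [if_neg hd, if_neg hd, Nat.cast_sub (hSp p hp).one_le, mul_sub, mul_one, mul_one_div, div_self hp0,
        Nat.cast_one]
  rw [h5]
  refine mul_le_mul_of_nonneg_left ?_ (Nat.cast_nonneg _)
  obtain ⟨S1, hS1⟩ : ∃ S1 : Finset ℕ, S1 = S.filter (fun p => p ∣ h) := ⟨_, rfl⟩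
  have hmem : ∀ p ∈ S1, p ∈ S ∧ p ∣ h := fun p hp => by
    rw [hS1] at hp
    exact Finset.mem_filter.1 hp
  have h6 : X * ∏ p ∈ S1, (1 - 1 / (p : ℝ)) = ∏ p ∈ S, (1 - 1 / (p : ℝ)) := by
    rw [hX, hS1, Finset.prod_filter, ← Finset.prod_mul_distrib]
    refine Finset.prod_congr rfl fun p _ => ?_
    by_cases hd : p ∣ h
    · rw [if_pos hd, if_pos hd, one_mul]
    · rw [if_neg hd, if_neg hd, mul_one]
  have hn : 2 * S1.card ≤ G := by
    have h7 : ∏ p ∈ S1, p ∣ h :=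
      Finset.prod_primes_dvd h (fun p hp => (hSp p (hmem p hp).1).prime) (fun p hp => (hmem p hp).2)
    have h8 : 2 ^ S1.card ≤ ∏ p ∈ S1, p := by
      rw [← Finset.prod_const]
      exact Finset.prod_le_prod' fun p hp => (hSp p (hmem p hp).1).two_le
    have h9 : 2 ^ S1.card ≤ h := h8.trans (Nat.le_of_dvd hh h7)
    have h10 : 2 ^ (2 * S1.card) ≤ 2 ^ G := by
      rw [mul_comm, pow_mul]
      exact (Nat.pow_le_pow_left h9 2).trans h2
    exact (Nat.pow_le_pow_iff_right (by norm_num)).1 h10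
  have hG2 : (2 : ℝ) ≤ G := by exact_mod_cast hG
  have hG0 : (0 : ℝ) < G := by linarith
  have hG1 : 1 / (G : ℝ) ≤ 1 / 2 := one_div_le_one_div_of_le (by norm_num) hG2
  have hG3 : 0 < 1 / (G : ℝ) := by positivity
  have hB : 1 / 2 ≤ ∏ p ∈ S1, (1 - 1 / (p : ℝ)) := by
    have h7 : (1 - 1 / (G : ℝ)) ^ S1.card ≤ ∏ p ∈ S1, (1 - 1 / (p : ℝ)) := by
      rw [← Finset.prod_const]
      refine Finset.prod_le_prod (fun p _ => by linarith) (fun p hp => ?_)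
      have h8 : (G : ℝ) ≤ p := by exact_mod_cast (hSG p (hmem p hp).1).le
      have h9 := one_div_le_one_div_of_le hG0 h8
      linarith
    have h8 := one_add_mul_le_pow (a := -(1 / (G : ℝ))) (by linarith) S1.card
    have h9 : (S1.card : ℝ) * (1 / (G : ℝ)) ≤ 1 / 2 := by
      rw [mul_one_div, div_le_iff₀ hG0]
      have h10 : (2 : ℝ) * S1.card ≤ G := by exact_mod_cast hn
      linarith
    have h10 : (1 : ℝ) + (S1.card : ℝ) * -(1 / (G : ℝ)) ≤ (1 - 1 / (G : ℝ)) ^ S1.card := by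
      rw [sub_eq_add_neg]
      exact h8
    linarith
  have hA := prod_range G y J hJ hGJ hGy (by omega)
  rw [← hS, ← h6] at hA
  have hX0 : 0 ≤ X := by
    rw [hX]
    refine Finset.prod_nonneg fun p hp => ?_
    by_cases hd : p ∣ h
    · rw [if_pos hd]
      exact zero_le_one
    · rw [if_neg hd]
      have h8 : (G : ℝ) ≤ p := by exact_mod_cast (hSG p hp).le
      have h9 := one_div_le_one_div_of_le hG0 h8
      linarith
  have h7 : X * (1 / 2) ≤ 200 * (J : ℝ) ^ 2 / Real.log y :=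
    (mul_le_mul_of_nonneg_left hB hX0).trans hA
  have h8 : 400 * (J : ℝ) ^ 2 / Real.log y = 2 * (200 * (J : ℝ) ^ 2 / Real.log y) := by ring
  rw [h8]
  linarith

end Pool.Agent.Helper12.MM
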