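import Pool.Agent.Helper12.MM.GcdL
import Pool.Agent.Helper12.MM.SameAvg
import Pool.Agent.Helper12.MM.Per

/-!
PROJECT MM, module MM-14. Averages over the residue `b`, first part.

`R1 = Q1 y1 E0`, `Q = QQ G y`. `Q ∣ R1` as `y ≤ y1` and `1 ≤ E0` (`Q` is a product of distinct primes `≤ y1`, so it divides `primorial y1`). All the predicates `D < gcd (n, Q)` and `gcd (n + h gcd (n, Q), Q) = gcd (n, Q)` are periodic
modulo `Q`; by `swap_card`, `per_count` the sums are `W * (R1 / Q) * #{n < Q : ...}`.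
* `avg_gcd`: `gcd_large2`.
* `avg_same1`: for each `j ∈ [1, G]` by `same_avg` (union over `j`); `j ^ 2 ≤ G ^ 2 ≤ 2 ^ G` by `hG4`.
* `avg_pairs`: `same_avg` for each `h ∈ [1, H0]` (the set of pairs is counted by a double sum).
-/

set_option autoImplicit false

namespace Pool.Agent.Helper12.MM

open Finset Pool.Agent.Helper9.PF

private theorem qq_pos (G y : ℕ) : 0 < QQ G y :=
  Finset.prod_pos fun _ hp => (Finset.mem_filter.1 hp).2.pos

private theorem qq_dvd (G y y1 E0 : ℕ) (hy1 : y ≤ y1) (hE0 : 1 ≤ E0) :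
    QQ G y ∣ Q1 y1 E0 := by
  have h1 : QQ G y ∣ primorial y1 := by
    unfold QQ primorial
    refine Finset.prod_dvd_prod_of_subset _ _ _ ?_
    intro p hp
    obtain ⟨h2, h3⟩ := Finset.mem_filter.1 hp
    have h4 := (Finset.mem_Ioc.1 h2).2
    exact Finset.mem_filter.2 ⟨Finset.mem_range.2 (by omega), h3⟩
  exact h1.trans (dvd_pow_self _ (by omega))

private theorem avg_gen (Q R1 E W : ℕ) (hQ : 0 < Q) (hR : Q ∣ R1) (P : ℕ → Prop)
    (hP : ∀ n, P (n + Q) ↔ P n) (c : ℝ) (inst1 : DecidablePred P)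
    (hc : (((range Q).filter P).card : ℝ) ≤ (Q : ℝ) * c)
    (inst : ∀ b, DecidablePred (fun i => P (b + i))) :
    (∑ b ∈ range R1, (((Ioc E (E + W)).filter (fun i => P (b + i))).card : ℝ)) ≤
      (R1 : ℝ) * (W * c) := by
  classical
  have e1 : inst1 = fun n => Classical.propDecidable (P n) := Subsingleton.elim _ _
  have e2 : inst = fun b i => Classical.propDecidable (P (b + i)) := Subsingleton.elim _ _
  subst e1
  subst e2
  have h1 := swap_card (Ioc E (E + W)) R1 (fun b i => P (b + i))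
  have h2 : ∀ i ∈ Ioc E (E + W), (@filter ℕ (fun b => P (b + i))
      (fun b => Classical.propDecidable (P (b + i))) (range R1)).card =
      R1 / Q * (@filter ℕ P (fun n => Classical.propDecidable (P n)) (range Q)).card :=
    fun i _ => per_count Q R1 i hQ hR P hP
  rw [Finset.sum_congr rfl h2, Finset.sum_const, Nat.card_Ioc, Nat.add_sub_cancel_left,
    smul_eq_mul] at h1
  have h3 : (∑ b ∈ range R1, (((Ioc E (E + W)).filter (fun i => P (b + i))).card : ℝ)) =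
      (W : ℝ) * (((R1 / Q : ℕ) : ℝ) *
        ((@filter ℕ P (fun n => Classical.propDecidable (P n)) (range Q)).card : ℝ)) := by
    exact_mod_cast h1
  rw [h3]
  have h4 : ((R1 / Q : ℕ) : ℝ) * (Q : ℝ) = (R1 : ℝ) := by
    exact_mod_cast Nat.div_mul_cancel hR
  calc (W : ℝ) * (((R1 / Q : ℕ) : ℝ) *
        ((@filter ℕ P (fun n => Classical.propDecidable (P n)) (range Q)).card : ℝ))
      ≤ (W : ℝ) * (((R1 / Q : ℕ) : ℝ) * ((Q : ℝ) * c)) := by gcongr
    _ = (((R1 / Q : ℕ) : ℝ) * (Q : ℝ)) * (W * c) := by ring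
    _ = (R1 : ℝ) * (W * c) := by rw [h4]

private theorem same_per (Q h n : ℕ) :
    ((n + Q + h * (n + Q).gcd Q).gcd Q = (n + Q).gcd Q) ↔
      ((n + h * n.gcd Q).gcd Q = n.gcd Q) := by
  have h1 : (n + Q).gcd Q = n.gcd Q := by simp
  have h2 : (n + Q + h * n.gcd Q).gcd Q = (n + h * n.gcd Q).gcd Q := by
    rw [show n + Q + h * n.gcd Q = (n + h * n.gcd Q) + Q by ring]
    simp
  rw [h1, h2]

open Classical in
theorem avg_gcd (G y y1 E0 D E W : ℕ) (hy : 1 ≤ y) (hy1 : y ≤ y1) (hE0 : 1 ≤ E0) (hD : 2 ≤ D) :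
    (∑ b ∈ range (Q1 y1 E0),
      (((Ioc E (E + W)).filter (fun i => D < (b + i).gcd (QQ G y))).card : ℝ)) ≤
      (Q1 y1 E0 : ℝ) * (W * ((Real.log y + 2) / Real.log D)) := by
  refine avg_gen (QQ G y) (Q1 y1 E0) E W (qq_pos G y) (qq_dvd G y y1 E0 hy1 hE0)
    (fun n => D < n.gcd (QQ G y)) ?_ _ (fun n => Nat.decLt _ _) ?_ _
  · intro n
    have h1 : (n + QQ G y).gcd (QQ G y) = n.gcd (QQ G y) := by simp
    show D < (n + QQ G y).gcd (QQ G y) ↔ D < n.gcd (QQ G y)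
    rw [h1]
  · have h1 := gcd_large2 G y D hy (by omega)
    have hD' : (0 : ℝ) < Real.log D := Real.log_pos (by exact_mod_cast hD)
    rw [← mul_div_assoc, le_div_iff₀ hD']
    exact h1

open Classical in
theorem avg_same1 (G y y1 E0 J E W : ℕ) (hG : 2 ≤ G) (hG4 : G ^ 2 ≤ 2 ^ G) (hGy : G ≤ y)
    (hJ : 1 ≤ J) (hGJ : G ≤ 2 ^ J) (hy1 : y ≤ y1) (hE0 : 1 ≤ E0) :
    (∑ b ∈ range (Q1 y1 E0),
      (((Ioc E (E + W)).filter (fun i => ∃ j, 1 ≤ j ∧ j ≤ G ∧ Same (QQ G y) b i j)).card : ℝ)) ≤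
      (Q1 y1 E0 : ℝ) * (W * (G * (400 * (J : ℝ) ^ 2 / Real.log y))) := by
  refine avg_gen (QQ G y) (Q1 y1 E0) E W (qq_pos G y) (qq_dvd G y y1 E0 hy1 hE0)
    (fun n => ∃ j, 1 ≤ j ∧ j ≤ G ∧ (n + j * n.gcd (QQ G y)).gcd (QQ G y) = n.gcd (QQ G y))
    ?_ _ (fun n => Classical.propDecidable _) ?_ _
  · intro n
    simp only [same_per]
  · have h1 : ((range (QQ G y)).filter (fun n => ∃ j, 1 ≤ j ∧ j ≤ G ∧
        (n + j * n.gcd (QQ G y)).gcd (QQ G y) = n.gcd (QQ G y))) ⊆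
        (Icc 1 G).biUnion (fun j => (range (QQ G y)).filter
          (fun n => (n + j * n.gcd (QQ G y)).gcd (QQ G y) = n.gcd (QQ G y))) := by
      intro n hn
      obtain ⟨h2, j, h3, h4, h5⟩ := Finset.mem_filter.1 hn
      exact Finset.mem_biUnion.2 ⟨j, Finset.mem_Icc.2 ⟨h3, h4⟩, Finset.mem_filter.2 ⟨h2, h5⟩⟩
    have h6 := (Finset.card_le_card h1).trans Finset.card_biUnion_le
    have h7 : (((range (QQ G y)).filter (fun n => ∃ j, 1 ≤ j ∧ j ≤ G ∧
        (n + j * n.gcd (QQ G y)).gcd (QQ G y) = n.gcd (QQ G y))).card : ℝ) ≤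
        ∑ j ∈ Icc 1 G, (((range (QQ G y)).filter
          (fun n => (n + j * n.gcd (QQ G y)).gcd (QQ G y) = n.gcd (QQ G y))).card : ℝ) := by
      exact_mod_cast h6
    refine h7.trans ?_
    have h8 : ∀ j ∈ Icc 1 G, (((range (QQ G y)).filter
          (fun n => (n + j * n.gcd (QQ G y)).gcd (QQ G y) = n.gcd (QQ G y))).card : ℝ) ≤
          (QQ G y : ℝ) * (400 * (J : ℝ) ^ 2 / Real.log y) := by
      intro j hj
      obtain ⟨h9, h10⟩ := Finset.mem_Icc.1 hj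
      exact same_avg G y J j hG hGy hJ hGJ (by omega)
        ((Nat.pow_le_pow_left h10 2).trans hG4)
    refine (Finset.sum_le_sum h8).trans (le_of_eq ?_)
    rw [Finset.sum_const, Nat.card_Icc, nsmul_eq_mul, Nat.add_sub_cancel]
    ring

open Classical in
theorem avg_pairs (G y y1 E0 J H0 E W : ℕ) (hG : 2 ≤ G) (hH : H0 ^ 2 ≤ 2 ^ G) (hGy : G ≤ y)
    (hJ : 1 ≤ J) (hGJ : G ≤ 2 ^ J) (hy1 : y ≤ y1) (hE0 : 1 ≤ E0) :
    (∑ b ∈ range (Q1 y1 E0),
      ((((Ioc E (E + W)) ×ˢ (Icc 1 H0)).filter (fun x => Same (QQ G y) b x.1 x.2)).card : ℝ)) ≤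
      (Q1 y1 E0 : ℝ) * (W * (H0 * (400 * (J : ℝ) ^ 2 / Real.log y))) := by
  have h1 : ∀ b, ((((Ioc E (E + W)) ×ˢ (Icc 1 H0)).filter
      (fun x => Same (QQ G y) b x.1 x.2)).card : ℝ) =
      ∑ h ∈ Icc 1 H0, (((Ioc E (E + W)).filter (fun i => Same (QQ G y) b i h)).card : ℝ) := by
    intro b
    have h2 : (((Ioc E (E + W)) ×ˢ (Icc 1 H0)).filter
        (fun x => Same (QQ G y) b x.1 x.2)).card =
        ∑ h ∈ Icc 1 H0, ((Ioc E (E + W)).filter (fun i => Same (QQ G y) b i h)).card := by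
      simp only [Finset.card_filter]
      rw [Finset.sum_product_right]
    exact_mod_cast h2
  simp only [h1]
  rw [Finset.sum_comm]
  have h3 : ∀ h ∈ Icc 1 H0, (∑ b ∈ range (Q1 y1 E0),
      (((Ioc E (E + W)).filter (fun i => Same (QQ G y) b i h)).card : ℝ)) ≤
      (Q1 y1 E0 : ℝ) * (W * (400 * (J : ℝ) ^ 2 / Real.log y)) := by
    intro h hh
    obtain ⟨h9, h10⟩ := Finset.mem_Icc.1 hh
    refine avg_gen (QQ G y) (Q1 y1 E0) E W (qq_pos G y) (qq_dvd G y y1 E0 hy1 hE0)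
      (fun n => (n + h * n.gcd (QQ G y)).gcd (QQ G y) = n.gcd (QQ G y)) ?_ _
      (fun n => instDecidableEqNat _ _) ?_ _
    · intro n
      exact same_per (QQ G y) h n
    · exact same_avg G y J h hG hGy hJ hGJ (by omega)
        ((Nat.pow_le_pow_left h10 2).trans hH)
  refine (Finset.sum_le_sum h3).trans (le_of_eq ?_)
  rw [Finset.sum_const, Nat.card_Icc, nsmul_eq_mul, Nat.add_sub_cancel]
  ring

end Pool.Agent.Helper12.MM
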