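import Pool.Agent.Helper12.MM.TauAvg
import Pool.Agent.Helper12.MM.Per

/-!
PROJECT MM, module MM-15. Averages over the residue `b`, second part.

`R1 = Q1 y1 E0 = (primorial y1) ^ E0`.
* `avg_sq_small`: for a prime `p ∈ (G, y]`, `p ^ 2 ∣ R1` (`p ≤ y1`, `2 ≤ E0`), so `#{b < R1 : p ^ 2 ∣ b + i} = R1 / p ^ 2` (`per_count`, `swap_card`), and `∑_{p > G} 1/p ^ 2 ≤ ∑_{n > G} 1/(n (n - 1)) ≤ 1/G` (telescoping).
* `avg_val`: for a prime `p ≤ y1` and `i ≤ V`: `#{b < R1 : p ^ E0 ∣ b + i} = R1 / p ^ E0`; `∑_{n ≥ 2} n ^ (- E0) ≤ 2 ^ (- E0) ∑_{n ≥ 2} (2/n) ^ 2 ≤ 3 * 2 ^ (- E0)` (`∑_{n ≥ 2} 1/n ^ 2 ≤ 1/4 + ∑_{n ≥ 3} 1/(n (n-1)) = 3/4`).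
* `avg_tau_big`: `tau_avg` for each `i ∈ I` and Markov: `#{i ∈ I : K < tau}` is at most `(∑_i tau) / K`, summed over `b`.
* `avg_tau_max`: the number of the `b` for which some `i ≤ V` has `K < tau (sm)` is at most `∑_{i ≤ V} #{b : ...} ≤ (V + 1) R1 200 J ^ 2 / K`.
-/

set_option autoImplicit false

namespace Pool.Agent.Helper12.MM

open Finset Pool.Agent.Helper9.PF

private theorem prime_dvd_primorial {p y : ℕ} (hp : p.Prime) (h : p ≤ y) : p ∣ primorial y := by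
  unfold primorial
  exact Finset.dvd_prod_of_mem (fun p => p) (Finset.mem_filter.mpr ⟨Finset.mem_range.mpr (by omega), hp⟩)

private theorem Q1_pos (y E0 : ℕ) : 0 < Q1 y E0 := pow_pos (primorial_pos y) E0

open Classical in
private theorem dvd_count (R R1 i : ℕ) (hR : 0 < R) (h : R ∣ R1) :
    (((range R1).filter (fun b => R ∣ b + i)).card : ℝ) = (R1 : ℝ) * (1 / (R : ℝ)) := by
  have h1 : ((range R1).filter (fun b => R ∣ b + i)).card = R1 / R * ((range R).filter (fun n => R ∣ n)).card := by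
    convert per_count R R1 i hR h (fun n => R ∣ n) (fun n => by simp)
  have h2 : (range R).filter (fun n => R ∣ n) = {0} := by
    ext n
    simp only [mem_filter, mem_range, mem_singleton]
    constructor
    · rintro ⟨h3, h4⟩
      exact Nat.eq_zero_of_dvd_of_lt h4 h3
    · rintro rfl
      exact ⟨hR, dvd_zero R⟩
  rw [h1, h2, card_singleton, mul_one, Nat.cast_div h (by positivity)]
  ring

private theorem union_count (R1 : ℕ) (S : Finset ℕ) (P : ℕ → ℕ → Prop)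
    [DecidablePred fun b => ∃ p ∈ S, P p b] [∀ p, DecidablePred (P p)] :
    (((range R1).filter (fun b => ∃ p ∈ S, P p b)).card : ℝ) ≤
      ∑ p ∈ S, (((range R1).filter (fun b => P p b)).card : ℝ) := by
  have h1 : (range R1).filter (fun b => ∃ p ∈ S, P p b) ⊆
      S.biUnion (fun p => (range R1).filter (fun b => P p b)) := by
    intro b hb
    simp only [mem_filter] at hb
    obtain ⟨h1, p, h2, h3⟩ := hb
    exact mem_biUnion.mpr ⟨p, h2, mem_filter.mpr ⟨h1, h3⟩⟩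
  have h2 := (card_le_card h1).trans card_biUnion_le
  exact_mod_cast h2

private theorem swap_real (I : Finset ℕ) (R : ℕ) (P : ℕ → ℕ → Prop)
    [∀ b, DecidablePred (P b)] [∀ i, DecidablePred fun b => P b i] :
    (∑ b ∈ range R, ((I.filter (fun i => P b i)).card : ℝ)) =
      ∑ i ∈ I, (((range R).filter (fun b => P b i)).card : ℝ) := by
  have h : (∑ b ∈ range R, (I.filter (fun i => P b i)).card) =
      ∑ i ∈ I, ((range R).filter (fun b => P b i)).card := by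
    convert swap_card I R P
  exact_mod_cast h

open Classical in
private theorem markov_tau (J E0 i : ℕ) (K : ℕ) (hK : 0 < K) (hJ : 1 ≤ J) :
    (((range (Q1 (2 ^ J) E0)).filter (fun b => K < (sm (2 ^ J) E0 b i).divisors.card)).card : ℝ) ≤
      (Q1 (2 ^ J) E0 : ℝ) * (200 * (J : ℝ) ^ 2 / K) := by
  have h0 := markov_card (range (Q1 (2 ^ J) E0)) (fun b => ((sm (2 ^ J) E0 b i).divisors.card : ℝ))
    ((Q1 (2 ^ J) E0 : ℝ) * (200 * (J : ℝ) ^ 2)) (K : ℝ) (by exact_mod_cast hK) (fun b _ => by positivity)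
    (tau_avg J E0 i hJ)
  have h : (((range (Q1 (2 ^ J) E0)).filter
      (fun b => (K : ℝ) < ((sm (2 ^ J) E0 b i).divisors.card : ℝ))).card : ℝ) ≤
      (Q1 (2 ^ J) E0 : ℝ) * (200 * (J : ℝ) ^ 2) / K := by
    convert h0
  have h2 : (range (Q1 (2 ^ J) E0)).filter (fun b => K < (sm (2 ^ J) E0 b i).divisors.card) =
      (range (Q1 (2 ^ J) E0)).filter (fun b => (K : ℝ) < ((sm (2 ^ J) E0 b i).divisors.card : ℝ)) := by
    ext b
    simp only [mem_filter, Nat.cast_lt]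
  rw [h2]
  refine h.trans (le_of_eq ?_)
  ring

open Classical in
theorem avg_sq_small (G y y1 E0 E W : ℕ) (hG : 2 ≤ G) (hy1 : y ≤ y1) (hE0 : 2 ≤ E0) :
    (∑ b ∈ range (Q1 y1 E0), (((Ioc E (E + W)).filter
      (fun i => ∃ p, p.Prime ∧ G < p ∧ p ≤ y ∧ p ^ 2 ∣ b + i)).card : ℝ)) ≤
      (Q1 y1 E0 : ℝ) * (W * (1 / (G : ℝ))) := by
  have hs' : (∑ b ∈ range (Q1 y1 E0), (((Ioc E (E + W)).filter
      (fun i => ∃ p, p.Prime ∧ G < p ∧ p ≤ y ∧ p ^ 2 ∣ b + i)).card : ℝ)) =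
      ∑ i ∈ Ioc E (E + W), (((range (Q1 y1 E0)).filter
        (fun b => ∃ p, p.Prime ∧ G < p ∧ p ≤ y ∧ p ^ 2 ∣ b + i)).card : ℝ) :=
    swap_real (Ioc E (E + W)) (Q1 y1 E0) (fun b i => ∃ p, p.Prime ∧ G < p ∧ p ≤ y ∧ p ^ 2 ∣ b + i)
  rw [hs']
  have key : ∀ i ∈ Ioc E (E + W), (((range (Q1 y1 E0)).filter
        (fun b => ∃ p, p.Prime ∧ G < p ∧ p ≤ y ∧ p ^ 2 ∣ b + i)).card : ℝ) ≤
        (Q1 y1 E0 : ℝ) * (1 / (G : ℝ)) := by
    intro i _
    have e1 : (range (Q1 y1 E0)).filter (fun b => ∃ p, p.Prime ∧ G < p ∧ p ≤ y ∧ p ^ 2 ∣ b + i) =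
        (range (Q1 y1 E0)).filter (fun b => ∃ p ∈ (Ioc G y).filter Nat.Prime, p ^ 2 ∣ b + i) := by
      ext b
      simp only [mem_filter, mem_Ioc]
      constructor
      · rintro ⟨h0, p, h1, h2, h3, h4⟩
        exact ⟨h0, p, ⟨⟨h2, h3⟩, h1⟩, h4⟩
      · rintro ⟨h0, p, ⟨⟨h2, h3⟩, h1⟩, h4⟩
        exact ⟨h0, p, h1, h2, h3, h4⟩
    rw [e1]
    refine (union_count (Q1 y1 E0) ((Ioc G y).filter Nat.Prime) (fun p b => p ^ 2 ∣ b + i)).trans ?_
    have e2 : ∀ p ∈ (Ioc G y).filter Nat.Prime,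
        (((range (Q1 y1 E0)).filter (fun b => p ^ 2 ∣ b + i)).card : ℝ) =
          (Q1 y1 E0 : ℝ) * ((p : ℝ) ^ 2)⁻¹ := by
      intro p hp
      simp only [mem_filter, mem_Ioc] at hp
      obtain ⟨⟨_, h3⟩, h1⟩ := hp
      have hd : p ^ 2 ∣ Q1 y1 E0 :=
        (pow_dvd_pow_of_dvd (prime_dvd_primorial h1 (h3.trans hy1)) 2).trans (pow_dvd_pow _ hE0)
      rw [dvd_count (p ^ 2) (Q1 y1 E0) i (pow_pos h1.pos 2) hd]
      push_cast
      rw [one_div]
    rw [sum_congr rfl e2, ← mul_sum]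
    refine mul_le_mul_of_nonneg_left ?_ (by positivity)
    by_cases hGy : G ≤ y
    · have h5 : (∑ p ∈ (Ioc G y).filter Nat.Prime, ((p : ℝ) ^ 2)⁻¹) ≤ ∑ p ∈ Ioc G y, ((p : ℝ) ^ 2)⁻¹ :=
        sum_le_sum_of_subset_of_nonneg (filter_subset _ _) (fun _ _ _ => by positivity)
      have h6 := sum_Ioc_inv_sq_le_sub (α := ℝ) (k := G) (n := y) (by omega) hGy
      have h7 : (0 : ℝ) ≤ (y : ℝ)⁻¹ := by positivity
      rw [one_div]
      linarith
    · have h8 : Ioc G y = ∅ := Ioc_eq_empty_of_le (by omega)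
      rw [h8]
      simp
  refine (sum_le_sum key).trans (le_of_eq ?_)
  rw [sum_const, Nat.card_Ioc, nsmul_eq_mul]
  have : E + W - E = W := by omega
  rw [this]
  ring

open Classical in
theorem avg_val (y1 E0 V : ℕ) (hE0 : 2 ≤ E0) :
    (((range (Q1 y1 E0)).filter (fun b => ∃ i, i ≤ V ∧ ∃ p, p.Prime ∧ p ≤ y1 ∧ p ^ E0 ∣ b + i)).card : ℝ) ≤
      (Q1 y1 E0 : ℝ) * ((V + 1) * (3 / 2 ^ E0)) := by
  have hsum : (∑ p ∈ (range (y1 + 1)).filter Nat.Prime, ((p : ℝ) ^ E0)⁻¹) ≤ 3 / 2 ^ E0 := by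
    have h1 : ∀ p ∈ (range (y1 + 1)).filter Nat.Prime, ((p : ℝ) ^ E0)⁻¹ ≤ 4 / 2 ^ E0 * ((p : ℝ) ^ 2)⁻¹ := by
      intro p hp
      have hp' := (mem_filter.mp hp).2
      have h2 : (2 : ℝ) ≤ p := by exact_mod_cast hp'.two_le
      have h0 : (0 : ℝ) < p := by linarith
      obtain ⟨e, rfl⟩ := Nat.exists_eq_add_of_le hE0
      rw [div_mul_eq_mul_div, ← div_eq_mul_inv, inv_eq_one_div, div_div,
        div_le_div_iff₀ (by positivity) (by positivity)]
      have h3 : (2 : ℝ) ^ e ≤ (p : ℝ) ^ e := pow_le_pow_left₀ (by norm_num) h2 e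
      rw [pow_add, pow_add]
      have h4 : (0 : ℝ) < (p : ℝ) ^ 2 := by positivity
      nlinarith [mul_le_mul_of_nonneg_left h3 h4.le]
    refine (sum_le_sum h1).trans ?_
    rw [← mul_sum]
    have h5 : (∑ p ∈ (range (y1 + 1)).filter Nat.Prime, ((p : ℝ) ^ 2)⁻¹) ≤ 3 / 4 := by
      by_cases hy : 2 ≤ y1
      · have h6 : (range (y1 + 1)).filter Nat.Prime ⊆ insert 2 (Ioc 2 y1) := by
          intro p hp
          simp only [mem_filter, mem_range] at hp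
          have := hp.2.two_le
          simp only [mem_insert, mem_Ioc]
          omega
        have h7 : (∑ p ∈ (range (y1 + 1)).filter Nat.Prime, ((p : ℝ) ^ 2)⁻¹) ≤
            ∑ p ∈ insert 2 (Ioc 2 y1), ((p : ℝ) ^ 2)⁻¹ :=
          sum_le_sum_of_subset_of_nonneg h6 (fun _ _ _ => by positivity)
        rw [sum_insert (by simp)] at h7
        have h8 := sum_Ioc_inv_sq_le_sub (α := ℝ) (k := 2) (n := y1) (by omega) hy
        have h9 : (0 : ℝ) ≤ (y1 : ℝ)⁻¹ := by positivity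
        norm_num at h7 h8
        linarith
      · have h6 : (range (y1 + 1)).filter Nat.Prime = ∅ := by
          rw [filter_eq_empty_iff]
          intro p hp hpp
          have := hpp.two_le
          have := mem_range.mp hp
          omega
        rw [h6]
        norm_num
    calc 4 / 2 ^ E0 * (∑ p ∈ (range (y1 + 1)).filter Nat.Prime, ((p : ℝ) ^ 2)⁻¹)
        ≤ 4 / 2 ^ E0 * (3 / 4) := mul_le_mul_of_nonneg_left h5 (by positivity)
      _ = 3 / 2 ^ E0 := by ring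
  have e1 : (range (Q1 y1 E0)).filter (fun b => ∃ i, i ≤ V ∧ ∃ p, p.Prime ∧ p ≤ y1 ∧ p ^ E0 ∣ b + i) =
      (range (Q1 y1 E0)).filter (fun b => ∃ i ∈ range (V + 1), ∃ p ∈ (range (y1 + 1)).filter Nat.Prime,
        p ^ E0 ∣ b + i) := by
    ext b
    simp only [mem_filter, mem_range, Nat.lt_succ_iff]
    constructor
    · rintro ⟨h0, i, hi, p, h1, h2, h3⟩
      exact ⟨h0, i, hi, p, ⟨h2, h1⟩, h3⟩
    · rintro ⟨h0, i, hi, p, ⟨h2, h1⟩, h3⟩
      exact ⟨h0, i, hi, p, h1, h2, h3⟩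
  rw [e1]
  refine (union_count (Q1 y1 E0) (range (V + 1))
    (fun i b => ∃ p ∈ (range (y1 + 1)).filter Nat.Prime, p ^ E0 ∣ b + i)).trans ?_
  have key : ∀ i ∈ range (V + 1), (((range (Q1 y1 E0)).filter
      (fun b => ∃ p ∈ (range (y1 + 1)).filter Nat.Prime, p ^ E0 ∣ b + i)).card : ℝ) ≤
      (Q1 y1 E0 : ℝ) * (3 / 2 ^ E0) := by
    intro i _
    refine (union_count (Q1 y1 E0) ((range (y1 + 1)).filter Nat.Prime) (fun p b => p ^ E0 ∣ b + i)).trans ?_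
    have e2 : ∀ p ∈ (range (y1 + 1)).filter Nat.Prime,
        (((range (Q1 y1 E0)).filter (fun b => p ^ E0 ∣ b + i)).card : ℝ) =
          (Q1 y1 E0 : ℝ) * ((p : ℝ) ^ E0)⁻¹ := by
      intro p hp
      simp only [mem_filter, mem_range] at hp
      have hd : p ^ E0 ∣ Q1 y1 E0 := pow_dvd_pow_of_dvd (prime_dvd_primorial hp.2 (by omega)) E0
      rw [dvd_count (p ^ E0) (Q1 y1 E0) i (pow_pos hp.2.pos E0) hd]
      push_cast
      rw [one_div]
    rw [sum_congr rfl e2, ← mul_sum]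
    exact mul_le_mul_of_nonneg_left hsum (by positivity)
  refine (sum_le_sum key).trans (le_of_eq ?_)
  rw [sum_const, card_range, nsmul_eq_mul]
  push_cast
  ring

open Classical in
theorem avg_tau_big (J E0 : ℕ) (K : ℕ) (hK : 0 < K) (I : Finset ℕ) (hJ : 1 ≤ J) :
    (∑ b ∈ range (Q1 (2 ^ J) E0),
      ((I.filter (fun i => K < (sm (2 ^ J) E0 b i).divisors.card)).card : ℝ)) ≤
      (Q1 (2 ^ J) E0 : ℝ) * (I.card * (200 * (J : ℝ) ^ 2 / K)) := by
  have hs' : (∑ b ∈ range (Q1 (2 ^ J) E0),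
      ((I.filter (fun i => K < (sm (2 ^ J) E0 b i).divisors.card)).card : ℝ)) =
      ∑ i ∈ I, (((range (Q1 (2 ^ J) E0)).filter
        (fun b => K < (sm (2 ^ J) E0 b i).divisors.card)).card : ℝ) :=
    swap_real I (Q1 (2 ^ J) E0) (fun b i => K < (sm (2 ^ J) E0 b i).divisors.card)
  rw [hs']
  refine (sum_le_sum (fun i _ => markov_tau J E0 i K hK hJ)).trans (le_of_eq ?_)
  rw [sum_const, nsmul_eq_mul]
  ring

open Classical in
theorem avg_tau_max (J E0 V : ℕ) (K : ℕ) (hK : 0 < K) (hJ : 1 ≤ J) :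
    (((range (Q1 (2 ^ J) E0)).filter
      (fun b => ∃ i, i ≤ V ∧ K < (sm (2 ^ J) E0 b i).divisors.card)).card : ℝ) ≤
      (Q1 (2 ^ J) E0 : ℝ) * ((V + 1) * (200 * (J : ℝ) ^ 2 / K)) := by
  have e1 : (range (Q1 (2 ^ J) E0)).filter
      (fun b => ∃ i, i ≤ V ∧ K < (sm (2 ^ J) E0 b i).divisors.card) =
      (range (Q1 (2 ^ J) E0)).filter
      (fun b => ∃ i ∈ range (V + 1), K < (sm (2 ^ J) E0 b i).divisors.card) := by
    ext b
    simp only [mem_filter, mem_range, Nat.lt_succ_iff]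
  rw [e1]
  have h := union_count (Q1 (2 ^ J) E0) (range (V + 1))
    (fun i b => K < (sm (2 ^ J) E0 b i).divisors.card)
  refine le_trans (le_of_eq ?_) (h.trans ?_)
  · rw [Nat.cast_inj]
    apply congrArg Finset.card
    ext b
    simp only [mem_filter]
  have key : ∀ i ∈ range (V + 1), (((range (Q1 (2 ^ J) E0)).filter
      (fun b => K < (sm (2 ^ J) E0 b i).divisors.card)).card : ℝ) ≤
      (Q1 (2 ^ J) E0 : ℝ) * (200 * (J : ℝ) ^ 2 / K) := fun i _ => markov_tau J E0 i K hK hJ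
  refine (sum_le_sum key).trans (le_of_eq ?_)
  rw [sum_const, card_range, nsmul_eq_mul]
  push_cast
  ring

end Pool.Agent.Helper12.MM
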