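import Pool.Agent.Helper12.MM.Defs
import Pool.Agent.Helper12.MM.Per

/-!
PROJECT MM, module MM-16. Many residues `b` have many reference places.

`R1 = Q1 y1 E0`, `m0 = s0 * M'`. For a place `i`: `#{b < R1 : b + i ≡ s0 [MOD m0]} = R1 / m0` (`m0 ∣ R1`). If moreover `p ∣ b + i` for a prime `p > P`, `p ≤ y1`: `p` does not divide `m0` (`hP`), `p m0 ∣ R1` (coprime), one class modulo `p m0`
(Chinese remainder theorem, `Nat.chineseRemainder`): `R1 / (m0 p)`. In the same way for `p ^ 2` (`2 ≤ E0`): `R1 / (m0 p ^ 2)`. Hence `#{b < R1 : InJ} ≥ R1/m0 - ∑_{p ∈ Av} R1/(m0 p) - ∑_p R1/(m0 p ^ 2) ≥ R1/(2 m0)` by `hsum`.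
So `∑_{b < R1} #{i ∈ (E, E+W] : InJ} ≥ W R1/(2 m0)`; each term is at most `W`, and the terms with less than `W/(4 m0)` contribute at most `R1 W/(4 m0)`: so at least `R1/(4 m0)` of the `b` have at least `W/(4 m0)` places (if `W = 0` trivial).
-/

set_option autoImplicit false

namespace Pool.Agent.Helper12.MM

open Finset

open Classical in
private theorem cnt_class (R1 m0 s0 q i : ℕ) (hq : 0 < q) (hm : 0 < m0) (hc : Nat.Coprime m0 q)
    (h : m0 * q ∣ R1) :
    ((range R1).filter (fun b => b + i ≡ s0 [MOD m0] ∧ q ∣ b + i)).card = R1 / (m0 * q) := by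
  have h1 := per_count (m0 * q) R1 i (Nat.mul_pos hm hq) h
    (fun n => n ≡ s0 [MOD m0] ∧ q ∣ n) (by
      intro n
      have e1 : (n + m0 * q ≡ s0 [MOD m0]) ↔ (n ≡ s0 [MOD m0]) := by
        simp [Nat.ModEq, Nat.add_mul_mod_self_left]
      have e2 : (q ∣ n + m0 * q) ↔ (q ∣ n) := (Nat.dvd_add_left (Dvd.intro_left m0 rfl))
      simp only [e1, e2])
  have h2 : ((range (m0 * q)).filter (fun n => n ≡ s0 [MOD m0] ∧ q ∣ n)).card = 1 := by
    rw [Finset.card_eq_one]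
    refine ⟨(Nat.chineseRemainder hc s0 0 : ℕ), ?_⟩
    have hk := (Nat.chineseRemainder hc s0 0).2
    have hlt : (Nat.chineseRemainder hc s0 0 : ℕ) < m0 * q :=
      Nat.chineseRemainder_lt_mul hc s0 0 (by omega) (by omega)
    ext n
    simp only [Finset.mem_filter, Finset.mem_range, Finset.mem_singleton]
    constructor
    · rintro ⟨hn, hn1, hn2⟩
      have e1 : n ≡ (Nat.chineseRemainder hc s0 0 : ℕ) [MOD m0] := hn1.trans hk.1.symm
      have e2 : n ≡ (Nat.chineseRemainder hc s0 0 : ℕ) [MOD q] :=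
        ((Nat.modEq_zero_iff_dvd).2 hn2).trans hk.2.symm
      have e3 : n ≡ (Nat.chineseRemainder hc s0 0 : ℕ) [MOD (m0 * q)] :=
        (Nat.modEq_and_modEq_iff_modEq_mul hc).1 ⟨e1, e2⟩
      exact Nat.ModEq.eq_of_lt_of_lt e3 hn hlt
    · rintro rfl
      exact ⟨hlt, hk.1, (Nat.modEq_zero_iff_dvd).1 hk.2⟩
  have h3 : ((range R1).filter (fun b => b + i ≡ s0 [MOD m0] ∧ q ∣ b + i)).card
      = R1 / (m0 * q) * 1 := by
    rw [← h2]
    convert h1 using 2 <;> congr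
  rw [h3, Nat.mul_one]

private theorem cnt_real (R1 m : ℕ) (hm : 0 < m) (h : m ∣ R1) : ((R1 / m : ℕ) : ℝ) = (R1 : ℝ) / m :=
  Nat.cast_div h (by exact_mod_cast hm.ne')

open Classical in
private theorem one_place (Av : Set ℕ) (s0 M' P y1 E0 i : ℕ) (hE0 : 2 ≤ E0) (hs0 : 0 < s0)
    (hM' : 0 < M') (hdvd : s0 * M' ∣ Q1 y1 E0)
    (hP : ∀ p, p.Prime → p ∣ s0 * M' → p ≤ P)
    (hsum : ∑ p ∈ (Ioc P y1).filter Nat.Prime,
      ((if p ∈ Av then 1 / (p : ℝ) else 0) + 1 / (p : ℝ) ^ 2) ≤ 1 / 2) :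
    (Q1 y1 E0 : ℝ) / (2 * (s0 * M' : ℕ)) ≤
      (((range (Q1 y1 E0)).filter (fun b => InJ Av s0 M' P y1 b i)).card : ℝ) := by
  set m0 := s0 * M' with hm0
  set R1 := Q1 y1 E0 with hR1
  have hm : 0 < m0 := Nat.mul_pos hs0 hM'
  have hmr : (0 : ℝ) < (m0 : ℝ) := by exact_mod_cast hm
  -- the class
  have hA : ((range R1).filter (fun b => b + i ≡ s0 [MOD m0] ∧ 1 ∣ b + i)).card = R1 / (m0 * 1) :=
    cnt_class R1 m0 s0 1 i one_pos hm (Nat.coprime_one_right m0) (by simpa using hdvd)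
  -- divisibility facts
  have hfac : ∀ p ∈ (Ioc P y1).filter Nat.Prime, Nat.Coprime m0 p ∧ 0 < p ∧ p ∣ R1 ∧ p ^ 2 ∣ R1 := by
    intro p hp
    rw [Finset.mem_filter, Finset.mem_Ioc] at hp
    obtain ⟨⟨hp1, hp2⟩, hpp⟩ := hp
    have hnd : ¬ p ∣ m0 := fun hd => by have := hP p hpp hd; omega
    have hcop : Nat.Coprime m0 p := ((Nat.Prime.coprime_iff_not_dvd hpp).2 hnd).symm
    have hprim : p ∣ primorial y1 := by
      unfold primorial
      exact Finset.dvd_prod_of_mem _ (by simp [hpp]; omega)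
    have h2 : p ^ 2 ∣ R1 := by
      rw [hR1]; unfold Q1
      exact (pow_dvd_pow_of_dvd hprim 2).trans (pow_dvd_pow _ hE0)
    exact ⟨hcop, hpp.pos, (dvd_pow_self p two_ne_zero).trans h2, h2⟩
  have hD : ∀ p ∈ (Ioc P y1).filter Nat.Prime,
      (((range R1).filter (fun b => b + i ≡ s0 [MOD m0] ∧ p ∣ b + i)).card : ℝ) =
        (R1 : ℝ) / m0 * (1 / (p : ℝ)) := by
    intro p hp
    obtain ⟨hc, hp0, hd, -⟩ := hfac p hp
    rw [cnt_class R1 m0 s0 p i hp0 hm hc (Nat.Coprime.mul_dvd_of_dvd_of_dvd hc hdvd hd),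
      cnt_real R1 (m0 * p) (Nat.mul_pos hm hp0) (Nat.Coprime.mul_dvd_of_dvd_of_dvd hc hdvd hd)]
    have hpr : (0 : ℝ) < p := by exact_mod_cast hp0
    push_cast
    field_simp
  have hE : ∀ p ∈ (Ioc P y1).filter Nat.Prime,
      (((range R1).filter (fun b => b + i ≡ s0 [MOD m0] ∧ p ^ 2 ∣ b + i)).card : ℝ) =
        (R1 : ℝ) / m0 * (1 / (p : ℝ) ^ 2) := by
    intro p hp
    obtain ⟨hc, hp0, -, hd⟩ := hfac p hp
    have hc2 : Nat.Coprime m0 (p ^ 2) := Nat.Coprime.pow_right 2 hc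
    rw [cnt_class R1 m0 s0 (p ^ 2) i (pow_pos hp0 2) hm hc2
        (Nat.Coprime.mul_dvd_of_dvd_of_dvd hc2 hdvd hd),
      cnt_real R1 (m0 * p ^ 2) (Nat.mul_pos hm (pow_pos hp0 2))
        (Nat.Coprime.mul_dvd_of_dvd_of_dvd hc2 hdvd hd)]
    have hpr : (0 : ℝ) < p := by exact_mod_cast hp0
    push_cast
    field_simp
  -- covering
  have hcov : ((range R1).filter (fun b => b + i ≡ s0 [MOD m0] ∧ 1 ∣ b + i)) ⊆
      ((range R1).filter (fun b => InJ Av s0 M' P y1 b i)) ∪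
      ((Ioc P y1).filter Nat.Prime).biUnion (fun p =>
        (if p ∈ Av then (range R1).filter (fun b => b + i ≡ s0 [MOD m0] ∧ p ∣ b + i) else ∅) ∪
        (range R1).filter (fun b => b + i ≡ s0 [MOD m0] ∧ p ^ 2 ∣ b + i)) := by
    intro b hb
    rw [Finset.mem_filter] at hb
    obtain ⟨hb1, hb2, -⟩ := hb
    rw [Finset.mem_union]
    by_cases hJ : InJ Av s0 M' P y1 b i
    · left
      rw [Finset.mem_filter]
      exact ⟨hb1, hJ⟩
    · right
      have : ∃ p, p.Prime ∧ P < p ∧ p ≤ y1 ∧ ((p ∈ Av ∧ p ∣ b + i) ∨ p ^ 2 ∣ b + i) := by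
        by_contra hcon
        apply hJ
        refine ⟨hb2, ?_⟩
        intro p hp hp1 hp2
        refine ⟨fun hpa hpd => hcon ⟨p, hp, hp1, hp2, Or.inl ⟨hpa, hpd⟩⟩,
          fun hpd => hcon ⟨p, hp, hp1, hp2, Or.inr hpd⟩⟩
      obtain ⟨p, hp, hp1, hp2, h3⟩ := this
      rw [Finset.mem_biUnion]
      refine ⟨p, by rw [Finset.mem_filter, Finset.mem_Ioc]; exact ⟨⟨hp1, hp2⟩, hp⟩, ?_⟩
      rw [Finset.mem_union]
      rcases h3 with ⟨hpa, hpd⟩ | hpd
      · left
        rw [if_pos hpa, Finset.mem_filter]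
        exact ⟨hb1, hb2, hpd⟩
      · right
        rw [Finset.mem_filter]
        exact ⟨hb1, hb2, hpd⟩
  have hcard : (((range R1).filter (fun b => b + i ≡ s0 [MOD m0] ∧ 1 ∣ b + i)).card : ℝ) ≤
      (((range R1).filter (fun b => InJ Av s0 M' P y1 b i)).card : ℝ) +
      ∑ p ∈ (Ioc P y1).filter Nat.Prime, (R1 : ℝ) / m0 *
        ((if p ∈ Av then 1 / (p : ℝ) else 0) + 1 / (p : ℝ) ^ 2) := by
    have h1 := Finset.card_le_card hcov
    have h2 := h1.trans (Finset.card_union_le _ _)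
    have h3 := h2.trans (Nat.add_le_add_left Finset.card_biUnion_le _)
    have h4 : ((((range R1).filter (fun b => InJ Av s0 M' P y1 b i)).card +
        ∑ p ∈ (Ioc P y1).filter Nat.Prime,
        ((if p ∈ Av then (range R1).filter (fun b => b + i ≡ s0 [MOD m0] ∧ p ∣ b + i) else ∅) ∪
        (range R1).filter (fun b => b + i ≡ s0 [MOD m0] ∧ p ^ 2 ∣ b + i)).card : ℕ) : ℝ) ≤
      (((range R1).filter (fun b => InJ Av s0 M' P y1 b i)).card : ℝ) +
      ∑ p ∈ (Ioc P y1).filter Nat.Prime, (R1 : ℝ) / m0 *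
        ((if p ∈ Av then 1 / (p : ℝ) else 0) + 1 / (p : ℝ) ^ 2) := by
      rw [Nat.cast_add, Nat.cast_sum]
      refine add_le_add le_rfl (Finset.sum_le_sum ?_)
      intro p hp
      have hu : (((if p ∈ Av then (range R1).filter (fun b => b + i ≡ s0 [MOD m0] ∧ p ∣ b + i)
          else ∅) ∪ (range R1).filter (fun b => b + i ≡ s0 [MOD m0] ∧ p ^ 2 ∣ b + i)).card : ℝ) ≤
          ((if p ∈ Av then (range R1).filter (fun b => b + i ≡ s0 [MOD m0] ∧ p ∣ b + i)
          else ∅).card : ℝ) +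
          (((range R1).filter (fun b => b + i ≡ s0 [MOD m0] ∧ p ^ 2 ∣ b + i)).card : ℝ) := by
        exact_mod_cast Finset.card_union_le _ _
      refine hu.trans ?_
      rw [hE p hp, mul_add]
      refine add_le_add ?_ le_rfl
      by_cases hpa : p ∈ Av
      · rw [if_pos hpa, if_pos hpa, hD p hp]
      · rw [if_neg hpa, if_neg hpa]; simp
    exact (by exact_mod_cast h3 : (((range R1).filter
      (fun b => b + i ≡ s0 [MOD m0] ∧ 1 ∣ b + i)).card : ℝ) ≤ _).trans h4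
  rw [hA, cnt_real R1 (m0 * 1) (by omega) (by simpa using hdvd), ← Finset.mul_sum] at hcard
  have h0 : (0 : ℝ) ≤ (R1 : ℝ) / m0 := by positivity
  have h5 := mul_le_mul_of_nonneg_left hsum h0
  have h6 : (R1 : ℝ) / (2 * m0) = (R1 : ℝ) / m0 * (1 / 2) := by
    field_simp
  have h7 : (R1 : ℝ) / ((m0 * 1 : ℕ) : ℝ) = (R1 : ℝ) / m0 := by simp
  rw [h7] at hcard
  rw [h6]
  linarith

open Classical in
theorem avg_J (Av : Set ℕ) (s0 M' P y1 E0 E W : ℕ) (hE0 : 2 ≤ E0) (hs0 : 0 < s0) (hM' : 0 < M')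
    (hdvd : s0 * M' ∣ Q1 y1 E0) (hP : ∀ p, p.Prime → p ∣ s0 * M' → p ≤ P)
    (hsum : ∑ p ∈ (Ioc P y1).filter Nat.Prime, ((if p ∈ Av then 1 / (p : ℝ) else 0) + 1 / (p : ℝ) ^ 2) ≤ 1 / 2) :
    (Q1 y1 E0 : ℝ) / (4 * (s0 * M' : ℕ)) ≤
      (((range (Q1 y1 E0)).filter (fun b => (W : ℝ) / (4 * (s0 * M' : ℕ)) ≤
        (((Ioc E (E + W)).filter (fun i => InJ Av s0 M' P y1 b i)).card : ℝ))).card : ℝ) := by
  have hone := fun i => one_place Av s0 M' P y1 E0 i hE0 hs0 hM' hdvd hP hsum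
  set m0 := s0 * M' with hm0
  set R1 := Q1 y1 E0 with hR1
  have hm : 0 < m0 := Nat.mul_pos hs0 hM'
  have hmr : (1 : ℝ) ≤ (m0 : ℝ) := by exact_mod_cast hm
  set N : ℕ → ℝ := fun b => (((Ioc E (E + W)).filter (fun i => InJ Av s0 M' P y1 b i)).card : ℝ)
    with hN
  set K : ℝ := (W : ℝ) / (4 * (m0 : ℝ)) with hK
  have hR0 : (0 : ℝ) ≤ (R1 : ℝ) := Nat.cast_nonneg _
  rcases Nat.eq_zero_or_pos W with hW | hW
  · have hall : ((range R1).filter (fun b => K ≤ N b)) = range R1 := by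
      apply Finset.filter_true_of_mem
      intro b _
      rw [hK, hW]
      simp only [Nat.cast_zero, zero_div]
      exact Nat.cast_nonneg _
    rw [hall, Finset.card_range]
    rw [div_le_iff₀ (by positivity)]
    nlinarith
  · have hWr : (0 : ℝ) < (W : ℝ) := by exact_mod_cast hW
    have hsw : ∑ b ∈ range R1, N b =
        ∑ i ∈ Ioc E (E + W), (((range R1).filter (fun b => InJ Av s0 M' P y1 b i)).card : ℝ) := by
      have h1 := swap_card (Ioc E (E + W)) R1 (fun b i => InJ Av s0 M' P y1 b i)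
      have h2 : ((∑ b ∈ range R1, ((Ioc E (E + W)).filter
          (fun i => InJ Av s0 M' P y1 b i)).card : ℕ) : ℝ) =
          ((∑ i ∈ Ioc E (E + W), ((range R1).filter
          (fun b => InJ Av s0 M' P y1 b i)).card : ℕ) : ℝ) := by
        exact_mod_cast h1
      rw [Nat.cast_sum, Nat.cast_sum] at h2
      exact h2
    have hlow : (W : ℝ) * ((R1 : ℝ) / (2 * (m0 : ℝ))) ≤ ∑ b ∈ range R1, N b := by
      rw [hsw]
      have : ∑ i ∈ Ioc E (E + W), ((R1 : ℝ) / (2 * (m0 : ℝ))) ≤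
          ∑ i ∈ Ioc E (E + W), (((range R1).filter (fun b => InJ Av s0 M' P y1 b i)).card : ℝ) :=
        Finset.sum_le_sum (fun i _ => hone i)
      rw [Finset.sum_const, Nat.card_Ioc, nsmul_eq_mul] at this
      have e : E + W - E = W := by omega
      rw [e] at this
      exact this
    have hNW : ∀ b, N b ≤ W := by
      intro b
      have h1 : ((Ioc E (E + W)).filter (fun i => InJ Av s0 M' P y1 b i)).card ≤ W := by
        refine (Finset.card_filter_le _ _).trans ?_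
        rw [Nat.card_Ioc]; omega
      have h2 : ((((Ioc E (E + W)).filter (fun i => InJ Av s0 M' P y1 b i)).card : ℕ) : ℝ) ≤
          (W : ℝ) := Nat.cast_le.2 h1
      exact h2
    have hup : ∑ b ∈ range R1, N b ≤
        (((range R1).filter (fun b => K ≤ N b)).card : ℝ) * W + (R1 : ℝ) * K := by
      rw [← Finset.sum_filter_add_sum_filter_not (range R1) (fun b => K ≤ N b)]
      refine add_le_add ?_ ?_
      · refine (Finset.sum_le_card_nsmul _ _ (W : ℝ) (fun b _ => hNW b)).trans ?_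
        rw [nsmul_eq_mul]
      · refine (Finset.sum_le_card_nsmul _ _ K (fun b hb => ?_)).trans ?_
        · rw [Finset.mem_filter] at hb
          exact (not_le.1 hb.2).le
        · rw [nsmul_eq_mul]
          refine mul_le_mul_of_nonneg_right ?_ (by positivity)
          have : ((range R1).filter (fun b => ¬ K ≤ N b)).card ≤ R1 :=
            (Finset.card_filter_le _ _).trans (by rw [Finset.card_range])
          exact_mod_cast this
    have h1 := hlow.trans hup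
    have e1 : (W : ℝ) * ((R1 : ℝ) / (2 * (m0 : ℝ))) = W * (2 * ((R1 : ℝ) / (4 * (m0 : ℝ)))) := by
      field_simp; ring
    have e2 : (R1 : ℝ) * K = W * ((R1 : ℝ) / (4 * (m0 : ℝ))) := by
      rw [hK]; field_simp
    rw [e1, e2] at h1
    have h2 : (W : ℝ) * ((R1 : ℝ) / (4 * (m0 : ℝ))) ≤
        W * (((range R1).filter (fun b => K ≤ N b)).card : ℝ) := by linarith
    exact le_of_mul_le_mul_left h2 hWr

end Pool.Agent.Helper12.MM
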