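import Pool.Agent.Helper12.MM.Defs

/-!
PROJECT MM, module MM-31. The bound for `bet` with the trivial bound `|a t| ≤ t` far away.

* `bet_le2`. Copy `Pool/Agent/Helper9/PF/Bet.lean` (theorem `bet_le`), replacing `log_2`. Let `r = lam⁻¹ ≤ 2/3`. First sum: the terms with `h + 1 ≤ H` are `≤ B r^(h+1)`, total `≤ 2 B`. For `h ≥ H`: `|a (M+1+h)| ≤ M + (h+1)`,
  `∑_{h ≥ H} M r^(h+1) ≤ 2 M r^H ≤ 2` and `∑ (h+1) r^(h+1) ≤ 6`. Second sum: `j ≤ H`: `≤ 3 B`; `j > H`: `|a (M-j)| ≤ M`, total `≤ 2`. Total `≤ 5 B + 10`.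
* `chain2`. Put `M = (N+i)/d ≥ 1`. For `M ≤ t + H1`, `t ≤ M + H1`: `t = (N + i')/d` with `i' = i + h d` or `i - h d`, `0 ≤ h ≤ H1`, `0 < i' ≤ 2 E + W`, `d ∣ N + i'` (`E = D (H1 + 2)`, `d ≤ D`); use `hB`. (Compare `bet_chain` in
  `Pool/Agent/Helper9/PF/Chain.lean`.)
-/

set_option autoImplicit false

namespace Pool.Agent.Helper12.MM

open Finset Pool.Agent.Helper9.PF

private lemma Bet2_geo (r : ℝ) (hr0 : 0 ≤ r) (hr : r ≤ 2 / 3) (n : ℕ) :
    ∑ j ∈ range n, r ^ j ≤ 3 := by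
  have h1 : r < 1 := by linarith
  have h2 := (summable_geometric_of_lt_one hr0 h1).sum_le_tsum (range n)
    (fun i _ => pow_nonneg hr0 i)
  rw [tsum_geometric_of_lt_one hr0 h1] at h2
  refine h2.trans ?_
  rw [inv_le_comm₀ (by linarith) (by norm_num)]
  linarith

private lemma Bet2_geo1 (r : ℝ) (hr0 : 0 ≤ r) (hr : r ≤ 2 / 3) (n : ℕ) :
    ∑ j ∈ range n, r ^ (j + 1) ≤ 2 := by
  have h := Bet2_geo r hr0 hr n
  have h2 : ∑ j ∈ range n, r ^ (j + 1) = (∑ j ∈ range n, r ^ j) * r := by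
    rw [Finset.sum_mul]
    exact Finset.sum_congr rfl (fun j _ => pow_succ r j)
  rw [h2]
  have h3 : 0 ≤ ∑ j ∈ range n, r ^ j := Finset.sum_nonneg (fun j _ => pow_nonneg hr0 j)
  nlinarith

private lemma Bet2_absle (a : ℕ → ℤ) (t : ℕ) (c : ℕ) (h : |a t| ≤ (c : ℤ)) :
    |(a t : ℝ)| ≤ (c : ℝ) := by
  have h1 : ((|a t| : ℤ) : ℝ) ≤ ((c : ℤ) : ℝ) := by exact_mod_cast h
  rwa [Int.cast_abs, Int.cast_natCast] at h1

private lemma Bet2_nsum (r : ℝ) (hr0 : 0 ≤ r) (hr : r ≤ 2 / 3) :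
    Summable (fun n : ℕ => (n : ℝ) * r ^ n) ∧ ∑' n : ℕ, (n : ℝ) * r ^ n ≤ 6 := by
  have h1 : ‖r‖ < 1 := by
    rw [Real.norm_eq_abs, abs_of_nonneg hr0]
    linarith
  refine ⟨?_, ?_⟩
  · have h2 := summable_pow_mul_geometric_of_norm_lt_one (R := ℝ) 1 h1
    simpa using h2
  · rw [tsum_coe_mul_geometric_of_norm_lt_one h1]
    have h3 : (1 : ℝ) / 3 ≤ 1 - r := by linarith
    rw [div_le_iff₀ (by nlinarith)]
    nlinarith

theorem bet_le2 (lam : ℝ) (hlam : 3 / 2 ≤ lam) (a : ℕ → ℤ) (ha : ∀ t, |a t| ≤ (t : ℤ))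
    (M H B : ℕ) (hM : 1 ≤ M) (hH : (M : ℝ) ≤ lam ^ H)
    (hB : ∀ t, M ≤ t + H → t ≤ M + H → |a t| ≤ (B : ℤ)) :
    bet lam a M ≤ 5 * (B : ℝ) + 20 := by
  have hlam0 : (0 : ℝ) < lam := by linarith
  set r : ℝ := lam⁻¹ with hr
  have hr0 : 0 ≤ r := by positivity
  have hr1 : r ≤ 2 / 3 := by
    rw [hr, inv_le_comm₀ hlam0 (by norm_num)]
    linarith
  have hlr : ∀ k : ℕ, (M : ℝ) * r ^ (H + k) ≤ r ^ k := by
    intro k
    have h1 : (M : ℝ) * r ^ H ≤ 1 := by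
      calc (M : ℝ) * r ^ H ≤ lam ^ H * r ^ H :=
            mul_le_mul_of_nonneg_right hH (pow_nonneg hr0 H)
        _ = (lam * r) ^ H := (mul_pow _ _ _).symm
        _ = 1 := by rw [hr, mul_inv_cancel₀ hlam0.ne', one_pow]
    calc (M : ℝ) * r ^ (H + k) = ((M : ℝ) * r ^ H) * r ^ k := by
          rw [pow_add]; ring
      _ ≤ 1 * r ^ k := mul_le_mul_of_nonneg_right h1 (pow_nonneg hr0 k)
      _ = r ^ k := one_mul _
  -- the first sum
  have hf0 : ∀ h : ℕ, 0 ≤ |(a (M + 1 + h) : ℝ)| * r ^ (h + 1) :=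
    fun h => mul_nonneg (abs_nonneg _) (pow_nonneg hr0 _)
  obtain ⟨hns, hn6⟩ := Bet2_nsum r hr0 hr1
  have hgeo : Summable (fun n : ℕ => r ^ n) :=
    summable_geometric_of_lt_one hr0 (by linarith)
  have hlog : ∀ h : ℕ, |(a (M + 1 + h) : ℝ)| ≤ (M : ℝ) + ((h : ℝ) + 1) := by
    intro h
    have h1 := Bet2_absle a (M + 1 + h) _ (ha (M + 1 + h))
    push_cast at h1
    linarith
  have hn1 : Summable (fun h : ℕ => ((h + 1 : ℕ) : ℝ) * r ^ (h + 1)) :=
    (summable_nat_add_iff 1 (f := fun n : ℕ => (n : ℝ) * r ^ n)).2 hns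
  have hg1 : Summable (fun h : ℕ => r ^ (h + 1)) :=
    (summable_nat_add_iff 1 (f := fun n : ℕ => r ^ n)).2 hgeo
  have hfs : Summable (fun h : ℕ => |(a (M + 1 + h) : ℝ)| * r ^ (h + 1)) := by
    refine Summable.of_nonneg_of_le hf0 (g := fun h : ℕ => |(a (M + 1 + h) : ℝ)| * r ^ (h + 1))
      (f := fun h : ℕ => (M : ℝ) * r ^ (h + 1) + ((h + 1 : ℕ) : ℝ) * r ^ (h + 1)) ?_ ?_
    · intro h
      have h1 := mul_le_mul_of_nonneg_right (hlog h) (pow_nonneg hr0 (h + 1))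
      have h2 : ((h + 1 : ℕ) : ℝ) = (h : ℝ) + 1 := by push_cast; ring
      rw [h2]
      linarith
    · exact (hg1.mul_left _).add hn1
  have hfirst : ∑' h : ℕ, |(a (M + 1 + h) : ℝ)| * r ^ (h + 1) ≤ 2 * (B : ℝ) + 8 := by
    rw [← hfs.sum_add_tsum_nat_add H]
    have hA : ∑ h ∈ range H, |(a (M + 1 + h) : ℝ)| * r ^ (h + 1) ≤ 2 * (B : ℝ) := by
      calc ∑ h ∈ range H, |(a (M + 1 + h) : ℝ)| * r ^ (h + 1)
          ≤ ∑ h ∈ range H, (B : ℝ) * r ^ (h + 1) := by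
            refine Finset.sum_le_sum fun h hh => ?_
            rw [Finset.mem_range] at hh
            exact mul_le_mul_of_nonneg_right
              (Bet2_absle a _ _ (hB _ (by omega) (by omega))) (pow_nonneg hr0 _)
        _ = (B : ℝ) * ∑ h ∈ range H, r ^ (h + 1) := by rw [Finset.mul_sum]
        _ ≤ (B : ℝ) * 2 :=
            mul_le_mul_of_nonneg_left (Bet2_geo1 r hr0 hr1 H) (Nat.cast_nonneg B)
        _ = 2 * (B : ℝ) := by ring
    have hC : ∑' h : ℕ, |(a (M + 1 + (h + H)) : ℝ)| * r ^ (h + H + 1) ≤ 8 := by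
      have hs2 : Summable (fun h : ℕ => |(a (M + 1 + (h + H)) : ℝ)| * r ^ (h + H + 1)) :=
        (summable_nat_add_iff H
          (f := fun h : ℕ => |(a (M + 1 + h) : ℝ)| * r ^ (h + 1))).2 hfs
      have hs3 : Summable (fun h : ℕ => ((h + (H + 1) : ℕ) : ℝ) * r ^ (h + (H + 1))) :=
        (summable_nat_add_iff (H + 1) (f := fun n : ℕ => (n : ℝ) * r ^ n)).2 hns
      have h1 : ∑' h : ℕ, |(a (M + 1 + (h + H)) : ℝ)| * r ^ (h + H + 1)
          ≤ ∑' h : ℕ, (r ^ (h + 1) + ((h + (H + 1) : ℕ) : ℝ) * r ^ (h + (H + 1))) := by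
        refine hs2.tsum_le_tsum (fun h => ?_) (hg1.add hs3)
        have h2 := mul_le_mul_of_nonneg_right (hlog (h + H)) (pow_nonneg hr0 (h + H + 1))
        have h3 := hlr (h + 1)
        have h4 : H + (h + 1) = h + H + 1 := by ring
        rw [h4] at h3
        have h5 : h + (H + 1) = h + H + 1 := by ring
        have h6 : ((h + H + 1 : ℕ) : ℝ) = ((h + H : ℕ) : ℝ) + 1 := by push_cast; ring
        rw [h5, h6]
        nlinarith [h2, h3]
      rw [hg1.tsum_add hs3] at h1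
      have h7 : ∑' h : ℕ, r ^ (h + 1) ≤ 2 := by
        refine Real.tsum_le_of_sum_range_le (fun n => pow_nonneg hr0 _) (fun n => ?_)
        exact Bet2_geo1 r hr0 hr1 n
      have h8 : ∑' h : ℕ, ((h + (H + 1) : ℕ) : ℝ) * r ^ (h + (H + 1)) ≤ 6 := by
        have h9 := hns.sum_add_tsum_nat_add (H + 1)
        have h10 : 0 ≤ ∑ i ∈ range (H + 1), (i : ℝ) * r ^ i :=
          Finset.sum_nonneg (fun i _ => mul_nonneg (Nat.cast_nonneg i) (pow_nonneg hr0 i))
        linarith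
      linarith
    linarith
  -- the second sum
  have hsecond : ∑ j ∈ range M, |(a (M - j) : ℝ)| * r ^ j ≤ 3 * (B : ℝ) + 2 := by
    have h1 : ∑ j ∈ range M, |(a (M - j) : ℝ)| * r ^ j
        ≤ ∑ j ∈ range M, ((B : ℝ) * r ^ j + (if H < j then r ^ (j - H) else 0)) := by
      refine Finset.sum_le_sum fun j hj => ?_
      rw [Finset.mem_range] at hj
      by_cases hjH : H < j
      · rw [if_pos hjH]
        have h2 : |(a (M - j) : ℝ)| ≤ (M : ℝ) := by
          refine (Bet2_absle a _ _ (ha (M - j))).trans ?_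
          exact_mod_cast Nat.sub_le M j
        have h3 := mul_le_mul_of_nonneg_right h2 (pow_nonneg hr0 j)
        have h4 := hlr (j - H)
        have h5 : H + (j - H) = j := by omega
        rw [h5] at h4
        have h6 : 0 ≤ (B : ℝ) * r ^ j := mul_nonneg (Nat.cast_nonneg B) (pow_nonneg hr0 j)
        linarith
      · rw [if_neg hjH, add_zero]
        exact mul_le_mul_of_nonneg_right
          (Bet2_absle a _ _ (hB _ (by omega) (by omega))) (pow_nonneg hr0 _)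
    rw [Finset.sum_add_distrib, ← Finset.mul_sum] at h1
    have h2 : ∑ j ∈ range M, (if H < j then r ^ (j - H) else 0) ≤ 2 := by
      have hg : ∀ j : ℕ, 0 ≤ (if H < j then r ^ (j - H) else (0 : ℝ)) := by
        intro j
        split_ifs
        · exact pow_nonneg hr0 _
        · exact le_refl _
      have h3 : ∑ j ∈ range M, (if H < j then r ^ (j - H) else (0 : ℝ))
          ≤ ∑ j ∈ range (H + 1 + M), (if H < j then r ^ (j - H) else (0 : ℝ)) := by
        refine Finset.sum_le_sum_of_subset_of_nonneg ?_ (fun i _ _ => hg i)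
        intro i hi
        rw [Finset.mem_range] at hi ⊢
        omega
      rw [Finset.sum_range_add] at h3
      have h4 : ∑ x ∈ range (H + 1), (if H < x then r ^ (x - H) else (0 : ℝ)) = 0 := by
        refine Finset.sum_eq_zero fun x hx => ?_
        rw [Finset.mem_range] at hx
        rw [if_neg (by omega)]
      have h5 : ∑ x ∈ range M, (if H < H + 1 + x then r ^ (H + 1 + x - H) else (0 : ℝ))
          = ∑ x ∈ range M, r ^ (x + 1) := by
        refine Finset.sum_congr rfl fun x _ => ?_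
        rw [if_pos (by omega)]
        congr 1
        omega
      rw [h4, h5, zero_add] at h3
      exact h3.trans (Bet2_geo1 r hr0 hr1 M)
    have h3 : (B : ℝ) * ∑ j ∈ range M, r ^ j ≤ (B : ℝ) * 3 :=
      mul_le_mul_of_nonneg_left (Bet2_geo r hr0 hr1 M) (Nat.cast_nonneg B)
    linarith
  unfold bet
  rw [← hr]
  linarith

theorem chain2 {lam : ℝ} (hlam : 3 / 2 ≤ lam) {a : ℕ → ℤ} (ha : ∀ t, |a t| ≤ (t : ℤ))
    {E W H1 D N B d i : ℕ} (hE : E = D * (H1 + 2)) (hN : 1 ≤ N)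
    (hlog : ((N + (2 * E + W) : ℕ) : ℝ) ≤ lam ^ H1) (hd0 : 0 < d) (hdD : d ≤ D) (hdi : d ∣ N + i)
    (hB : ∀ i' ≤ 2 * E + W, d ∣ N + i' → |a ((N + i') / d)| ≤ (B : ℤ))
    (hi : E ≤ i + D) (hi2 : i ≤ E + W) :
    bet lam a ((N + i) / d) ≤ 5 * (B : ℝ) + 20 := by
  obtain ⟨M, hM⟩ : ∃ M, M = (N + i) / d := ⟨_, rfl⟩
  rw [← hM]
  have hdM : d * M = N + i := by rw [hM]; exact Nat.mul_div_cancel' hdi
  have hM1 : 1 ≤ M := by
    rcases Nat.eq_zero_or_pos M with h0 | h0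
    · rw [h0, mul_zero] at hdM
      omega
    · exact h0
  have hMN : M ≤ N + i := by
    rw [hM]
    exact Nat.div_le_self _ _
  have e4 : D * (H1 + 2) = D * H1 + 2 * D := by ring
  rw [e4] at hE
  refine bet_le2 lam hlam a ha M H1 B hM1 ?_ ?_
  · refine le_trans ?_ hlog
    have h1 : M ≤ N + (2 * E + W) := by omega
    exact_mod_cast h1
  · intro t ht1 ht2
    have e1 : d * M ≤ d * t + d * H1 := by
      have := Nat.mul_le_mul_left d ht1
      rwa [mul_add] at this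
    have e2 : d * t ≤ d * M + d * H1 := by
      have := Nat.mul_le_mul_left d ht2
      rwa [mul_add] at this
    have e3 : d * H1 ≤ D * H1 := Nat.mul_le_mul_right H1 hdD
    have e5 : N ≤ d * t := by omega
    have e6 : d * t ≤ N + (2 * E + W) := by omega
    obtain ⟨i', hi'⟩ : ∃ i', d * t = N + i' := ⟨d * t - N, by omega⟩
    have h1 := hB i' (by omega) ⟨t, hi'.symm⟩
    rw [← hi', Nat.mul_div_cancel_left t hd0] at h1
    exact h1

end Pool.Agent.Helper12.MM
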