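import Pool.Agent.Helper9.Fib.Crit

/-!
PROJECT MM, module MM-G7. The gap criterion.

As in `irrational_set` (`Pool/Agent/Helper9/Fib/IrrSet.lean`): from `tsum_fib` and rationality get integers `Q ≠ 0`, `P` with `√5 Q R A 0 = P`. `CP_tail A P Q hPQ (N+1) 0` plus `CP.int P` (`Lc_zero`): with
`α = √5 Q R A (N+1)`, `β = goldenConj ^ (N+1) P + √5 Q Lc A (N+1)` we have `CP α β`. `R A (N+1) = ∑' i, a (N+1+i) x ^ i`, so `|R A (N+1)| ≤ δ` (`h1`, `Real.tsum_le_of_sum_range_le` and `norm_tsum_le_tsum_norm`, see `R_sub_bound` in `Crit.lean`).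
`Lc A (N+1) = a N * goldenConj + ∑_{k < N} a k goldenConj ^ (N + 1 - k)`, and the second sum has absolute value `≤ ∑_{i < N} |a (N-1-i)| x ^ (i+2) ≤ δ` (`h2`, `x < 1`). So `|β| ≤ |P| + √5 |Q| (|a N| + 1)`.
* If `α ≠ 0`: `1 ≤ |α β|` (`CP.one_le`) `≤ √5 |Q| δ (|P| + √5 |Q| (|a N| + 1))`.
* If `α = 0`: `CP 0 β` gives `β = 0` (`u + v φ = 0` with integers forces `u = v = 0`: apply `CP.one_le` to ... or irrationality of `goldenRatio`, `Real.goldenRatio_irrational`). Then `√5 |Q| |a N| x ≤ |P| x ^ (N+1) + √5 |Q| δ`, with `|a N| ≥ 1`, `x ^ (N+1) ≤ δ`: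
  `√5 |Q| x ≤ (|P| + √5 |Q|) δ`.
Take `C` large.
-/

set_option autoImplicit false

namespace Pool.Agent.Helper12.MM

open Finset Real Pool.Agent.Helper9.Fib

lemma gap_R_le (A : Set ℕ) (m : ℕ) (δ : ℝ)
    (h : ∀ n, ∑ i ∈ range n, |(a A (m + i) : ℝ)| * x ^ i ≤ δ) : |R A m| ≤ δ := by
  have hnorm : ∀ i : ℕ, ‖(a A (m + i) : ℝ) * x ^ i‖ = |(a A (m + i) : ℝ)| * x ^ i := by
    intro i
    rw [norm_mul, Real.norm_eq_abs, Real.norm_eq_abs, abs_of_pos (pow_pos x_pos _)]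
  have hsum : Summable (fun i : ℕ => |(a A (m + i) : ℝ)| * x ^ i) := by
    apply summable_of_sum_range_le (c := δ)
    · intro i; exact mul_nonneg (abs_nonneg _) (pow_nonneg x_pos.le _)
    · exact h
  have h3 : ‖∑' i, (a A (m + i) : ℝ) * x ^ i‖ ≤ ∑' i, ‖(a A (m + i) : ℝ) * x ^ i‖ := by
    apply norm_tsum_le_tsum_norm
    apply hsum.congr
    intro i; rw [hnorm]
  rw [Real.norm_eq_abs] at h3
  unfold R
  refine h3.trans ?_
  rw [tsum_congr hnorm]
  exact Real.tsum_le_of_sum_range_le (fun i => mul_nonneg (abs_nonneg _) (pow_nonneg x_pos.le _)) h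

lemma gap_CP_zero {β : ℝ} (h : CP 0 β) : β = 0 := by
  obtain ⟨u, v, h1, h2⟩ := h
  by_cases hv : v = 0
  · subst hv
    have hu : (u : ℝ) = 0 := by simpa using h1.symm
    rw [h2, hu]; simp
  · exfalso
    have hv' : (v : ℝ) ≠ 0 := by exact_mod_cast hv
    have h3 : goldenRatio = ((-u / v : ℚ) : ℝ) := by
      push_cast
      rw [eq_div_iff hv']
      linarith
    exact Real.goldenRatio_irrational ⟨_, h3.symm⟩

open Classical in
theorem gap (A : Set ℕ) (h0 : 0 ∉ A)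
    (hrat : ¬ Irrational (∑' n : ℕ, if n ∈ A then 1 / (Nat.fib n : ℝ) else 0)) :
    ∃ C : ℝ, 0 < C ∧ ∀ (N : ℕ) (δ : ℝ), 0 ≤ δ → δ ≤ 1 → a A N ≠ 0 →
      (∀ n, ∑ i ∈ range n, |(a A (N + 1 + i) : ℝ)| * x ^ i ≤ δ) →
      (∑ i ∈ range N, |(a A (N - 1 - i) : ℝ)| * x ^ (i + 1) ≤ δ) → x ^ N ≤ δ →
      1 ≤ C * (|(a A N : ℝ)| + 1) * δ := by
  rw [tsum_fib A h0] at hrat
  unfold Irrational at hrat
  rw [not_not] at hrat
  obtain ⟨y, hy⟩ := hrat
  have hR : R A 0 = ∑' k, (a A k : ℝ) * x ^ k := by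
    unfold R
    simp only [zero_add]
  rw [← hR] at hy
  obtain ⟨Q, P, hQ, hPQ⟩ : ∃ Q P : ℤ, Q ≠ 0 ∧ √5 * (Q : ℝ) * R A 0 = (P : ℝ) := by
    refine ⟨(y.den : ℤ), y.num, by exact_mod_cast y.den_ne_zero, ?_⟩
    have h1 : ((y : ℚ) : ℝ) = (y.num : ℝ) / (y.den : ℝ) := by
      exact_mod_cast congrArg (fun z : ℚ => (z : ℝ)) (Rat.num_div_den y).symm
    have h2 : (y.den : ℝ) ≠ 0 := by exact_mod_cast y.den_ne_zero
    have h3 : √5 * R A 0 * (y.den : ℝ) = (y.num : ℝ) := by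
      rw [← hy, h1]
      field_simp
    push_cast
    linarith
  have h5 : 0 < √5 := by positivity
  have hQ' : 0 < |(Q : ℝ)| := by
    rw [abs_pos]; exact_mod_cast hQ
  set S : ℝ := √5 * |(Q : ℝ)| with hS
  have hSpos : 0 < S := mul_pos h5 hQ'
  set T : ℝ := |(P : ℝ)| + S with hT
  have hTpos : 0 < T := by
    have := abs_nonneg (P : ℝ)
    linarith
  have hx := x_pos
  have hx1 := x_lt_one
  have hC2 : 0 < T / (S * x) := by positivity
  refine ⟨S * T + T / (S * x), by positivity, ?_⟩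
  intro N δ hδ0 hδ1 haN h1 h2 h3
  have hRb := gap_R_le A (N + 1) δ h1
  -- the conjugate pair
  have hcp : CP (√5 * Q * R A (N + 1)) (goldenConj ^ (N + 1) * P + √5 * Q * Lc A (N + 1)) := by
    have h4 := (CP_tail A P Q hPQ (N + 1) 0).add (CP.int P)
    have e1 : √5 * Q * (R A (N + 1) - R A 0) + (P : ℝ) = √5 * Q * R A (N + 1) := by
      linear_combination (-1 : ℝ) * hPQ
    have e2 : (goldenConj ^ (N + 1) - goldenConj ^ 0) * P +
        √5 * Q * (Lc A (N + 1) - Lc A 0) + (P : ℝ) =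
        goldenConj ^ (N + 1) * P + √5 * Q * Lc A (N + 1) := by
      rw [Lc_zero, pow_zero]; ring
    rw [e1, e2] at h4
    exact h4
  -- decomposition of `Lc`
  set r : ℝ := ∑ i ∈ range N, (a A (N - 1 - i) : ℝ) * goldenConj ^ (i + 2) with hr
  have hLc : Lc A (N + 1) = r + (a A N : ℝ) * goldenConj := by
    rw [Lc_eq A (N + 1) (N + 1) le_rfl, Finset.sum_range_succ', hr]
    congr 1
    · apply Finset.sum_congr rfl
      intro i _
      have : N + 1 - (i + 1 + 1) = N - 1 - i := by omega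
      rw [this]
    · simp
  have hrb : |r| ≤ δ := by
    rw [hr]
    refine (Finset.abs_sum_le_sum_abs _ _).trans ?_
    refine le_trans (Finset.sum_le_sum ?_) h2
    intro i _
    rw [abs_mul, abs_psi_pow]
    apply mul_le_mul_of_nonneg_left _ (abs_nonneg _)
    exact pow_le_pow_of_le_one x_pos.le x_lt_one.le (by omega)
  have hxN : x ^ (N + 1) ≤ δ := (pow_le_pow_of_le_one x_pos.le x_lt_one.le (by omega)).trans h3
  have haN1 : 1 ≤ |(a A N : ℝ)| := by
    have := Int.one_le_abs haN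
    exact_mod_cast this
  have hβ : |goldenConj ^ (N + 1) * P + √5 * Q * Lc A (N + 1)| ≤ T * (|(a A N : ℝ)| + 1) := by
    refine (abs_add_le _ _).trans ?_
    rw [abs_mul, abs_mul, abs_mul, abs_of_pos h5, abs_psi_pow, hLc]
    have h6 : |r + (a A N : ℝ) * goldenConj| ≤ |(a A N : ℝ)| + 1 := by
      refine (abs_add_le _ _).trans ?_
      rw [abs_mul, abs_psi]
      have : |(a A N : ℝ)| * x ≤ |(a A N : ℝ)| * 1 :=
        mul_le_mul_of_nonneg_left hx1.le (abs_nonneg _)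
      linarith
    have h7 : x ^ (N + 1) * |(P : ℝ)| ≤ |(P : ℝ)| * (|(a A N : ℝ)| + 1) := by
      have h8 : x ^ (N + 1) * |(P : ℝ)| ≤ 1 * |(P : ℝ)| :=
        mul_le_mul_of_nonneg_right (hxN.trans hδ1) (abs_nonneg _)
      have h9 : |(P : ℝ)| * 1 ≤ |(P : ℝ)| * (|(a A N : ℝ)| + 1) :=
        mul_le_mul_of_nonneg_left (by linarith) (abs_nonneg _)
      linarith
    have h10 : √5 * |(Q : ℝ)| * |r + (a A N : ℝ) * goldenConj| ≤ S * (|(a A N : ℝ)| + 1) :=
      mul_le_mul_of_nonneg_left h6 hSpos.le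
    rw [hT]
    linarith
  have hfac : 0 ≤ (|(a A N : ℝ)| + 1) * δ := by positivity
  by_cases hα : √5 * Q * R A (N + 1) = 0
  · rw [hα] at hcp
    have hb0 := gap_CP_zero hcp
    rw [hLc] at hb0
    have e3 : √5 * Q * ((a A N : ℝ) * goldenConj) =
        -(goldenConj ^ (N + 1) * P + √5 * Q * r) := by
      linear_combination hb0
    have h11 : S * |(a A N : ℝ)| * x ≤ T * δ := by
      have e4 : S * |(a A N : ℝ)| * x = |√5 * Q * ((a A N : ℝ) * goldenConj)| := by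
        rw [abs_mul, abs_mul, abs_mul, abs_psi, abs_of_pos h5, hS]; ring
      rw [e4, e3, abs_neg]
      refine (abs_add_le _ _).trans ?_
      rw [abs_mul, abs_mul, abs_mul, abs_of_pos h5, abs_psi_pow]
      have h12 : x ^ (N + 1) * |(P : ℝ)| ≤ δ * |(P : ℝ)| :=
        mul_le_mul_of_nonneg_right hxN (abs_nonneg _)
      have h13 : √5 * |(Q : ℝ)| * |r| ≤ S * δ := mul_le_mul_of_nonneg_left hrb hSpos.le
      rw [hT]
      linarith
    have h14 : S * x ≤ T * δ := by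
      have h15 : S * 1 * x ≤ S * |(a A N : ℝ)| * x :=
        mul_le_mul_of_nonneg_right (mul_le_mul_of_nonneg_left haN1 hSpos.le) hx.le
      linarith
    have h16 : 1 ≤ T / (S * x) * δ := by
      rw [div_mul_eq_mul_div, le_div_iff₀ (by positivity)]
      linarith
    have h17 : T / (S * x) * δ ≤ T / (S * x) * ((|(a A N : ℝ)| + 1) * δ) := by
      apply mul_le_mul_of_nonneg_left _ hC2.le
      nlinarith
    have h18 : 0 ≤ S * T * ((|(a A N : ℝ)| + 1) * δ) := by positivity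
    calc (1 : ℝ) ≤ T / (S * x) * ((|(a A N : ℝ)| + 1) * δ) := h16.trans h17
      _ ≤ (S * T + T / (S * x)) * (|(a A N : ℝ)| + 1) * δ := by
        have e5 : (S * T + T / (S * x)) * (|(a A N : ℝ)| + 1) * δ =
          S * T * ((|(a A N : ℝ)| + 1) * δ) + T / (S * x) * ((|(a A N : ℝ)| + 1) * δ) := by ring
        rw [e5]
        linarith
  · have h19 := hcp.one_le hα
    rw [abs_mul] at h19
    have h20 : |√5 * Q * R A (N + 1)| ≤ S * δ := by
      rw [abs_mul, abs_mul, abs_of_pos h5]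
      exact mul_le_mul_of_nonneg_left hRb hSpos.le
    have h21 : |√5 * Q * R A (N + 1)| *
        |goldenConj ^ (N + 1) * P + √5 * Q * Lc A (N + 1)| ≤
        (S * δ) * (T * (|(a A N : ℝ)| + 1)) :=
      mul_le_mul h20 hβ (abs_nonneg _) (by positivity)
    have h22 : 0 ≤ T / (S * x) * ((|(a A N : ℝ)| + 1) * δ) := by positivity
    calc (1 : ℝ) ≤ (S * δ) * (T * (|(a A N : ℝ)| + 1)) := h19.trans h21
      _ ≤ (S * T + T / (S * x)) * (|(a A N : ℝ)| + 1) * δ := by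
        have e5 : (S * T + T / (S * x)) * (|(a A N : ℝ)| + 1) * δ =
          (S * δ) * (T * (|(a A N : ℝ)| + 1)) + T / (S * x) * ((|(a A N : ℝ)| + 1) * δ) := by
            ring
        rw [e5]
        linarith

end Pool.Agent.Helper12.MM
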