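import Pool.Agent.Helper12.MM.Defs

/-!
PROJECT MM, module MM-01. The coefficients `Fib.a A m` as divisor sums.

* `c_odd`: `m = n l`. If `l` is even both sides are `0` (`chi` of an even number is `0`). If `l = 2 k + 1` then `(m - n) / 2 = n k`, `(-1) ^ (n k) = (-1) ^ k` (`n` odd) `= chi l`, and
  `chi m * chi n = chi n * chi l * chi n = chi l` (`theta_chi.mul`, `chi n ^ 2 = 1`). (Copy the private lemma `c_eq` of `Pool/Agent/Helper9/PF/DynFib.lean`.)
* `c_even`: if `m = n (2 k + 1)` then `(m - n) / 2 = n k` is even.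
* `a_div`: for `m = 0` both sides are `0`. `Fib.a A m` is the sum over `n` in `Icc 1 m`; the terms with `¬ n ∣ m` are `0` (`Fib.c_ne_zero_iff`); `Finset.sum_subset`.
* `abs_a_le_tau`: triangle inequality, `Fib.abs_c_le`.
-/

set_option autoImplicit false

namespace Pool.Agent.Helper12.MM

open Finset Pool.Agent.Helper9.PF

private lemma chi_two_mul_add_one (b : ℕ) : chi (2 * b + 1) = (-1) ^ b := by
  unfold chi
  rcases Nat.even_or_odd b with h | h
  · rw [h.neg_one_pow]
    obtain ⟨k, hk⟩ := h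
    rw [if_pos (by omega)]
  · rw [h.neg_one_pow]
    obtain ⟨k, hk⟩ := h
    rw [if_neg (by omega), if_pos (by omega)]

private lemma chi_even {l : ℕ} (h : Even l) : chi l = 0 := by
  unfold chi
  obtain ⟨k, hk⟩ := h
  rw [if_neg (by omega), if_neg (by omega)]

theorem c_odd {n m : ℕ} (hn : Odd n) (hnm : n ∣ m) : Pool.Agent.Helper9.Fib.c n m = chi m * chi n := by
  obtain ⟨l, rfl⟩ := hnm
  obtain ⟨a, ha⟩ := hn
  have hp0 : 0 < n := by omega
  have hpp : chi n * chi n = 1 := by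
    rw [ha, chi_two_mul_add_one, ← mul_pow]
    norm_num
  unfold Pool.Agent.Helper9.Fib.c
  rw [Nat.mul_div_cancel_left l hp0, theta_chi.mul]
  rcases Nat.even_or_odd l with h | h
  · rw [if_neg, chi_even h]
    · ring
    · rintro ⟨-, h'⟩
      exact Nat.not_odd_iff_even.2 h h'
  · rw [if_pos ⟨dvd_mul_right _ _, h⟩]
    obtain ⟨b, hb⟩ := h
    have e : (n * l - n) / 2 = n * b := by
      rw [hb, Nat.mul_add, mul_one, Nat.add_sub_cancel, mul_left_comm,
        Nat.mul_div_cancel_left _ (by norm_num)]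
    have hl : chi l = (-1) ^ b := by rw [hb, chi_two_mul_add_one]
    rw [e, pow_mul, Odd.neg_one_pow ⟨a, ha⟩, hl]
    linear_combination (-(-1) ^ b) * hpp

theorem c_even {n m : ℕ} (hn : Even n) (hnm : n ∣ m) (ho : Odd (m / n)) :
    Pool.Agent.Helper9.Fib.c n m = 1 := by
  obtain ⟨l, rfl⟩ := hnm
  rcases Nat.eq_zero_or_pos n with h0 | hp0
  · subst h0
    simp at ho
  unfold Pool.Agent.Helper9.Fib.c
  rw [Nat.mul_div_cancel_left l hp0] at ho ⊢
  rw [if_pos ⟨dvd_mul_right _ _, ho⟩]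
  obtain ⟨b, hb⟩ := ho
  have e : (n * l - n) / 2 = n * b := by
    rw [hb, Nat.mul_add, mul_one, Nat.add_sub_cancel, mul_left_comm,
      Nat.mul_div_cancel_left _ (by norm_num)]
  rw [e, pow_mul, hn.neg_one_pow, one_pow]

open Classical in
theorem a_div (A : Set ℕ) (m : ℕ) :
    Pool.Agent.Helper9.Fib.a A m =
      ∑ n ∈ m.divisors, if n ∈ A then Pool.Agent.Helper9.Fib.c n m else 0 := by
  rcases Nat.eq_zero_or_pos m with rfl | hm
  · simp [Pool.Agent.Helper9.Fib.a]
  unfold Pool.Agent.Helper9.Fib.a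
  symm
  have hsub : m.divisors ⊆ Icc 1 m := by
    intro n hn
    rw [Nat.mem_divisors] at hn
    rw [mem_Icc]
    exact ⟨Nat.pos_of_dvd_of_pos hn.1 hm, Nat.le_of_dvd hm hn.1⟩
  rw [← Finset.sum_subset hsub]
  intro n _ hn
  have : ¬ n ∣ m := by
    intro h
    exact hn (Nat.mem_divisors.2 ⟨h, hm.ne'⟩)
  split_ifs
  · unfold Pool.Agent.Helper9.Fib.c
    rw [if_neg]
    rintro ⟨h, -⟩
    exact this h
  · rfl

theorem abs_a_le_tau (A : Set ℕ) (m : ℕ) :
    |Pool.Agent.Helper9.Fib.a A m| ≤ (m.divisors.card : ℤ) := by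
  classical
  rw [a_div]
  refine (abs_sum_le_sum_abs _ _).trans ?_
  rw [Finset.card_eq_sum_ones]
  push_cast
  apply Finset.sum_le_sum
  intro n _
  split_ifs
  · unfold Pool.Agent.Helper9.Fib.c
    split_ifs
    · rw [abs_neg_one_pow]
    · simp
  · simp

end Pool.Agent.Helper12.MM
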