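import Pool.Agent.Helper9.Fib.Crit
import Pool.Agent.Helper12.MM.Cval

/-!
PROJECT MM, module MM-G8. The tails around a gap.

`x ≤ 2/3`. Forward: the terms with `i < H` are `0` (`hz1`); for `H ≤ i < N`: `|a (N+1+i)| ≤ Θ`, `∑_{i ≥ H} Θ x ^ i ≤ 3 Θ x ^ H`; for `i ≥ N`: `|a (N+1+i)| ≤ N + 1 + i ≤ 2 (i + 1)` (`abs_a_le`), and
`∑_{i ≥ N} 2 (i + 1) x ^ i = 2 x ^ N ∑_j (N + j + 1) x ^ j ≤ 2 x ^ N (3 N + 9) ≤ 20 (N + 1) x ^ N`. Backward: `i + 1 ≤ H`: `0` (`hz2`); `H ≤ i < N`: `≤ Θ x ^ (i+1)`, total `≤ 3 Θ x ^ H`.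
-/

set_option autoImplicit false

namespace Pool.Agent.Helper12.MM

open Finset Real Pool.Agent.Helper9.Fib

theorem x_le : x ≤ 2 / 3 := by
  unfold x
  have h5 : (2 : ℝ) ≤ √5 := by
    rw [Real.le_sqrt' (by norm_num)]
    norm_num
  have h1 : (3 / 2 : ℝ) ≤ goldenRatio := by
    unfold goldenRatio
    linarith
  have h2 : (goldenRatio)⁻¹ ≤ (3 / 2 : ℝ)⁻¹ := inv_anti₀ (by norm_num) h1
  have h3 : (3 / 2 : ℝ)⁻¹ = 2 / 3 := by norm_num
  rwa [h3] at h2

private theorem gt_s1 (H n : ℕ) :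
    ∑ i ∈ range n, (if H ≤ i then x ^ i else 0) ≤ 3 * x ^ H - 3 * x ^ (max n H) := by
  induction n with
  | zero => simp
  | succ n ih =>
    rw [Finset.sum_range_succ]
    rcases le_or_gt H n with h | h
    · rw [if_pos h]
      rw [max_eq_left h] at ih
      rw [max_eq_left (by omega : H ≤ n + 1), pow_succ]
      have h1 := x_le
      have h2 : 0 < x ^ n := pow_pos x_pos n
      nlinarith
    · rw [if_neg (by omega)]
      rw [max_eq_right (by omega : n ≤ H)] at ih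
      rw [max_eq_right (by omega : n + 1 ≤ H), add_zero]
      exact ih

private theorem gt_s2 (N n : ℕ) :
    ∑ i ∈ range n, (if N ≤ i then 2 * ((i : ℝ) + 1) * x ^ i else 0) ≤
      (6 * (N : ℝ) + 18) * x ^ N - (6 * ((max n N : ℕ) : ℝ) + 18) * x ^ (max n N) := by
  induction n with
  | zero => simp
  | succ n ih =>
    rw [Finset.sum_range_succ]
    rcases le_or_gt N n with h | h
    · rw [if_pos h]
      rw [max_eq_left h] at ih
      rw [max_eq_left (by omega : N ≤ n + 1), pow_succ]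
      push_cast
      have h1 := x_le
      have h2 : 0 < x ^ n := pow_pos x_pos n
      have h3 : (0 : ℝ) ≤ n := Nat.cast_nonneg n
      have h4 : x ^ n * x ≤ x ^ n * (2 / 3) := mul_le_mul_of_nonneg_left h1 h2.le
      have h5 : (6 * ((n : ℝ) + 1) + 18) * (x ^ n * x) ≤
          (6 * ((n : ℝ) + 1) + 18) * (x ^ n * (2 / 3)) := mul_le_mul_of_nonneg_left h4 (by positivity)
      nlinarith
    · rw [if_neg (by omega)]
      rw [max_eq_right (by omega : n ≤ N)] at ih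
      rw [max_eq_right (by omega : n + 1 ≤ N), add_zero]
      exact ih

private theorem gt_s1' (H n : ℕ) : ∑ i ∈ range n, (if H ≤ i then x ^ i else 0) ≤ 3 * x ^ H := by
  have h1 := gt_s1 H n
  have h2 : 0 < x ^ (max n H) := pow_pos x_pos _
  linarith

private theorem gt_s2' (N n : ℕ) :
    ∑ i ∈ range n, (if N ≤ i then 2 * ((i : ℝ) + 1) * x ^ i else 0) ≤ 20 * ((N : ℝ) + 1) * x ^ N := by
  have h1 := gt_s2 N n
  have h2 : 0 ≤ (6 * ((max n N : ℕ) : ℝ) + 18) * x ^ (max n N) := by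
    have := x_pos
    positivity
  have h3 : 0 < x ^ N := pow_pos x_pos _
  have h4 : (6 * (N : ℝ) + 18) * x ^ N ≤ 20 * ((N : ℝ) + 1) * x ^ N := by
    apply mul_le_mul_of_nonneg_right _ h3.le
    have : (0 : ℝ) ≤ N := Nat.cast_nonneg N
    linarith
  linarith

theorem tail_fw (A : Set ℕ) (N H : ℕ) (Θ : ℝ) (hΘ : 0 ≤ Θ) (hHN : H ≤ N)
    (hz1 : ∀ i < H, a A (N + 1 + i) = 0) (hb : ∀ n, n ≤ 2 * N → |(a A n : ℝ)| ≤ Θ) (n : ℕ) :
    ∑ i ∈ range n, |(a A (N + 1 + i) : ℝ)| * x ^ i ≤ 3 * Θ * x ^ H + 20 * (N + 1) * x ^ N := by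
  have hterm : ∀ i ∈ range n, |(a A (N + 1 + i) : ℝ)| * x ^ i ≤
      Θ * (if H ≤ i then x ^ i else 0) + (if N ≤ i then 2 * ((i : ℝ) + 1) * x ^ i else 0) := by
    intro i _
    have hx : 0 < x ^ i := pow_pos x_pos i
    rcases lt_or_ge i H with h1 | h1
    · rw [hz1 i h1, if_neg (by omega), if_neg (by omega)]
      simp
    · rcases lt_or_ge i N with h2 | h2
      · rw [if_pos h1, if_neg (by omega), add_zero]
        exact mul_le_mul_of_nonneg_right (hb _ (by omega)) hx.le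
      · rw [if_pos h1, if_pos h2]
        have h3 : |(a A (N + 1 + i) : ℝ)| ≤ 2 * ((i : ℝ) + 1) := by
          have h4 := abs_a_le A (N + 1 + i)
          have h5 : |(a A (N + 1 + i) : ℝ)| ≤ ((N + 1 + i : ℕ) : ℝ) := by
            exact_mod_cast h4
          have h6 : (N : ℝ) ≤ i := by exact_mod_cast h2
          push_cast at h5
          linarith
        have h7 := mul_le_mul_of_nonneg_right h3 hx.le
        have h8 : 0 ≤ Θ * x ^ i := mul_nonneg hΘ hx.le
        linarith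
  refine (Finset.sum_le_sum hterm).trans ?_
  rw [Finset.sum_add_distrib, ← Finset.mul_sum]
  have h1 := mul_le_mul_of_nonneg_left (gt_s1' H n) hΘ
  have h2 := gt_s2' N n
  linarith

theorem tail_bw (A : Set ℕ) (N H : ℕ) (Θ : ℝ) (hΘ : 0 ≤ Θ) (hHN : H ≤ N)
    (hz2 : ∀ i < H, a A (N - 1 - i) = 0) (hb : ∀ n, n ≤ 2 * N → |(a A n : ℝ)| ≤ Θ) :
    ∑ i ∈ range N, |(a A (N - 1 - i) : ℝ)| * x ^ (i + 1) ≤ 3 * Θ * x ^ H := by
  have hterm : ∀ i ∈ range N, |(a A (N - 1 - i) : ℝ)| * x ^ (i + 1) ≤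
      Θ * (if H ≤ i then x ^ i else 0) := by
    intro i _
    have hx : 0 < x ^ i := pow_pos x_pos i
    rcases lt_or_ge i H with h1 | h1
    · rw [hz2 i h1, if_neg (by omega)]
      simp
    · rw [if_pos h1]
      have h2 : x ^ (i + 1) ≤ x ^ i := by
        rw [pow_succ]
        have := x_lt_one
        nlinarith
      exact mul_le_mul (hb _ (by omega)) h2 (pow_pos x_pos _).le hΘ
  refine (Finset.sum_le_sum hterm).trans ?_
  rw [← Finset.mul_sum]
  have h1 := mul_le_mul_of_nonneg_left (gt_s1' H N) hΘ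
  linarith

end Pool.Agent.Helper12.MM
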