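import Pool.Agent.Helper12.MM.GTau
import Pool.Agent.Helper12.MM.GTail

/-!
PROJECT MM, module MM-G10. Numerics of case G.

`n ≤ 2 N ≤ 10 s0 Mt ^ 4`, `Mt = K0 ∏_{p ∈ R} p ^ 2 ≤ K0 (16 H^2) ^ (2 |R|)`, `|R| ≤ (2 H + 1)/2000 + C1`: `log_2 (2 N) ≤ 4 * 2 |R| (4 + 2 log_2 H) + C2 ≤ (16/1000) H log_2 H + o (H log H)`. `tau_pow` with `t = ⌊(log_2 H)/2⌋` (so `2 ^ t ≤ √H`, `t ≥ (log_2 H)/2 - 1`):
`log_2 (tau n) ≤ (log_2 n)/t + 2 ^ t log_2 t ≤ (32/1000) H + o (H) ≤ H/10` for large `H` (and `tau 0 = 0`).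
`g_num2`: `x ≤ 2/3`: `2 ^ (H/10)` squared times `x ^ H` tends to `0`; `(N + 1) x ^ N` times `2 ^ (H/10)` too, since `N ≥ H`: `(N+1) (2/3) ^ N 2 ^ (N/10 + 1)` is small for `N ≥ H` large.
-/

set_option autoImplicit false

namespace Pool.Agent.Helper12.MM

open Finset Filter Pool.Agent.Helper9.Fib

lemma g_num_aux1 (t : ℕ) (ht : 15 ≤ t) : 100 * t ^ 2 ≤ 2 ^ t := by
  induction t, ht using Nat.le_induction with
  | base => norm_num
  | succ n hn ih =>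
    rw [pow_succ 2 n]
    nlinarith

lemma g_num_aux2 (s0 K0 : ℕ) : ∃ c : ℕ, ∀ (H : ℕ) (R : Finset ℕ) (N : ℕ),
    1 ≤ H → (∀ p ∈ R, p ≤ 16 * H ^ 2) →
    N ≤ s0 * (5 * (K0 * (∏ p ∈ R, p ^ 2)) ^ 4) →
    2 * N ≤ 2 ^ (c + 16 * (Nat.log 2 H + 3) * R.card) := by
  obtain ⟨c, hc⟩ : ∃ c : ℕ, 10 * s0 * K0 ^ 4 ≤ 2 ^ c := ⟨10 * s0 * K0 ^ 4, Nat.lt_two_pow_self.le⟩
  refine ⟨c, ?_⟩
  intro H R N hH hp hN
  set l := Nat.log 2 H with hl
  have h1 : H < 2 ^ (l + 1) := Nat.lt_pow_succ_log_self (by norm_num) H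
  have h2 : 16 * H ^ 2 ≤ 2 ^ (2 * (l + 3)) := by
    have h3 : 4 * H ≤ 2 ^ (l + 3) := by
      calc 4 * H ≤ 4 * 2 ^ (l + 1) := Nat.mul_le_mul_left _ h1.le
        _ = 2 ^ (l + 3) := by ring
    calc 16 * H ^ 2 = (4 * H) ^ 2 := by ring
      _ ≤ (2 ^ (l + 3)) ^ 2 := Nat.pow_le_pow_left h3 2
      _ = 2 ^ (2 * (l + 3)) := by rw [← pow_mul, mul_comm]
  have h4 : ∏ p ∈ R, p ^ 2 ≤ 2 ^ (4 * (l + 3) * R.card) := by
    calc ∏ p ∈ R, p ^ 2 ≤ ∏ _p ∈ R, 2 ^ (4 * (l + 3)) := by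
          apply Finset.prod_le_prod'
          intro p hpR
          calc p ^ 2 ≤ (2 ^ (2 * (l + 3))) ^ 2 := Nat.pow_le_pow_left ((hp p hpR).trans h2) 2
            _ = 2 ^ (4 * (l + 3)) := by rw [← pow_mul]; congr 1; ring
      _ = 2 ^ (4 * (l + 3) * R.card) := by
          rw [Finset.prod_const, ← pow_mul]
  calc 2 * N ≤ 2 * (s0 * (5 * (K0 * (∏ p ∈ R, p ^ 2)) ^ 4)) := Nat.mul_le_mul_left _ hN
    _ = (10 * s0 * K0 ^ 4) * (∏ p ∈ R, p ^ 2) ^ 4 := by ring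
    _ ≤ 2 ^ c * (2 ^ (4 * (l + 3) * R.card)) ^ 4 :=
        Nat.mul_le_mul hc (Nat.pow_le_pow_left h4 4)
    _ = 2 ^ (c + 16 * (l + 3) * R.card) := by
        rw [← pow_mul, ← pow_add]; congr 1; ring

theorem g_num (s0 K0 C1 : ℕ) : ∀ᶠ H : ℕ in atTop, ∀ (R : Finset ℕ) (N : ℕ),
    2000 * R.card ≤ 2 * H + 1 + 2000 * C1 → (∀ p ∈ R, p ≤ 16 * H ^ 2) →
    N ≤ s0 * (5 * (K0 * (∏ p ∈ R, p ^ 2)) ^ 4) →
    ∀ n ≤ 2 * N, (n.divisors.card : ℝ) ≤ 2 ^ (H / 10) := by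
  obtain ⟨c, hc⟩ := g_num_aux2 s0 K0
  filter_upwards [eventually_ge_atTop (2 ^ 40), eventually_ge_atTop (2000 * (C1 + 1)),
    eventually_ge_atTop (1000 * (c + 1))] with H hH1 hH2 hH3 R N hR hp hN n hn
  have hHpos : 1 ≤ H := le_trans (by norm_num) hH1
  have h2N := hc H R N hHpos hp hN
  set l := Nat.log 2 H with hl
  have hl40 : 40 ≤ l := by
    rw [hl]
    exact Nat.le_log_of_pow_le (by norm_num) hH1
  have hlH : 2 ^ l ≤ H := Nat.pow_log_le_self 2 (by omega)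
  set t := l / 2 with ht
  have ht1 : 20 ≤ t := by omega
  have htl : 2 * t ≤ l := by omega
  have htl2 : l ≤ 2 * t + 1 := by omega
  have hn2 : n ≤ 2 ^ (c + 16 * (l + 3) * R.card) := hn.trans h2N
  rcases Nat.eq_zero_or_pos n with h0 | h0
  · subst h0
    simp
  have hτ := tau_pow n t h0 (by omega)
  by_contra hcon
  have hcon' : 2 ^ (H / 10) < n.divisors.card := by
    rw [not_le] at hcon
    exact_mod_cast hcon
  have h5 : (2 ^ (H / 10)) ^ t < n.divisors.card ^ t := Nat.pow_lt_pow_left hcon' (by omega)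
  have h6 : t ^ (t * 2 ^ t) ≤ 2 ^ (t * (t * 2 ^ t)) := by
    rw [pow_mul 2 t]
    exact Nat.pow_le_pow_left Nat.lt_two_pow_self.le _
  have h7 : n * t ^ (t * 2 ^ t) ≤ 2 ^ (c + 16 * (l + 3) * R.card + t * (t * 2 ^ t)) := by
    rw [pow_add 2 (c + 16 * (l + 3) * R.card)]
    exact Nat.mul_le_mul hn2 h6
  have h8 : (2 : ℕ) ^ (H / 10 * t) < 2 ^ (c + 16 * (l + 3) * R.card + t * (t * 2 ^ t)) := by
    rw [pow_mul]
    exact lt_of_lt_of_le h5 (hτ.trans h7)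
  have h9 : H / 10 * t < c + 16 * (l + 3) * R.card + t * (t * 2 ^ t) :=
    (Nat.pow_lt_pow_iff_right (by norm_num)).1 h8
  -- the contradiction
  have h10 : 100 * (t * (t * 2 ^ t)) ≤ H := by
    have h11 := g_num_aux1 t (by omega)
    calc 100 * (t * (t * 2 ^ t)) = (100 * t ^ 2) * 2 ^ t := by ring
      _ ≤ 2 ^ t * 2 ^ t := Nat.mul_le_mul_right _ h11
      _ = 2 ^ (2 * t) := by rw [← pow_add]; congr 1; ring
      _ ≤ 2 ^ l := Nat.pow_le_pow_right (by norm_num) htl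
      _ ≤ H := hlH
  have hHd : H ≤ 10 * (H / 10) + 9 := by omega
  have h9r : ((H / 10 : ℕ) : ℝ) * t < c + 16 * (l + 3) * R.card + ((t * (t * 2 ^ t) : ℕ) : ℝ) := by
    exact_mod_cast h9
  have h10r : 100 * ((t * (t * 2 ^ t) : ℕ) : ℝ) ≤ H := by exact_mod_cast h10
  have hHdr : (H : ℝ) ≤ 10 * ((H / 10 : ℕ) : ℝ) + 9 := by exact_mod_cast hHd
  have hRr : 2000 * (R.card : ℝ) ≤ 2 * H + 1 + 2000 * C1 := by exact_mod_cast hR
  have hH2r : 2000 * ((C1 : ℝ) + 1) ≤ H := by exact_mod_cast hH2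
  have hH3r : 1000 * ((c : ℝ) + 1) ≤ H := by exact_mod_cast hH3
  have hl40r : (40 : ℝ) ≤ l := by exact_mod_cast hl40
  have htlr : (l : ℝ) ≤ 2 * t + 1 := by exact_mod_cast htl2
  have hH1r : (100000 : ℝ) ≤ H := by
    have : 100000 ≤ H := le_trans (by norm_num) hH1
    exact_mod_cast this
  set q : ℝ := ((H / 10 : ℕ) : ℝ) with hq
  set e : ℝ := ((t * (t * 2 ^ t) : ℕ) : ℝ) with he
  have hA : ((H : ℝ) - 9) / 10 * (((l : ℝ) - 1) / 2) ≤ q * t := by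
    apply mul_le_mul (by linarith) (by linarith) (by linarith) (by linarith)
  have hB : ((l : ℝ) + 3) * R.card ≤ ((l : ℝ) + 3) * (3 * H / 2000) := by
    apply mul_le_mul_of_nonneg_left (by linarith) (by linarith)
  have hC1 : (40 : ℝ) * H ≤ l * H := mul_le_mul_of_nonneg_right hl40r (by linarith)
  have hC2 : (l : ℝ) * 100000 ≤ l * H := mul_le_mul_of_nonneg_left hH1r (by linarith)
  nlinarith

theorem g_num2 (C : ℝ) (hC : 0 < C) : ∀ᶠ H : ℕ in atTop, ∀ N : ℕ, H ≤ N →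
    C * ((2 : ℝ) ^ (H / 10) + 1) *
      (3 * (2 : ℝ) ^ (H / 10) * x ^ H + 20 * (N + 1) * x ^ N + x ^ N) < 1 := by
  have hx0 := x_pos
  have hx1 := x_lt_one
  have hx2 : x ^ 10 ≤ 1 / 40 := by
    calc x ^ 10 ≤ (2 / 3 : ℝ) ^ 10 := pow_le_pow_left₀ hx0.le x_le 10
      _ ≤ 1 / 40 := by norm_num
  have hlim : Tendsto (fun m : ℕ => 446 * C * (1 / 5 : ℝ) ^ m) atTop (nhds (446 * C * 0)) :=
    (tendsto_pow_atTop_nhds_zero_of_lt_one (by norm_num) (by norm_num)).const_mul _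
  rw [mul_zero] at hlim
  have hev : ∀ᶠ m : ℕ in atTop, 446 * C * (1 / 5 : ℝ) ^ m < 1 :=
    hlim.eventually (gt_mem_nhds one_pos)
  obtain ⟨m0, hm0⟩ := eventually_atTop.1 hev
  filter_upwards [eventually_ge_atTop (10 * m0)] with H hH N hN
  have hm : m0 ≤ H / 10 := by omega
  have h1 := hm0 (H / 10) hm
  set m := H / 10 with hmdef
  set k := N / 10 with hk
  have hmk : m ≤ k := by omega
  have hxH : x ^ H ≤ (1 / 40 : ℝ) ^ m := by
    calc x ^ H ≤ x ^ (10 * m) := pow_le_pow_of_le_one hx0.le hx1.le (by omega)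
      _ = (x ^ 10) ^ m := pow_mul _ _ _
      _ ≤ (1 / 40 : ℝ) ^ m := pow_le_pow_left₀ (by positivity) hx2 m
  have hxN : x ^ N ≤ (1 / 40 : ℝ) ^ k := by
    calc x ^ N ≤ x ^ (10 * k) := pow_le_pow_of_le_one hx0.le hx1.le (by omega)
      _ = (x ^ 10) ^ k := pow_mul _ _ _
      _ ≤ (1 / 40 : ℝ) ^ k := pow_le_pow_left₀ (by positivity) hx2 k
  have hNk : (N : ℝ) ≤ 10 * k + 9 := by
    have : N ≤ 10 * k + 9 := by omega
    exact_mod_cast this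
  have hk2 : (k : ℝ) + 1 ≤ 2 ^ k := by
    have : k + 1 ≤ 2 ^ k := Nat.lt_two_pow_self
    exact_mod_cast this
  have h2m : (1 : ℝ) ≤ 2 ^ m := one_le_pow₀ (by norm_num)
  have h2mk : (2 : ℝ) ^ m ≤ 2 ^ k := pow_le_pow_right₀ (by norm_num) hmk
  -- first term
  have hT1 : (2 : ℝ) ^ m * (2 ^ m * x ^ H) ≤ (1 / 5) ^ m := by
    calc (2 : ℝ) ^ m * (2 ^ m * x ^ H) ≤ 2 ^ m * (2 ^ m * (1 / 40) ^ m) := by gcongr
      _ = (1 / 10 : ℝ) ^ m := by rw [← mul_pow, ← mul_pow]; norm_num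
      _ ≤ (1 / 5) ^ m := pow_le_pow_left₀ (by norm_num) (by norm_num) m
  -- second term
  have hT2 : (2 : ℝ) ^ m * (20 * (N + 1) * x ^ N + x ^ N) ≤ 220 * (1 / 5) ^ m := by
    have h3 : 20 * ((N : ℝ) + 1) * x ^ N + x ^ N ≤ 220 * ((k + 1) * (1 / 40) ^ k) := by
      have h4 : 20 * ((N : ℝ) + 1) + 1 ≤ 220 * (k + 1) := by
        have := Nat.cast_nonneg (α := ℝ) k
        linarith
      have h5 : (20 * ((N : ℝ) + 1) + 1) * x ^ N ≤ (220 * (k + 1)) * (1 / 40) ^ k := by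
        apply mul_le_mul h4 hxN (by positivity) (by positivity)
      linarith
    calc (2 : ℝ) ^ m * (20 * (N + 1) * x ^ N + x ^ N)
        ≤ 2 ^ k * (220 * ((k + 1) * (1 / 40) ^ k)) := by
          apply mul_le_mul h2mk h3 (by positivity) (by positivity)
      _ ≤ 2 ^ k * (220 * (2 ^ k * (1 / 40) ^ k)) := by gcongr
      _ = 220 * (1 / 10 : ℝ) ^ k := by
          have : (2 : ℝ) ^ k * (220 * (2 ^ k * (1 / 40) ^ k)) =
            220 * (2 ^ k * (2 ^ k * (1 / 40) ^ k)) := by ring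
          rw [this, ← mul_pow, ← mul_pow]; norm_num
      _ ≤ 220 * (1 / 5) ^ k := by
          apply mul_le_mul_of_nonneg_left _ (by norm_num)
          exact pow_le_pow_left₀ (by norm_num) (by norm_num) k
      _ ≤ 220 * (1 / 5) ^ m := by
          apply mul_le_mul_of_nonneg_left _ (by norm_num)
          exact pow_le_pow_of_le_one (by norm_num) (by norm_num) hmk
  have hpos : 0 ≤ 3 * (2 : ℝ) ^ m * x ^ H + 20 * (N + 1) * x ^ N + x ^ N := by positivity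
  calc C * ((2 : ℝ) ^ m + 1) * (3 * (2 : ℝ) ^ m * x ^ H + 20 * (N + 1) * x ^ N + x ^ N)
      ≤ C * ((2 : ℝ) ^ m + 2 ^ m) *
        (3 * (2 : ℝ) ^ m * x ^ H + 20 * (N + 1) * x ^ N + x ^ N) := by
        apply mul_le_mul_of_nonneg_right _ hpos
        apply mul_le_mul_of_nonneg_left (by linarith) hC.le
    _ = C * (6 * (2 ^ m * (2 ^ m * x ^ H)) +
        2 * (2 ^ m * (20 * (N + 1) * x ^ N + x ^ N))) := by ring
    _ ≤ C * (6 * (1 / 5) ^ m + 2 * (220 * (1 / 5) ^ m)) := by gcongr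
    _ = 446 * C * (1 / 5) ^ m := by ring
    _ < 1 := h1

end Pool.Agent.Helper12.MM
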