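import Mathlib

/-!
PROJECT MM, module MM-G3. A finite subset with a small product.

Let `S_n = {p ∈ P3 : p ≤ n}` (a finite set). `(p ^ 2 - (p - 1))/p ^ 2 = 1 - 1/p + 1/p ^ 2 ≤ exp (- 1/p + 1/p ^ 2) ≤ exp (- 1/(2p))` (`p ≥ 2`). The product over `S_n` is at most `exp (- (1/2) ∑_{S_n} 1/p)`, and the sum is unbounded in `n` (not summable, nonnegative terms).
The elements of `P3` are primes.
-/

set_option autoImplicit false

namespace Pool.Agent.Helper12.MM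

open Finset

open Classical in
theorem exists_S (P3 : Set ℕ) (hP : ∀ p ∈ P3, p.Prime)
    (hns : ¬ Summable (fun p : ℕ => if p ∈ P3 then 1 / (p : ℝ) else 0)) (ε : ℝ) (hε : 0 < ε) :
    ∃ S : Finset ℕ, (∀ p ∈ S, p ∈ P3) ∧
      ((∏ p ∈ S, (p ^ 2 - (p - 1)) : ℕ) : ℝ) ≤ ε * ((∏ p ∈ S, p ^ 2 : ℕ) : ℝ) := by
  have hnn : ∀ n : ℕ, 0 ≤ (if n ∈ P3 then 1 / (n : ℝ) else 0) := by
    intro n
    split_ifs
    · positivity
    · exact le_refl 0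
  have htend := (not_summable_iff_tendsto_nat_atTop_of_nonneg hnn).1 hns
  obtain ⟨n, hn⟩ := (htend.eventually_ge_atTop (2 * (-Real.log ε))).exists
  refine ⟨(range n).filter (fun p => p ∈ P3), fun p hp => (mem_filter.1 hp).2, ?_⟩
  set S := (range n).filter (fun p => p ∈ P3) with hS
  have hsum : 2 * (-Real.log ε) ≤ ∑ p ∈ S, 1 / (p : ℝ) := by
    rw [hS, sum_filter]
    exact hn
  rw [Nat.cast_prod, Nat.cast_prod]
  have hfac : ∀ p ∈ S, (((p ^ 2 - (p - 1) : ℕ)) : ℝ) ≤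
      ((p ^ 2 : ℕ) : ℝ) * Real.exp (-(1 / 2) * (1 / (p : ℝ))) := by
    intro p hp
    have hpp : p.Prime := hP p (mem_filter.1 hp).2
    have hp2 : 2 ≤ p := hpp.two_le
    have h1 : p - 1 ≤ p ^ 2 := by
      calc p - 1 ≤ p := Nat.sub_le _ _
        _ ≤ p ^ 2 := Nat.le_self_pow (by norm_num) p
    have hp0 : (0 : ℝ) < p := by positivity
    have hp2' : (2 : ℝ) ≤ p := by exact_mod_cast hp2
    rw [Nat.cast_sub h1, Nat.cast_sub (by omega : 1 ≤ p)]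
    push_cast
    have h2 : 1 - (1 / 2) * (1 / (p : ℝ)) ≤ Real.exp (-(1 / 2) * (1 / (p : ℝ))) := by
      have := Real.add_one_le_exp (-(1 / 2) * (1 / (p : ℝ)))
      linarith
    have h3 : (p : ℝ) ^ 2 - ((p : ℝ) - 1) ≤ (p : ℝ) ^ 2 * (1 - (1 / 2) * (1 / (p : ℝ))) := by
      have h4 : (p : ℝ) ^ 2 * (1 - (1 / 2) * (1 / (p : ℝ))) = (p : ℝ) ^ 2 - (p : ℝ) / 2 := by
        field_simp
      rw [h4]
      linarith
    calc (p : ℝ) ^ 2 - ((p : ℝ) - 1) ≤ (p : ℝ) ^ 2 * (1 - (1 / 2) * (1 / (p : ℝ))) := h3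
      _ ≤ (p : ℝ) ^ 2 * Real.exp (-(1 / 2) * (1 / (p : ℝ))) :=
        mul_le_mul_of_nonneg_left h2 (by positivity)
  calc ∏ p ∈ S, (((p ^ 2 - (p - 1) : ℕ)) : ℝ)
      ≤ ∏ p ∈ S, ((p ^ 2 : ℕ) : ℝ) * Real.exp (-(1 / 2) * (1 / (p : ℝ))) :=
        prod_le_prod (fun p _ => Nat.cast_nonneg _) hfac
    _ = (∏ p ∈ S, ((p ^ 2 : ℕ) : ℝ)) * Real.exp (-(1 / 2) * ∑ p ∈ S, (1 / (p : ℝ))) := by
        rw [prod_mul_distrib, ← Real.exp_sum, ← mul_sum]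
    _ ≤ (∏ p ∈ S, ((p ^ 2 : ℕ) : ℝ)) * ε := by
        apply mul_le_mul_of_nonneg_left _ (prod_nonneg fun p _ => Nat.cast_nonneg _)
        calc Real.exp (-(1 / 2) * ∑ p ∈ S, (1 / (p : ℝ))) ≤ Real.exp (Real.log ε) := by
              apply Real.exp_le_exp.2
              linarith
          _ = ε := Real.exp_log hε
    _ = ε * ∏ p ∈ S, ((p ^ 2 : ℕ) : ℝ) := mul_comm _ _

end Pool.Agent.Helper12.MM
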