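import Pool.Agent.Helper12.MM.GSq

/-!
PROJECT MM, module MM-G6. Coprime `u`, `v` with `u ^ 2 + v ^ 2` in prescribed classes.

`Mt = K0 ∏_{p ∈ R} p ^ 2`; the factors are pairwise coprime. By the Chinese remainder theorem (`Nat.chineseRemainderOfFinset`) and `sq_sum` there are `u₀`, `v₀` with `u₀ ≡ 1`, `v₀ ≡ 0` modulo `K0` and `u₀ ≡ a_p`, `v₀ ≡ b_p` modulo `p ^ 2`, `a_p ^ 2 + b_p ^ 2 ≡ x p`, `p ∤ a_p`.
`u₀` is coprime to `Mt`. Let `v ∈ [1, Mt]`, `v ≡ v₀` modulo `Mt`. There is `u ≡ u₀` modulo `Mt` coprime to `Mt v` (`ZMod.unitsMap_surjective` for `Mt ∣ Mt v`; or choose `u ≡ u₀` modulo `Mt` and `u ≡ 1` modulo the largest divisor of `v` coprime to `Mt`), and we may take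
`Mt v ≤ u < 2 Mt v`. Then `u, v` are coprime, `u ^ 2 + v ^ 2 ≤ 4 Mt ^ 4 + Mt ^ 2 ≤ 5 Mt ^ 4`.
-/

set_option autoImplicit false

namespace Pool.Agent.Helper12.MM

open Finset

theorem exists_uv (K0 : ℕ) (hK0 : 0 < K0) (R : Finset ℕ) (hR : ∀ p ∈ R, p.Prime ∧ p ≠ 2 ∧ ¬ p ∣ K0)
    (x : ℕ → ℕ) (hx : ∀ p ∈ R, ¬ p ∣ x p) :
    ∃ u v : ℕ, u.Coprime v ∧ u ^ 2 + v ^ 2 ≡ 1 [MOD K0] ∧
      (∀ p ∈ R, u ^ 2 + v ^ 2 ≡ x p [MOD p ^ 2]) ∧ K0 * (∏ p ∈ R, p ^ 2) ≤ u ∧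
      u ^ 2 + v ^ 2 ≤ 5 * (K0 * (∏ p ∈ R, p ^ 2)) ^ 4 := by
  classical
  have hab : ∀ p ∈ R, ∃ a b : ℕ, ¬ p ∣ a ∧ a ^ 2 + b ^ 2 ≡ x p [MOD p ^ 2] := fun p hp =>
    sq_sum p (hR p hp).1 (hR p hp).2.1 (x p) (hx p hp)
  choose! a b ha hb using hab
  set Q := ∏ p ∈ R, p ^ 2 with hQ
  have hQpos : 0 < Q := Finset.prod_pos fun p hp => pow_pos (hR p hp).1.pos 2
  have hcop : K0.Coprime Q := Nat.Coprime.prod_right fun p hp =>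
    Nat.Coprime.pow_right 2 (((Nat.Prime.coprime_iff_not_dvd (hR p hp).1).2 (hR p hp).2.2).symm)
  have hpair : Set.Pairwise (R : Set ℕ) (Function.onFun Nat.Coprime fun p => p ^ 2) := by
    intro p hp q hq hpq
    exact Nat.Coprime.pow 2 2 ((Nat.coprime_primes (hR p hp).1 (hR q hq).1).2 hpq)
  have hs : ∀ p ∈ R, p ^ 2 ≠ 0 := fun p hp => pow_ne_zero 2 (hR p hp).1.ne_zero
  obtain ⟨u1, hu1⟩ := Nat.chineseRemainderOfFinset a (fun p => p ^ 2) R hs hpair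
  obtain ⟨v1, hv1⟩ := Nat.chineseRemainderOfFinset b (fun p => p ^ 2) R hs hpair
  obtain ⟨u0, hu0K, hu0Q⟩ := Nat.chineseRemainder hcop 1 u1
  obtain ⟨v0, hv0K, hv0Q⟩ := Nat.chineseRemainder hcop 0 v1
  have hdvd : ∀ p ∈ R, p ^ 2 ∣ Q := fun p hp => Finset.dvd_prod_of_mem _ hp
  have hu0p : ∀ p ∈ R, u0 ≡ a p [MOD p ^ 2] := fun p hp => (hu0Q.of_dvd (hdvd p hp)).trans (hu1 p hp)
  have hv0p : ∀ p ∈ R, v0 ≡ b p [MOD p ^ 2] := fun p hp => (hv0Q.of_dvd (hdvd p hp)).trans (hv1 p hp)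
  set Mt := K0 * Q with hMt
  have hMpos : 0 < Mt := Nat.mul_pos hK0 hQpos
  have hu0cop : u0.Coprime Mt := by
    rw [hMt]
    refine Nat.Coprime.mul_right ?_ ?_
    · have h1 : Nat.gcd u0 K0 = Nat.gcd 1 K0 := Nat.ModEq.gcd_eq hu0K
      unfold Nat.Coprime
      rw [h1]
      simp
    · refine Nat.Coprime.prod_right fun p hp => Nat.Coprime.pow_right 2 ?_
      refine ((Nat.Prime.coprime_iff_not_dvd (hR p hp).1).2 ?_).symm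
      intro h1
      exact ha p hp (((hu0p p hp).of_dvd (dvd_pow_self p two_ne_zero)).dvd_iff (dvd_refl p) |>.1 h1)
  obtain ⟨v, hvpos, hvle, hv⟩ : ∃ v, 0 < v ∧ v ≤ Mt ∧ v ≡ v0 [MOD Mt] := by
    rcases Nat.eq_zero_or_pos (v0 % Mt) with h0 | h0
    · refine ⟨Mt, hMpos, le_rfl, ?_⟩
      unfold Nat.ModEq
      rw [h0, Nat.mod_self]
    · exact ⟨v0 % Mt, h0, (Nat.mod_lt _ hMpos).le, Nat.mod_modEq _ _⟩
  have hMv : 0 < Mt * v := Nat.mul_pos hMpos hvpos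
  haveI : NeZero (Mt * v) := ⟨hMv.ne'⟩
  obtain ⟨w, hw⟩ := ZMod.unitsMap_surjective (dvd_mul_right Mt v) (ZMod.unitOfCoprime u0 hu0cop)
  set u2 := (w : ZMod (Mt * v)).val with hu2
  have hu2lt : u2 < Mt * v := ZMod.val_lt _
  have hu2cop : u2.Coprime (Mt * v) := ZMod.val_coe_unit_coprime w
  have hu2mod : u2 ≡ u0 [MOD Mt] := by
    rw [← ZMod.natCast_eq_natCast_iff]
    have h1 : ((ZMod.unitsMap (dvd_mul_right Mt v) w : (ZMod Mt)ˣ) : ZMod Mt) = (u0 : ZMod Mt) := by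
      rw [hw, ZMod.coe_unitOfCoprime]
    rw [ZMod.unitsMap_val] at h1
    rw [← h1, hu2, ZMod.natCast_val]
  have hu : u2 + Mt * v ≡ u0 [MOD Mt] := by
    have h1 : u2 + Mt * v ≡ u2 + 0 [MOD Mt] :=
      Nat.ModEq.add_left u2 ((Nat.modEq_zero_iff_dvd).2 (dvd_mul_right Mt v))
    exact h1.trans hu2mod
  have hsum : (u2 + Mt * v) ^ 2 + v ^ 2 ≡ u0 ^ 2 + v0 ^ 2 [MOD Mt] := (hu.pow 2).add (hv.pow 2)
  refine ⟨u2 + Mt * v, v, ?_, ?_, ?_, ?_, ?_⟩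
  · have h1 : (u2 + Mt * v).Coprime (Mt * v) := by
      rw [Nat.coprime_add_self_left]
      exact hu2cop
    exact h1.coprime_dvd_right (dvd_mul_left v Mt)
  · have h1 := hsum.of_dvd (dvd_mul_right K0 Q)
    exact h1.trans ((hu0K.pow 2).add (hv0K.pow 2))
  · intro p hp
    have h1 := hsum.of_dvd ((hdvd p hp).trans (dvd_mul_left Q K0))
    exact (h1.trans (((hu0p p hp).pow 2).add ((hv0p p hp).pow 2))).trans (hb p hp)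
  · have : Mt * 1 ≤ Mt * v := Nat.mul_le_mul_left _ hvpos
    omega
  · have h1 : Mt * v ≤ Mt * Mt := Nat.mul_le_mul_left _ hvle
    have h2 : u2 + Mt * v ≤ 2 * (Mt * Mt) := by omega
    have h3 : (u2 + Mt * v) ^ 2 ≤ (2 * (Mt * Mt)) ^ 2 := Nat.pow_le_pow_left h2 2
    have h4 : v ^ 2 ≤ Mt ^ 2 := Nat.pow_le_pow_left hvle 2
    have h5 : Mt ^ 2 ≤ Mt ^ 4 := Nat.pow_le_pow_right hMpos (by norm_num)
    calc (u2 + Mt * v) ^ 2 + v ^ 2 ≤ (2 * (Mt * Mt)) ^ 2 + Mt ^ 4 := by omega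
      _ = 5 * Mt ^ 4 := by ring

end Pool.Agent.Helper12.MM
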