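import Pool.Agent.Helper12.MM.XMul

/-!
PROJECT MM, module MM-04. Values of `XX`.

* `XX_parity`: definition.
* `abs_XX_le`: triangle inequality; `|chi| ≤ 1` (`theta_chi.bd`).
* `XX_sqf`: induction over the prime factors (e.g. `Nat.recOnPosPrimePosCoprime`, or induction on `r` removing a prime factor `p`: `r = p * r'`, `p.Coprime r'` as `r` is squarefree) with `XX_mul`, `XX_prime`:
  the factor of `p` is `2` or `1` (`u` even), or (`u` odd) `chi p + 1 ∈ {0, 2}` for `p ∈ B` and `chi p = ± 1` for `p ∉ B`; `om B (p r') = om B r' + [p ∈ B]`.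
* `XX_even_ne`: `gB B r ≥ 1` since `1 ∈ B` divides `r`.
* `XX_odd_ne`: the same induction: no factor is `0`, as `chi p + 1 = 2` for `p ∈ B`, `p % 4 = 1` (`p` is odd and `p % 4 ≠ 3`).
* `XX_one_mod`: `chi n = 1` for all `n ∣ r` (all prime factors of `n` are `1` modulo `4`, so `n % 4 = 1`: `Nat.recOnMul` or `theta_chi.mul` and induction), so `hB B r = gB B r ≥ 1`.
* `XX_kill`: `XX_prime`: `chi p + 1 = 0`.
-/

set_option autoImplicit false

namespace Pool.Agent.Helper12.MM

open Finset Pool.Agent.Helper9.PF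

private theorem sqf_ind {P : ℕ → Prop} (h1 : P 1)
    (hm : ∀ p r, p.Prime → p.Coprime r → Squarefree r → P r → P (p * r)) :
    ∀ r, Squarefree r → P r := by
  intro r
  induction r using Nat.strong_induction_on with
  | _ r ih =>
    intro hr
    by_cases hr1 : r = 1
    · rw [hr1]; exact h1
    · have hp := Nat.minFac_prime hr1
      obtain ⟨r', hr'⟩ := Nat.minFac_dvd r
      rw [hr'] at hr
      have h := (Nat.squarefree_mul_iff).1 hr
      have hr0 : 0 < r' := Nat.pos_of_ne_zero h.2.2.ne_zero
      have hlt : r' < r := by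
        have : 2 * r' ≤ r.minFac * r' := Nat.mul_le_mul_right _ hp.two_le
        omega
      rw [hr']
      exact hm _ _ hp h.1 h.2.2 (ih r' hlt h.2.2)

private theorem odd_of_coprime {A B : Set ℕ} {M : ℕ} (h : MA A B M) {p : ℕ} (hp : p.Prime)
    (hpM : p.Coprime M) : p % 2 = 1 := by
  rcases hp.eq_two_or_odd with h2 | h2
  · subst h2
    exact absurd (Nat.Coprime.eq_one_of_dvd hpM h.two) (by norm_num)
  · exact h2

theorem XX_parity (B : Set ℕ) {u u' : ℕ} (r : ℕ) (h : Even u ↔ Even u') : XX B u r = XX B u' r := by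
  unfold XX
  by_cases hu : Even u
  · rw [if_pos hu, if_pos (h.1 hu)]
  · rw [if_neg hu, if_neg (fun h' => hu (h.2 h'))]

theorem abs_XX_le (B : Set ℕ) (u r : ℕ) : |XX B u r| ≤ (r.divisors.card : ℤ) := by
  classical
  unfold XX
  split_ifs with hu
  · unfold gB
    refine (Finset.abs_sum_le_sum_abs _ _).trans ?_
    calc ∑ n ∈ r.divisors, |if n ∈ B then (1 : ℤ) else 0| ≤ ∑ n ∈ r.divisors, (1 : ℤ) := by
          refine Finset.sum_le_sum fun n _ => ?_
          split_ifs <;> simp
      _ = (r.divisors.card : ℤ) := by simp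
  · rw [abs_mul]
    have h1 : |hB B r| ≤ (r.divisors.card : ℤ) := by
      unfold hB
      refine (Finset.abs_sum_le_sum_abs _ _).trans ?_
      calc ∑ n ∈ r.divisors, |if n ∈ B then chi n else 0| ≤ ∑ n ∈ r.divisors, (1 : ℤ) := by
            refine Finset.sum_le_sum fun n _ => ?_
            split_ifs
            · exact theta_chi.bd n
            · simp
        _ = (r.divisors.card : ℤ) := by simp
    calc |chi r| * |hB B r| ≤ 1 * (r.divisors.card : ℤ) :=
          mul_le_mul (theta_chi.bd r) h1 (abs_nonneg _) (by norm_num)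
      _ = _ := one_mul _

private theorem XX_pr {A B : Set ℕ} {M : ℕ} (h : MA A B M) (u : ℕ) {p : ℕ} (hp : p.Prime)
    (hpM : p.Coprime M) [Decidable (p ∈ B)] :
    XX B u p = 0 ∨ |XX B u p| = 2 ^ (if p ∈ B then 1 else 0) := by
  have hodd := odd_of_coprime h hp hpM
  have hchi : chi p = 1 ∨ chi p = -1 := by
    unfold chi
    have : p % 4 = 1 ∨ p % 4 = 3 := by omega
    rcases this with h4 | h4
    · left; rw [if_pos h4]
    · right; rw [if_neg (by omega), if_pos h4]
  rw [XX_prime h u hp hpM]
  by_cases hu : Even u <;> by_cases hB : p ∈ B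
  · simp only [hu, hB, if_true]; right; norm_num
  · simp only [hu, hB, if_true, if_false]; right; norm_num
  · simp only [hu, hB, if_true, if_false]
    rcases hchi with h' | h'
    · rw [h']; right; norm_num
    · rw [h']; left; norm_num
  · simp only [hu, hB, if_false]
    rcases hchi with h' | h'
    · rw [h']; right; norm_num
    · rw [h']; right; norm_num

private theorem om_mul (B : Set ℕ) {p r : ℕ} (hp : p.Prime) (hpr : p.Coprime r)
    [Decidable (p ∈ B)] : om B (p * r) = om B r + (if p ∈ B then 1 else 0) := by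
  classical
  unfold om
  have hnot : p ∉ r.primeFactors := fun h => by
    have h2 := Nat.Coprime.eq_one_of_dvd hpr (Nat.dvd_of_mem_primeFactors h)
    exact hp.one_lt.ne' h2
  have h1 : (p * r).primeFactors = insert p r.primeFactors := by
    rw [hpr.primeFactors_mul, hp.primeFactors]
    rfl
  by_cases hB : p ∈ B
  · rw [if_pos hB, h1, Finset.filter_insert, if_pos hB, Finset.card_insert_of_notMem]
    intro h2
    exact hnot (Finset.mem_filter.1 h2).1
  · rw [if_neg hB, h1, Finset.filter_insert, if_neg hB, Nat.add_zero]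

theorem XX_sqf {A B : Set ℕ} {M : ℕ} (h : MA A B M) (u : ℕ) {r : ℕ} (hr : Squarefree r)
    (hrM : r.Coprime M) : XX B u r = 0 ∨ |XX B u r| = 2 ^ om B r := by
  classical
  revert hrM
  refine sqf_ind (P := fun r => r.Coprime M → (XX B u r = 0 ∨ |XX B u r| = 2 ^ om B r)) ?_ ?_ r hr
  · intro _
    right
    rw [XX_one h u]
    simp [om]
  · intro p r hp hpr hr ih hM
    have hpM : p.Coprime M := Nat.Coprime.coprime_dvd_left (dvd_mul_right _ _) hM
    have hrM : r.Coprime M := Nat.Coprime.coprime_dvd_left (dvd_mul_left _ _) hM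
    have hr0 : 0 < r := Nat.pos_of_ne_zero hr.ne_zero
    rw [XX_mul h u hp.pos hr0 hpr hpM hrM, om_mul B hp hpr]
    rcases ih hrM with h1 | h1
    · left; rw [h1, mul_zero]
    · rcases XX_pr h u hp hpM with h2 | h2
      · left; rw [h2, zero_mul]
      · right; rw [abs_mul, h1, h2, pow_add, mul_comm]

private theorem gB_pos {A B : Set ℕ} {M : ℕ} (h : MA A B M) {r : ℕ} (hr : r ≠ 0) :
    1 ≤ gB B r := by
  classical
  unfold gB
  have h1 : (1 : ℕ) ∈ r.divisors := Nat.one_mem_divisors.2 hr
  have := Finset.single_le_sum (s := r.divisors)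
    (f := fun n => if n ∈ B then (1 : ℤ) else 0) (fun n _ => by split_ifs <;> norm_num) h1
  rw [if_pos h.one] at this
  exact this

theorem XX_even_ne {A B : Set ℕ} {M : ℕ} (h : MA A B M) {u : ℕ} (hu : Even u) {r : ℕ} (hr : r ≠ 0) :
    XX B u r ≠ 0 := by
  unfold XX
  rw [if_pos hu]
  have := gB_pos h hr
  omega

theorem XX_odd_ne {A B : Set ℕ} {M : ℕ} (h : MA A B M) (u : ℕ) {r : ℕ} (hr : Squarefree r)
    (hrM : r.Coprime M) (h3 : ∀ p ∈ r.primeFactors, p ∈ B → p % 4 ≠ 3) : XX B u r ≠ 0 := by
  classical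
  revert hrM h3
  refine sqf_ind (P := fun r => r.Coprime M → (∀ p ∈ r.primeFactors, p ∈ B → p % 4 ≠ 3) →
    XX B u r ≠ 0) ?_ ?_ r hr
  · intro _ _
    rw [XX_one h u]
    norm_num
  · intro p r hp hpr hr ih hM h3
    have hpM : p.Coprime M := Nat.Coprime.coprime_dvd_left (dvd_mul_right _ _) hM
    have hrM : r.Coprime M := Nat.Coprime.coprime_dvd_left (dvd_mul_left _ _) hM
    have hr0 : 0 < r := Nat.pos_of_ne_zero hr.ne_zero
    have h1 : (p * r).primeFactors = insert p r.primeFactors := by
      rw [hpr.primeFactors_mul, hp.primeFactors]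
      rfl
    rw [XX_mul h u hp.pos hr0 hpr hpM hrM]
    refine mul_ne_zero ?_ (ih hrM fun q hq => h3 q (by rw [h1]; exact Finset.mem_insert_of_mem hq))
    have hp3 := h3 p (by rw [h1]; exact Finset.mem_insert_self _ _)
    have hodd := odd_of_coprime h hp hpM
    rw [XX_prime h u hp hpM]
    by_cases hu : Even u <;> by_cases hB : p ∈ B
    · simp only [hu, hB, if_true]; norm_num
    · simp only [hu, hB, if_true, if_false]; norm_num
    · have h4 : p % 4 = 1 := by
        have := hp3 hB
        omega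
      have hc : chi p = 1 := by unfold chi; rw [if_pos h4]
      simp only [hu, hB, if_true, if_false]
      rw [hc]; norm_num
    · simp only [hu, hB, if_false]
      have : p % 4 = 1 ∨ p % 4 = 3 := by omega
      rcases this with h4 | h4
      · have hc : chi p = 1 := by unfold chi; rw [if_pos h4]
        rw [hc]; norm_num
      · have hc : chi p = -1 := by unfold chi; rw [if_neg (by omega), if_pos h4]
        rw [hc]; norm_num

private theorem mod_one (n : ℕ) (hn : n ≠ 0) (h : ∀ p, p.Prime → p ∣ n → p % 4 = 1) :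
    n % 4 = 1 := by
  induction n using Nat.strong_induction_on with
  | _ n ih =>
    by_cases h1 : n = 1
    · rw [h1]
    · have hp := Nat.minFac_prime h1
      have hd := Nat.minFac_dvd n
      obtain ⟨m, hm⟩ := hd
      have hm0 : m ≠ 0 := by
        rintro rfl
        rw [mul_zero] at hm
        exact hn hm
      have hlt : m < n := by
        have : 2 * m ≤ n.minFac * m := Nat.mul_le_mul_right _ hp.two_le
        omega
      have h2 := ih m hlt hm0 fun q hq hqm => h q hq (by rw [hm]; exact Dvd.dvd.mul_left hqm _)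
      have h3 := h _ hp (Nat.minFac_dvd n)
      rw [hm, Nat.mul_mod, h3, h2]

theorem XX_one_mod {A B : Set ℕ} {M : ℕ} (h : MA A B M) (u : ℕ) {r : ℕ} (hr : r ≠ 0)
    (h1 : ∀ p ∈ r.primeFactors, p % 4 = 1) : XX B u r ≠ 0 := by
  classical
  by_cases hu : Even u
  · exact XX_even_ne h hu hr
  · have hall : ∀ n, n ∣ r → chi n = 1 := by
      intro n hn
      have hn0 : n ≠ 0 := ne_zero_of_dvd_ne_zero hr hn
      have := mod_one n hn0 fun p hp hpn => h1 p (Nat.mem_primeFactors.2 ⟨hp, hpn.trans hn, hr⟩)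
      unfold chi
      rw [if_pos this]
    have hh : hB B r = gB B r := by
      unfold hB gB
      refine Finset.sum_congr rfl fun n hn => ?_
      rw [hall n (Nat.dvd_of_mem_divisors hn)]
    unfold XX
    rw [if_neg hu, hall r dvd_rfl, hh, one_mul]
    have := gB_pos h hr
    omega

theorem XX_kill {A B : Set ℕ} {M : ℕ} (h : MA A B M) {u : ℕ} (hu : ¬ Even u) {p : ℕ} (hp : p.Prime)
    (hpM : p.Coprime M) (hpB : p ∈ B) (hp4 : p % 4 = 3) : XX B u p = 0 := by
  classical
  rw [XX_prime h u hp hpM, if_neg hu, if_pos hpB]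
  have hc : chi p = -1 := by unfold chi; rw [if_neg (by omega), if_pos hp4]
  rw [hc]; norm_num

end Pool.Agent.Helper12.MM
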