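import Pool.Agent.Helper12.MM.AMul
import Pool.Agent.Helper12.MM.XVal

/-!
PROJECT MM, module MM-G9. Zeros and nonzero values of the coefficients for sets of odd numbers.

* `a_even_zero`: `a_div`: a divisor `n ∈ A` of `m` with `m / n` odd would be even (`m` even), but `n ∈ A` is odd; so every term is `0` (`Fib.c_ne_zero_iff`).
* `a_kill`: `m = (m / p) * p` with `m / p` coprime to `p` (`p ^ 2 ∤ m`), `m` odd; `a_mul` with `v = p` and `XX_kill`.
* `a_min`: `s0` the least element of `A`. All the prime factors of `s0` divide `M`: write `s0 = s r`, `s` the part of `s0` composed of primes dividing `M`, `r` coprime to `M` and to `s`; `s0 ∈ A` gives `s ∈ A` by `h.mul`, so `s ≥ s0`, `r = 1`. `a_div`: the only divisor of `s0` in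
  `A` is `s0`, and `Fib.c s0 s0 = 1`.
* `a_even_mem`: if `m ∈ A` is even, let `s` be the part of `m` composed of the primes dividing `M`: `s ∈ A` (`h.mul`), even (`2 ∣ M`), all prime factors divide `M`. `a A s ≥ 1`: all the terms of `a_div` are `≥ 0` (`n ∣ s` with `s / n` odd is even, `c_even`; otherwise `Fib.c = 0`), the one of `n = s` is `1`.
-/

set_option autoImplicit false

namespace Pool.Agent.Helper12.MM

open Finset Pool.Agent.Helper9.PF

private lemma g9_split (M : ℕ) : ∀ n : ℕ, 0 < n → ∃ s r, n = s * r ∧ 0 < s ∧ 0 < r ∧ r.Coprime M ∧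
    ∀ p, p.Prime → p ∣ s → p ∣ M := by
  intro n
  induction n using Nat.strong_induction_on with
  | _ n ih =>
    intro hn
    by_cases hc : n.Coprime M
    · exact ⟨1, n, by simp, one_pos, hn, hc, fun p hp h => absurd h hp.not_dvd_one⟩
    · obtain ⟨p, hp, hpn, hpM⟩ := Nat.Prime.not_coprime_iff_dvd.mp hc
      obtain ⟨n', rfl⟩ := hpn
      have hn' : 0 < n' := Nat.pos_of_mul_pos_left hn
      obtain ⟨s, r, h1, hs, hr, h2, h3⟩ := ih n' (by nlinarith [hp.two_le]) hn'
      refine ⟨p * s, r, by rw [h1, mul_assoc], Nat.mul_pos hp.pos hs, hr, h2, ?_⟩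
      intro q hq hqs
      rcases (Nat.Prime.dvd_mul hq).mp hqs with h | h
      · rw [(Nat.prime_dvd_prime_iff_eq hq hp).mp h]
        exact hpM
      · exact h3 q hq h

private lemma g9_cop {M s r : ℕ} (hr : r.Coprime M) (hs : ∀ p, p.Prime → p ∣ s → p ∣ M) :
    s.Coprime r := by
  refine Nat.Coprime.symm ?_
  by_contra hc
  obtain ⟨p, hp, hpr, hps⟩ := Nat.Prime.not_coprime_iff_dvd.mp hc
  exact Nat.not_coprime_of_dvd_of_dvd hp.one_lt hpr (hs p hp hps) hr

private lemma g9_c_self {s : ℕ} (hs : 0 < s) : Pool.Agent.Helper9.Fib.c s s = 1 := by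
  unfold Pool.Agent.Helper9.Fib.c
  rw [if_pos ⟨dvd_rfl, by rw [Nat.div_self hs]; exact odd_one⟩]
  simp

theorem a_even_zero (A : Set ℕ) (hA : ∀ n ∈ A, ¬ Even n) {m : ℕ} (hm : Even m) :
    Pool.Agent.Helper9.Fib.a A m = 0 := by
  rw [a_div]
  refine Finset.sum_eq_zero ?_
  intro n _
  split_ifs with hn
  · by_contra hc
    obtain ⟨h1, h2⟩ := (Pool.Agent.Helper9.Fib.c_ne_zero_iff n m).mp hc
    have h3 : Odd n := Nat.not_even_iff_odd.mp (hA n hn)
    have h4 : Odd (n * (m / n)) := h3.mul h2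
    rw [Nat.mul_div_cancel' h1] at h4
    exact (Nat.not_even_iff_odd.mpr h4) hm
  · rfl

theorem a_kill {A B : Set ℕ} {M : ℕ} (h : MA A B M) {m p : ℕ} (hm : ¬ Even m) (hp : p.Prime)
    (hpM : p.Coprime M) (hpB : p ∈ B) (hp4 : p % 4 = 3) (h1 : p ∣ m) (h2 : ¬ p ^ 2 ∣ m) :
    Pool.Agent.Helper9.Fib.a A m = 0 := by
  obtain ⟨u, rfl⟩ := h1
  have hu0 : 0 < u := by
    rcases Nat.eq_zero_or_pos u with h0 | h0
    · subst h0
      simp at hm
    · exact h0
  have hpu : ¬ p ∣ u := by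
    rintro ⟨w, rfl⟩
    exact h2 ⟨w, by ring⟩
  have hcop : u.Coprime p := ((Nat.Prime.coprime_iff_not_dvd hp).mpr hpu).symm
  have hue : ¬ Even u := fun he => hm (he.mul_left p)
  rw [mul_comm p u, a_mul h hu0 hp.pos hcop hpM, XX_kill h hue hp hpM hpB hp4, mul_zero]

theorem a_min {A B : Set ℕ} {M : ℕ} (h : MA A B M) (hne : A.Nonempty) :
    ∃ s0, 0 < s0 ∧ s0 ∈ A ∧ (∀ p, p.Prime → p ∣ s0 → p ∣ M) ∧ Pool.Agent.Helper9.Fib.a A s0 = 1 := by
  classical
  have hs0A : sInf A ∈ A := Nat.sInf_mem hne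
  have hmin : ∀ n ∈ A, sInf A ≤ n := fun n hn => Nat.sInf_le hn
  set s0 := sInf A with hs0
  have hpos : 0 < s0 := by
    rcases Nat.eq_zero_or_pos s0 with h0 | h0
    · rw [h0] at hs0A
      exact absurd hs0A h.pos
    · exact h0
  obtain ⟨s, r, h1, hs, hr, h2, h3⟩ := g9_split M s0 hpos
  have hsA : s ∈ A := by
    rw [h1] at hs0A
    exact ((h.mul s r hs hr (g9_cop h2 h3) h2).mp hs0A).1
  have h4 : s0 ≤ s := hmin s hsA
  have h5 : r = 1 := by
    have : s * r ≤ s * 1 := by rw [← h1, mul_one]; exact h4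
    have := Nat.le_of_mul_le_mul_left this hs
    omega
  have h6 : s0 = s := by rw [h1, h5, mul_one]
  refine ⟨s0, hpos, hs0A, fun p hp hps => h3 p hp (h6 ▸ hps), ?_⟩
  rw [a_div, Finset.sum_eq_single s0]
  · rw [if_pos hs0A, g9_c_self hpos]
  · intro n hn hne'
    rw [if_neg]
    intro hnA
    exact hne' (le_antisymm (Nat.le_of_dvd hpos (Nat.dvd_of_mem_divisors hn)) (hmin n hnA))
  · intro hn
    exact absurd (Nat.mem_divisors_self s0 hpos.ne') hn

theorem a_even_mem {A B : Set ℕ} {M : ℕ} (h : MA A B M) {m : ℕ} (hm : m ∈ A) (he : Even m) :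
    ∃ s0, 0 < s0 ∧ Even s0 ∧ (∀ p, p.Prime → p ∣ s0 → p ∣ M) ∧
      Pool.Agent.Helper9.Fib.a A s0 ≠ 0 := by
  classical
  have hpos : 0 < m := by
    rcases Nat.eq_zero_or_pos m with h0 | h0
    · rw [h0] at hm
      exact absurd hm h.pos
    · exact h0
  obtain ⟨s, r, h1, hs, hr, h2, h3⟩ := g9_split M m hpos
  have hsA : s ∈ A := by
    rw [h1] at hm
    exact ((h.mul s r hs hr (g9_cop h2 h3) h2).mp hm).1
  have hse : Even s := by
    rw [h1] at he
    rcases Nat.even_mul.mp he with h' | h'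
    · exact h'
    · exact absurd h2 (Nat.not_coprime_of_dvd_of_dvd (by norm_num) h'.two_dvd h.two)
  refine ⟨s, hs, hse, h3, ?_⟩
  have hnn : ∀ n ∈ s.divisors, 0 ≤ (if n ∈ A then Pool.Agent.Helper9.Fib.c n s else 0) := by
    intro n _
    split_ifs with hn
    · by_cases hc : Pool.Agent.Helper9.Fib.c n s = 0
      · exact hc.ge
      · obtain ⟨h4, h5⟩ := (Pool.Agent.Helper9.Fib.c_ne_zero_iff n s).mp hc
        have h6 : Even n := by
          by_contra hno
          have h7 : Odd (n * (s / n)) := (Nat.not_even_iff_odd.mp hno).mul h5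
          rw [Nat.mul_div_cancel' h4] at h7
          exact (Nat.not_even_iff_odd.mpr h7) hse
        rw [c_even h6 h4 h5]
        norm_num
    · exact le_rfl
  have h4 := Finset.single_le_sum hnn (Nat.mem_divisors_self s hs.ne')
  rw [if_pos hsA, g9_c_self hs] at h4
  rw [a_div]
  intro h0
  have h5 : (1 : ℤ) ≤ 0 := h4.trans_eq h0
  norm_num at h5

end Pool.Agent.Helper12.MM
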