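import Pool.Agent.Helper12.MM.GUnk
import Pool.Agent.Helper12.MM.GExS
import Pool.Agent.Helper12.MM.GUV
import Pool.Agent.Helper12.MM.GZero

/-!
PROJECT MM, module MM-G11. Case G: the construction of the gap.

`a_min`: `s0 ∈ A` (odd), `a A s0 = 1`, the primes of `s0` divide `M`. `P3 = {p prime, coprime to M, ∈ B, p % 4 = 3}`. `exists_S` with `ε = 1/2000`: `S`; `M1 = ∏_{p ∈ S} p ^ 2`, `K0 = 4 M M1`, `C1 = M1 + 1`, `H₁ = s0 + K0 + 10`. Let `H ≥ H₁` as in the statement.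
Positions: `n = N - H + i`, `0 ≤ i ≤ 2 H`. `n0 = s0 + H * M1 - H`, so `n0 + H ≡ s0` modulo `M1` (`M1 ≥ 1`). `R' = {i ≤ 2 H : i ≠ H, i + H even, ∀ p ∈ S, ¬ (p ∣ n0 + i ∧ ¬ p ^ 2 ∣ n0 + i)}`; by `unk_count` (`x = n0`, `len = 2 H + 1`)
`|R'| ≤ ((2H+1)/M1 + 1) * ∏ (p^2 - (p-1)) ≤ ((2H+1)/M1 + 1) M1/2000`, so `2000 |R'| ≤ 2 H + 1 + M1`, in particular `|R'| + 1 ≤ H`. Choose an injection `i ↦ p_i` of `R'` into the set of the `p ∈ P3` with `4 H < p ≤ 16 H^2` (at least `H` elements) and one more element `p'` of this set;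
`R = {p_i : i ∈ R'} ∪ {p'}`. These primes are `> 4 H > K0`, so they do not divide `K0`, `s0`, and they are odd. Choose `x p_i` with `s0 * x ≡ p_i + H + (p_i^2 * i - i)` modulo `p_i ^ 2` (`s0` is invertible modulo `p_i ^ 2`); `p_i ∤ x p_i` because `p_i ∤ H - i`
(`0 < |H - i| ≤ H < p_i`); `x p' = 1`.
`exists_uv`: `u, v`; `r = u^2 + v^2`, `N = s0 r`. `N ≥ u ≥ p'^2 > H`. `r ≡ 1` modulo `K0`, so `r` is odd, coprime to `M`, `N ≡ s0` modulo `M1`; all prime factors of `r` are `1` modulo `4` (`one_mod_four`), so `a A N = a A s0 * XX B s0 r ≠ 0` (`a_mul`, `XX_one_mod`; `s0`, `r` are coprime since the primes of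
`s0` divide `M`). For `n = N - H + i`, `i ≤ 2 H`, `i ≠ H`: if `i + H` is odd then `n` is even (`N` is odd): `a_even_zero`. If `i + H` is even and `i ∈ R'`: `n ≡ p_i` modulo `p_i ^ 2`, so `p_i ∣ n`, `p_i ^ 2 ∤ n`: `a_kill`. If `i ∉ R'`: some `p ∈ S` has `p ∣ n0 + i`, `p ^ 2 ∤ n0 + i` and
`n ≡ n0 + i` modulo `p ^ 2` (`N ≡ s0 ≡ n0 + H` modulo `M1`): `a_kill`.
-/

set_option autoImplicit false

namespace Pool.Agent.Helper12.MM

open Finset Filter Pool.Agent.Helper9.Fib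

/-- the count of the unkilled places -/
private theorem gpos_count (S : Finset ℕ) (hS : ∀ p ∈ S, p.Prime) (n0 H : ℕ)
    (hε : 2000 * ∏ p ∈ S, (p ^ 2 - (p - 1)) ≤ ∏ p ∈ S, p ^ 2) (R' : Finset ℕ)
    (hR' : ∀ i ∈ R', i < 2 * H + 1 ∧ ∀ p ∈ S, ¬ (p ∣ n0 + i ∧ ¬ p ^ 2 ∣ n0 + i)) :
    2000 * R'.card ≤ 2 * H + 1 + ∏ p ∈ S, p ^ 2 := by
  have h1 : R'.card ≤ ((Ico n0 (n0 + (2 * H + 1))).filter
      (fun n => ∀ p ∈ S, ¬ (p ∣ n ∧ ¬ p ^ 2 ∣ n))).card := by
    refine card_le_card_of_injOn (fun i => n0 + i) ?_ ?_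
    · intro i hi
      obtain ⟨h2, h3⟩ := hR' i hi
      rw [mem_coe, mem_filter, mem_Ico]
      exact ⟨⟨Nat.le_add_right _ _, Nat.add_lt_add_left h2 _⟩, h3⟩
    · intro i _ j _ hij
      exact Nat.add_left_cancel hij
  have h2 := unk_count S hS n0 (2 * H + 1)
  set M1 := ∏ p ∈ S, p ^ 2 with hM1
  set P := ∏ p ∈ S, (p ^ 2 - (p - 1)) with hP
  calc 2000 * R'.card ≤ 2000 * (((2 * H + 1) / M1 + 1) * P) := Nat.mul_le_mul_left _ (h1.trans h2)
    _ = ((2 * H + 1) / M1 + 1) * (2000 * P) := by ring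
    _ ≤ ((2 * H + 1) / M1 + 1) * M1 := Nat.mul_le_mul_left _ hε
    _ = (2 * H + 1) / M1 * M1 + M1 := by ring
    _ ≤ 2 * H + 1 + M1 := Nat.add_le_add_right (Nat.div_mul_le_self _ _) _

/-- the residue for the place `j` -/
private theorem gpos_res (s0 p H j : ℕ) (hp : p.Prime) (hps : ¬ p ∣ s0) (hj : j ≤ 2 * H) (hjH : j ≠ H)
    (hpH : 4 * H < p) : ∃ y, ¬ p ∣ y ∧ s0 * y ≡ p + H + (p ^ 2 * j - j) [MOD p ^ 2] := by
  have hp2 : 1 < p ^ 2 := Nat.one_lt_pow two_ne_zero hp.one_lt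
  have hcop : s0.Coprime (p ^ 2) := Nat.Coprime.pow_right 2 (((Nat.Prime.coprime_iff_not_dvd hp).2 hps).symm)
  obtain ⟨m, hm⟩ := Nat.exists_mul_mod_eq_one_of_coprime hcop hp2
  set c := p + H + (p ^ 2 * j - j) with hc
  have h1 : s0 * m ≡ 1 [MOD p ^ 2] := by
    unfold Nat.ModEq
    rw [hm.2, Nat.mod_eq_of_lt hp2]
  have h2 : s0 * (m * c) ≡ c [MOD p ^ 2] := by
    have h3 := h1.mul_right c
    rw [one_mul, mul_assoc] at h3
    exact h3
  refine ⟨m * c, ?_, h2⟩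
  intro h3
  have h4 : s0 * (m * c) ≡ c [MOD p] := h2.of_dvd (dvd_pow_self p two_ne_zero)
  have h5 : p ∣ c := (h4.dvd_iff (dvd_refl p)).1 (h3.mul_left s0)
  have h6 : j ≤ p ^ 2 * j := Nat.le_mul_of_pos_left j (by omega)
  have h7 : c + j = H + p * (1 + p * j) := by
    have : c + j = p + H + p ^ 2 * j := by omega
    rw [this]
    ring
  have h8 : j ≡ H [MOD p] := by
    have h9 : c + j ≡ 0 + j [MOD p] := Nat.ModEq.add_right j ((Nat.modEq_zero_iff_dvd).2 h5)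
    have h10 : H + p * (1 + p * j) ≡ H + 0 [MOD p] :=
      Nat.ModEq.add_left H ((Nat.modEq_zero_iff_dvd).2 (dvd_mul_right _ _))
    rw [h7] at h9
    rw [zero_add] at h9
    rw [add_zero] at h10
    exact h9.symm.trans h10
  have h11 := Nat.ModEq.eq_of_lt_of_lt h8 (by omega) (by omega)
  exact hjH h11

open Classical in
theorem g_pos {A B : Set ℕ} {M : ℕ} (h : MA A B M) (hA : ∀ n ∈ A, ¬ Even n) (hne : A.Nonempty)
    (hns : ¬ Summable (fun p : ℕ => if p.Prime ∧ p.Coprime M ∧ p ∈ B ∧ p % 4 = 3 then 1 / (p : ℝ) else 0)) :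
    ∃ s0 K0 C1 H₁ : ℕ, ∀ H ≥ H₁,
      H ≤ ((Ioc (4 * H) (16 * H ^ 2)).filter
        (fun p => p.Prime ∧ p.Coprime M ∧ p ∈ B ∧ p % 4 = 3)).card →
      ∃ (N : ℕ) (R : Finset ℕ), H ≤ N ∧ a A N ≠ 0 ∧ (∀ i < H, a A (N + 1 + i) = 0) ∧
        (∀ i < H, a A (N - 1 - i) = 0) ∧ 2000 * R.card ≤ 2 * H + 1 + 2000 * C1 ∧
        (∀ p ∈ R, p ≤ 16 * H ^ 2) ∧ N ≤ s0 * (5 * (K0 * (∏ p ∈ R, p ^ 2)) ^ 4) := by
  obtain ⟨s0, hs0, hs0A, hs0M, has0⟩ := a_min h hne
  have hs0odd : ¬ Even s0 := hA s0 hs0A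
  obtain ⟨S, hSP, hSε⟩ := exists_S {p : ℕ | p.Prime ∧ p.Coprime M ∧ p ∈ B ∧ p % 4 = 3} (fun p hp => hp.1)
    (fun h' => hns (h'.congr fun p => by
      by_cases hp : p.Prime ∧ p.Coprime M ∧ p ∈ B ∧ p % 4 = 3
      · rw [if_pos hp, if_pos (show p ∈ {p : ℕ | p.Prime ∧ p.Coprime M ∧ p ∈ B ∧ p % 4 = 3} from hp)]
      · rw [if_neg hp, if_neg (show p ∉ {p : ℕ | p.Prime ∧ p.Coprime M ∧ p ∈ B ∧ p % 4 = 3} from hp)]))
    (1 / 2000) (by norm_num)
  have hSprime : ∀ p ∈ S, p.Prime := fun p hp => (hSP p hp).1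
  have hε : 2000 * ∏ p ∈ S, (p ^ 2 - (p - 1)) ≤ ∏ p ∈ S, p ^ 2 := by
    have h1 : (2000 : ℝ) * ((∏ p ∈ S, (p ^ 2 - (p - 1)) : ℕ) : ℝ) ≤ ((∏ p ∈ S, p ^ 2 : ℕ) : ℝ) := by
      linarith
    exact_mod_cast h1
  set M1 := ∏ p ∈ S, p ^ 2 with hM1
  have hM1pos : 0 < M1 := Finset.prod_pos fun p hp => pow_pos (hSprime p hp).pos 2
  have hMpos : 0 < M := h.M0
  set K0 := 4 * M * M1 with hK0
  have hK0pos : 0 < K0 := by positivity
  have hM1K : M1 ≤ K0 := by
    rw [hK0]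
    exact Nat.le_mul_of_pos_left M1 (by positivity)
  refine ⟨s0, K0, M1 + 1, s0 + K0 + 10, fun H hH hcard => ?_⟩
  set F := (Ioc (4 * H) (16 * H ^ 2)).filter
    (fun p => p.Prime ∧ p.Coprime M ∧ p ∈ B ∧ p % 4 = 3) with hF
  set n0 := s0 + (H * M1 - H) with hn0
  have hHM : H ≤ H * M1 := Nat.le_mul_of_pos_right H hM1pos
  have hn0H : n0 + H = s0 + H * M1 := by omega
  set R' := (range (2 * H + 1)).filter (fun i => i ≠ H ∧ Even (i + H) ∧
    ∀ p ∈ S, ¬ (p ∣ n0 + i ∧ ¬ p ^ 2 ∣ n0 + i)) with hR'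
  have hR'mem : ∀ i, i ∈ R' ↔ i < 2 * H + 1 ∧ i ≠ H ∧ Even (i + H) ∧
      ∀ p ∈ S, ¬ (p ∣ n0 + i ∧ ¬ p ^ 2 ∣ n0 + i) := by
    intro i
    rw [hR', mem_filter, mem_range]
  have hR'card : 2000 * R'.card ≤ 2 * H + 1 + M1 :=
    gpos_count S hSprime n0 H hε R' fun i hi => ⟨((hR'mem i).1 hi).1, ((hR'mem i).1 hi).2.2.2⟩
  have hnot : 2 * H + 1 ∉ R' := fun hh => by
    have := ((hR'mem _).1 hh).1
    omega
  set T := insert (2 * H + 1) R' with hT
  have hTcard : T.card = R'.card + 1 := by rw [hT, card_insert_of_notMem hnot]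
  have hTle : T.card ≤ F.card := by
    rw [hTcard]
    refine le_trans ?_ hcard
    omega
  obtain ⟨e⟩ : Nonempty ({i // i ∈ T} ↪ {p // p ∈ F}) := by
    apply Function.Embedding.nonempty_of_card_le
    rw [Fintype.card_coe, Fintype.card_coe]
    exact hTle
  set pp : ℕ → ℕ := fun i => if hi : i ∈ T then ((e ⟨i, hi⟩ : {p // p ∈ F}) : ℕ) else 0 with hpp
  have hppF : ∀ i ∈ T, pp i ∈ F := by
    intro i hi
    simp only [hpp, dif_pos hi]
    exact (e ⟨i, hi⟩).2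
  have hppinj : ∀ i ∈ T, ∀ j ∈ T, pp i = pp j → i = j := by
    intro i hi j hj hij
    simp only [hpp, dif_pos hi, dif_pos hj] at hij
    have h1 := e.injective (Subtype.ext hij)
    exact congrArg Subtype.val h1
  have hFmem : ∀ p ∈ F, 4 * H < p ∧ p ≤ 16 * H ^ 2 ∧ p.Prime ∧ p.Coprime M ∧ p ∈ B ∧ p % 4 = 3 := by
    intro p hp
    rw [hF, mem_filter, mem_Ioc] at hp
    exact ⟨hp.1.1, hp.1.2, hp.2⟩
  have hTR : ∀ i ∈ R', i ∈ T := fun i hi => mem_insert_of_mem hi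
  have hTl : 2 * H + 1 ∈ T := mem_insert_self _ _
  set R := T.image pp with hR
  have hRF : ∀ p ∈ R, p ∈ F := by
    intro p hp
    obtain ⟨i, hi, rfl⟩ := mem_image.1 hp
    exact hppF i hi
  have hres : ∀ p ∈ R, ∃ y, ¬ p ∣ y ∧ ∀ i ∈ R', pp i = p → s0 * y ≡ p + H + (p ^ 2 * i - i) [MOD p ^ 2] := by
    intro p hp
    obtain ⟨j, hj, hjp⟩ := mem_image.1 hp
    obtain ⟨g1, g2, g3, g4, g5, g6⟩ := hFmem p (hRF p hp)
    rcases mem_insert.1 hj with hj' | hj'
    · refine ⟨1, g3.one_lt.ne' ∘ Nat.dvd_one.1, fun i hi hip => ?_⟩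
      have h1 := hppinj i (hTR i hi) j hj (hip.trans hjp.symm)
      rw [h1, hj'] at hi
      exact absurd hi hnot
    · have hj2 := (hR'mem j).1 hj'
      have hps : ¬ p ∣ s0 := fun hd => by
        have := Nat.le_of_dvd hs0 hd
        omega
      obtain ⟨y, hy1, hy2⟩ := gpos_res s0 p H j g3 hps (by omega) hj2.2.1 g1
      refine ⟨y, hy1, fun i hi hip => ?_⟩
      rw [hppinj i (hTR i hi) j hj (hip.trans hjp.symm)]
      exact hy2
  choose! X hX1 hX2 using hres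
  have hRp : ∀ p ∈ R, p.Prime ∧ p ≠ 2 ∧ ¬ p ∣ K0 := by
    intro p hp
    obtain ⟨g1, g2, g3, g4, g5, g6⟩ := hFmem p (hRF p hp)
    refine ⟨g3, fun h2 => by rw [h2] at g6; norm_num at g6, fun hd => ?_⟩
    have := Nat.le_of_dvd hK0pos hd
    omega
  obtain ⟨u, v, huv, hr1, hrR, hule, hr5⟩ := exists_uv K0 hK0pos R hRp X hX1
  set r := u ^ 2 + v ^ 2 with hr
  set PR := ∏ p ∈ R, p ^ 2 with hPR
  have hPRpos : 0 < PR := Finset.prod_pos fun p hp => pow_pos (hRp p hp).1.pos 2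
  have hplR : pp (2 * H + 1) ∈ R := mem_image_of_mem pp hTl
  have hpl := hFmem _ (hRF _ hplR)
  have hplle : pp (2 * H + 1) ≤ PR := by
    have h1 : (pp (2 * H + 1)) ^ 2 ∣ PR := Finset.dvd_prod_of_mem (fun p => p ^ 2) hplR
    have h2 := Nat.le_of_dvd hPRpos h1
    exact (Nat.le_self_pow two_ne_zero _).trans h2
  have hur : u ≤ r := by
    rw [hr]
    exact (Nat.le_self_pow two_ne_zero u).trans (Nat.le_add_right _ _)
  have hPRr : PR ≤ r := by
    refine le_trans ?_ hur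
    exact (Nat.le_mul_of_pos_left PR hK0pos).trans hule
  have hrpos : 0 < r := lt_of_lt_of_le hPRpos hPRr
  have hrH : 4 * H < r := by omega
  have hrN : r ≤ s0 * r := Nat.le_mul_of_pos_left r hs0
  have hNH : H ≤ s0 * r := by omega
  have hrM : r.Coprime M := by
    have h1 : r ≡ 1 [MOD M] := hr1.of_dvd ⟨4 * M1, by rw [hK0]; ring⟩
    have h2 : Nat.gcd r M = Nat.gcd 1 M := Nat.ModEq.gcd_eq h1
    unfold Nat.Coprime
    rw [h2]
    simp
  have hrodd : ¬ Even r := by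
    intro he
    exact absurd hrM (Nat.not_coprime_of_dvd_of_dvd (by norm_num) he.two_dvd h.two)
  have hsr : s0.Coprime r := by
    by_contra hc
    obtain ⟨q, hq, hqs, hqr⟩ := Nat.Prime.not_coprime_iff_dvd.mp hc
    exact Nat.not_coprime_of_dvd_of_dvd hq.one_lt hqr (hs0M q hq hqs) hrM
  have hNodd : ¬ Even (s0 * r) := by
    rw [Nat.even_mul]
    rintro (h1 | h1)
    · exact hs0odd h1
    · exact hrodd h1
  have haN : a A (s0 * r) ≠ 0 := by
    rw [a_mul h hs0 hrpos hsr hrM, has0, one_mul]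
    refine XX_one_mod h s0 hrpos.ne' ?_
    intro q hq
    have hqp := Nat.prime_of_mem_primeFactors hq
    have hqd := Nat.dvd_of_mem_primeFactors hq
    refine one_mod_four u v q huv hqp ?_ hqd
    rintro rfl
    exact hrodd (even_iff_two_dvd.2 hqd)
  have hM1dvd : M1 ∣ K0 := ⟨4 * M, by rw [hK0]; ring⟩
  have hclaim : ∀ i ≤ 2 * H, i ≠ H → a A (s0 * r - H + i) = 0 := by
    intro i hi hiH
    set n := s0 * r - H + i with hn
    have hnH : n + H = s0 * r + i := by omega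
    by_cases hpar : Even (i + H)
    · have hnodd : ¬ Even n := by
        intro he
        have h4 : s0 * r + (i + H) = n + 2 * H := by omega
        have h5 : Even (s0 * r + (i + H)) := by
          rw [h4]
          exact he.add (even_two_mul H)
        exact hNodd ((Nat.even_add.1 h5).2 hpar)
      by_cases hiR : i ∈ R'
      · have hpR : pp i ∈ R := mem_image_of_mem pp (hTR i hiR)
        obtain ⟨g1, g2, g3, g4, g5, g6⟩ := hFmem _ (hRF _ hpR)
        have h1 := hX2 (pp i) hpR i hiR rfl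
        have h2 := hrR (pp i) hpR
        set p := pp i with hp
        have h3 : s0 * r ≡ p + H + (p ^ 2 * i - i) [MOD p ^ 2] := (h2.mul_left s0).trans h1
        have h4 : i ≤ p ^ 2 * i := Nat.le_mul_of_pos_left i (pow_pos g3.pos 2)
        have h5 : n + H ≡ p + H + p ^ 2 * i [MOD p ^ 2] := by
          rw [hnH]
          have h6 := h3.add_right i
          have h7 : p + H + (p ^ 2 * i - i) + i = p + H + p ^ 2 * i := by omega
          rw [h7] at h6
          exact h6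
        have h8 : n + H ≡ p + H [MOD p ^ 2] := by
          refine h5.trans ?_
          have h9 : p + H + p ^ 2 * i ≡ p + H + 0 [MOD p ^ 2] :=
            Nat.ModEq.add_left _ ((Nat.modEq_zero_iff_dvd).2 (dvd_mul_right _ _))
          exact h9
        have h10 : n ≡ p [MOD p ^ 2] := Nat.ModEq.add_right_cancel' H h8
        refine a_kill h hnodd g3 g4 g5 g6 ?_ ?_
        · exact ((h10.of_dvd (dvd_pow_self p two_ne_zero)).dvd_iff (dvd_refl p)).2 (dvd_refl p)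
        · intro h11
          have h12 := (h10.dvd_iff (dvd_refl (p ^ 2))).1 h11
          have h13 := Nat.le_of_dvd g3.pos h12
          have h14 : p * 1 < p * p := Nat.mul_lt_mul_of_pos_left g3.one_lt g3.pos
          rw [pow_two] at h13
          omega
      · have h1 : ∃ p ∈ S, p ∣ n0 + i ∧ ¬ p ^ 2 ∣ n0 + i := by
          by_contra hcon
          apply hiR
          rw [hR'mem]
          refine ⟨by omega, hiH, hpar, fun p hp hh => hcon ⟨p, hp, hh⟩⟩
        obtain ⟨p, hpS, hp1, hp2⟩ := h1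
        obtain ⟨g3, g4, g5, g6⟩ := hSP p hpS
        have h2 : r ≡ 1 [MOD M1] := hr1.of_dvd hM1dvd
        have h3 : s0 * r ≡ s0 [MOD M1] := by
          have := h2.mul_left s0
          rw [mul_one] at this
          exact this
        have h4 : n0 + i + H ≡ s0 + i [MOD M1] := by
          have h5 : n0 + i + H = (s0 + i) + H * M1 := by omega
          rw [h5]
          have h6 : (s0 + i) + H * M1 ≡ (s0 + i) + 0 [MOD M1] :=
            Nat.ModEq.add_left _ ((Nat.modEq_zero_iff_dvd).2 (dvd_mul_left _ _))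
          exact h6
        have h7 : n + H ≡ n0 + i + H [MOD M1] := by
          rw [hnH]
          exact (h3.add_right i).trans h4.symm
        have h8 : n ≡ n0 + i [MOD M1] := Nat.ModEq.add_right_cancel' H h7
        have h9 : n ≡ n0 + i [MOD p ^ 2] := h8.of_dvd (Finset.dvd_prod_of_mem (fun p => p ^ 2) hpS)
        refine a_kill h hnodd g3 g4 g5 g6 ?_ ?_
        · exact ((h9.of_dvd (dvd_pow_self p two_ne_zero)).dvd_iff (dvd_refl p)).2 hp1
        · intro h10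
          exact hp2 ((h9.dvd_iff (dvd_refl (p ^ 2))).1 h10)
    · refine a_even_zero A hA ?_
      have h1 : Odd (s0 * r) := Nat.not_even_iff_odd.1 hNodd
      have h2 : Odd (i + H) := Nat.not_even_iff_odd.1 hpar
      have h3 : Even (s0 * r + (i + H)) := h1.add_odd h2
      have h4 : s0 * r + (i + H) = n + 2 * H := by omega
      rw [h4] at h3
      have h5 : Even (2 * H) := even_two_mul H
      exact (Nat.even_add.1 h3).2 h5
  refine ⟨s0 * r, R, hNH, haN, ?_, ?_, ?_, ?_, ?_⟩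
  · intro i hi
    have h1 := hclaim (H + 1 + i) (by omega) (by omega)
    have h2 : s0 * r - H + (H + 1 + i) = s0 * r + 1 + i := by omega
    rw [h2] at h1
    exact h1
  · intro i hi
    have h1 := hclaim (H - 1 - i) (by omega) (by omega)
    have h2 : s0 * r - H + (H - 1 - i) = s0 * r - 1 - i := by omega
    rw [h2] at h1
    exact h1
  · have h1 : R.card ≤ R'.card + 1 := by
      rw [← hTcard]
      exact card_image_le
    omega
  · intro p hp
    exact (hFmem p (hRF p hp)).2.1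
  · exact Nat.mul_le_mul_left s0 hr5

end Pool.Agent.Helper12.MM
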