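import Pool.Agent.Helper12.MM.GMany
import Pool.Agent.Helper12.MM.GGap
import Pool.Agent.Helper12.MM.GPos
import Pool.Agent.Helper12.MM.GNum

/-!
PROJECT MM, module MM-G12. Case G: sets of odd numbers with `∑ 1/p = ∞` over the primes `p ≡ 3` modulo `4` of `B`.

Suppose the sum is rational; `gap` (`0 ∉ A` is `h.pos`) gives `C`. `g_pos` gives `s0, K0, C1, H₁`. Take `H` from `many_h` (for the set `P3 = {p | p.Prime ∧ p.Coprime M ∧ p ∈ B ∧ p % 4 = 3}`) with `H ≥ H₁`, and in the range of `g_num s0 K0 C1` and `g_num2 C`. Let `N, R` be as in `g_pos`.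
`Θ = 2 ^ (H/10)` bounds `|a A n| ≤ tau n` for `n ≤ 2 N` (`abs_a_le_tau`, `g_num`). `tail_fw`, `tail_bw`, and `gap` with `δ = 3 Θ x^H + 20 (N+1) x^N + x^N` (`δ ≤ 1`: from `g_num2` and ... if `δ > 1` then `C (Θ + 1) δ < 1` gives nothing when `C < 1`: apply `g_num2` with `max C 1` instead of `C`)
give `1 ≤ C (|a N| + 1) δ ≤ max C 1 (Θ + 1) δ < 1`.
-/

set_option autoImplicit false

namespace Pool.Agent.Helper12.MM

open Finset Filter Pool.Agent.Helper9.Fib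

open Classical in
theorem case_G {A B : Set ℕ} {M : ℕ} (h : MA A B M) (hA : ∀ n ∈ A, ¬ Even n) (hne : A.Nonempty)
    (hns : ¬ Summable (fun p : ℕ => if p.Prime ∧ p.Coprime M ∧ p ∈ B ∧ p % 4 = 3 then 1 / (p : ℝ) else 0)) :
    Irrational (∑' n : ℕ, if n ∈ A then 1 / (Nat.fib n : ℝ) else 0) := by
  by_contra hrat
  obtain ⟨C, hC, hgap⟩ := gap A h.pos hrat
  obtain ⟨s0, K0, C1, H₁, hpos⟩ := g_pos h hA hne hns
  have hC' : 0 < max C 1 := lt_max_of_lt_left hC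
  obtain ⟨H₂, hH₂⟩ := eventually_atTop.1 ((g_num s0 K0 C1).and (g_num2 (max C 1) hC'))
  obtain ⟨P3, hP3⟩ : ∃ P3 : Set ℕ, ∀ p, p ∈ P3 ↔ (p.Prime ∧ p.Coprime M ∧ p ∈ B ∧ p % 4 = 3) :=
    ⟨{p : ℕ | p.Prime ∧ p.Coprime M ∧ p ∈ B ∧ p % 4 = 3}, fun p => Iff.rfl⟩
  obtain ⟨H, hH, hHc⟩ := many_h P3 (fun h' => hns (h'.congr fun p => by
    by_cases hp : p.Prime ∧ p.Coprime M ∧ p ∈ B ∧ p % 4 = 3
    · rw [if_pos hp, if_pos ((hP3 p).2 hp)]
    · rw [if_neg hp, if_neg (fun h1 => hp ((hP3 p).1 h1))])) (max H₁ H₂)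
  have hHc' : H ≤ ((Ioc (4 * H) (16 * H ^ 2)).filter
      (fun p => p.Prime ∧ p.Coprime M ∧ p ∈ B ∧ p % 4 = 3)).card := by
    refine hHc.trans (Finset.card_le_card ?_)
    intro p hp
    have hp' := Finset.mem_filter.1 hp
    exact Finset.mem_filter.2 ⟨hp'.1, (hP3 p).1 hp'.2⟩
  obtain ⟨N, R, hHN, haN, hz1, hz2, hR1, hR2, hN⟩ :=
    hpos H ((le_max_left _ _).trans hH) hHc'
  obtain ⟨hnum, hnum2⟩ := hH₂ H ((le_max_right _ _).trans hH)
  have hb : ∀ n, n ≤ 2 * N → |(a A n : ℝ)| ≤ 2 ^ (H / 10) := by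
    intro n hn
    have h1 := abs_a_le_tau A n
    have h2 := hnum R N hR1 hR2 hN n hn
    have h3 : |(a A n : ℝ)| ≤ (n.divisors.card : ℝ) := by
      exact_mod_cast h1
    exact h3.trans h2
  have hΘ : (0 : ℝ) ≤ 2 ^ (H / 10) := by positivity
  have hx : 0 < x := x_pos
  have h4 := tail_fw A N H _ hΘ hHN hz1 hb
  have h5 := tail_bw A N H _ hΘ hHN hz2 hb
  have h6 := hnum2 N hHN
  set Θ : ℝ := 2 ^ (H / 10) with hΘdef
  set δ : ℝ := 3 * Θ * x ^ H + 20 * (N + 1) * x ^ N + x ^ N with hδ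
  have hδ0 : 0 ≤ δ := by positivity
  have h7 : 1 ≤ max C 1 := le_max_right _ _
  have hδ1 : δ ≤ 1 := by
    have h8 : δ ≤ max C 1 * (Θ + 1) * δ := by
      have h9 : 1 ≤ max C 1 * (Θ + 1) := by nlinarith
      nlinarith
    linarith
  have h8 := hgap N δ hδ0 hδ1 haN (fun n => (h4 n).trans (by
      rw [hδ]
      have : 0 ≤ x ^ N := by positivity
      linarith)) (h5.trans (by
      rw [hδ]
      have h9 : 0 ≤ 20 * ((N : ℝ) + 1) * x ^ N := by positivity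
      have h10 : 0 ≤ x ^ N := by positivity
      linarith)) (by
      rw [hδ]
      have h9 : 0 ≤ 20 * ((N : ℝ) + 1) * x ^ N := by positivity
      have h10 : 0 ≤ 3 * Θ * x ^ H := by positivity
      linarith)
  have h9 : C * (|(a A N : ℝ)| + 1) * δ ≤ max C 1 * (Θ + 1) * δ := by
    apply mul_le_mul_of_nonneg_right _ hδ0
    apply mul_le_mul (le_max_left _ _) _ (by positivity) (by positivity)
    have := hb N (by omega)
    linarith
  linarith

end Pool.Agent.Helper12.MM
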