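import Mathlib

/-!
PROJECT MM, module MM-33. The number of codes.

`code_le`: the left side is the number of the functions `F` on `core` (as elements of `Fintype.piFinset` / `core.pi` over the finite set `V' = insert none (image some (Vals ×ˢ univ))` of `Option (ℤ × Bool)`) with at most `S1` values `some (0, _)` and at most `S2`
values `some (v, _)`, `v ≠ 0`. Put the weight `ω none = 1`, `ω (some (0, _)) = 1/c1`, `ω (some (v, _)) = 1/c2` (`v ≠ 0`). For each such `F`: `1 ≤ c1 ^ S1 * c2 ^ S2 * ∏_{i ∈ core} ω (F i)` (`1 ≤ c1, c2`), and the sum over all functions of the product is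
`∏_{i ∈ core} ∑_v ω v ≤ (1 + 2/c1 + 2 |Vals|/c2) ^ |core|` (`Finset.prod_univ_sum` / `Finset.prod_sum` / `Finset.sum_prod_piFinset`).
`count_code`: the map `t ↦ (F_t, (st t d)_{d ∈ Ds})`, `F_t i = some (x t i, decide (i ∈ t))` for `i ∈ rc t`, `none` otherwise, is injective on the subsets of `J` by `hinj`; its image has at most `|Bx| ^ |Ds| * (bound of code_le)` elements.
(Work with functions `core → Option (ℤ × Bool)` on the subtype, or with dependent functions `∀ i ∈ core, ...`, as you like; `code_le` may be restated.)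
-/

set_option autoImplicit false

namespace Pool.Agent.Helper12.MM

open Finset

/-- the weight -/
private noncomputable def om (c1 c2 : ℕ) : Option (ℤ × Bool) → ℝ
  | none => 1
  | some p => if p.1 = 0 then 1 / (c1 : ℝ) else 1 / (c2 : ℝ)

private theorem om_nonneg (c1 c2 : ℕ) (v : Option (ℤ × Bool)) : 0 ≤ om c1 c2 v := by
  cases v with
  | none => simp [om]
  | some p =>
    simp only [om]
    split_ifs <;> positivity

private theorem om_sum (Vals : Finset ℤ) (c1 c2 : ℕ) :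
    ∑ v ∈ insert none ((Vals ×ˢ (univ : Finset Bool)).image
      (some : ℤ × Bool → Option (ℤ × Bool))), om c1 c2 v ≤
      1 + 2 / (c1 : ℝ) + 2 * Vals.card / (c2 : ℝ) := by
  rw [Finset.sum_insert (by simp), Finset.sum_image (by simp), Finset.sum_product]
  have h1 : ∀ v ∈ Vals, ∑ b : Bool, om c1 c2 (some (v, b)) ≤
      2 * ((if v = 0 then 1 / (c1 : ℝ) else 0) + 1 / (c2 : ℝ)) := by
    intro v _
    rw [Fintype.sum_bool]
    simp only [om]
    have h2 : (0 : ℝ) ≤ 1 / (c2 : ℝ) := by positivity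
    split_ifs <;> linarith
  have h2 := Finset.sum_le_sum h1
  rw [← Finset.mul_sum, Finset.sum_add_distrib, Finset.sum_const, nsmul_eq_mul] at h2
  have h3 : ∑ v ∈ Vals, (if v = 0 then 1 / (c1 : ℝ) else 0) ≤ 1 / (c1 : ℝ) := by
    rw [Finset.sum_ite_eq']
    have h4 : (0 : ℝ) ≤ 1 / (c1 : ℝ) := by positivity
    split_ifs
    · exact le_rfl
    · exact h4
  have h5 : om c1 c2 none = 1 := rfl
  have h6 : 2 / (c1 : ℝ) = 2 * (1 / (c1 : ℝ)) := by ring
  have h7 : 2 * (Vals.card : ℝ) / (c2 : ℝ) = 2 * ((Vals.card : ℝ) * (1 / (c2 : ℝ))) := by ring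
  rw [h5, h6, h7]
  linarith

open Classical in
private theorem om_prod {ι : Type} [Fintype ι] (c1 c2 S1 S2 : ℕ) (hc1 : 1 ≤ c1) (hc2 : 1 ≤ c2)
    (F : ι → Option (ℤ × Bool))
    (h1 : (univ.filter (fun i => ∃ β, F i = some (0, β))).card ≤ S1)
    (h2 : (univ.filter (fun i => ∃ v β, v ≠ 0 ∧ F i = some (v, β))).card ≤ S2) :
    1 ≤ (c1 : ℝ) ^ S1 * (c2 : ℝ) ^ S2 * ∏ i, om c1 c2 (F i) := by
  have hp1 : (0 : ℝ) < c1 := by exact_mod_cast hc1
  have hp2 : (0 : ℝ) < c2 := by exact_mod_cast hc2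
  have hq1 : (1 : ℝ) ≤ c1 := by exact_mod_cast hc1
  have hq2 : (1 : ℝ) ≤ c2 := by exact_mod_cast hc2
  have h3 : ∏ i, om c1 c2 (F i) = ∏ i, ((if ∃ β, F i = some (0, β) then 1 / (c1 : ℝ) else 1) *
      (if ∃ v β, v ≠ 0 ∧ F i = some (v, β) then 1 / (c2 : ℝ) else 1)) := by
    refine Finset.prod_congr rfl fun i _ => ?_
    rcases hF : F i with _ | ⟨v, β⟩
    · simp [om]
    · by_cases hv : v = 0
      · subst hv
        simp [om]
      · have e1 : ¬ ∃ β', (some (v, β) : Option (ℤ × Bool)) = some (0, β') := by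
          rintro ⟨β', h⟩
          simp only [Option.some.injEq, Prod.mk.injEq] at h
          exact hv h.1
        have e2 : ∃ v' β', v' ≠ 0 ∧ (some (v, β) : Option (ℤ × Bool)) = some (v', β') :=
          ⟨v, β, hv, rfl⟩
        rw [if_neg e1, if_pos e2, one_mul]
        simp [om, hv]
  rw [h3, Finset.prod_mul_distrib, Finset.prod_ite, Finset.prod_ite, Finset.prod_const,
    Finset.prod_const_one, Finset.prod_const, Finset.prod_const_one, mul_one, mul_one]
  set a := (univ.filter (fun i => ∃ β, F i = some (0, β))).card with ha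
  set b := (univ.filter (fun i => ∃ v β, v ≠ 0 ∧ F i = some (v, β))).card with hb
  have h4 : (c1 : ℝ) ^ S1 = (c1 : ℝ) ^ (S1 - a) * (c1 : ℝ) ^ a := by
    rw [← pow_add, Nat.sub_add_cancel h1]
  have h5 : (c2 : ℝ) ^ S2 = (c2 : ℝ) ^ (S2 - b) * (c2 : ℝ) ^ b := by
    rw [← pow_add, Nat.sub_add_cancel h2]
  have h6 : (c1 : ℝ) ^ a * (1 / (c1 : ℝ)) ^ a = 1 := by
    rw [← mul_pow, mul_one_div_cancel hp1.ne', one_pow]
  have h7 : (c2 : ℝ) ^ b * (1 / (c2 : ℝ)) ^ b = 1 := by
    rw [← mul_pow, mul_one_div_cancel hp2.ne', one_pow]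
  have h8 : (c1 : ℝ) ^ S1 * (c2 : ℝ) ^ S2 * ((1 / (c1 : ℝ)) ^ a * (1 / (c2 : ℝ)) ^ b) =
      (c1 : ℝ) ^ (S1 - a) * (c2 : ℝ) ^ (S2 - b) := by
    rw [h4, h5]
    calc (c1 : ℝ) ^ (S1 - a) * (c1 : ℝ) ^ a * ((c2 : ℝ) ^ (S2 - b) * (c2 : ℝ) ^ b) *
        ((1 / (c1 : ℝ)) ^ a * (1 / (c2 : ℝ)) ^ b)
        = (c1 : ℝ) ^ (S1 - a) * (c2 : ℝ) ^ (S2 - b) * (((c1 : ℝ) ^ a * (1 / (c1 : ℝ)) ^ a) *
          ((c2 : ℝ) ^ b * (1 / (c2 : ℝ)) ^ b)) := by ring
      _ = _ := by rw [h6, h7]; ring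
  rw [h8]
  exact one_le_mul_of_one_le_of_one_le (one_le_pow₀ hq1) (one_le_pow₀ hq2)

open Classical in
theorem code_le (core : Finset ℕ) (Vals : Finset ℤ) (S1 S2 c1 c2 : ℕ) (hc1 : 1 ≤ c1) (hc2 : 1 ≤ c2) :
    (((Fintype.piFinset (fun _ : core =>
      insert none ((Vals ×ˢ (univ : Finset Bool)).image (some : ℤ × Bool → Option (ℤ × Bool))))).filter
      (fun F => (univ.filter (fun i => ∃ β, F i = some (0, β))).card ≤ S1 ∧
        (univ.filter (fun i => ∃ v β, v ≠ 0 ∧ F i = some (v, β))).card ≤ S2)).card : ℝ) ≤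
      (c1 : ℝ) ^ S1 * (c2 : ℝ) ^ S2 * (1 + 2 / (c1 : ℝ) + 2 * Vals.card / (c2 : ℝ)) ^ core.card := by
  set P := Fintype.piFinset (fun _ : core =>
      insert none ((Vals ×ˢ (univ : Finset Bool)).image
        (some : ℤ × Bool → Option (ℤ × Bool)))) with hP
  set T := P.filter (fun F => (univ.filter (fun i => ∃ β, F i = some (0, β))).card ≤ S1 ∧
        (univ.filter (fun i => ∃ v β, v ≠ 0 ∧ F i = some (v, β))).card ≤ S2) with hT
  have h1 : (T.card : ℝ) ≤ ∑ F ∈ T, (c1 : ℝ) ^ S1 * (c2 : ℝ) ^ S2 * ∏ i, om c1 c2 (F i) := by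
    rw [Finset.cast_card]
    refine Finset.sum_le_sum fun F hF => ?_
    obtain ⟨_, h2, h3⟩ := Finset.mem_filter.1 hF
    exact om_prod c1 c2 S1 S2 hc1 hc2 F h2 h3
  have h2 : ∑ F ∈ T, (c1 : ℝ) ^ S1 * (c2 : ℝ) ^ S2 * ∏ i, om c1 c2 (F i) ≤
      ∑ F ∈ P, (c1 : ℝ) ^ S1 * (c2 : ℝ) ^ S2 * ∏ i, om c1 c2 (F i) := by
    refine Finset.sum_le_sum_of_subset_of_nonneg (Finset.filter_subset _ _) fun F _ _ => ?_
    exact mul_nonneg (by positivity) (Finset.prod_nonneg fun i _ => om_nonneg c1 c2 _)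
  refine (h1.trans h2).trans ?_
  rw [← Finset.mul_sum, hP, ← Finset.prod_univ_sum, Finset.prod_const, Finset.card_univ,
    Fintype.card_coe]
  refine mul_le_mul_of_nonneg_left ?_ (by positivity)
  exact pow_le_pow_left₀ (Finset.sum_nonneg fun v _ => om_nonneg c1 c2 v) (om_sum Vals c1 c2) _

theorem count_code (core J : Finset ℕ) (hJ : J ⊆ core) (Ds : Finset ℕ) (Bx : Finset (ℤ × ℤ))
    (Vals : Finset ℤ) (x : Finset ℕ → ℕ → ℤ) (st : Finset ℕ → ℕ → ℤ × ℤ) (rc : Finset ℕ → Finset ℕ)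
    (S1 S2 c1 c2 : ℕ) (hc1 : 1 ≤ c1) (hc2 : 1 ≤ c2)
    (hrc : ∀ t ⊆ J, rc t ⊆ core) (hx : ∀ t ⊆ J, ∀ i ∈ rc t, x t i ∈ Vals)
    (hz : ∀ t ⊆ J, ((rc t).filter (fun i => x t i = 0)).card ≤ S1)
    (hnz : ∀ t ⊆ J, ((rc t).filter (fun i => x t i ≠ 0)).card ≤ S2)
    (hst : ∀ t ⊆ J, ∀ d ∈ Ds, st t d ∈ Bx)
    (hinj : ∀ t ⊆ J, ∀ t' ⊆ J, rc t = rc t' → (∀ i ∈ rc t, x t i = x t' i) →
      (∀ i ∈ rc t, (i ∈ t ↔ i ∈ t')) → (∀ d ∈ Ds, st t d = st t' d) → t = t') :
    (2 : ℝ) ^ J.card ≤ (Bx.card : ℝ) ^ Ds.card *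
      ((c1 : ℝ) ^ S1 * (c2 : ℝ) ^ S2 * (1 + 2 / (c1 : ℝ) + 2 * Vals.card / (c2 : ℝ)) ^ core.card) := by
  classical
  have hcode := code_le core Vals S1 S2 c1 c2 hc1 hc2
  set T := (Fintype.piFinset (fun _ : core =>
      insert none ((Vals ×ˢ (univ : Finset Bool)).image (some : ℤ × Bool → Option (ℤ × Bool))))).filter
      (fun F => (univ.filter (fun i => ∃ β, F i = some (0, β))).card ≤ S1 ∧
        (univ.filter (fun i => ∃ v β, v ≠ 0 ∧ F i = some (v, β))).card ≤ S2) with hT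
  set D := Fintype.piFinset (fun _ : Ds => Bx) with hD
  let Fm : Finset ℕ → (core → Option (ℤ × Bool)) := fun t i =>
    if (i : ℕ) ∈ rc t then some (x t i, decide ((i : ℕ) ∈ t)) else none
  let Gm : Finset ℕ → (Ds → ℤ × ℤ) := fun t d => st t d
  have hmap : ∀ t ∈ J.powerset, (Fm t, Gm t) ∈ T ×ˢ D := by
    intro t ht
    have htJ := Finset.mem_powerset.1 ht
    rw [Finset.mem_product]
    refine ⟨?_, ?_⟩
    · rw [hT, Finset.mem_filter, Fintype.mem_piFinset]
      refine ⟨fun i => ?_, ?_, ?_⟩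
      · by_cases hi : (i : ℕ) ∈ rc t
        · simp only [Fm, if_pos hi]
          apply Finset.mem_insert_of_mem
          apply Finset.mem_image_of_mem
          rw [Finset.mem_product]
          exact ⟨hx t htJ _ hi, Finset.mem_univ _⟩
        · simp only [Fm, if_neg hi]
          exact Finset.mem_insert_self _ _
      · refine le_trans ?_ (hz t htJ)
        refine Finset.card_le_card_of_injOn (fun i => (i : ℕ)) ?_ ?_
        · intro i hi
          obtain ⟨_, β, hβ⟩ := Finset.mem_filter.1 (Finset.mem_coe.1 hi)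
          rw [Finset.mem_coe, Finset.mem_filter]
          by_cases hi' : (i : ℕ) ∈ rc t
          · simp only [Fm, if_pos hi', Option.some.injEq, Prod.mk.injEq] at hβ
            exact ⟨hi', hβ.1⟩
          · simp only [Fm, if_neg hi'] at hβ
            exact absurd hβ (by simp)
        · intro i _ j _ hij
          exact Subtype.ext hij
      · refine le_trans ?_ (hnz t htJ)
        refine Finset.card_le_card_of_injOn (fun i => (i : ℕ)) ?_ ?_
        · intro i hi
          obtain ⟨_, v, β, hv, hβ⟩ := Finset.mem_filter.1 (Finset.mem_coe.1 hi)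
          rw [Finset.mem_coe, Finset.mem_filter]
          by_cases hi' : (i : ℕ) ∈ rc t
          · simp only [Fm, if_pos hi', Option.some.injEq, Prod.mk.injEq] at hβ
            refine ⟨hi', ?_⟩
            rw [hβ.1]
            exact hv
          · simp only [Fm, if_neg hi'] at hβ
            exact absurd hβ (by simp)
        · intro i _ j _ hij
          exact Subtype.ext hij
    · rw [hD, Fintype.mem_piFinset]
      intro d
      exact hst t htJ d d.2
  have hinj' : Set.InjOn (fun t => (Fm t, Gm t)) (J.powerset : Set (Finset ℕ)) := by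
    intro t ht t' ht' h
    have htJ := Finset.mem_powerset.1 (Finset.mem_coe.1 ht)
    have htJ' := Finset.mem_powerset.1 (Finset.mem_coe.1 ht')
    simp only [Prod.mk.injEq] at h
    obtain ⟨hF, hG⟩ := h
    have hFi : ∀ i (hi : i ∈ core), Fm t ⟨i, hi⟩ = Fm t' ⟨i, hi⟩ := fun i hi => congrFun hF _
    have hrcc : ∀ i ∈ core, (i ∈ rc t ↔ i ∈ rc t') := by
      intro i hi
      have h1 := hFi i hi
      by_cases a : i ∈ rc t
      · by_cases b : i ∈ rc t'
        · exact ⟨fun _ => b, fun _ => a⟩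
        · simp [Fm, a, b] at h1
      · by_cases b : i ∈ rc t'
        · simp [Fm, a, b] at h1
        · exact ⟨fun h => absurd h a, fun h => absurd h b⟩
    have hrceq : rc t = rc t' := by
      ext i
      constructor
      · intro hi
        exact (hrcc i (hrc t htJ hi)).1 hi
      · intro hi
        exact (hrcc i (hrc t' htJ' hi)).2 hi
    have hval : ∀ i ∈ rc t, x t i = x t' i ∧ (i ∈ t ↔ i ∈ t') := by
      intro i hi
      have hi' : i ∈ rc t' := hrceq ▸ hi
      have h1 := hFi i (hrc t htJ hi)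
      simp only [Fm, if_pos hi, if_pos hi', Option.some.injEq, Prod.mk.injEq,
        decide_eq_decide] at h1
      exact h1
    refine hinj t htJ t' htJ' hrceq (fun i hi => (hval i hi).1) (fun i hi => (hval i hi).2) ?_
    intro d hd
    exact congrFun hG ⟨d, hd⟩
  have hcard := Finset.card_le_card_of_injOn (fun t => (Fm t, Gm t))
    (fun t ht => hmap t (Finset.mem_coe.1 ht)) hinj'
  rw [Finset.card_powerset, Finset.card_product, hD, Fintype.card_piFinset, Finset.prod_const,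
    Finset.card_univ, Fintype.card_coe] at hcard
  have h1 : (2 : ℝ) ^ J.card ≤ (T.card : ℝ) * (Bx.card : ℝ) ^ Ds.card := by exact_mod_cast hcard
  refine h1.trans ?_
  rw [mul_comm]
  exact mul_le_mul_of_nonneg_left hcode (by positivity)

end Pool.Agent.Helper12.MM
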