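import Pool.Agent.Helper12.MM.Defs
import Pool.Agent.Helper9.Fib.IrrSet

/-!
PROJECT MM, module MM-C1. If `∑ 1/p` over the primes of `B` (not dividing `M`) converges then `∑_{n ∈ A} 1/n` converges.

Let `P = {p prime : p ∣ M} ∪ {p prime : p ∈ B}` and `f n = 1/n` if every prime `p` with `p ∣ n`, `p ^ 2 ∤ n` is in `P`, and `f n = 0` otherwise (`f 0 = 0`). Every `n ∈ A` satisfies this: if `p ∤ M`, `p ∣ n`, `p ^ 2 ∤ n` then `n = (n/p) p` with coprime factors, `h.mul` gives `p ∈ B`. So `1/n ≤ f n` on `A`.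
`f` is multiplicative on coprime numbers and `0 ≤ f n ≤ 1/n`. By `EulerProduct.summable_and_hasSum_smoothNumbers_prod_primesBelow_tsum` (`f 1 = 1`, coprime multiplicativity, `∑_e ‖f (p^e)‖` summable) the sum of `f` over `(N)`-smooth numbers is `∏_{p < N} ∑_e f (p ^ e)`,
and `∑_e f (p ^ e) = 1 + [p ∈ P]/p + ∑_{e ≥ 2} p ^ (-e) ≤ exp ([p ∈ P]/p + 2/p ^ 2)`; hence all partial sums `∑_{n < N} f n` are bounded by `exp (∑_{p ∈ P} 1/p + 2 ∑ 1/p ^ 2) < ∞` (`P` = finitely many primes and the primes of `B`). So `f` is summable, and `wA A ≤ f`.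
(`Fib.wA A n = if n ∈ A then 1/n else 0`, see `Pool/Agent/Helper9/Fib/CaseOne.lean` and `WindowA`.)
-/

set_option autoImplicit false

namespace Pool.Agent.Helper12.MM

open Finset Pool.Agent.Helper9.Fib

private def PP (B : Set ℕ) (M n : ℕ) : Prop :=
  n ≠ 0 ∧ ∀ p : ℕ, p.Prime → p ∣ n → ¬ p ^ 2 ∣ n → p ∣ M ∨ p ∈ B

open Classical in
private noncomputable def ff (B : Set ℕ) (M n : ℕ) : ℝ := if PP B M n then 1 / (n : ℝ) else 0

private lemma ff_nonneg (B : Set ℕ) (M n : ℕ) : 0 ≤ ff B M n := by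
  unfold ff
  split_ifs
  · positivity
  · exact le_rfl

private lemma ff_le (B : Set ℕ) (M n : ℕ) : ff B M n ≤ 1 / (n : ℝ) := by
  unfold ff
  split_ifs
  · exact le_rfl
  · positivity

private lemma ff_zero (B : Set ℕ) (M : ℕ) : ff B M 0 = 0 := by
  unfold ff PP
  simp

private lemma ff_one (B : Set ℕ) (M : ℕ) : ff B M 1 = 1 := by
  unfold ff
  rw [if_pos]
  · simp
  · refine ⟨one_ne_zero, fun p hp hp1 _ => ?_⟩
    exact absurd (Nat.dvd_one.1 hp1) hp.one_lt.ne'

private lemma PP_mul (B : Set ℕ) (M : ℕ) {m n : ℕ} (hm : m ≠ 0) (hn : n ≠ 0) (hc : m.Coprime n) :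
    PP B M (m * n) ↔ PP B M m ∧ PP B M n := by
  have key : ∀ {a b : ℕ}, a ≠ 0 → b ≠ 0 → a.Coprime b → ∀ p : ℕ, p.Prime → p ∣ a →
      (p ^ 2 ∣ a * b ↔ p ^ 2 ∣ a) := by
    intro a b _ _ hab p hp hpa
    have h1 : (p ^ 2).Coprime b := Nat.Coprime.pow_left 2 (Nat.Coprime.coprime_dvd_left hpa hab)
    exact ⟨fun h => h1.dvd_of_dvd_mul_right h, fun h => Dvd.dvd.mul_right h b⟩
  constructor
  · rintro ⟨_, h⟩
    refine ⟨⟨hm, fun p hp h1 h2 => ?_⟩, ⟨hn, fun p hp h1 h2 => ?_⟩⟩
    · refine h p hp (Dvd.dvd.mul_right h1 n) ?_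
      rw [key hm hn hc p hp h1]
      exact h2
    · refine h p hp (Dvd.dvd.mul_left h1 m) ?_
      rw [mul_comm, key hn hm hc.symm p hp h1]
      exact h2
  · rintro ⟨⟨_, h1⟩, ⟨_, h2⟩⟩
    refine ⟨mul_ne_zero hm hn, fun p hp h3 h4 => ?_⟩
    rcases (Nat.Prime.dvd_mul hp).1 h3 with h5 | h5
    · exact h1 p hp h5 (fun h6 => h4 (Dvd.dvd.mul_right h6 n))
    · exact h2 p hp h5 (fun h6 => h4 (Dvd.dvd.mul_left h6 m))

private lemma ff_mul (B : Set ℕ) (M : ℕ) {m n : ℕ} (hc : m.Coprime n) :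
    ff B M (m * n) = ff B M m * ff B M n := by
  by_cases hm : m = 0
  · subst hm
    rw [zero_mul, ff_zero, zero_mul]
  by_cases hn : n = 0
  · subst hn
    rw [mul_zero, ff_zero, mul_zero]
  have h := PP_mul B M hm hn hc
  unfold ff
  by_cases h1 : PP B M m
  · by_cases h2 : PP B M n
    · rw [if_pos h1, if_pos h2, if_pos (h.2 ⟨h1, h2⟩)]
      push_cast
      rw [one_div_mul_one_div]
    · rw [if_neg h2, if_neg (fun h3 => h2 (h.1 h3).2), mul_zero]
  · rw [if_neg h1, if_neg (fun h3 => h1 (h.1 h3).1), zero_mul]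

private lemma ff_pow_le (B : Set ℕ) (M p e : ℕ) : ff B M (p ^ e) ≤ (1 / (p : ℝ)) ^ e := by
  refine (ff_le B M _).trans ?_
  rw [Nat.cast_pow, one_div_pow]

private lemma geo_summable {p : ℕ} (hp : p.Prime) : Summable (fun e : ℕ => (1 / (p : ℝ)) ^ e) := by
  have h2 : (2 : ℝ) ≤ p := by exact_mod_cast hp.two_le
  refine summable_geometric_of_lt_one (by positivity) ?_
  rw [div_lt_one (by linarith)]
  linarith

private lemma ff_pow_summable (B : Set ℕ) (M : ℕ) {p : ℕ} (hp : p.Prime) :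
    Summable (fun e : ℕ => ff B M (p ^ e)) :=
  Summable.of_nonneg_of_le (fun e => ff_nonneg B M _) (fun e => ff_pow_le B M p e) (geo_summable hp)

open Classical in
private lemma tsum_ff_pow_le (B : Set ℕ) (M : ℕ) {p : ℕ} (hp : p.Prime) :
    ∑' e : ℕ, ff B M (p ^ e) ≤
      Real.exp ((if p.Prime ∧ (p ∣ M ∨ p ∈ B) then 1 / (p : ℝ) else 0) + 2 * (1 / (p : ℝ) ^ 2)) := by
  have h2 : (2 : ℝ) ≤ p := by exact_mod_cast hp.two_le
  have hs := ff_pow_summable B M hp
  have e1 : ∑' e : ℕ, ff B M (p ^ e) =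
      ∑ e ∈ range 2, ff B M (p ^ e) + ∑' e : ℕ, ff B M (p ^ (e + 2)) :=
    (hs.sum_add_tsum_nat_add 2).symm
  have e2 : ∑' e : ℕ, ff B M (p ^ (e + 2)) ≤ 2 * (1 / (p : ℝ) ^ 2) := by
    have h3 : ∑' e : ℕ, ff B M (p ^ (e + 2)) ≤ ∑' e : ℕ, (1 / (p : ℝ)) ^ e * (1 / (p : ℝ)) ^ 2 := by
      refine Summable.tsum_le_tsum (fun e => ?_) ((summable_nat_add_iff 2).2 hs)
        ((geo_summable hp).mul_right _)
      rw [← pow_add]
      exact ff_pow_le B M p (e + 2)
    rw [tsum_mul_right, tsum_geometric_of_lt_one (by positivity)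
      (by rw [div_lt_one (by linarith)]; linarith)] at h3
    refine h3.trans ?_
    rw [one_div_pow]
    refine mul_le_mul_of_nonneg_right ?_ (by positivity)
    have h4 : (1 : ℝ) / p ≤ 1 / 2 := by
      exact one_div_le_one_div_of_le (by norm_num) h2
    have h5 : (1 : ℝ) / 2 ≤ 1 - 1 / (p : ℝ) := by linarith
    calc (1 - 1 / (p : ℝ))⁻¹ ≤ ((1 : ℝ) / 2)⁻¹ := inv_anti₀ (by norm_num) h5
      _ = 2 := by norm_num
  have e3 : ff B M (p ^ 1) ≤ if p.Prime ∧ (p ∣ M ∨ p ∈ B) then 1 / (p : ℝ) else 0 := by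
    rw [pow_one]
    by_cases h3 : p ∣ M ∨ p ∈ B
    · rw [if_pos ⟨hp, h3⟩]
      exact ff_le B M p
    · rw [if_neg (fun h4 => h3 h4.2)]
      unfold ff
      rw [if_neg]
      rintro ⟨_, h4⟩
      refine h3 (h4 p hp dvd_rfl ?_)
      intro h5
      have h6 := Nat.le_of_dvd hp.pos h5
      have h7 := hp.two_le
      nlinarith
  have e4 : ∑' e : ℕ, ff B M (p ^ e) ≤
      ((if p.Prime ∧ (p ∣ M ∨ p ∈ B) then 1 / (p : ℝ) else 0) + 2 * (1 / (p : ℝ) ^ 2)) + 1 := by
    rw [e1, sum_range_succ, sum_range_succ, sum_range_zero, pow_zero, ff_one]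
    linarith
  exact e4.trans (Real.add_one_le_exp _)

open Classical in
private lemma g_summable {B : Set ℕ} {M : ℕ} (hM : 0 < M)
    (hs : Summable (fun p : ℕ => if p.Prime ∧ p.Coprime M ∧ p ∈ B then 1 / (p : ℝ) else 0)) :
    Summable (fun p : ℕ => (if p.Prime ∧ (p ∣ M ∨ p ∈ B) then 1 / (p : ℝ) else 0) +
      2 * (1 / (p : ℝ) ^ 2)) := by
  refine Summable.add ?_ ?_
  · have h1 : Summable (fun p : ℕ => if p ∣ M then 1 / (p : ℝ) else 0) := by
      refine summable_of_ne_finset_zero (s := M.divisors) (fun p hp => ?_)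
      rw [if_neg]
      intro h
      exact hp (Nat.mem_divisors.2 ⟨h, hM.ne'⟩)
    refine Summable.of_nonneg_of_le (fun p => ?_) (fun p => ?_) (hs.add h1)
    · split_ifs
      · positivity
      · exact le_rfl
    · by_cases h2 : p.Prime ∧ (p ∣ M ∨ p ∈ B)
      · rw [if_pos h2]
        by_cases h3 : p ∣ M
        · rw [if_pos h3]
          have : 0 ≤ (if p.Prime ∧ p.Coprime M ∧ p ∈ B then 1 / (p : ℝ) else 0) := by
            split_ifs
            · positivity
            · exact le_rfl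
          linarith
        · rw [if_neg h3, if_pos ⟨h2.1, (Nat.Prime.coprime_iff_not_dvd h2.1).2 h3,
            h2.2.resolve_left h3⟩, add_zero]
      · rw [if_neg h2]
        have h3 : 0 ≤ (if p.Prime ∧ p.Coprime M ∧ p ∈ B then 1 / (p : ℝ) else 0) := by
          split_ifs
          · positivity
          · exact le_rfl
        have h4 : 0 ≤ (if p ∣ M then 1 / (p : ℝ) else 0) := by
          split_ifs
          · positivity
          · exact le_rfl
        exact add_nonneg h3 h4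
  · exact (Real.summable_one_div_nat_pow.2 (by norm_num)).mul_left 2

private lemma ff_summable {B : Set ℕ} {M : ℕ} (hM : 0 < M)
    (hs : Summable (fun p : ℕ => (open Classical in if p.Prime ∧ p.Coprime M ∧ p ∈ B then 1 / (p : ℝ) else 0))) :
    Summable (ff B M) := by
  classical
  have hg := g_summable hM hs
  refine summable_of_sum_range_le (c := Real.exp (∑' p : ℕ,
    ((if p.Prime ∧ (p ∣ M ∨ p ∈ B) then 1 / (p : ℝ) else 0) + 2 * (1 / (p : ℝ) ^ 2))))
    (fun n => ff_nonneg B M n) (fun N => ?_)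
  have hE := EulerProduct.summable_and_hasSum_smoothNumbers_prod_primesBelow_tsum
    (f := ff B M) (ff_one B M) (fun {m n} hc => ff_mul B M hc)
    (fun {p} hp => by
      have := ff_pow_summable B M hp
      simpa [Real.norm_of_nonneg (ff_nonneg B M _)] using this) N
  have h1 : Summable (fun m : N.smoothNumbers => ff B M m) := by
    have := hE.1
    exact this.of_norm
  have h2 : ∑ n ∈ range N, ff B M n ≤ ∑' m : N.smoothNumbers, ff B M m := by
    rw [_root_.tsum_subtype]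
    have h3 : Summable (Set.indicator (N.smoothNumbers) (ff B M)) := by
      exact summable_subtype_iff_indicator.1 h1
    have h4 : ∑ n ∈ range N, ff B M n =
        ∑ n ∈ range N, Set.indicator (N.smoothNumbers) (ff B M) n := by
      refine sum_congr rfl (fun n hn => ?_)
      by_cases hn0 : n = 0
      · subst hn0
        rw [ff_zero]
        symm
        apply Set.indicator_apply_eq_zero.2
        intro _
        exact ff_zero B M
      · rw [Set.indicator_of_mem]
        exact Nat.mem_smoothNumbers_of_lt (Nat.pos_of_ne_zero hn0) (mem_range.1 hn)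
    rw [h4]
    exact h3.sum_le_tsum _ (fun i _ => Set.indicator_nonneg (fun x _ => ff_nonneg B M x) i)
  rw [hE.2.tsum_eq] at h2
  refine h2.trans ?_
  calc ∏ p ∈ N.primesBelow, ∑' e : ℕ, ff B M (p ^ e)
      ≤ ∏ p ∈ N.primesBelow, Real.exp ((if p.Prime ∧ (p ∣ M ∨ p ∈ B) then 1 / (p : ℝ) else 0) +
        2 * (1 / (p : ℝ) ^ 2)) := by
        refine prod_le_prod (fun p _ => tsum_nonneg (fun _ => ff_nonneg B M _)) (fun p hp => ?_)
        exact tsum_ff_pow_le B M (Nat.prime_of_mem_primesBelow hp)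
    _ = Real.exp (∑ p ∈ N.primesBelow, ((if p.Prime ∧ (p ∣ M ∨ p ∈ B) then 1 / (p : ℝ) else 0) +
        2 * (1 / (p : ℝ) ^ 2))) := (Real.exp_sum _ _).symm
    _ ≤ _ := by
        refine Real.exp_le_exp.2 (hg.sum_le_tsum _ (fun i _ => ?_))
        refine add_nonneg ?_ (by positivity)
        split_ifs
        · positivity
        · exact le_rfl

open Classical in
theorem conv_a {A B : Set ℕ} {M : ℕ} (h : MA A B M)
    (hs : Summable (fun p : ℕ => if p.Prime ∧ p.Coprime M ∧ p ∈ B then 1 / (p : ℝ) else 0)) :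
    Summable (wA A) := by
  have hf : Summable (ff B M) := ff_summable h.M0 (by convert hs)
  refine Summable.of_nonneg_of_le (fun n => ?_) (fun n => ?_) hf
  · unfold wA
    split_ifs
    · positivity
    · exact le_rfl
  · by_cases hn : n ∈ A
    · have hn0 : n ≠ 0 := fun h0 => h.pos (h0 ▸ hn)
      have hP : PP B M n := by
        refine ⟨hn0, fun p hp h1 h2 => ?_⟩
        by_contra h3
        rw [not_or] at h3
        obtain ⟨m, rfl⟩ := h1
        have hm : 0 < m := Nat.pos_of_ne_zero (fun h0 => hn0 (by rw [h0, mul_zero]))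
        have hcop : m.Coprime p := by
          rw [Nat.coprime_comm, Nat.Prime.coprime_iff_not_dvd hp]
          intro h4
          apply h2
          rw [pow_two]
          exact Nat.mul_dvd_mul_left p h4
        have h5 := (h.mul m p hm hp.pos hcop ((Nat.Prime.coprime_iff_not_dvd hp).2 h3.1)).1
          (by rw [mul_comm]; exact hn)
        exact h3.2 h5.2
      unfold wA ff
      rw [if_pos hn, if_pos hP]
    · have : wA A n = 0 := by
        unfold wA
        rw [if_neg hn]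
      rw [this]
      exact ff_nonneg B M n

end Pool.Agent.Helper12.MM
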