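import Pool.Agent.Helper12.MM.FOne

/-!
PROJECT MM, module MM-30. The reference places.

`m0 = s0 * M'`; `M ∣ M'`, every prime `≤ P` divides `M'`, every prime factor of `s0` divides `M` (hence is `≤ P` and divides `M'`). Let `InJ`: `b + i ≡ s0` modulo `s0 M'`, so `b + i = s0 e` with `e ≡ 1` modulo `M'`
(`s0 ∣ b + i`; divide the congruence by `s0`: `Nat.ModEq.mul_left_cancel'`-type), so `e` is coprime to `M'`, and no prime `≤ P` divides `e`. For a prime `P < p ≤ y1`: `p² ∤ e`, and `p ∈ Av → p ∤ e`.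
* `inJ_alive`: all prime factors of `s = sm` are `≤ y1` and `s ∣ b + i = s0 e`, `s0 ∣ s` (`s0 ∣ b+i`, and `s0 ∣ Q1` by `hdvd`). So `s = s0 e₁`, `e₁ ∣ e`; `e₁` is squarefree, coprime to `M`, without prime factor in `Av`. The primes of `q = gcd (b+i, QQ G y)` are `> G ≥ P`, so
  `q` is coprime to `s0` and `q ∣ e₁`; `s / q = s0 (e₁ / q)`, `s0` coprime to `e₁ / q`, `a (s/q) = a s0 * XX B s0 (e₁/q) ≠ 0` by `a_mul`, `h0`, `hC1`.
* `inJ_zero`: `r = (N+i)/s` is squarefree, coprime to `M`; if no prime factor of `r` were in `Av` then `XX B s0 r ≠ 0` by `hC1`, and `XX B (b + i) r = XX B s0 r` (`XX_parity`: `b + i = s0 e` with `e` odd, as `2 ∣ M ∣ M'`). So there is a prime `p ∈ Av` dividing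
  `r`, hence `N + i`; `p > y1` by `sm_rough`. It does not divide `Q2` by `hQ2`.
-/

set_option autoImplicit false

namespace Pool.Agent.Helper12.MM

open Finset Pool.Agent.Helper9.PF

private lemma QQ_pos_aux (G y : ℕ) : 0 < QQ G y := by
  unfold QQ
  exact Finset.prod_pos fun p hp => ((Finset.mem_filter.1 hp).2).pos

private lemma QQ_prime_aux {G y p : ℕ} (hp : p.Prime) (h : p ∣ QQ G y) : G < p ∧ p ≤ y := by
  unfold QQ at h
  obtain ⟨r, hr, hpr⟩ := (hp.prime.dvd_finsetProd_iff _).1 h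
  rw [Finset.mem_filter, Finset.mem_Ioc] at hr
  rw [(Nat.prime_dvd_prime_iff_eq hp hr.2).1 hpr]
  exact hr.1

private lemma inJ_struct {A B : Set ℕ} {M : ℕ} (h : MA A B M) {Av : Set ℕ} {y1 b i s0 M' P : ℕ}
    (hs0 : 0 < s0) (hM' : M ∣ M') (hi : InJ Av s0 M' P y1 b i) :
    ∃ e, b + i = s0 * e ∧ e.Coprime M' ∧ e ≠ 0 ∧ Odd e := by
  have h1 : b + i ≡ s0 [MOD s0] := Nat.ModEq.of_mul_right M' hi.1
  have h2 : s0 ∣ b + i := by
    have h3 : b + i ≡ 0 [MOD s0] := h1.trans (by simp [Nat.ModEq])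
    exact (Nat.modEq_zero_iff_dvd).1 h3
  obtain ⟨e, he⟩ := h2
  have h4 : s0 * e ≡ s0 * 1 [MOD s0 * M'] := by
    rw [← he, mul_one]
    exact hi.1
  have h5 : e ≡ 1 [MOD M'] := Nat.ModEq.mul_left_cancel' hs0.ne' h4
  have h6 : e.Coprime M' := by
    have h7 := h5.gcd_eq
    rw [Nat.gcd_one_left] at h7
    exact h7
  have h2M : 2 ∣ M' := h.two.trans hM'
  have h8 : Odd e := by
    rw [← Nat.not_even_iff_odd, even_iff_two_dvd]
    intro h9
    have h10 := Nat.dvd_gcd h9 h2M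
    rw [h6] at h10
    omega
  refine ⟨e, he, h6, ?_, h8⟩
  rintro rfl
  simp at h8

theorem inJ_alive {A B : Set ℕ} {M : ℕ} (h : MA A B M) {Av : Set ℕ} {G y y1 E0 b i s0 M' P : ℕ}
    (hE0 : 1 ≤ E0) (hGP : P ≤ G) (hG : 2 ≤ G) (hy : y ≤ y1) (hs0 : 0 < s0) (hM' : M ∣ M') (hM'0 : 0 < M')
    (hs0M : ∀ p, p.Prime → p ∣ s0 → p ∣ M) (hPM : ∀ p, p.Prime → p ≤ P → p ∣ M')
    (hdvd : s0 ∣ Q1 y1 E0) (hMP : ∀ p, p.Prime → p ∣ M → p ≤ P)
    (h0 : Pool.Agent.Helper9.Fib.a A s0 ≠ 0)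
    (hC1 : ∀ e, Squarefree e → e.Coprime M → (∀ p ∈ e.primeFactors, p ∉ Av) → XX B s0 e ≠ 0)
    (hi : InJ Av s0 M' P y1 b i) :
    Pool.Agent.Helper9.Fib.a A (sm y1 E0 b i / (b + i).gcd (QQ G y)) ≠ 0 := by
  obtain ⟨e, he, heM', he0, -⟩ := inJ_struct h hs0 hM' hi
  have heP : ∀ p, p.Prime → p ∣ e → P < p := by
    intro p hp hpe
    by_contra hle
    have h1 := Nat.dvd_gcd hpe (hPM p hp (not_lt.1 hle))
    rw [heM'] at h1
    exact hp.one_lt.ne' (Nat.dvd_one.1 h1)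
  have heM : e.Coprime M := Nat.Coprime.coprime_dvd_right hM' heM'
  have hes0 : s0.Coprime e := by
    by_contra hne
    obtain ⟨p, hp, hp1, hp2⟩ := Nat.Prime.not_coprime_iff_dvd.1 hne
    have h1 := Nat.dvd_gcd hp2 (hs0M p hp hp1)
    rw [heM] at h1
    exact hp.one_lt.ne' (Nat.dvd_one.1 h1)
  -- the smooth part
  have hs : s0 ∣ sm y1 E0 b i := Nat.dvd_gcd ⟨e, he⟩ hdvd
  obtain ⟨e1, he1⟩ := hs
  have hsb : sm y1 E0 b i ∣ b + i := Nat.gcd_dvd_left _ _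
  have he1e : e1 ∣ e := by
    rw [he1, he] at hsb
    exact Nat.dvd_of_mul_dvd_mul_left hs0 hsb
  have hp1 : ∀ p, p.Prime → p ∣ e1 → P < p ∧ p ≤ y1 := by
    intro p hp hpe
    refine ⟨heP p hp (hpe.trans he1e), sm_prime hp (i := i) (b := b) (E0 := E0) ?_⟩
    rw [he1]
    exact Dvd.dvd.mul_left hpe s0
  have hsq : Squarefree e1 := by
    rw [Nat.squarefree_iff_prime_squarefree]
    intro p hp hpp
    have h1 := hp1 p hp ((Dvd.intro _ rfl : p ∣ p * p).trans hpp)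
    refine ((hi.2 p hp h1.1 h1.2).2) ?_
    rw [pow_two, he]
    exact Dvd.dvd.mul_left (hpp.trans he1e) s0
  have hAv : ∀ p, p.Prime → p ∣ e1 → p ∉ Av := by
    intro p hp hpe hpA
    have h1 := hp1 p hp hpe
    refine ((hi.2 p hp h1.1 h1.2).1 hpA) ?_
    rw [he]
    exact Dvd.dvd.mul_left (hpe.trans he1e) s0
  -- the divisor `q`
  have hq : (b + i).gcd (QQ G y) ∣ s0 * e1 := by
    rw [← he1]
    exact gcd_dvd_sm hy hE0
  have hqs0 : ((b + i).gcd (QQ G y)).Coprime s0 := by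
    by_contra hne
    obtain ⟨p, hp, hp2, hp3⟩ := Nat.Prime.not_coprime_iff_dvd.1 hne
    have h1 := (QQ_prime_aux hp (hp2.trans (Nat.gcd_dvd_right _ _))).1
    have h2 := hMP p hp (hs0M p hp hp3)
    omega
  have hqe : (b + i).gcd (QQ G y) ∣ e1 := hqs0.dvd_of_dvd_mul_left hq
  have hqpos : 0 < (b + i).gcd (QQ G y) := Nat.gcd_pos_of_pos_right _ (QQ_pos_aux G y)
  obtain ⟨e2, he2⟩ := hqe
  have he2e1 : e2 ∣ e1 := ⟨_, by rw [mul_comm]; exact he2⟩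
  have hdiv : sm y1 E0 b i / (b + i).gcd (QQ G y) = s0 * e2 := by
    rw [he1]
    conv_lhs => rw [he2]
    rw [show s0 * ((b + i).gcd (QQ G y) * e2) = (b + i).gcd (QQ G y) * (s0 * e2) by ring]
    exact Nat.mul_div_cancel_left _ hqpos
  have he2pos : 0 < e2 := Nat.pos_of_dvd_of_pos (he2e1.trans he1e) (Nat.pos_of_ne_zero he0)
  have he2M : e2.Coprime M := Nat.Coprime.coprime_dvd_left (he2e1.trans he1e) heM
  rw [hdiv, a_mul h hs0 he2pos (Nat.Coprime.coprime_dvd_right (he2e1.trans he1e) hes0) he2M]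
  refine mul_ne_zero h0 (hC1 e2 (hsq.squarefree_of_dvd he2e1) he2M ?_)
  intro p hp
  exact hAv p (Nat.prime_of_mem_primeFactors hp) ((Nat.dvd_of_mem_primeFactors hp).trans he2e1)

theorem inJ_zero {A B : Set ℕ} {M : ℕ} (h : MA A B M) {Av : Set ℕ} {y1 E0 b i N s0 M' P Q2 : ℕ}
    (hE0 : 1 ≤ E0) (hs0 : 0 < s0) (hM' : M ∣ M') (hM'0 : 0 < M')
    (hM : ∀ p, p.Prime → p ∣ M → p ≤ y1)
    (hN : N ≡ b [MOD Q1 y1 E0]) (hb : ∀ p, p.Prime → p ≤ y1 → ¬ p ^ E0 ∣ b + i) (hNi : 0 < N + i)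
    (hC1 : ∀ e, Squarefree e → e.Coprime M → (∀ p ∈ e.primeFactors, p ∉ Av) → XX B s0 e ≠ 0)
    (hi : InJ Av s0 M' P y1 b i) (hr : Squarefree ((N + i) / sm y1 E0 b i))
    (hQ2 : ∀ p, p.Prime → p ∈ Av → p ∣ Q2 → p ≤ y1) (hx : xx B y1 E0 b N i = 0) :
    ∃ p, p.Prime ∧ p ∈ Av ∧ ¬ p ∣ Q2 ∧ p ∣ N + i := by
  obtain ⟨e, he, -, -, heodd⟩ := inJ_struct h hs0 hM' hi
  by_contra hcon
  push Not at hcon
  have hrM := (rough_coprime hM h.M0 hE0 hN hb hNi).2.1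
  have hpar : Even (b + i) ↔ Even s0 := by
    rw [he, Nat.even_mul]
    constructor
    · rintro (h1 | h1)
      · exact h1
      · exact absurd h1 (Nat.not_even_iff_odd.2 heodd)
    · exact fun h1 => Or.inl h1
  unfold xx at hx
  rw [XX_parity B _ hpar] at hx
  refine hC1 _ hr hrM ?_ hx
  intro p hp hpA
  have hpp := Nat.prime_of_mem_primeFactors hp
  have hpr := Nat.dvd_of_mem_primeFactors hp
  by_cases hpy : p ≤ y1
  · exact sm_rough hE0 hN hb hpp hpy hNi hpr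
  · have h1 : ¬ p ∣ Q2 := fun h2 => hpy (hQ2 p hpp hpA h2)
    exact hcon p hpp hpA h1 (hpr.trans (Nat.div_dvd_of_dvd (sm_dvd hN)))

end Pool.Agent.Helper12.MM
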