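import Pool.Agent.Helper12.MM.FOne

/-!
PROJECT MM, module MM-29. Equality and separation at a place without squares of primes of `(G, y]`.

`Q = QQ G y`, `q = gcd (b + i, Q)`, `s = sm y1 E0 b i`. `q ∣ s` (`gcd_dvd_sm`), `q` is odd (product of primes `> G ≥ 2`), and `q`, `s / q` are coprime: a common prime `p` is in `(G, y]` and `p ^ 2 ∣ s ∣ b + i`, excluded by `hsq`.
* `eq_all`: by `f_one`, `a ((N+i)/d) = a (s/d) * x`, `a ((N'+i)/d) = a (s/d) * x'` for every `d ∣ q`. If `a (s/q) = 0`: `s/d = (s/q) * (q/d)` with coprime factors, `q/d` coprime to `M` (`hMG`), so `a (s/d) = a (s/q) * XX .. = 0` by `a_mul`: all values are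
  `0`. Otherwise the hypothesis gives `a (s/q) x = a (s/q) x'`, `x = x'`.
* `eq_of_xx`: `f_one`.
* `ne_sep`: `a ((N+i)/q) - a ((N'+i)/q) = a (s/q) (x - x')` with integers; if it is not `0` then `|a (s/q)| ≥ 1`.
-/

set_option autoImplicit false

namespace Pool.Agent.Helper12.MM

open Finset Pool.Agent.Helper9.PF

private theorem prime_dvd_QQ {G y p : ℕ} (hp : p.Prime) (h : p ∣ QQ G y) : G < p ∧ p ≤ y := by
  rw [QQ, hp.prime.dvd_finsetProd_iff] at h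
  obtain ⟨r, hr, hpr⟩ := h
  rw [mem_filter, mem_Ioc] at hr
  have : p = r := (Nat.prime_dvd_prime_iff_eq hp hr.2).1 hpr
  subst this
  exact hr.1

private theorem QQ_pos' (G y : ℕ) : 0 < QQ G y := by
  rw [QQ]
  exact Finset.prod_pos fun p hp => (mem_filter.1 hp).2.pos

private theorem odd_of_dvd_QQ {G y d : ℕ} (hG : 2 ≤ G) (h : d ∣ QQ G y) : Odd d := by
  rw [← Nat.not_even_iff_odd]
  intro he
  have := (prime_dvd_QQ Nat.prime_two (he.two_dvd.trans h)).1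
  omega

private theorem place {A B : Set ℕ} {M : ℕ} (h : MA A B M) {G y y1 E0 b i N : ℕ} (hG : 2 ≤ G)
    (hy : y ≤ y1) (hy1 : 2 ≤ y1) (hE0 : 1 ≤ E0) (hM : ∀ p, p.Prime → p ∣ M → p ≤ y1)
    (hN : N ≡ b [MOD Q1 y1 E0])
    (hb : ∀ p, p.Prime → p ≤ y1 → ¬ p ^ E0 ∣ b + i) (hNi : 0 < N + i) {d : ℕ} (hd : d ∣ (b + i).gcd (QQ G y)) :
    Pool.Agent.Helper9.Fib.a A ((N + i) / d) =
      Pool.Agent.Helper9.Fib.a A (sm y1 E0 b i / d) * xx B y1 E0 b N i :=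
  f_one h hy1 hE0 hM hN hb hNi (odd_of_dvd_QQ hG (hd.trans (Nat.gcd_dvd_right _ _))) (hd.trans (gcd_dvd_sm hy hE0))

theorem eq_all {A B : Set ℕ} {M : ℕ} (h : MA A B M) {G y y1 E0 b i N N' : ℕ} (hG : 2 ≤ G)
    (hy : y ≤ y1) (hy1 : 2 ≤ y1) (hE0 : 1 ≤ E0) (hMG : ∀ p, p.Prime → p ∣ M → p ≤ G) (hGy : G ≤ y)
    (hN : N ≡ b [MOD Q1 y1 E0]) (hN' : N' ≡ b [MOD Q1 y1 E0])
    (hb : ∀ p, p.Prime → p ≤ y1 → ¬ p ^ E0 ∣ b + i) (hNi : 0 < N + i) (hNi' : 0 < N' + i)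
    (hsq : ∀ p, p.Prime → G < p → p ≤ y → ¬ p ^ 2 ∣ b + i)
    (heq : Pool.Agent.Helper9.Fib.a A ((N + i) / (b + i).gcd (QQ G y)) =
      Pool.Agent.Helper9.Fib.a A ((N' + i) / (b + i).gcd (QQ G y))) :
    ∀ d, d ∣ (b + i).gcd (QQ G y) →
      Pool.Agent.Helper9.Fib.a A ((N + i) / d) = Pool.Agent.Helper9.Fib.a A ((N' + i) / d) := by
  have hM : ∀ p, p.Prime → p ∣ M → p ≤ y1 := fun p hp hpM => (hMG p hp hpM).trans (hGy.trans hy)
  intro d hd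
  have e1 := place h hG hy hy1 hE0 hM hN hb hNi hd
  have e2 := place h hG hy hy1 hE0 hM hN' hb hNi' hd
  have e3 := place h hG hy hy1 hE0 hM hN hb hNi (dvd_refl ((b + i).gcd (QQ G y)))
  have e4 := place h hG hy hy1 hE0 hM hN' hb hNi' (dvd_refl ((b + i).gcd (QQ G y)))
  rw [e3, e4] at heq
  rw [e1, e2]
  have hqs : (b + i).gcd (QQ G y) ∣ sm y1 E0 b i := gcd_dvd_sm hy hE0
  have hqQ : (b + i).gcd (QQ G y) ∣ QQ G y := Nat.gcd_dvd_right _ _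
  have hq0 : 0 < (b + i).gcd (QQ G y) := Nat.gcd_pos_of_pos_right _ (QQ_pos' G y)
  have hs0 : 0 < sm y1 E0 b i := sm_pos _ _ _ _
  generalize (b + i).gcd (QQ G y) = q at *
  have hsb : sm y1 E0 b i ∣ b + i := Nat.gcd_dvd_left _ _
  generalize sm y1 E0 b i = s at *
  by_cases ha : Pool.Agent.Helper9.Fib.a A (s / q) = 0
  · obtain ⟨u, rfl⟩ := hqs
    obtain ⟨v, rfl⟩ := hd
    have hd0 : 0 < d := Nat.pos_of_mul_pos_right hq0
    have hv0 : 0 < v := Nat.pos_of_mul_pos_left hq0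
    have hu0 : 0 < u := Nat.pos_of_mul_pos_left hs0
    rw [Nat.mul_div_cancel_left _ hq0] at ha
    have e5 : d * v * u / d = u * v := by
      rw [mul_assoc, Nat.mul_div_cancel_left _ hd0, mul_comm]
    have huv : u.Coprime v := by
      refine Nat.Coprime.symm (Nat.coprime_of_dvd fun p hp hpv hpu => ?_)
      obtain ⟨g1, g2⟩ := prime_dvd_QQ hp ((Dvd.dvd.mul_left hpv d).trans hqQ)
      refine hsq p hp g1 g2 (Dvd.dvd.trans ?_ hsb)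
      rw [pow_two]
      exact mul_dvd_mul (Dvd.dvd.mul_left hpv d) hpu
    have hvM : v.Coprime M := by
      refine Nat.coprime_of_dvd fun p hp hpv hpM => ?_
      have g1 := (prime_dvd_QQ hp ((Dvd.dvd.mul_left hpv d).trans hqQ)).1
      have g2 := hMG p hp hpM
      omega
    rw [e5, a_mul h hu0 hv0 huv hvM, ha]
    ring
  · rw [mul_left_cancel₀ ha heq]

theorem eq_of_xx {A B : Set ℕ} {M : ℕ} (h : MA A B M) {G y y1 E0 b i N N' : ℕ} (hG : 2 ≤ G)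
    (hy : y ≤ y1) (hy1 : 2 ≤ y1) (hE0 : 1 ≤ E0) (hMG : ∀ p, p.Prime → p ∣ M → p ≤ G) (hGy : G ≤ y)
    (hN : N ≡ b [MOD Q1 y1 E0]) (hN' : N' ≡ b [MOD Q1 y1 E0])
    (hb : ∀ p, p.Prime → p ≤ y1 → ¬ p ^ E0 ∣ b + i) (hNi : 0 < N + i) (hNi' : 0 < N' + i)
    (heq : xx B y1 E0 b N i = xx B y1 E0 b N' i) :
    ∀ d, d ∣ (b + i).gcd (QQ G y) →
      Pool.Agent.Helper9.Fib.a A ((N + i) / d) = Pool.Agent.Helper9.Fib.a A ((N' + i) / d) := by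
  have hM : ∀ p, p.Prime → p ∣ M → p ≤ y1 := fun p hp hpM => (hMG p hp hpM).trans (hGy.trans hy)
  intro d hd
  rw [place h hG hy hy1 hE0 hM hN hb hNi hd, place h hG hy hy1 hE0 hM hN' hb hNi' hd, heq]

theorem ne_sep {A B : Set ℕ} {M : ℕ} (h : MA A B M) {G y y1 E0 b i N N' : ℕ} (hG : 2 ≤ G)
    (hy : y ≤ y1) (hy1 : 2 ≤ y1) (hE0 : 1 ≤ E0) (hMG : ∀ p, p.Prime → p ∣ M → p ≤ G) (hGy : G ≤ y)
    (hN : N ≡ b [MOD Q1 y1 E0]) (hN' : N' ≡ b [MOD Q1 y1 E0])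
    (hb : ∀ p, p.Prime → p ≤ y1 → ¬ p ^ E0 ∣ b + i) (hNi : 0 < N + i) (hNi' : 0 < N' + i)
    (hne : Pool.Agent.Helper9.Fib.a A ((N + i) / (b + i).gcd (QQ G y)) ≠
      Pool.Agent.Helper9.Fib.a A ((N' + i) / (b + i).gcd (QQ G y))) :
    xx B y1 E0 b N i ≠ xx B y1 E0 b N' i ∧
      |xx B y1 E0 b N i - xx B y1 E0 b N' i| ≤
        |Pool.Agent.Helper9.Fib.a A ((N + i) / (b + i).gcd (QQ G y)) -
          Pool.Agent.Helper9.Fib.a A ((N' + i) / (b + i).gcd (QQ G y))| := by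
  have hM : ∀ p, p.Prime → p ∣ M → p ≤ y1 := fun p hp hpM => (hMG p hp hpM).trans (hGy.trans hy)
  have e3 := place h hG hy hy1 hE0 hM hN hb hNi (dvd_refl ((b + i).gcd (QQ G y)))
  have e4 := place h hG hy hy1 hE0 hM hN' hb hNi' (dvd_refl ((b + i).gcd (QQ G y)))
  rw [e3, e4] at hne ⊢
  have hx : xx B y1 E0 b N i ≠ xx B y1 E0 b N' i := fun h0 => hne (by rw [h0])
  have ha : Pool.Agent.Helper9.Fib.a A (sm y1 E0 b i / (b + i).gcd (QQ G y)) ≠ 0 := fun h0 => hne (by rw [h0]; ring)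
  refine ⟨hx, ?_⟩
  rw [← mul_sub, abs_mul]
  have h1 : 1 ≤ |Pool.Agent.Helper9.Fib.a A (sm y1 E0 b i / (b + i).gcd (QQ G y))| := Int.one_le_abs ha
  exact le_mul_of_one_le_left (abs_nonneg _) h1

/-- bound of the coefficients at the places -/
theorem abs_place {A B : Set ℕ} {M : ℕ} (h : MA A B M) {G y y1 E0 b i N d B4 : ℕ} {X : ℤ} (hG : 2 ≤ G)
    (hy : y ≤ y1) (hy1 : 2 ≤ y1) (hE0 : 1 ≤ E0) (hM : ∀ p, p.Prime → p ∣ M → p ≤ y1)
    (hN : N ≡ b [MOD Q1 y1 E0])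
    (hb : ∀ p, p.Prime → p ≤ y1 → ¬ p ^ E0 ∣ b + i) (hNi : 0 < N + i)
    (hd : d ∣ (b + i).gcd (QQ G y)) (hs : (sm y1 E0 b i).divisors.card ≤ B4)
    (hx : |xx B y1 E0 b N i| ≤ X) :
    |Pool.Agent.Helper9.Fib.a A ((N + i) / d)| ≤ (B4 : ℤ) * X := by
  rw [place h hG hy hy1 hE0 hM hN hb hNi hd, abs_mul]
  have hX : 0 ≤ X := (abs_nonneg _).trans hx
  have h1 : |Pool.Agent.Helper9.Fib.a A (sm y1 E0 b i / d)| ≤ (B4 : ℤ) := by
    refine (abs_a_le_tau A _).trans ?_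
    have h2 : (sm y1 E0 b i / d).divisors.card ≤ (sm y1 E0 b i).divisors.card :=
      Finset.card_le_card (Nat.divisors_subset_of_dvd (sm_pos _ _ _ _).ne'
        (Nat.div_dvd_of_dvd (hd.trans (gcd_dvd_sm hy hE0))))
    exact_mod_cast h2.trans hs
  exact mul_le_mul h1 hx (abs_nonneg _) (by positivity)

end Pool.Agent.Helper12.MM
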