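import Pool.Agent.Helper12.MM.FOne

/-!
PROJECT MM, module MM-28. The value of `x_i`.

`n = N + i`, `s = sm`, `r = n / s`, `n = s r`. `DP` is the set of the design primes at the place.
* `r` is squarefree: let `p` be a prime with `p ^ 2 ∣ r`. Then `p > y1` (`sm_rough`), `p ^ 2 ∣ n`. If `p ∤ Q2` this contradicts `hsq`; if `p ∣ Q2` then `p ∈ DP` by `hDP2`, contradiction to `hDP`.
* The prime factors of `r` are the prime factors `> y1` of `n` (a prime `> y1` does not divide `s`). Those which divide `Q2` are exactly the elements of `DP`, the others are the prime factors of `n` not dividing `Q2`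
  (these are `> y1` by `hQ2`). So `om B r = DP.card + om2`, where `om2 = #{p ∈ n.primeFactors : p ∈ B, p ∤ Q2}`.
* `om1 B Q2 z n ≤ om2 ≤ om1 B Q2 z n + 7`: the primes `> z` among them: if there were `8` of them their product would be `> z ^ 8 ≥ n`.
* `f_two`: `XX_sqf` (`rough_coprime`).
* `f_div`: `|x_i| ≤ tau r` (`abs_XX_le`) and `tau r ≤ 2 ^ DP.card * #{e ∣ n : e coprime to Q2}`: map a divisor `e` of `r` to (the set of the primes of `DP` dividing `e`, `e` divided by their product); `r` need not be squarefree here, but every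
  `p ∈ DP` divides `n` exactly once; the quotient is coprime to `Q2` and divides `n`.
-/

set_option autoImplicit false

namespace Pool.Agent.Helper12.MM

open Finset Pool.Agent.Helper9.PF

private theorem prod_dvd {S : Finset ℕ} {n : ℕ} (hS : ∀ p ∈ S, p.Prime ∧ p ∣ n) :
    ∏ p ∈ S, p ∣ n :=
  Finset.prod_primes_dvd n (fun p hp => (hS p hp).1.prime) (fun p hp => (hS p hp).2)

private theorem card_big {S : Finset ℕ} {n z : ℕ} (hn : 0 < n) (hz : n ≤ z ^ 8)
    (hS : ∀ p ∈ S, p.Prime ∧ p ∣ n ∧ z < p) : S.card ≤ 7 := by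
  by_contra hcon
  have h8 : 8 ≤ S.card := by omega
  have h1 : (z + 1) ^ S.card ≤ ∏ p ∈ S, p := by
    rw [← Finset.prod_const]
    exact Finset.prod_le_prod' fun p hp => (hS p hp).2.2
  have h2 : ∏ p ∈ S, p ≤ n :=
    Nat.le_of_dvd hn (prod_dvd fun p hp => ⟨(hS p hp).1, (hS p hp).2.1⟩)
  have h3 : (z + 1) ^ 8 ≤ (z + 1) ^ S.card := Nat.pow_le_pow_right (Nat.succ_pos z) h8
  have h4 : z ^ 8 < (z + 1) ^ 8 := Nat.pow_lt_pow_left (Nat.lt_succ_self z) (by norm_num)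
  omega

open Classical in
theorem f_two {A B : Set ℕ} {M : ℕ} (h : MA A B M) {y1 E0 b i N Q2 z : ℕ} (DP : Finset ℕ)
    (hE0 : 1 ≤ E0) (hM : ∀ p, p.Prime → p ∣ M → p ≤ y1)
    (hN : N ≡ b [MOD Q1 y1 E0]) (hb : ∀ p, p.Prime → p ≤ y1 → ¬ p ^ E0 ∣ b + i) (hNi : 0 < N + i)
    (hz : N + i ≤ z ^ 8) (hQ2 : ∀ p, p.Prime → p ≤ y1 → p ∣ Q2)
    (hDP : ∀ p ∈ DP, p.Prime ∧ p ∈ B ∧ y1 < p ∧ p ∣ Q2 ∧ p ∣ N + i ∧ ¬ p ^ 2 ∣ N + i)
    (hDP2 : ∀ p, p.Prime → p ∣ Q2 → p ∣ N + i → y1 < p → p ∈ DP)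
    (hsq : ∀ p, p.Prime → ¬ p ∣ Q2 → ¬ p ^ 2 ∣ N + i) :
    Squarefree ((N + i) / sm y1 E0 b i) ∧ (xx B y1 E0 b N i = 0 ∨
      ∃ l ≤ 7, |xx B y1 E0 b N i| = 2 ^ (om1 B Q2 z (N + i) + l + DP.card)) := by
  obtain ⟨hr0, hrM, hsr⟩ := rough_coprime (M := M) hM h.M0 hE0 hN hb hNi
  have hsd : sm y1 E0 b i ∣ N + i := sm_dvd hN
  have hxx : xx B y1 E0 b N i = XX B (b + i) ((N + i) / sm y1 E0 b i) := rfl
  have hrd : (N + i) / sm y1 E0 b i ∣ N + i := Nat.div_dvd_of_dvd hsd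
  have hprod : sm y1 E0 b i * ((N + i) / sm y1 E0 b i) = N + i := Nat.mul_div_cancel' hsd
  have hrough : ∀ p, p.Prime → p ∣ (N + i) / sm y1 E0 b i → y1 < p := by
    intro p hp hpr
    by_contra hcon
    exact sm_rough hE0 hN hb hp (not_lt.1 hcon) hNi hpr
  have hrp : ∀ p, p.Prime → y1 < p → p ∣ N + i → p ∣ (N + i) / sm y1 E0 b i := by
    intro p hp hpy hpn
    rw [← hprod] at hpn
    rcases hp.dvd_mul.1 hpn with h1 | h1
    · exact absurd (sm_prime hp h1) (not_le.2 hpy)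
    · exact h1
  have hsqf : Squarefree ((N + i) / sm y1 E0 b i) := by
    rw [Nat.squarefree_iff_prime_squarefree]
    intro p hp hpp
    have hpr : p ∣ (N + i) / sm y1 E0 b i := (Dvd.intro _ rfl).trans hpp
    have hp2 : p ^ 2 ∣ N + i := by
      rw [sq]
      exact hpp.trans hrd
    by_cases hpQ : p ∣ Q2
    · have hmem := hDP2 p hp hpQ (hpr.trans hrd) (hrough p hp hpr)
      exact (hDP p hmem).2.2.2.2.2 hp2
    · exact hsq p hp hpQ hp2
  refine ⟨hsqf, ?_⟩
  rw [hxx]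
  rcases XX_sqf h (b + i) hsqf hrM with h0 | h1
  · exact Or.inl h0
  · right
    set r := (N + i) / sm y1 E0 b i with hrdef
    set n := N + i with hn
    set S2 : Finset ℕ := n.primeFactors.filter (fun p => p ∈ B ∧ ¬ p ∣ Q2) with hS2
    have hom : om B r = DP.card + S2.card := by
      unfold om
      rw [← Finset.card_union_of_disjoint]
      · congr 1
        ext p
        simp only [Finset.mem_filter, Finset.mem_union, Nat.mem_primeFactors, hS2]
        constructor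
        · rintro ⟨⟨hp, hpr, _⟩, hpB⟩
          by_cases hpQ : p ∣ Q2
          · exact Or.inl (hDP2 p hp hpQ (hpr.trans hrd) (hrough p hp hpr))
          · exact Or.inr ⟨⟨hp, hpr.trans hrd, hNi.ne'⟩, hpB, hpQ⟩
        · rintro (hpD | ⟨⟨hp, hpn, _⟩, hpB, hpQ⟩)
          · obtain ⟨hp, hpB, hpy, _, hpn, _⟩ := hDP p hpD
            exact ⟨⟨hp, hrp p hp hpy hpn, hr0.ne'⟩, hpB⟩
          · have hpy : y1 < p := by
              by_contra hcon
              exact hpQ (hQ2 p hp (not_lt.1 hcon))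
            exact ⟨⟨hp, hrp p hp hpy hpn, hr0.ne'⟩, hpB⟩
      · rw [Finset.disjoint_left]
        intro p hpD hpS
        rw [hS2, Finset.mem_filter] at hpS
        exact hpS.2.2 (hDP p hpD).2.2.2.1
    have hS3 : (S2.filter (fun p => z < p)).card ≤ 7 := by
      refine card_big (z := z) hNi hz fun p hp => ?_
      rw [Finset.mem_filter, hS2, Finset.mem_filter, Nat.mem_primeFactors] at hp
      exact ⟨hp.1.1.1, hp.1.1.2.1, hp.2⟩
    have hS1 : (S2.filter (fun p => ¬ z < p)).card = om1 B Q2 z n := by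
      unfold om1
      congr 1
      ext p
      simp only [Finset.mem_filter, Finset.mem_range, Nat.mem_primeFactors, hS2]
      constructor
      · rintro ⟨⟨⟨hp, hpn, _⟩, hpB, hpQ⟩, hpz⟩
        exact ⟨by omega, hp, hpB, hpQ, hpn⟩
      · rintro ⟨hpz, hp, hpB, hpQ, hpn⟩
        exact ⟨⟨⟨hp, hpn, hNi.ne'⟩, hpB, hpQ⟩, by omega⟩
    have hS : S2.card = om1 B Q2 z n + (S2.filter (fun p => z < p)).card := by
      rw [← hS1, add_comm]
      exact (Finset.card_filter_add_card_filter_not (s := S2) (fun p => z < p)).symm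
    refine ⟨(S2.filter (fun p => z < p)).card, hS3, ?_⟩
    rw [h1, hom, hS]
    congr 1
    omega

theorem f_div {A B : Set ℕ} {M : ℕ} (h : MA A B M) {y1 E0 b i N Q2 : ℕ} (DP : Finset ℕ)
    (hE0 : 1 ≤ E0) (hM : ∀ p, p.Prime → p ∣ M → p ≤ y1)
    (hN : N ≡ b [MOD Q1 y1 E0]) (hb : ∀ p, p.Prime → p ≤ y1 → ¬ p ^ E0 ∣ b + i) (hNi : 0 < N + i)
    (hQ2 : ∀ p, p.Prime → p ≤ y1 → p ∣ Q2)
    (hDP : ∀ p ∈ DP, p.Prime ∧ p ∣ N + i ∧ ¬ p ^ 2 ∣ N + i)
    (hDP2 : ∀ p, p.Prime → p ∣ Q2 → p ∣ N + i → y1 < p → p ∈ DP) :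
    |xx B y1 E0 b N i| ≤
      ((2 ^ DP.card * ((N + i).divisors.filter (fun e => e.Coprime Q2)).card : ℕ) : ℤ) := by
  have hsd : sm y1 E0 b i ∣ N + i := sm_dvd hN
  have hxx : xx B y1 E0 b N i = XX B (b + i) ((N + i) / sm y1 E0 b i) := rfl
  have hrd : (N + i) / sm y1 E0 b i ∣ N + i := Nat.div_dvd_of_dvd hsd
  have hrough : ∀ p, p.Prime → p ∣ (N + i) / sm y1 E0 b i → y1 < p := by
    intro p hp hpr
    by_contra hcon
    exact sm_rough hE0 hN hb hp (not_lt.1 hcon) hNi hpr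
  rw [hxx]
  refine (abs_XX_le B (b + i) _).trans ?_
  rw [Nat.cast_le, ← Finset.card_powerset, ← Finset.card_product]
  have hPe : ∀ e, e ∣ N + i → ∏ p ∈ DP.filter (fun p => p ∣ e), p ∣ e := by
    intro e he
    refine prod_dvd fun p hp => ?_
    rw [Finset.mem_filter] at hp
    exact ⟨(hDP p hp.1).1, hp.2⟩
  refine Finset.card_le_card_of_injOn
    (fun e => (DP.filter (fun p => p ∣ e), e / ∏ p ∈ DP.filter (fun p => p ∣ e), p)) ?_ ?_
  · intro e he
    rw [Finset.mem_coe, Nat.mem_divisors] at he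
    have hen : e ∣ N + i := he.1.trans hrd
    have hP := hPe e hen
    have he0 : e ≠ 0 := by
      rintro rfl
      exact hNi.ne' (Nat.eq_zero_of_zero_dvd hen)
    rw [Finset.mem_coe, Finset.mem_product, Finset.mem_powerset, Finset.mem_filter,
      Nat.mem_divisors]
    refine ⟨Finset.filter_subset _ _, ⟨(Nat.div_dvd_of_dvd hP).trans hen, hNi.ne'⟩, ?_⟩
    refine Nat.coprime_of_dvd fun p hp hpe hpQ => ?_
    have hpe' : p ∣ e := hpe.trans (Nat.div_dvd_of_dvd hP)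
    have hpD : p ∈ DP := hDP2 p hp hpQ (hpe'.trans hen) (hrough p hp (hpe'.trans he.1))
    have hpP : p ∣ ∏ p ∈ DP.filter (fun p => p ∣ e), p :=
      Finset.dvd_prod_of_mem (fun p => p) (Finset.mem_filter.2 ⟨hpD, hpe'⟩)
    have hpp : p ^ 2 ∣ e := by
      rw [sq, ← Nat.mul_div_cancel' hP]
      exact Nat.mul_dvd_mul hpP hpe
    exact (hDP p hpD).2.2 (hpp.trans hen)
  · intro e he e' he' hee
    rw [Finset.mem_coe, Nat.mem_divisors] at he he'
    have h1 := hPe e (he.1.trans hrd)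
    have h2 := hPe e' (he'.1.trans hrd)
    simp only [Prod.mk.injEq] at hee
    rw [← Nat.mul_div_cancel' h1, ← Nat.mul_div_cancel' h2, hee.2, hee.1]

end Pool.Agent.Helper12.MM
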