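import Mathlib

/-!
PROJECT MM, module MM-42. Small lemmas for the core.

* `typ_range`: `⌈mu - T⌉₊ ≤ o` as `mu - T ≤ o`; `o ≤ mu + T ≤ ⌈mu - T⌉₊ + 2 T` and `l ≤ 7`, `2 T + 9 ≤ m`.
* `sep`: `2 ^ k0` divides `x` and `x'`, hence `x - x' ≠ 0`.
* `vals_card`, `mem_vals`: `{0} ∪ {2^j} ∪ {-2^j}`, `j ≤ J`.
* `pow_eq_case`: `j + e m = j' + e' m` with `j, j' ∈ [k0, k0 + m)`, `e, e' ∈ {0, 1}`.
-/

set_option autoImplicit false

namespace Pool.Agent.Helper12.MM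

open Finset

theorem typ_range (mu T : ℝ) (o l m : ℕ) (hT : 0 ≤ T) (h : |(o : ℝ) - mu| ≤ T) (hl : l ≤ 7)
    (hm : 2 * T + 9 ≤ m) : ⌈mu - T⌉₊ ≤ o + l ∧ o + l < ⌈mu - T⌉₊ + m := by
  have h1 := abs_le.1 h
  have h2 : mu - T ≤ (⌈mu - T⌉₊ : ℝ) := Nat.le_ceil _
  have h3 : ⌈mu - T⌉₊ ≤ o := by
    rw [Nat.ceil_le]
    linarith [h1.1, h1.2]
  have h4 : (l : ℝ) ≤ 7 := by exact_mod_cast hl
  refine ⟨le_trans h3 (Nat.le_add_right _ _), ?_⟩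
  have h5 : ((o + l : ℕ) : ℝ) < ((⌈mu - T⌉₊ + m : ℕ) : ℝ) := by
    push_cast
    linarith [h1.1, h1.2]
  exact_mod_cast h5

private theorem dvd_of (x : ℤ) (k0 : ℕ) (hx : x = 0 ∨ ∃ j, k0 ≤ j ∧ |x| = 2 ^ j) :
    (2 : ℤ) ^ k0 ∣ x := by
  rcases hx with rfl | ⟨j, hj, hx⟩
  · exact dvd_zero _
  · rw [← dvd_abs, hx]
    exact pow_dvd_pow 2 hj

theorem sep (x x' : ℤ) (k0 : ℕ) (hx : x = 0 ∨ ∃ j, k0 ≤ j ∧ |x| = 2 ^ j)
    (hx' : x' = 0 ∨ ∃ j, k0 ≤ j ∧ |x'| = 2 ^ j) (hne : x ≠ x') : (2 : ℤ) ^ k0 ≤ |x - x'| := by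
  have h1 : (2 : ℤ) ^ k0 ∣ x - x' := dvd_sub (dvd_of x k0 hx) (dvd_of x' k0 hx')
  exact Int.le_of_dvd (abs_pos.2 (sub_ne_zero.2 hne)) ((dvd_abs _ _).2 h1)

/-- the possible values -/
def vals (J : ℕ) : Finset ℤ :=
  insert 0 (((range (J + 1)).image (fun j => (2 : ℤ) ^ j)) ∪ ((range (J + 1)).image (fun j => -(2 : ℤ) ^ j)))

theorem vals_card (J : ℕ) : (vals J).card ≤ 2 * (J + 1) + 1 := by
  unfold vals
  refine le_trans (card_insert_le _ _) (Nat.add_le_add_right ?_ 1)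
  refine le_trans (card_union_le _ _) ?_
  have h1 : ((range (J + 1)).image (fun j => (2 : ℤ) ^ j)).card ≤ J + 1 := by
    refine le_trans card_image_le ?_
    rw [card_range]
  have h2 : ((range (J + 1)).image (fun j => -(2 : ℤ) ^ j)).card ≤ J + 1 := by
    refine le_trans card_image_le ?_
    rw [card_range]
  omega

theorem mem_vals (J : ℕ) (x : ℤ) (hx : x = 0 ∨ ∃ j, |x| = 2 ^ j) (hb : |x| ≤ 2 ^ J) : x ∈ vals J := by
  unfold vals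
  rw [mem_insert, mem_union, mem_image, mem_image]
  rcases hx with rfl | ⟨j, hx⟩
  · exact Or.inl rfl
  · rw [hx] at hb
    have hj : j ≤ J := (pow_le_pow_iff_right₀ (by norm_num : (1 : ℤ) < 2)).1 hb
    have hj' : j ∈ range (J + 1) := mem_range.2 (Nat.lt_succ_of_le hj)
    rcases abs_choice x with h | h
    · exact Or.inr (Or.inl ⟨j, hj', by rw [← hx, h]⟩)
    · exact Or.inr (Or.inr ⟨j, hj', by rw [← hx, h, neg_neg]⟩)

theorem pow_eq_case (k0 m j j' e e' : ℕ) (hj : k0 ≤ j) (hj2 : j < k0 + m) (hj' : k0 ≤ j')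
    (hj2' : j' < k0 + m) (he : e = 0 ∨ e = m) (he' : e' = 0 ∨ e' = m)
    (h : (2 : ℤ) ^ (j + e) = 2 ^ (j' + e')) : e = e' := by
  have h1 : j + e = j' + e' := by
    have h2 : (2 : ℕ) ^ (j + e) = 2 ^ (j' + e') := by exact_mod_cast h
    exact Nat.pow_right_injective le_rfl h2
  omega

end Pool.Agent.Helper12.MM
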