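import Pool.Agent.Helper12.MM.EnvDefs
import Pool.Agent.Helper12.MM.FTwo
import Pool.Agent.Helper12.MM.FSix
import Pool.Agent.Helper12.MM.FJ
import Pool.Agent.Helper12.MM.Bet2
import Pool.Agent.Helper12.MM.Small

/-!
PROJECT MM, core, part A: facts about one good integer.
-/

set_option autoImplicit false

namespace Pool.Agent.Helper12.MM

open Finset Pool.Agent.Helper9.PF

variable {A B Av : Set ℕ} {M s0 M' P k b Q2 : ℕ} {q : ℕ → ℕ → ℕ} {ζ : ℝ} {t : Finset ℕ} {N : ℕ}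

lemma Env.core_le (_e : Env A B Av M s0 M' P k b Q2 q) {i : ℕ} (hi : i ∈ core k) : i ≤ VV k := by
  unfold core at hi
  rw [mem_Ioc] at hi
  unfold VV
  omega

lemma Env.card_DP (e : Env A B Av M s0 M' P k b Q2 q) (t : Finset ℕ) (i : ℕ) :
    (DP k q t i).card = if i ∈ core k ∧ i ∈ t then mm k else 0 := by
  unfold DP
  split_ifs with h
  · rw [card_image_of_injOn, card_range]
    intro j hj j' hj' hjj
    rw [mem_coe, mem_range] at hj hj'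
    exact (e.qinj i h.1 i h.1 j hj j' hj' hjj).2
  · rfl

lemma Env.Mle (e : Env A B Av M s0 M' P k b Q2 q) : ∀ p, p.Prime → p ∣ M → p ≤ 2 ^ J1 k :=
  fun p hp h => ((e.MP p hp h).trans e.PG).trans (e.Gy.trans e.yy1)

lemma Env.MG (e : Env A B Av M s0 M' P k b Q2 q) : ∀ p, p.Prime → p ∣ M → p ≤ GG k :=
  fun p hp h => (e.MP p hp h).trans e.PG

lemma Env.Q2d (e : Env A B Av M s0 M' P k b Q2 q) : ∀ p, p.Prime → p ≤ 2 ^ J1 k → p ∣ Q2 := by
  intro p hp h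
  rw [e.Q2e]
  refine Dvd.dvd.mul_right ?_ _
  have h1 := prime_dvd_Q1 (E0 := E0 k) (le_trans (by norm_num) e.E02) hp h
  exact (dvd_pow_self p (by have := e.E02; omega)).trans h1

lemma GN.bnd (gn : GN B Av ζ k b Q2 q t N) : ∀ i ≤ VV k, 0 < N + i := by
  intro i _
  have := gn.pos
  omega

lemma Env.x_bound (e : Env A B Av M s0 M' P k b Q2 q) (gn : GN B Av ζ k b Q2 q t N) {i : ℕ}
    (hi : i ≤ VV k) : |xk B k b N i| ≤ ((2 ^ mm k * 2 ^ (6 * k ^ 50) : ℕ) : ℤ) := by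
  have hE : 1 ≤ E0 k := le_trans (by norm_num) e.E02
  have h1 := f_div e.ma (Q2 := Q2) (DP k q t i) hE e.Mle gn.mod (e.b1 i hi) (gn.bnd i hi) e.Q2d
    (fun p hp => ⟨(gn.dp i hi p hp).1, (gn.dp i hi p hp).2.2.2.2⟩)
    (gn.dp2 i hi)
  refine le_trans h1 ?_
  have h2 : (DP k q t i).card ≤ mm k := by
    rw [e.card_DP]
    split_ifs
    · exact le_rfl
    · exact Nat.zero_le _
  exact_mod_cast Nat.mul_le_mul (Nat.pow_le_pow_right (by norm_num) h2) (gn.dv i hi)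

lemma Env.x_val (e : Env A B Av M s0 M' P k b Q2 q) (gn : GN B Av ζ k b Q2 q t N) {i : ℕ}
    (hi : i ∈ core k) :
    Squarefree ((N + i) / smk k b i) ∧ (xk B k b N i = 0 ∨
      ∃ l ≤ 7, |xk B k b N i| = 2 ^ (om1 B Q2 (zz k) (N + i) + l + (DP k q t i).card)) := by
  have hi' := e.core_le hi
  have hE : 1 ≤ E0 k := le_trans (by norm_num) e.E02
  have hz : N + i ≤ zz k ^ 8 := by
    have := gn.le
    have := e.z8
    omega
  exact f_two e.ma (Q2 := Q2) (DP k q t i) hE e.Mle gn.mod (e.b1 i hi') (gn.bnd i hi') hz e.Q2d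
    (gn.dp i hi') (gn.dp2 i hi') (gn.sq i hi)

lemma Env.coef_bound (e : Env A B Av M s0 M' P k b Q2 q) (gn : GN B Av ζ k b Q2 q t N) {i d : ℕ}
    (hi : i ≤ VV k) (hd : d ∣ (b + i).gcd (Qk k)) :
    |Pool.Agent.Helper9.Fib.a A ((N + i) / d)| ≤ ((2 ^ (11 * k ^ 50) : ℕ) : ℤ) := by
  have hE : 1 ≤ E0 k := le_trans (by norm_num) e.E02
  have h1 := abs_place e.ma e.G2 e.yy1 e.y12 hE e.Mle gn.mod (e.b1 i hi) (gn.bnd i hi) hd (e.b2 i hi)
    (e.x_bound gn hi)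
  refine le_trans h1 ?_
  exact_mod_cast e.e11

lemma Qk_pos (k : ℕ) : 0 < Qk k := by
  unfold Qk QQ
  exact Finset.prod_pos fun p hp => ((Finset.mem_filter.1 hp).2).pos

lemma Env.modQ (e : Env A B Av M s0 M' P k b Q2 q) (gn : GN B Av ζ k b Q2 q t N) :
    N ≡ b [MOD Qk k] :=
  gn.mod.of_dvd (QQ_dvd_Q1 e.yy1 (le_trans (by norm_num) e.E02))

lemma Env.dvd_iff (e : Env A B Av M s0 M' P k b Q2 q) (gn : GN B Av ζ k b Q2 q t N) {d i : ℕ}
    (hd : d ∣ Qk k) : d ∣ N + i ↔ d ∣ b + i := by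
  have h1 : N + i ≡ b + i [MOD d] := ((e.modQ gn).of_dvd hd).add_right i
  exact h1.dvd_iff dvd_rfl

lemma phi_ge : (3:ℝ) / 2 ≤ Real.goldenRatio := by
  have h1 : (2:ℝ) ≤ √5 := by
    rw [show (2:ℝ) = √4 by
      rw [show (4:ℝ) = 2 ^ 2 by norm_num, Real.sqrt_sq (by norm_num)]]
    exact Real.sqrt_le_sqrt (by norm_num)
  unfold Real.goldenRatio
  linarith

lemma Env.bet_bound (e : Env A B Av M s0 M' P k b Q2 q) (gn : GN B Av ζ k b Q2 q t N) {d i : ℕ}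
    (hd0 : 0 < d) (hdQ : d ∣ Qk k) (hdD : d ≤ DD k) (hdi : d ∣ N + i) (hi : EE k ≤ i + DD k)
    (hi2 : i ≤ EE k + WW k) :
    bet Real.goldenRatio (Pool.Agent.Helper9.Fib.a A) ((N + i) / d) ≤
      5 * ((2 ^ (11 * k ^ 50) : ℕ) : ℝ) + 20 := by
  refine chain2 phi_ge (fun t => ?_) (E := EE k) (W := WW k) (H1 := H1 k) (D := DD k) rfl gn.pos ?_ hd0
    hdD hdi ?_ hi hi2
  · exact Pool.Agent.Helper9.Fib.abs_a_le A t
  · refine le_trans ?_ (e.bw _ phi_ge)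
    exact_mod_cast gn.le
  · intro i' hi' hdi'
    exact e.coef_bound gn hi' (Nat.dvd_gcd ((e.dvd_iff gn hdQ).1 hdi') hdQ)

end Pool.Agent.Helper12.MM
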