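import Pool.Agent.Helper12.MM.Defs

/-!
PROJECT MM, module MM-32. Uniqueness (Lemma U of the memo).

Compare `Pool/Agent/Helper9/PF/Unique.lean` (same structure). Write `g i = gcd (b + i, Q)`, `r = lam⁻¹`. Claim `P i : ∀ d ∣ g i, a ((N+i)/d) = a ((N'+i)/d)` for all `i ∈ (E, E + W]`, by strong induction on `(Q - g i) * (E + W + 1) + i`.
If the first alternative of `hcase` holds there is nothing to prove. Otherwise let `d = g i ≤ D`, `d ∣ Q`, `M = (N + i)/d`, `M' = (N' + i)/d` (`d` divides `b + i`, `N + i`, `N' + i`).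
(1) `dyn.w (M - 1) = dyn.w (M' - 1)`: start from `h0 d` at `i0 b E d ≤ i` and go up with `dyn.step` in steps of `d`: all the places `i' = i0, i0 + d, ..., i - d` have `d ∣ g i'` and `g i' = d`, `i' < i` or `g i' > d`, so `P i'` holds by induction
and gives `a ((N+i')/d) = a ((N'+i')/d)`.
(2) Let `D_h = a (M + h) - a (M' + h)` (`M + h = (N + (i + h d))/d`). For `1 ≤ h ≤ H0` the place `i + h d ≤ i + H0 D ≤ E + W` has `d ∣ g (i + h d)`. If `Same Q b i h` fails then `g (i + h d) > d` and `D_h = 0` by induction. If it holds then `h > G` and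
`|D_h| ≤ 2 B1`.
(3) By `dyn.Rstep` and induction on `k ≤ H0`: `R (w (M + k)) - R (w (M' + k)) = lam ^ k * c * (∑_{h ≤ k} r ^ h D_h)`. For `k = H0` the left side is at most `2 |c| R0` by `dyn.Rbd`. Hence
`|D_0| ≤ ∑_{G < h ≤ H0} 2 B1 r ^ h + 2 R0 r ^ H0 ≤ 4 B1 r ^ G + 2 R0 r ^ H0 < S0` (`∑_{h > G} r ^ h = r ^ (G+1)/(1 - r) ≤ 2 r ^ G`, `r ≤ 2/3`). By the last clause of `hcase`, `D_0 = 0`, and the clause before gives `P i`.
-/

set_option autoImplicit false

namespace Pool.Agent.Helper12.MM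

open Finset Pool.Agent.Helper9.PF

private theorem uq_mu {Q d g X i i' : ℕ} (hg : d ≤ g) (hgQ : g ≤ Q) (hi : i' ≤ X)
    (h : d < g ∨ i' < i) : (Q - g) * (X + 1) + i' < (Q - d) * (X + 1) + i := by
  rcases h with h | h
  · have h1 : (Q - g) * (X + 1) + (X + 1) ≤ (Q - d) * (X + 1) := by
      rw [← Nat.succ_mul]
      exact Nat.mul_le_mul_right _ (by omega)
    omega
  · have h1 : (Q - g) * (X + 1) ≤ (Q - d) * (X + 1) := Nat.mul_le_mul_right _ (by omega)
    omega

/-- the telescoped recursion -/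
private theorem uq_diff {lam K : ℝ} (hlam : 3 / 2 ≤ lam) {a : ℕ → ℤ} (dyn : Dyn lam a K) {M M' : ℕ}
    (hM1 : 1 ≤ M) (hM1' : 1 ≤ M') (hw : dyn.w (M - 1) = dyn.w (M' - 1)) (k : ℕ) :
    dyn.R (dyn.w (M + k)) - dyn.R (dyn.w (M' + k)) =
      lam ^ k * (dyn.c * ∑ h ∈ range (k + 1), lam⁻¹ ^ h * ((a (M + h) : ℝ) - (a (M' + h) : ℝ))) := by
  have hl0 : lam ≠ 0 := by linarith
  induction k with
  | zero =>
    have h5 := dyn.Rstep (M - 1)
    have h6 := dyn.Rstep (M' - 1)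
    rw [Nat.sub_add_cancel hM1] at h5
    rw [Nat.sub_add_cancel hM1'] at h6
    rw [add_zero, add_zero, h5, h6, hw]
    simp
    ring
  | succ k ih =>
    have h5 := dyn.Rstep (M + k)
    have h6 := dyn.Rstep (M' + k)
    rw [← add_assoc, ← add_assoc, h5, h6, sum_range_succ]
    have h7 : lam ^ (k + 1) * lam⁻¹ ^ (k + 1) = 1 := by
      rw [← mul_pow, mul_inv_cancel₀ hl0, one_pow]
    have h8 : lam * dyn.R (dyn.w (M + k)) + dyn.c * (a (M + k + 1) : ℝ) -
        (lam * dyn.R (dyn.w (M' + k)) + dyn.c * (a (M' + k + 1) : ℝ)) =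
        lam * (dyn.R (dyn.w (M + k)) - dyn.R (dyn.w (M' + k))) +
          dyn.c * ((a (M + k + 1) : ℝ) - (a (M' + k + 1) : ℝ)) := by ring
    rw [h8, ih]
    have h9 : M + (k + 1) = M + k + 1 := by ring
    have h10 : M' + (k + 1) = M' + k + 1 := by ring
    rw [h9, h10]
    have h11 : lam ^ (k + 1) * (dyn.c * (∑ h ∈ range (k + 1),
        lam⁻¹ ^ h * ((a (M + h) : ℝ) - (a (M' + h) : ℝ)) +
        lam⁻¹ ^ (k + 1) * ((a (M + k + 1) : ℝ) - (a (M' + k + 1) : ℝ)))) =
        lam * (lam ^ k * (dyn.c * ∑ h ∈ range (k + 1),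
          lam⁻¹ ^ h * ((a (M + h) : ℝ) - (a (M' + h) : ℝ)))) +
        (lam ^ (k + 1) * lam⁻¹ ^ (k + 1)) *
          (dyn.c * ((a (M + k + 1) : ℝ) - (a (M' + k + 1) : ℝ))) := by ring
    rw [h11, h7, one_mul]

/-- the difference at the place is small -/
private theorem uq_small {lam K : ℝ} (hlam : 3 / 2 ≤ lam) {a : ℕ → ℤ} (dyn : Dyn lam a K) {M M' G H0 : ℕ}
    {R0 B1 : ℝ} (hB1 : 0 ≤ B1)
    (hM1 : 1 ≤ M) (hM1' : 1 ≤ M') (hw : dyn.w (M - 1) = dyn.w (M' - 1))
    (hR : bet lam a (M + H0) ≤ R0) (hR' : bet lam a (M' + H0) ≤ R0)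
    (hD : ∀ h, 1 ≤ h → h ≤ H0 → a (M + h) = a (M' + h) ∨
      (G < h ∧ |(a (M + h) : ℝ)| ≤ B1 ∧ |(a (M' + h) : ℝ)| ≤ B1)) :
    |(a M : ℝ) - (a M' : ℝ)| ≤ 4 * B1 * lam⁻¹ ^ G + 2 * R0 * lam⁻¹ ^ H0 := by
  have hl0 : 0 < lam := by linarith
  have hr0 : 0 < lam⁻¹ := inv_pos.2 hl0
  have hr1 : lam⁻¹ ≤ 2 / 3 := by
    have h1 : lam⁻¹ ≤ (3 / 2 : ℝ)⁻¹ := inv_anti₀ (by norm_num) hlam
    have h2 : (3 / 2 : ℝ)⁻¹ = 2 / 3 := by norm_num
    linarith
  have hc0 : 0 < |dyn.c| := abs_pos.2 dyn.c_ne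
  set S : ℝ := ∑ h ∈ range (H0 + 1), lam⁻¹ ^ h * ((a (M + h) : ℝ) - (a (M' + h) : ℝ)) with hS
  have h1 := uq_diff hlam dyn hM1 hM1' hw H0
  rw [← hS] at h1
  have h2 : |lam ^ H0 * (dyn.c * S)| ≤ |dyn.c| * R0 + |dyn.c| * R0 := by
    rw [← h1]
    refine (abs_sub _ _).trans ?_
    exact add_le_add ((dyn.Rbd _).trans (mul_le_mul_of_nonneg_left hR hc0.le))
      ((dyn.Rbd _).trans (mul_le_mul_of_nonneg_left hR' hc0.le))
  have h3 : |S| ≤ 2 * R0 * lam⁻¹ ^ H0 := by
    rw [abs_mul, abs_mul, abs_of_pos (pow_pos hl0 H0)] at h2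
    have h4 : |dyn.c| * (lam ^ H0 * |S|) ≤ |dyn.c| * (2 * R0) := by
      calc |dyn.c| * (lam ^ H0 * |S|) = lam ^ H0 * (|dyn.c| * |S|) := by ring
        _ ≤ |dyn.c| * R0 + |dyn.c| * R0 := h2
        _ = |dyn.c| * (2 * R0) := by ring
    have h5 : lam ^ H0 * |S| ≤ 2 * R0 := le_of_mul_le_mul_left h4 hc0
    have h6 : lam ^ H0 * lam⁻¹ ^ H0 = 1 := by
      rw [← mul_pow, mul_inv_cancel₀ hl0.ne', one_pow]
    calc |S| = (lam ^ H0 * |S|) * lam⁻¹ ^ H0 := by
          rw [mul_right_comm, h6, one_mul]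
      _ ≤ 2 * R0 * lam⁻¹ ^ H0 := mul_le_mul_of_nonneg_right h5 (pow_pos hr0 _).le
  -- split off the first term
  set T : ℝ := ∑ h ∈ range H0, lam⁻¹ ^ (h + 1) * ((a (M + (h + 1)) : ℝ) - (a (M' + (h + 1)) : ℝ)) with hT
  have h7 : S = T + ((a M : ℝ) - (a M' : ℝ)) := by
    rw [hS, sum_range_succ', hT]
    simp
  have h8 : |T| ≤ ∑ h ∈ range H0, lam⁻¹ ^ (h + 1) * (if G < h + 1 then 2 * B1 else 0) := by
    rw [hT]
    refine (abs_sum_le_sum_abs _ _).trans ?_
    refine sum_le_sum fun h hh => ?_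
    rw [abs_mul, abs_of_pos (pow_pos hr0 _)]
    refine mul_le_mul_of_nonneg_left ?_ (pow_pos hr0 _).le
    have hh' : h < H0 := mem_range.1 hh
    rcases hD (h + 1) (by omega) (by omega) with h9 | ⟨h9, h10, h11⟩
    · rw [h9, sub_self, abs_zero]
      split_ifs
      · positivity
      · exact le_rfl
    · rw [if_pos h9]
      refine (abs_sub _ _).trans ?_
      linarith
  have h9 : ∑ h ∈ range H0, lam⁻¹ ^ (h + 1) * (if G < h + 1 then 2 * B1 else 0) ≤
      4 * B1 * lam⁻¹ ^ G := by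
    have h10 : ∑ h ∈ range H0, lam⁻¹ ^ (h + 1) * (if G < h + 1 then 2 * B1 else 0) ≤
        ∑ h ∈ Ico (G + 1) (H0 + 1 + G), lam⁻¹ ^ h * (2 * B1) := by
      have h11 : ∑ h ∈ range H0, lam⁻¹ ^ (h + 1) * (if G < h + 1 then 2 * B1 else 0) =
          ∑ h ∈ (range H0).filter (fun h => G < h + 1), lam⁻¹ ^ (h + 1) * (2 * B1) := by
        rw [sum_filter]
        refine sum_congr rfl fun h _ => ?_
        split_ifs <;> simp
      rw [h11]
      rw [← sum_image (s := (range H0).filter (fun h => G < h + 1)) (g := fun h => h + 1)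
        (f := fun h => lam⁻¹ ^ h * (2 * B1)) (by
          intro x _ y _ hxy
          simpa using hxy)]
      refine sum_le_sum_of_subset_of_nonneg ?_ ?_
      · intro x hx
        simp only [mem_image, mem_filter, mem_range] at hx
        obtain ⟨h, ⟨h12, h13⟩, rfl⟩ := hx
        rw [mem_Ico]
        omega
      · intro x _ _
        positivity
    refine h10.trans ?_
    rw [← sum_mul]
    have h12 := geom_sum_Ico_le_of_lt_one hr0.le (show lam⁻¹ < 1 by linarith) (m := G + 1)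
      (n := H0 + 1 + G)
    have h13 : lam⁻¹ ^ (G + 1) / (1 - lam⁻¹) ≤ 2 * lam⁻¹ ^ G := by
      rw [div_le_iff₀ (by linarith), pow_succ]
      have h14 : 0 < lam⁻¹ ^ G := pow_pos hr0 _
      nlinarith
    have h15 : (∑ h ∈ Ico (G + 1) (H0 + 1 + G), lam⁻¹ ^ h) ≤ 2 * lam⁻¹ ^ G := h12.trans h13
    calc (∑ h ∈ Ico (G + 1) (H0 + 1 + G), lam⁻¹ ^ h) * (2 * B1) ≤ 2 * lam⁻¹ ^ G * (2 * B1) :=
          mul_le_mul_of_nonneg_right h15 (by positivity)
      _ = 4 * B1 * lam⁻¹ ^ G := by ring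
  have h16 : (a M : ℝ) - (a M' : ℝ) = S - T := by rw [h7]; ring
  rw [h16]
  refine (abs_sub _ _).trans ?_
  linarith

theorem uniq {lam K : ℝ} (hlam : 3 / 2 ≤ lam) {a : ℕ → ℤ} (dyn : Dyn lam a K)
    {Q D G E W b H0 : ℕ} {R0 B1 S0 : ℝ} (hQ0 : 0 < Q) (hB1 : 0 ≤ B1)
    (hnum : 4 * B1 * lam⁻¹ ^ G + 2 * R0 * lam⁻¹ ^ H0 < S0) {N N' : ℕ} (hN1 : 1 ≤ N) (hN1' : 1 ≤ N')
    (hN : N ≡ b [MOD Q]) (hN' : N' ≡ b [MOD Q])
    (h0 : ∀ d, 0 < d → d ∣ Q → d ≤ D →
      dyn.w ((N + i0 b E d) / d - 1) = dyn.w ((N' + i0 b E d) / d - 1))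
    (hcase : ∀ i, E < i → i ≤ E + W →
      (∀ d, d ∣ (b + i).gcd Q → a ((N + i) / d) = a ((N' + i) / d)) ∨
      ((b + i).gcd Q ≤ D ∧ i + H0 * D ≤ E + W ∧ (∀ j, 1 ≤ j → j ≤ G → ¬ Same Q b i j) ∧
        (∀ h, h ≤ H0 → Same Q b i h → |(a ((N + i) / (b + i).gcd Q + h) : ℝ)| ≤ B1 ∧
          |(a ((N' + i) / (b + i).gcd Q + h) : ℝ)| ≤ B1) ∧
        bet lam a ((N + i) / (b + i).gcd Q + H0) ≤ R0 ∧
        bet lam a ((N' + i) / (b + i).gcd Q + H0) ≤ R0 ∧
        (a ((N + i) / (b + i).gcd Q) = a ((N' + i) / (b + i).gcd Q) →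
          ∀ d, d ∣ (b + i).gcd Q → a ((N + i) / d) = a ((N' + i) / d)) ∧
        (a ((N + i) / (b + i).gcd Q) ≠ a ((N' + i) / (b + i).gcd Q) →
          S0 ≤ |(a ((N + i) / (b + i).gcd Q) : ℝ) - (a ((N' + i) / (b + i).gcd Q) : ℝ)|))) :
    ∀ i, E < i → i ≤ E + W → ∀ d, d ∣ (b + i).gcd Q → a ((N + i) / d) = a ((N' + i) / d) := by
  have hdiv : ∀ d i, d ∣ Q → (d ∣ N + i ↔ d ∣ b + i) := by
    intro d i hd
    have h1 : N + i ≡ b + i [MOD d] := (hN.of_dvd hd).add_right i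
    exact h1.dvd_iff (dvd_refl d)
  have hdiv' : ∀ d i, d ∣ Q → (d ∣ N' + i ↔ d ∣ b + i) := by
    intro d i hd
    have h1 : N' + i ≡ b + i [MOD d] := (hN'.of_dvd hd).add_right i
    exact h1.dvd_iff (dvd_refl d)
  have main : ∀ n i, (Q - (b + i).gcd Q) * (E + W + 1) + i = n → E < i → i ≤ E + W →
      ∀ d, d ∣ (b + i).gcd Q → a ((N + i) / d) = a ((N' + i) / d) := by
    intro n
    induction n using Nat.strong_induction_on with
    | _ n ih =>
      intro i hn hi1 hi2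
      rcases hcase i hi1 hi2 with hA | ⟨hgD, hgW, hgj, hB, hR, hR', hEq, hNe⟩
      · exact hA
      set d := (b + i).gcd Q with hd
      have hd0 : 0 < d := Nat.gcd_pos_of_pos_right _ hQ0
      have hdQ : d ∣ Q := Nat.gcd_dvd_right _ _
      have hda : d ∣ b + i := Nat.gcd_dvd_left _ _
      -- the places which precede
      have hpl : ∀ i', E < i' → i' ≤ E + W → d ∣ b + i' → (d < (b + i').gcd Q ∨ i' < i) →
          a ((N + i') / d) = a ((N' + i') / d) := by
        intro i' h1 h2 h3 h4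
        have h6 : d ∣ (b + i').gcd Q := Nat.dvd_gcd h3 hdQ
        have h7 : d ≤ (b + i').gcd Q := Nat.le_of_dvd (Nat.gcd_pos_of_pos_right _ hQ0) h6
        have h8 : (b + i').gcd Q ≤ Q := Nat.le_of_dvd hQ0 (Nat.gcd_dvd_right _ _)
        exact ih _ (hn ▸ uq_mu h7 h8 h2 h4) i' rfl h1 h2 d h6
      -- (1) the chain before `i`
      have hi0a := i0_gt b E hd0
      have hi0d := i0_dvd b E hd0
      have hi0i := i0_min b E hi1 hda
      have hdivN : ∀ i', d ∣ b + i' → 1 ≤ (N + i') / d := by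
        intro i' h1
        rw [Nat.one_le_div_iff hd0]
        exact Nat.le_of_dvd (by omega) ((hdiv d i' hdQ).2 h1)
      have hdivN' : ∀ i', d ∣ b + i' → 1 ≤ (N' + i') / d := by
        intro i' h1
        rw [Nat.one_le_div_iff hd0]
        exact Nat.le_of_dvd (by omega) ((hdiv' d i' hdQ).2 h1)
      have hshift : ∀ X i' k : ℕ, (X + (i' + k * d)) / d = (X + i') / d + k := by
        intro X i' k
        rw [← add_assoc, Nat.add_mul_div_right _ _ hd0]
      have hchain : ∀ t : ℕ, i0 b E d + t * d ≤ i →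
          dyn.w ((N + (i0 b E d + t * d)) / d - 1) = dyn.w ((N' + (i0 b E d + t * d)) / d - 1) := by
        intro t
        induction t with
        | zero =>
          intro _
          rw [zero_mul, add_zero]
          exact h0 d hd0 hdQ hgD
        | succ t iht =>
          intro ht
          have e1 : i0 b E d + (t + 1) * d = (i0 b E d + t * d) + 1 * d := by ring
          have hlt : i0 b E d + t * d < i := by
            rw [e1] at ht
            omega
          have h1 := iht hlt.le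
          have hdt : d ∣ b + (i0 b E d + t * d) := by
            rw [← add_assoc]
            exact dvd_add hi0d (Dvd.intro_left _ rfl)
          have h2 := hpl (i0 b E d + t * d) (by omega) (by omega) hdt (Or.inr hlt)
          rw [e1, hshift N (i0 b E d + t * d) 1, hshift N' (i0 b E d + t * d) 1, Nat.add_sub_cancel,
            Nat.add_sub_cancel]
          have h3 := hdivN _ hdt
          have h4 := hdivN' _ hdt
          have h5 := dyn.step ((N + (i0 b E d + t * d)) / d - 1)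
          have h6 := dyn.step ((N' + (i0 b E d + t * d)) / d - 1)
          rw [Nat.sub_add_cancel h3] at h5
          rw [Nat.sub_add_cancel h4] at h6
          rw [h5, h6, h1, h2]
      obtain ⟨t, ht⟩ : ∃ t, i = i0 b E d + t * d := by
        have h1 : d ∣ (b + i) - (b + i0 b E d) := Nat.dvd_sub hda hi0d
        obtain ⟨t, ht⟩ := h1
        refine ⟨t, ?_⟩
        rw [mul_comm t d, ← ht]
        omega
      have hw0 : dyn.w ((N + i) / d - 1) = dyn.w ((N' + i) / d - 1) := by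
        have h1 := hchain t ht.ge
        rw [← ht] at h1
        exact h1
      have hM1 : 1 ≤ (N + i) / d := hdivN i hda
      have hM1' : 1 ≤ (N' + i) / d := hdivN' i hda
      have hD : ∀ h, 1 ≤ h → h ≤ H0 → a ((N + i) / d + h) = a ((N' + i) / d + h) ∨
          (G < h ∧ |(a ((N + i) / d + h) : ℝ)| ≤ B1 ∧ |(a ((N' + i) / d + h) : ℝ)| ≤ B1) := by
        intro h h1 h2
        by_cases hs : Same Q b i h
        · right
          refine ⟨?_, hB h h2 hs⟩
          by_contra h3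
          exact hgj h h1 (not_lt.1 h3) hs
        · left
          have hk : h * d ≤ H0 * D := Nat.mul_le_mul h2 hgD
          have hdk : d ∣ b + (i + h * d) := by
            rw [← add_assoc]
            exact dvd_add hda (Dvd.intro_left _ rfl)
          have hgne : (b + (i + h * d)).gcd Q ≠ d := by
            intro h7
            apply hs
            unfold Same
            rw [← hd, add_assoc]
            exact h7
          have hglt : d < (b + (i + h * d)).gcd Q := by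
            have h8 : d ≤ (b + (i + h * d)).gcd Q :=
              Nat.le_of_dvd (Nat.gcd_pos_of_pos_right _ hQ0) (Nat.dvd_gcd hdk hdQ)
            omega
          have h3 := hpl (i + h * d) (by omega) (by omega) hdk (Or.inl hglt)
          rw [hshift, hshift] at h3
          exact h3
      have hsmall := uq_small hlam dyn (G := G) hB1 hM1 hM1' hw0 hR hR' hD
      by_cases hab : a ((N + i) / d) = a ((N' + i) / d)
      · exact hEq hab
      · exfalso
        have h1 := hNe hab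
        linarith
  intro i hi1 hi2
  exact main _ i rfl hi1 hi2

end Pool.Agent.Helper12.MM
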