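import Pool.Agent.Helper12.MM.CoreA
import Pool.Agent.Helper12.MM.Uniq

/-!
PROJECT MM, core, part B: two good integers with the same code are equal.
-/

set_option autoImplicit false

namespace Pool.Agent.Helper12.MM

open Finset Pool.Agent.Helper9.PF

variable {A B Av : Set ℕ} {M s0 M' P k b Q2 : ℕ} {q : ℕ → ℕ → ℕ} {ζ : ℝ} {t t' : Finset ℕ} {N N' : ℕ}

open Classical in
lemma mem_JJ {i : ℕ} : i ∈ JJ Av s0 M' P k b ↔ i ∈ core k ∧ InJ Av s0 M' P (2 ^ J1 k) b i := by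
  unfold JJ
  rw [mem_filter]

/-- the base exponent -/
noncomputable def kz (B : Set ℕ) (k Q2 : ℕ) : ℕ := ⌈mu1 B Q2 (zz k) - (k : ℝ) ^ 34⌉₊

lemma Env.typ_val (e : Env A B Av M s0 M' P k b Q2 q) (gn : GN B Av ζ k b Q2 q t N) {i : ℕ}
    (hi : i ∈ core k) (ht : Typ B k Q2 N i) :
    xk B k b N i = 0 ∨ ∃ j, kz B k Q2 ≤ j ∧ j < kz B k Q2 + mm k ∧
      |xk B k b N i| = 2 ^ (j + (DP k q t i).card) := by
  rcases (e.x_val gn hi).2 with h | ⟨l, hl, h⟩
  · exact Or.inl h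
  · right
    have hm : 2 * (k : ℝ) ^ 34 + 9 ≤ (mm k : ℝ) := by exact_mod_cast e.m9
    have h1 := typ_range (mu1 B Q2 (zz k)) ((k : ℝ) ^ 34) (om1 B Q2 (zz k) (N + i)) l (mm k)
      (by positivity) ht hl hm
    exact ⟨_, h1.1, h1.2, h⟩

lemma Env.x_pow (e : Env A B Av M s0 M' P k b Q2 q) (gn : GN B Av ζ k b Q2 q t N) {i : ℕ}
    (hi : i ∈ core k) : xk B k b N i = 0 ∨ ∃ j, |xk B k b N i| = 2 ^ j := by
  rcases (e.x_val gn hi).2 with h | ⟨l, -, h⟩
  · exact Or.inl h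
  · exact Or.inr ⟨_, h⟩

lemma Env.J_alive (e : Env A B Av M s0 M' P k b Q2 q) {i : ℕ} (hi : i ∈ JJ Av s0 M' P k b) :
    Pool.Agent.Helper9.Fib.a A (smk k b i / (b + i).gcd (Qk k)) ≠ 0 := by
  rw [mem_JJ] at hi
  exact inJ_alive e.ma (le_trans (by norm_num) e.E02) e.PG e.G2 e.yy1 e.s00 e.MM' e.M'0 e.s0M e.PM e.s0d
    e.MP e.as0 e.C1 hi.2

lemma Env.J_zero (e : Env A B Av M s0 M' P k b Q2 q) (gn : GN B Av ζ k b Q2 q t N) {i : ℕ}
    (hi : i ∈ JJ Av s0 M' P k b) (hx : xk B k b N i = 0) :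
    ∃ p, p.Prime ∧ p ∈ Av ∧ ¬ p ∣ Q2 ∧ p ∣ N + i := by
  have hi2 := mem_JJ.1 hi
  have hic := hi2.1
  have hi' := e.core_le hic
  refine inJ_zero e.ma (le_trans (by norm_num) e.E02) e.s00 e.MM' e.M'0 e.Mle gn.mod (e.b1 i hi')
    (gn.bnd i hi') e.C1 hi2.2 (e.x_val gn hic).1 ?_ hx
  intro p hp hpAv hpQ
  by_contra hcon
  push Not at hcon
  rw [e.Q2e] at hpQ
  rcases (hp.dvd_mul).1 hpQ with h | h
  · exact absurd (le_of_dvd_Q1 hp h) (not_le.2 hcon)
  · obtain ⟨i', hi'c, h1⟩ := (hp.prime.dvd_finsetProd_iff _).1 h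
    obtain ⟨j, hj, h2⟩ := (hp.prime.dvd_finsetProd_iff _).1 h1
    rw [mem_range] at hj
    have h3 := e.qp i' hi'c j hj
    have h4 := (Nat.prime_dvd_prime_iff_eq hp h3.1).1 (hp.dvd_of_dvd_pow h2)
    rw [h4] at hpAv
    exact h3.2.2.1 hpAv

/-- the recorded places -/
def Rec (B Av : Set ℕ) (s0 M' P k b Q2 N i : ℕ) : Prop :=
  AB k b i ∨ (∃ h, h ≤ H0 k ∧ Same (Qk k) b i h ∧ ¬ Typ B k Q2 N (i + h * (b + i).gcd (Qk k))) ∨
    (i ∈ JJ Av s0 M' P k b ∧ xk B k b N i = 0)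

theorem Env.pair (e : Env A B Av M s0 M' P k b Q2 q) {KA : ℝ}
    (dyn : Dyn Real.goldenRatio (Pool.Agent.Helper9.Fib.a A) KA)
    (gn : GN B Av ζ k b Q2 q t N) (gn' : GN B Av ζ k b Q2 q t' N')
    (hst : ∀ d, 0 < d → d ∣ Qk k → d ≤ DD k →
      dyn.w ((N + i0 b (EE k) d) / d - 1) = dyn.w ((N' + i0 b (EE k) d) / d - 1))
    (hrec : ∀ i ∈ core k, (Rec B Av s0 M' P k b Q2 N i ↔ Rec B Av s0 M' P k b Q2 N' i))
    (hx : ∀ i ∈ core k, Rec B Av s0 M' P k b Q2 N i → xk B k b N i = xk B k b N' i) :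
    ∀ i ∈ core k, ∀ d, d ∣ (b + i).gcd (Qk k) →
      Pool.Agent.Helper9.Fib.a A ((N + i) / d) = Pool.Agent.Helper9.Fib.a A ((N' + i) / d) := by
  have hE : 1 ≤ E0 k := le_trans (by norm_num) e.E02
  obtain ⟨K0, hK0⟩ : ∃ K0, K0 = kz B k Q2 := ⟨_, rfl⟩
  have hpc := e.pc _ phi_ge
  have key := uniq phi_ge dyn (Q := Qk k) (D := DD k) (G := GG k) (E := EE k) (W := WW k) (b := b)
    (H0 := H0 k) (R0 := 5 * ((2 ^ (11 * k ^ 50) : ℕ) : ℝ) + 20)
    (B1 := 2 ^ (k ^ 34 + 2 * mm k) * 2 ^ K0) (S0 := 2 ^ K0) (Qk_pos k) (by positivity) ?_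
    gn.pos gn'.pos (e.modQ gn) (e.modQ gn') hst ?_
  · intro i hi
    unfold core at hi
    rw [mem_Ioc] at hi
    exact key i hi.1 hi.2
  · have h1 : (1:ℝ) ≤ 2 ^ K0 := one_le_pow₀ (by norm_num)
    have h2 : 4 * ((2:ℝ) ^ (k ^ 34 + 2 * mm k) * 2 ^ K0) * Real.goldenRatio⁻¹ ^ GG k =
      (4 * 2 ^ (k ^ 34 + 2 * mm k) * Real.goldenRatio⁻¹ ^ GG k) * 2 ^ K0 := by ring
    rw [h2]
    have h3 := mul_le_mul_of_nonneg_right hpc.1 (by positivity : (0:ℝ) ≤ 2 ^ K0)
    linarith [hpc.2]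
  · intro i hi1 hi2
    have hic : i ∈ core k := by
      unfold core
      rw [mem_Ioc]
      exact ⟨hi1, hi2⟩
    have hiV := e.core_le hic
    by_cases hR : Rec B Av s0 M' P k b Q2 N i
    · left
      exact eq_of_xx e.ma e.G2 e.yy1 e.y12 hE e.MG e.Gy gn.mod gn'.mod (e.b1 i hiV) (gn.bnd i hiV)
        (gn'.bnd i hiV) (hx i hic hR)
    · right
      have hR' : ¬ Rec B Av s0 M' P k b Q2 N' i := fun h => hR ((hrec i hic).2 h)
      unfold Rec at hR hR'
      push Not at hR hR'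
      obtain ⟨hab, htyp, -⟩ := hR
      obtain ⟨-, htyp', -⟩ := hR'
      have hab2 := hab
      unfold AB ABad at hab2
      push Not at hab2
      obtain ⟨a1, a2, a3, a4, a5⟩ := hab2
      have hd0 : 0 < (b + i).gcd (Qk k) := Nat.gcd_pos_of_pos_right _ (Qk_pos k)
      have hdQ : (b + i).gcd (Qk k) ∣ Qk k := Nat.gcd_dvd_right _ _
      have hdb : (b + i).gcd (Qk k) ∣ b + i := Nat.gcd_dvd_left _ _
      -- the place `i + h q_i`
      have hplace : ∀ h, h ≤ H0 k → i + h * (b + i).gcd (Qk k) ∈ core k := by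
        intro h hh
        unfold core
        rw [mem_Ioc]
        have := Nat.mul_le_mul hh a1
        omega
      have hdiv : ∀ (X h : ℕ), (X + i) / (b + i).gcd (Qk k) + h =
          (X + (i + h * (b + i).gcd (Qk k))) / (b + i).gcd (Qk k) := by
        intro X h
        rw [← add_assoc, Nat.add_mul_div_right _ _ hd0]
      have hB1 : ∀ (s : Finset ℕ) (X : ℕ), GN B Av ζ k b Q2 q s X →
          (∀ h, h ≤ H0 k → Same (Qk k) b i h → Typ B k Q2 X (i + h * (b + i).gcd (Qk k))) →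
          ∀ h, h ≤ H0 k → Same (Qk k) b i h →
          |(Pool.Agent.Helper9.Fib.a A ((X + i) / (b + i).gcd (Qk k) + h) : ℝ)| ≤
            2 ^ (k ^ 34 + 2 * mm k) * 2 ^ K0 := by
        intro s X gX hty h hh hsame
        have hp := hplace h hh
        have hpV := e.core_le hp
        have hsame2 : (b + (i + h * (b + i).gcd (Qk k))).gcd (Qk k) = (b + i).gcd (Qk k) := by
          rw [← add_assoc]
          exact hsame
        have h5 := a5 h hh hsame
        have h6 := e.typ_val gX hp (hty h hh hsame)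
        have h7 : |xk B k b X (i + h * (b + i).gcd (Qk k))| ≤ 2 ^ (K0 + 2 * mm k) := by
          rcases h6 with h6 | ⟨j, hj1, hj2, h6⟩
          · rw [h6, abs_zero]
            positivity
          · rw [h6]
            refine pow_le_pow_right₀ (by norm_num) ?_
            have : (DP k q s (i + h * (b + i).gcd (Qk k))).card ≤ mm k := by
              rw [e.card_DP]
              split_ifs
              · exact le_rfl
              · exact Nat.zero_le _
            omega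
        have h8 := abs_place e.ma e.G2 e.yy1 e.y12 hE e.Mle gX.mod (e.b1 _ hpV) (gX.bnd _ hpV)
          (d := (b + i).gcd (Qk k)) (by
            rw [show (b + (i + h * (b + i).gcd (Qk k))).gcd (QQ (GG k) (yy k)) =
              (b + i).gcd (Qk k) from hsame2]) h5 h7
        rw [hdiv]
        have h9 : |(Pool.Agent.Helper9.Fib.a A ((X + (i + h * (b + i).gcd (Qk k))) /
            (b + i).gcd (Qk k)) : ℝ)| ≤ ((2 ^ (k ^ 34) : ℕ) : ℝ) * 2 ^ (K0 + 2 * mm k) := by
          exact_mod_cast h8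
        refine h9.trans (le_of_eq ?_)
        push_cast
        ring
      have hbet : ∀ (s : Finset ℕ) (X : ℕ), GN B Av ζ k b Q2 q s X →
          bet Real.goldenRatio (Pool.Agent.Helper9.Fib.a A) ((X + i) / (b + i).gcd (Qk k) + H0 k) ≤
            5 * ((2 ^ (11 * k ^ 50) : ℕ) : ℝ) + 20 := by
        intro s X gX
        rw [hdiv]
        have h1 : (b + i).gcd (Qk k) ∣ X + (i + H0 k * (b + i).gcd (Qk k)) := by
          rw [← add_assoc]
          exact dvd_add ((e.dvd_iff gX hdQ).2 hdb) (Dvd.intro_left _ rfl)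
        have h2 := hplace (H0 k) le_rfl
        unfold core at h2
        rw [mem_Ioc] at h2
        exact e.bet_bound gX hd0 hdQ a1 h1 (by omega) h2.2
      have hsq : ∀ p, p.Prime → GG k < p → p ≤ yy k → ¬ p ^ 2 ∣ b + i := a4
      refine ⟨a1, a2, a3, ?_, hbet t N gn, hbet t' N' gn', ?_, ?_⟩
      · intro h hh hsame
        exact ⟨hB1 t N gn htyp h hh hsame, hB1 t' N' gn' htyp' h hh hsame⟩
      · intro heq
        exact eq_all e.ma e.G2 e.yy1 e.y12 hE e.MG e.Gy gn.mod gn'.mod (e.b1 i hiV) (gn.bnd i hiV)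
          (gn'.bnd i hiV) hsq heq
      · intro hne
        have h1 := ne_sep e.ma e.G2 e.yy1 e.y12 hE e.MG e.Gy gn.mod gn'.mod (e.b1 i hiV)
          (gn.bnd i hiV) (gn'.bnd i hiV) hne
        have hs0 : Same (Qk k) b i 0 := by
          unfold Same
          rw [zero_mul, add_zero]
        have ht0 : Typ B k Q2 N i := by
          have := htyp 0 (Nat.zero_le _) hs0
          rwa [zero_mul, add_zero] at this
        have ht0' : Typ B k Q2 N' i := by
          have := htyp' 0 (Nat.zero_le _) hs0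
          rwa [zero_mul, add_zero] at this
        have h2 := sep (xk B k b N i) (xk B k b N' i) K0 (by
          rcases e.typ_val gn hic ht0 with h | ⟨j, hj1, -, h⟩
          · exact Or.inl h
          · exact Or.inr ⟨_, by omega, h⟩) (by
          rcases e.typ_val gn' hic ht0' with h | ⟨j, hj1, -, h⟩
          · exact Or.inl h
          · exact Or.inr ⟨_, by omega, h⟩) h1.1
        have h3 := h2.trans h1.2
        exact_mod_cast h3

/-- the code determines `t` -/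
theorem Env.inj (e : Env A B Av M s0 M' P k b Q2 q) {KA : ℝ}
    (dyn : Dyn Real.goldenRatio (Pool.Agent.Helper9.Fib.a A) KA)
    (gn : GN B Av ζ k b Q2 q t N) (gn' : GN B Av ζ k b Q2 q t' N')
    (ht : t ⊆ JJ Av s0 M' P k b) (ht' : t' ⊆ JJ Av s0 M' P k b)
    (hst : ∀ d, 0 < d → d ∣ Qk k → d ≤ DD k →
      dyn.w ((N + i0 b (EE k) d) / d - 1) = dyn.w ((N' + i0 b (EE k) d) / d - 1))
    (hrec : ∀ i ∈ core k, (Rec B Av s0 M' P k b Q2 N i ↔ Rec B Av s0 M' P k b Q2 N' i))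
    (hx : ∀ i ∈ core k, Rec B Av s0 M' P k b Q2 N i → xk B k b N i = xk B k b N' i)
    (htt : ∀ i ∈ core k, Rec B Av s0 M' P k b Q2 N i → (i ∈ t ↔ i ∈ t')) : t = t' := by
  have key := e.pair dyn gn gn' hst hrec hx
  have hE : 1 ≤ E0 k := le_trans (by norm_num) e.E02
  have main : ∀ i ∈ JJ Av s0 M' P k b, (i ∈ t ↔ i ∈ t') := by
    intro i hi
    have hic : i ∈ core k := (mem_JJ.1 hi).1
    have hiV := e.core_le hic
    by_cases hR : Rec B Av s0 M' P k b Q2 N i
    · exact htt i hic hR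
    have hR' : ¬ Rec B Av s0 M' P k b Q2 N' i := fun h => hR ((hrec i hic).2 h)
    unfold Rec at hR hR'
    push Not at hR hR'
    obtain ⟨hab, htyp, hz⟩ := hR
    obtain ⟨-, htyp', hz'⟩ := hR'
    have hs0 : Same (Qk k) b i 0 := by
      unfold Same
      rw [zero_mul, add_zero]
    have ht0 : Typ B k Q2 N i := by
      have := htyp 0 (Nat.zero_le _) hs0
      rwa [zero_mul, add_zero] at this
    have ht0' : Typ B k Q2 N' i := by
      have := htyp' 0 (Nat.zero_le _) hs0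
      rwa [zero_mul, add_zero] at this
    have hdodd : Odd ((b + i).gcd (Qk k)) := by
      have h1 : (b + i).gcd (Qk k) ∣ Qk k := Nat.gcd_dvd_right _ _
      refine Odd.of_dvd_nat ?_ h1
      rw [← Nat.coprime_two_left]
      unfold Qk QQ
      refine Nat.Coprime.prod_right fun p hp => ?_
      rw [Finset.mem_filter, Finset.mem_Ioc] at hp
      rw [Nat.coprime_primes Nat.prime_two hp.2]
      have := e.G2
      omega
    have hds : (b + i).gcd (Qk k) ∣ sm (2 ^ J1 k) (E0 k) b i := gcd_dvd_sm e.yy1 hE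
    have f1 := f_one e.ma e.y12 hE e.Mle gn.mod (e.b1 i hiV) (gn.bnd i hiV) hdodd hds
    have f2 := f_one e.ma e.y12 hE e.Mle gn'.mod (e.b1 i hiV) (gn'.bnd i hiV) hdodd hds
    have f3 := key i hic _ dvd_rfl
    have f4 := e.J_alive hi
    rw [f1, f2] at f3
    have f5 : xk B k b N i = xk B k b N' i := mul_left_cancel₀ f4 f3
    have f6 := hz hi
    have f7 := hz' hi
    rcases e.typ_val gn hic ht0 with h | ⟨j, hj1, hj2, h⟩
    · exact absurd h f6
    rcases e.typ_val gn' hic ht0' with h' | ⟨j', hj1', hj2', h'⟩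
    · exact absurd h' f7
    rw [f5, h'] at h
    have h8 := pow_eq_case (kz B k Q2) (mm k) j' j (DP k q t' i).card (DP k q t i).card hj1' hj2' hj1 hj2
      (by rw [e.card_DP]; split_ifs <;> simp) (by rw [e.card_DP]; split_ifs <;> simp) h
    have hm : 0 < mm k := by
      have := e.m9
      omega
    rw [e.card_DP, e.card_DP] at h8
    by_cases c1 : i ∈ t <;> by_cases c2 : i ∈ t'
    · exact ⟨fun _ => c2, fun _ => c1⟩
    · rw [if_neg (by tauto), if_pos ⟨hic, c1⟩] at h8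
      omega
    · rw [if_pos ⟨hic, c2⟩, if_neg (by tauto)] at h8
      omega
    · exact ⟨fun h => absurd h c1, fun h => absurd h c2⟩
  ext i
  constructor
  · intro hi
    exact (main i (ht hi)).1 hi
  · intro hi
    exact (main i (ht' hi)).2 hi

end Pool.Agent.Helper12.MM
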