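import Mathlib

/-!
PROJECT MM, module MM-19. The design residue.

The moduli `R` and `(q i j) ^ 2` (`i ∈ I`, `j < m`) are pairwise coprime (distinct primes, none divides `R`). Chinese remainder theorem (`Nat.chineseRemainderOfFinset`, or induction as in the private lemma `crt` of
`Pool/Agent/Helper9/PF/Design.lean`): there is `c` with `c ≡ b [MOD R]`, `c ≡ q i j + (q i j) ^ 2 * i - i [MOD (q i j) ^ 2]` for `i ∈ t` (a natural number, and then `c + i ≡ q i j`), `c ≡ 1` for `i ∉ t`; reduce it modulo the product.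
-/

set_option autoImplicit false

namespace Pool.Agent.Helper12.MM

open Finset

private theorem crt_aux {ι : Type*} (s : Finset ι) (M a : ι → ℕ)
    (hc : ∀ x ∈ s, ∀ y ∈ s, x ≠ y → Nat.Coprime (M x) (M y)) :
    ∃ c, ∀ x ∈ s, c ≡ a x [MOD M x] := by
  classical
  induction s using Finset.induction_on with
  | empty => exact ⟨0, fun x hx => absurd hx (Finset.notMem_empty x)⟩
  | insert x s hx ih =>
    obtain ⟨c, hc'⟩ := ih fun y hy z hz h =>
      hc y (Finset.mem_insert_of_mem hy) z (Finset.mem_insert_of_mem hz) h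
    have hcop : Nat.Coprime (M x) (∏ y ∈ s, M y) := by
      refine Nat.Coprime.prod_right fun y hy => ?_
      refine hc x (Finset.mem_insert_self x s) y (Finset.mem_insert_of_mem hy) ?_
      rintro rfl
      exact hx hy
    obtain ⟨k, hk1, hk2⟩ := Nat.chineseRemainder hcop (a x) c
    refine ⟨k, fun y hy => ?_⟩
    rcases Finset.mem_insert.1 hy with rfl | hy
    · exact hk1
    · exact (hk2.of_dvd (Finset.dvd_prod_of_mem M hy)).trans (hc' y hy)

theorem design (R b m : ℕ) (I t : Finset ℕ) (q : ℕ → ℕ → ℕ) (hR : 0 < R)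
    (hq : ∀ i ∈ I, ∀ j < m, (q i j).Prime ∧ ¬ q i j ∣ R)
    (hinj : ∀ i ∈ I, ∀ i' ∈ I, ∀ j < m, ∀ j' < m, q i j = q i' j' → i = i' ∧ j = j') :
    ∃ c, c < R * ∏ i ∈ I, ∏ j ∈ range m, (q i j) ^ 2 ∧ c ≡ b [MOD R] ∧
      (∀ i ∈ I, i ∈ t → ∀ j < m, c + i ≡ q i j [MOD (q i j) ^ 2]) ∧
      (∀ i ∈ I, i ∉ t → ∀ j < m, c ≡ 1 [MOD (q i j) ^ 2]) := by
  classical
  -- all the pairs
  have hmem : ∀ x ∈ I ×ˢ range m, x.1 ∈ I ∧ x.2 < m := fun x hx =>
    ⟨(Finset.mem_product.1 hx).1, Finset.mem_range.1 (Finset.mem_product.1 hx).2⟩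
  obtain ⟨c1, hc1⟩ := crt_aux (I ×ˢ range m) (fun x => (q x.1 x.2) ^ 2)
    (fun x => if x.1 ∈ t then q x.1 x.2 + (q x.1 x.2) ^ 2 * x.1 - x.1 else 1) (by
      intro x hx y hy hxy
      obtain ⟨h1, h2⟩ := hmem x hx
      obtain ⟨h3, h4⟩ := hmem y hy
      refine Nat.Coprime.pow 2 2 ?_
      rw [Nat.coprime_primes (hq _ h1 _ h2).1 (hq _ h3 _ h4).1]
      intro h
      obtain ⟨e1, e2⟩ := hinj _ h1 _ h3 _ h2 _ h4 h
      exact hxy (Prod.ext e1 e2))
  have hP : ∏ x ∈ I ×ˢ range m, (q x.1 x.2) ^ 2 = ∏ i ∈ I, ∏ j ∈ range m, (q i j) ^ 2 :=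
    Finset.prod_product _ _ _
  have hcop : Nat.Coprime R (∏ x ∈ I ×ˢ range m, (q x.1 x.2) ^ 2) := by
    refine Nat.Coprime.prod_right fun x hx => ?_
    obtain ⟨h1, h2⟩ := hmem x hx
    refine Nat.Coprime.pow_right 2 ?_
    exact ((hq _ h1 _ h2).1.coprime_iff_not_dvd.2 (hq _ h1 _ h2).2).symm
  obtain ⟨k, hk1, hk2⟩ := Nat.chineseRemainder hcop b c1
  set P := ∏ x ∈ I ×ˢ range m, (q x.1 x.2) ^ 2 with hPdef
  have hPpos : 0 < P := Finset.prod_pos fun x hx =>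
    pow_pos (hq _ (hmem x hx).1 _ (hmem x hx).2).1.pos 2
  have hlt : k % (R * P) < R * P := Nat.mod_lt _ (Nat.mul_pos hR hPpos)
  have hmod : k % (R * P) ≡ k [MOD R * P] := Nat.mod_modEq _ _
  have hx : ∀ i ∈ I, ∀ j < m, k % (R * P) ≡
      (if i ∈ t then q i j + (q i j) ^ 2 * i - i else 1) [MOD (q i j) ^ 2] := by
    intro i hi j hj
    have hm : (i, j) ∈ I ×ˢ range m := Finset.mem_product.2 ⟨hi, Finset.mem_range.2 hj⟩
    have hd : (q i j) ^ 2 ∣ P := Finset.dvd_prod_of_mem (fun x : ℕ × ℕ => (q x.1 x.2) ^ 2) hm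
    exact ((hmod.of_dvd (Dvd.dvd.mul_left hd R)).trans (hk2.of_dvd hd)).trans (hc1 (i, j) hm)
  refine ⟨k % (R * P), ?_, ?_, ?_, ?_⟩
  · rw [← hP]
    exact hlt
  · exact (hmod.of_dvd (Dvd.intro P rfl)).trans hk1
  · intro i hi hit j hj
    have h := hx i hi j hj
    rw [if_pos hit] at h
    have hle : i ≤ q i j + (q i j) ^ 2 * i :=
      le_trans (Nat.le_mul_of_pos_left i (pow_pos (hq i hi j hj).1.pos 2)) (Nat.le_add_left _ _)
    have h2 := h.add_right i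
    rw [Nat.sub_add_cancel hle] at h2
    refine h2.trans ?_
    have h3 : q i j + (q i j) ^ 2 * i ≡ q i j + 0 [MOD (q i j) ^ 2] :=
      Nat.ModEq.add_left _ ((Nat.modEq_zero_iff_dvd).2 (Dvd.intro i rfl))
    simpa using h3
  · intro i hi hit j hj
    have h := hx i hi j hj
    rwa [if_neg hit] at h

end Pool.Agent.Helper12.MM
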