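import Mathlib

/-!
PROJECT MM, module MM-08. `∑_{p ≤ n} (log p) / p ≥ log n - 4`.

`v_p (n!) ≤ n / (p - 1)` (Legendre: `sub_one_mul_padicValNat_factorial : (p - 1) * padicValNat p n ! = n - (digits p n).sum`). So `log n! = ∑_{p ≤ n} v_p (n!) log p ≤ n ∑_{p ≤ n} (log p)/(p - 1)`
(`Nat.factorization_prod_pow_eq_self`, `Real.log_prod`..), and `log n! ≥ n log n - n` (from `exp n ≥ n ^ n / n!`, `Real.pow_div_factorial_le_exp`; or `Real.factorial_ge..`/`Stirling`). So
`∑ (log p)/(p - 1) ≥ log n - 1`. Finally `(log p)/(p - 1) = (log p)/p + (log p)/(p (p - 1))` and `∑_p (log p)/(p (p - 1)) ≤ 3`: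
`log p ≤ 2 √p - 1`.. or simply `log m ≤ 2 * √m - 2 ≤ 2 √m` and telescoping: `√m / (m (m - 1)) ≤ 2 (1/√(m-1) - 1/√m) * √..`; a cheap way: `log p ≤ √p` (`Real.log_le_rpow_div` or `Real.add_one_le_exp` applied to
`√p / 2`..), `1/(√p (p - 1)) ≤ 2 (1/√(p - 1) - 1/√p)` as `1/√(p-1) - 1/√p = 1/(√p √(p-1) (√p + √(p-1))) ≥ 1/(2 p √(p-1)) `: compare as you like; the sum over `m ≥ 2` of `1/(√m (m - 1))` is about `2.18`. Any proof of a bound `≤ 3` for the sum over primes is fine
(for instance the first terms `p = 2, 3, 5, 7` by numerics and a crude tail).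
-/

set_option autoImplicit false

namespace Pool.Agent.Helper12.MM

open Finset

private theorem LogLow_log (m : ℕ) (hm : 1 ≤ m) : Real.log m ≤ √(m : ℝ) := by
  have h0 : (0 : ℝ) < m := by exact_mod_cast hm
  have hy : 0 < √(m : ℝ) := Real.sqrt_pos.2 h0
  have h1 : Real.log m = 2 * Real.log √(m : ℝ) := by
    rw [Real.log_sqrt h0.le]
    ring
  have h2 : Real.log (√(m : ℝ) / 2) ≤ √(m : ℝ) / 2 - 1 := Real.log_le_sub_one_of_pos (by positivity)
  rw [Real.log_div hy.ne' (by norm_num)] at h2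
  have h3 : Real.log 2 ≤ 1 := by
    have := Real.log_two_lt_d9
    linarith
  linarith

private theorem LogLow_tail (n : ℕ) (hn : 1 ≤ n) :
    ∑ m ∈ range (n + 1), Real.log m / ((m : ℝ) * ((m : ℝ) - 1)) ≤ 3 - 3 / √(n : ℝ) := by
  induction n, hn using Nat.le_induction with
  | base =>
    rw [Finset.sum_range_succ, Finset.sum_range_one]
    simp
  | succ n hn ih =>
    rw [Finset.sum_range_succ]
    have h0 : (0 : ℝ) < n := by exact_mod_cast hn
    have ha : 0 < √(n : ℝ) := Real.sqrt_pos.2 h0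
    have hb : 0 < √((n + 1 : ℕ) : ℝ) := Real.sqrt_pos.2 (by positivity)
    have ha2 : √(n : ℝ) ^ 2 = n := Real.sq_sqrt h0.le
    have hb2 : √((n + 1 : ℕ) : ℝ) ^ 2 = (n : ℝ) + 1 := by
      rw [Real.sq_sqrt (by positivity)]
      push_cast
      ring
    set a := √(n : ℝ) with hadef
    set b := √((n + 1 : ℕ) : ℝ) with hbdef
    have hn1 : (1 : ℝ) ≤ n := by exact_mod_cast hn
    have hba : b ≤ 2 * a := by
      by_contra h
      push Not at h
      nlinarith
    have hab : a < b := by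
      by_contra h
      push Not at h
      nlinarith
    have h1 : Real.log ((n + 1 : ℕ) : ℝ) ≤ b := LogLow_log (n + 1) (by omega)
    have h2 : Real.log ((n + 1 : ℕ) : ℝ) / (((n + 1 : ℕ) : ℝ) * (((n + 1 : ℕ) : ℝ) - 1)) ≤
        3 / a - 3 / b := by
      have h3 : (((n + 1 : ℕ) : ℝ) * (((n + 1 : ℕ) : ℝ) - 1)) = b ^ 2 * a ^ 2 := by
        rw [hb2, ha2]
        push_cast
        ring
      rw [h3, div_sub_div _ _ ha.ne' hb.ne', div_le_div_iff₀ (by positivity) (by positivity)]
      have h4 : 1 ≤ 3 * a * (b - a) := by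
        have h5 : (b - a) * (b + a) = 1 := by
          have : (b - a) * (b + a) = b ^ 2 - a ^ 2 := by ring
          rw [this, hb2, ha2]
          ring
        nlinarith [mul_nonneg (sub_nonneg.2 hab.le) (show 0 ≤ 2 * a - b by linarith)]
      calc Real.log ((n + 1 : ℕ) : ℝ) * (a * b) ≤ b * (a * b) :=
            mul_le_mul_of_nonneg_right h1 (by positivity)
        _ = a * b ^ 2 * 1 := by ring
        _ ≤ a * b ^ 2 * (3 * a * (b - a)) := mul_le_mul_of_nonneg_left h4 (by positivity)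
        _ = (3 * b - a * 3) * (b ^ 2 * a ^ 2) := by ring
    linarith

private theorem LogLow_fact (n : ℕ) (hn : 1 ≤ n) :
    Real.log (n.factorial : ℝ) ≤
      n * ∑ p ∈ (range (n + 1)).filter Nat.Prime, Real.log p / ((p : ℝ) - 1) := by
  rw [Real.log_nat_eq_sum_factorization, Finsupp.sum_of_support_subset _
    (s := (range (n + 1)).filter Nat.Prime), Finset.mul_sum]
  · refine Finset.sum_le_sum fun p hp => ?_
    obtain ⟨hp1, hp2⟩ := Finset.mem_filter.1 hp
    haveI : Fact p.Prime := ⟨hp2⟩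
    have h1 := sub_one_mul_padicValNat_factorial (p := p) n
    rw [Nat.factorization_def _ hp2]
    have h2 : (1 : ℝ) < p := by exact_mod_cast hp2.one_lt
    have h3 : ((p : ℝ) - 1) * (padicValNat p n.factorial : ℝ) ≤ n := by
      have h4 : (p - 1) * padicValNat p n.factorial ≤ n := by
        rw [h1]
        exact Nat.sub_le _ _
      have h5 : (((p - 1) * padicValNat p n.factorial : ℕ) : ℝ) ≤ n := by exact_mod_cast h4
      rw [Nat.cast_mul, Nat.cast_sub hp2.one_lt.le, Nat.cast_one] at h5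
      exact h5
    have h6 : 0 ≤ Real.log p := Real.log_nonneg h2.le
    rw [mul_div_assoc', le_div_iff₀ (by linarith)]
    nlinarith [mul_le_mul_of_nonneg_right h3 h6]
  · intro p hp
    rw [Nat.support_factorization, Nat.mem_primeFactors] at hp
    rw [Finset.mem_filter, Finset.mem_range]
    exact ⟨Nat.lt_succ_of_le ((hp.1.dvd_factorial).1 hp.2.1), hp.1⟩
  · intro p _
    simp

theorem logp_low (n : ℕ) (hn : 1 ≤ n) :
    Real.log n - 4 ≤ ∑ p ∈ (range (n + 1)).filter Nat.Prime, Real.log p / (p : ℝ) := by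
  have h0 : (0 : ℝ) < n := by exact_mod_cast hn
  have h1 := LogLow_fact n hn
  have h2 : (n : ℝ) * Real.log n - n ≤ Real.log (n.factorial : ℝ) := by
    have h3 := Real.pow_div_factorial_le_exp (n : ℝ) h0.le n
    have hf : (0 : ℝ) < n.factorial := by exact_mod_cast n.factorial_pos
    have h4 := Real.log_le_log (by positivity) h3
    rw [Real.log_exp, Real.log_div (by positivity) hf.ne', Real.log_pow] at h4
    linarith
  have h3 : Real.log n - 1 ≤
      ∑ p ∈ (range (n + 1)).filter Nat.Prime, Real.log p / ((p : ℝ) - 1) := by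
    have h4 : (n : ℝ) * (Real.log n - 1) ≤
        n * ∑ p ∈ (range (n + 1)).filter Nat.Prime, Real.log p / ((p : ℝ) - 1) := by
      linarith
    exact le_of_mul_le_mul_left h4 h0
  have h4 : ∑ p ∈ (range (n + 1)).filter Nat.Prime, Real.log p / ((p : ℝ) - 1) =
      ∑ p ∈ (range (n + 1)).filter Nat.Prime, Real.log p / (p : ℝ) +
        ∑ p ∈ (range (n + 1)).filter Nat.Prime, Real.log p / ((p : ℝ) * ((p : ℝ) - 1)) := by
    rw [← Finset.sum_add_distrib]
    refine Finset.sum_congr rfl fun p hp => ?_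
    have hp2 := (Finset.mem_filter.1 hp).2
    have h5 : (1 : ℝ) < p := by exact_mod_cast hp2.one_lt
    have h6 : (p : ℝ) - 1 ≠ 0 := by linarith
    have h7 : (p : ℝ) ≠ 0 := by linarith
    field_simp
    ring
  have h5 : ∑ p ∈ (range (n + 1)).filter Nat.Prime, Real.log p / ((p : ℝ) * ((p : ℝ) - 1)) ≤
      ∑ m ∈ range (n + 1), Real.log m / ((m : ℝ) * ((m : ℝ) - 1)) := by
    apply Finset.sum_le_sum_of_subset_of_nonneg (Finset.filter_subset _ _)
    intro m _ _
    rcases Nat.eq_zero_or_pos m with h | h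
    · rw [h]
      simp
    · have h6 : (1 : ℝ) ≤ m := by exact_mod_cast h
      exact div_nonneg (Real.log_nonneg h6) (mul_nonneg (by linarith) (by linarith))
  have h6 := LogLow_tail n hn
  have h7 : 0 ≤ 3 / √(n : ℝ) := by positivity
  linarith

end Pool.Agent.Helper12.MM
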