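import Pool.Agent.Helper12.MM.NCnt
import Pool.Agent.Helper12.MM.LogLow

/-!
PROJECT MM, module MM-24. Prime factors of the progression in a thin set of primes `Av`.

`avg_large`. Let `t_n = r + Q n`, `Y ≤ n < 2 Y`, `0 < t_n ≤ 3 Q Y`. `log t_n ≥ ∑_{p ∣ t_n} log p` (the product of the prime factors divides `t_n`). If `t_n` has a prime factor `> Y` then
`log t_n ≥ log Y + ∑_{p ≤ Y, p ∤ Q, p ∣ t_n} log p`. So, if `X` is the number of these `n`,
`X log Y ≤ ∑_n log t_n - ∑_{p ≤ Y, p ∤ Q} (log p) #{n : p ∣ t_n} ≤ Y log (3 Q Y) - ∑_{p ≤ Y, p ∤ Q} (log p)(Y/p - 1)` (`ncnt_ge`)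
`≤ Y (log 3 + log Q + log Y) - Y ∑_{p ≤ Y} (log p)/p + Y ∑_{p ∣ Q} (log p)/p + ∑_{p ≤ Y} log p`, and `∑_{p ≤ Y} (log p)/p ≥ log Y - 4` (`logp_low`), `∑_{p ∣ Q} (log p)/p ≤ ∑_{p ∣ Q} log p ≤ log Q`,
`∑_{p ≤ Y} log p ≤ Y log 4` (`primorial_le_4_pow`). Total `≤ Y (2 log Q + log 3 + 4 + log 4) ≤ Y (2 log Q + 10)`.
`avg_av`: the `n` with a prime factor `> Y` are counted in `avg_large`; for a prime `y1 < p ≤ Y`, `p ∤ Q`: `ncnt_le`, `Y/p + 1 ≤ 2 Y/p`. (Primes `p ≤ y1` divide `Q`.)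
-/

set_option autoImplicit false

namespace Pool.Agent.Helper12.MM

open Finset

private theorem sumlog_le (t : ℕ) (ht : 0 < t) (T : Finset ℕ) (hT : T ⊆ t.primeFactors) :
    ∑ p ∈ T, Real.log p ≤ Real.log t := by
  have h1 : ∑ p ∈ T, Real.log p ≤ ∑ p ∈ t.primeFactors, Real.log p :=
    sum_le_sum_of_subset_of_nonneg hT fun p hp _ =>
      Real.log_nonneg (by exact_mod_cast (Nat.prime_of_mem_primeFactors hp).one_lt.le)
  refine h1.trans ?_
  rw [← Real.log_prod (fun p hp => by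
    exact_mod_cast (Nat.prime_of_mem_primeFactors hp).ne_zero)]
  apply Real.log_le_log
  · apply prod_pos
    intro p hp
    exact_mod_cast (Nat.prime_of_mem_primeFactors hp).pos
  · rw [← Nat.cast_prod]
    exact_mod_cast Nat.le_of_dvd ht (Nat.prod_primeFactors_dvd t)

open Classical in
theorem avg_large (r Q Y : ℕ) (hY : 2 ≤ Y) (hQ0 : 0 < Q) (hr : r ≤ Q * Y) :
    (((Ico Y (2 * Y)).filter (fun n => ∃ p, p.Prime ∧ Y < p ∧ p ∣ r + Q * n)).card : ℝ) *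
      Real.log Y ≤ Y * (2 * Real.log Q + 10) := by
  obtain ⟨I, hI⟩ : ∃ I : Finset ℕ, I = Ico Y (2 * Y) := ⟨_, rfl⟩
  obtain ⟨P, hP⟩ : ∃ P : Finset ℕ, P = (range (Y + 1)).filter (fun p => p.Prime ∧ ¬ p ∣ Q) :=
    ⟨_, rfl⟩
  rw [← hI]
  have hPm : ∀ p ∈ P, p ≤ Y ∧ p.Prime ∧ ¬ p ∣ Q := by
    intro p hp
    rw [hP, mem_filter, mem_range] at hp
    exact ⟨by omega, hp.2⟩
  have hYr : (0 : ℝ) < Y := by exact_mod_cast (by omega : 0 < Y)
  have hQr : (0 : ℝ) < Q := by exact_mod_cast hQ0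
  have hlQ : 0 ≤ Real.log Q := Real.log_natCast_nonneg Q
  -- one place
  have key : ∀ n ∈ I, (if (∃ p, p.Prime ∧ Y < p ∧ p ∣ r + Q * n) then Real.log Y else 0) +
      ∑ p ∈ P, (if p ∣ r + Q * n then Real.log p else 0) ≤ Real.log (3 * Q * Y) := by
    intro n hn
    rw [hI, mem_Ico] at hn
    have ht : 0 < r + Q * n := by
      have : 0 < Q * n := Nat.mul_pos hQ0 (by omega)
      omega
    have hlog : Real.log ((r + Q * n : ℕ) : ℝ) ≤ Real.log (3 * Q * Y) := by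
      apply Real.log_le_log (by exact_mod_cast ht)
      have h1 : r + Q * n ≤ 3 * Q * Y := by
        have h2 : Q * n ≤ Q * (2 * Y) := Nat.mul_le_mul_left _ hn.2.le
        have h3 : 3 * Q * Y = Q * Y + Q * (2 * Y) := by ring
        omega
      exact_mod_cast h1
    rw [← sum_filter]
    have hS : P.filter (fun p => p ∣ r + Q * n) ⊆ (r + Q * n).primeFactors := by
      intro p hp
      rw [mem_filter] at hp
      exact Nat.mem_primeFactors.2 ⟨(hPm p hp.1).2.1, hp.2, ht.ne'⟩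
    by_cases hex : ∃ p, p.Prime ∧ Y < p ∧ p ∣ r + Q * n
    · rw [if_pos hex]
      obtain ⟨q, hq, hqY, hqd⟩ := hex
      have hqS : q ∉ P.filter (fun p => p ∣ r + Q * n) := by
        intro h
        have := (hPm q (mem_filter.1 h).1).1
        omega
      have h1 := sumlog_le _ ht (insert q (P.filter (fun p => p ∣ r + Q * n))) (by
        intro p hp
        rcases mem_insert.1 hp with h | h
        · rw [h]
          exact Nat.mem_primeFactors.2 ⟨hq, hqd, ht.ne'⟩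
        · exact hS h)
      rw [sum_insert hqS] at h1
      have h2 : Real.log Y ≤ Real.log q := Real.log_le_log hYr (by exact_mod_cast hqY.le)
      linarith
    · rw [if_neg hex, zero_add]
      exact (sumlog_le _ ht _ hS).trans hlog
  have hsum := sum_le_sum key
  rw [sum_add_distrib, sum_comm, sum_const] at hsum
  have e1 : ∑ n ∈ I, (if (∃ p, p.Prime ∧ Y < p ∧ p ∣ r + Q * n) then Real.log Y else 0) =
      ((I.filter (fun n => ∃ p, p.Prime ∧ Y < p ∧ p ∣ r + Q * n)).card : ℝ) * Real.log Y := by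
    rw [← sum_filter, sum_const, nsmul_eq_mul]
  have e2 : ∀ p ∈ P, ((Y : ℝ) / p - 1) * Real.log p ≤
      ∑ n ∈ I, (if p ∣ r + Q * n then Real.log p else 0) := by
    intro p hp
    rw [← sum_filter, sum_const, nsmul_eq_mul, hI]
    exact mul_le_mul_of_nonneg_right (ncnt_ge r Q Y p (hPm p hp).2.1.pos
      (((hPm p hp).2.1.coprime_iff_not_dvd).2 (hPm p hp).2.2)) (Real.log_natCast_nonneg p)
  have e3 := sum_le_sum e2
  have e4 : ∑ p ∈ P, ((Y : ℝ) / p - 1) * Real.log p =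
      Y * ∑ p ∈ P, Real.log p / p - ∑ p ∈ P, Real.log p := by
    rw [mul_sum, ← sum_sub_distrib]
    refine sum_congr rfl fun p hp => ?_
    ring
  -- the three sums
  have hsplit : ∑ p ∈ (range (Y + 1)).filter Nat.Prime, Real.log p / (p : ℝ) =
      ∑ p ∈ P, Real.log p / (p : ℝ) +
        ∑ p ∈ (range (Y + 1)).filter (fun p => p.Prime ∧ p ∣ Q), Real.log p / (p : ℝ) := by
    rw [← sum_filter_not_add_sum_filter _ (fun p => p ∣ Q), filter_filter, filter_filter, ← hP]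
  have hD : ∑ p ∈ (range (Y + 1)).filter (fun p => p.Prime ∧ p ∣ Q), Real.log p / (p : ℝ) ≤
      Real.log Q := by
    refine le_trans (sum_le_sum fun p hp => ?_) (sumlog_le Q hQ0 ((range (Y + 1)).filter
      (fun p => p.Prime ∧ p ∣ Q)) ?_)
    · rw [mem_filter] at hp
      exact div_le_self (Real.log_natCast_nonneg p) (by exact_mod_cast hp.2.1.one_lt.le)
    · intro p hp
      rw [mem_filter] at hp
      exact Nat.mem_primeFactors.2 ⟨hp.2.1, hp.2.2, hQ0.ne'⟩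
  have hlow := logp_low Y (by omega)
  have hup : ∑ p ∈ P, Real.log p ≤ Y * Real.log 4 := by
    have h1 : ∑ p ∈ P, Real.log p ≤ ∑ p ∈ (range (Y + 1)).filter Nat.Prime, Real.log p := by
      refine sum_le_sum_of_subset_of_nonneg ?_ fun p _ _ => Real.log_natCast_nonneg p
      intro p hp
      rw [hP, mem_filter] at hp
      exact mem_filter.2 ⟨hp.1, hp.2.1⟩
    refine h1.trans ?_
    rw [← Real.log_prod (fun p hp => by
      exact_mod_cast (mem_filter.1 hp).2.ne_zero), ← Real.log_pow, ← Nat.cast_prod]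
    apply Real.log_le_log
    · have hpp : 0 < ∏ p ∈ (range (Y + 1)).filter Nat.Prime, p :=
        prod_pos fun p hp => Nat.Prime.pos (mem_filter.1 hp).2
      exact_mod_cast hpp
    · exact_mod_cast primorial_le_four_pow Y
  have hlog3 : Real.log (3 * Q * Y) = Real.log 3 + Real.log Q + Real.log Y := by
    rw [Real.log_mul (by positivity) hYr.ne', Real.log_mul (by norm_num) hQr.ne']
  have hl3 : Real.log 3 ≤ 2 := by
    have := Real.log_le_sub_one_of_pos (show (0 : ℝ) < 3 by norm_num)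
    linarith
  have hl4 : Real.log 4 ≤ 3 := by
    have := Real.log_le_sub_one_of_pos (show (0 : ℝ) < 4 by norm_num)
    linarith
  have hcard : (I.card : ℝ) = Y := by
    rw [hI, Nat.card_Ico]
    congr 1
    omega
  rw [nsmul_eq_mul, hcard, e1, hlog3] at hsum
  rw [e4] at e3
  have hlow2 : Real.log Y - 4 - Real.log Q ≤ ∑ p ∈ P, Real.log p / (p : ℝ) := by
    rw [hsplit] at hlow
    linarith
  have h7 := mul_le_mul_of_nonneg_left hlow2 hYr.le
  have h8 := mul_le_mul_of_nonneg_left hl3 hYr.le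
  have h9 := mul_le_mul_of_nonneg_left hl4 hYr.le
  nlinarith

open Classical in
theorem avg_av (Av : Set ℕ) (r Q Y y1 : ℕ) (hY : 2 ≤ Y) (hQ0 : 0 < Q) (hr : r ≤ Q * Y)
    (hQ : ∀ p, p.Prime → p ≤ y1 → p ∣ Q) :
    (((Ico Y (2 * Y)).filter (fun n => ∃ p, p.Prime ∧ p ∈ Av ∧ ¬ p ∣ Q ∧ p ∣ r + Q * n)).card : ℝ) ≤
      Y * (2 * (∑ p ∈ (Ioc y1 Y).filter Nat.Prime, if p ∈ Av then 1 / (p : ℝ) else 0) +
        (2 * Real.log Q + 10) / Real.log Y) := by
  have hYr : (0 : ℝ) < Y := by exact_mod_cast (by omega : 0 < Y)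
  have hlY : 0 < Real.log Y := Real.log_pos (by exact_mod_cast (by omega : 1 < Y))
  have hX := avg_large r Q Y hY hQ0 hr
  obtain ⟨T, hT⟩ : ∃ T : Finset ℕ, T = ((Ioc y1 Y).filter Nat.Prime).filter
    (fun p => p ∈ Av ∧ ¬ p ∣ Q) := ⟨_, rfl⟩
  have hTm : ∀ p ∈ T, y1 < p ∧ p ≤ Y ∧ p.Prime ∧ p ∈ Av ∧ ¬ p ∣ Q := by
    intro p hp
    rw [hT, mem_filter, mem_filter, mem_Ioc] at hp
    exact ⟨hp.1.1.1, hp.1.1.2, hp.1.2, hp.2⟩
  have hsub : (Ico Y (2 * Y)).filter (fun n => ∃ p, p.Prime ∧ p ∈ Av ∧ ¬ p ∣ Q ∧ p ∣ r + Q * n) ⊆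
      (Ico Y (2 * Y)).filter (fun n => ∃ p, p.Prime ∧ Y < p ∧ p ∣ r + Q * n) ∪
        T.biUnion (fun p => (Ico Y (2 * Y)).filter (fun n => p ∣ r + Q * n)) := by
    intro n hn
    rw [mem_filter] at hn
    obtain ⟨hn1, p, hp, hpA, hpQ, hpd⟩ := hn
    rw [mem_union, mem_filter, mem_biUnion]
    by_cases hpY : Y < p
    · exact Or.inl ⟨hn1, p, hp, hpY, hpd⟩
    · refine Or.inr ⟨p, ?_, mem_filter.2 ⟨hn1, hpd⟩⟩
      rw [hT, mem_filter, mem_filter, mem_Ioc]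
      refine ⟨⟨⟨not_le.1 fun h => hpQ (hQ p hp h), not_lt.1 hpY⟩, hp⟩, hpA, hpQ⟩
  have h1 := (card_le_card hsub).trans ((card_union_le _ _).trans
    (Nat.add_le_add_left card_biUnion_le _))
  have h2 : (((Ico Y (2 * Y)).filter
      (fun n => ∃ p, p.Prime ∧ p ∈ Av ∧ ¬ p ∣ Q ∧ p ∣ r + Q * n)).card : ℝ) ≤
      (((Ico Y (2 * Y)).filter (fun n => ∃ p, p.Prime ∧ Y < p ∧ p ∣ r + Q * n)).card : ℝ) +
        ∑ p ∈ T, (((Ico Y (2 * Y)).filter (fun n => p ∣ r + Q * n)).card : ℝ) := by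
    exact_mod_cast h1
  have h3 : ∑ p ∈ T, (((Ico Y (2 * Y)).filter (fun n => p ∣ r + Q * n)).card : ℝ) ≤
      ∑ p ∈ T, 2 * (Y : ℝ) * (if p ∈ Av then 1 / (p : ℝ) else 0) := by
    refine sum_le_sum fun p hp => ?_
    obtain ⟨_, hpY, hpp, hpA, hpQ⟩ := hTm p hp
    refine (ncnt_le r Q Y p hpp.pos ((hpp.coprime_iff_not_dvd).2 hpQ)).trans ?_
    rw [if_pos hpA]
    have hp0 : (0 : ℝ) < p := by exact_mod_cast hpp.pos
    have h4 : (1 : ℝ) ≤ Y / p := by
      rw [le_div_iff₀ hp0, one_mul]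
      exact_mod_cast hpY
    have h5 : 2 * (Y : ℝ) * (1 / (p : ℝ)) = Y / p + Y / p := by ring
    rw [h5]
    linarith
  have h4 : ∑ p ∈ T, 2 * (Y : ℝ) * (if p ∈ Av then 1 / (p : ℝ) else 0) ≤
      ∑ p ∈ (Ioc y1 Y).filter Nat.Prime, 2 * (Y : ℝ) * (if p ∈ Av then 1 / (p : ℝ) else 0) := by
    refine sum_le_sum_of_subset_of_nonneg ?_ fun p _ _ => ?_
    · rw [hT]
      exact filter_subset _ _
    · split_ifs <;> positivity
  have h4' : ∑ p ∈ (Ioc y1 Y).filter Nat.Prime, 2 * (Y : ℝ) *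
      (if p ∈ Av then 1 / (p : ℝ) else 0) = 2 * (Y : ℝ) *
      ∑ p ∈ (Ioc y1 Y).filter Nat.Prime, (if p ∈ Av then 1 / (p : ℝ) else 0) :=
    (mul_sum _ _ _).symm
  have h5 : (((Ico Y (2 * Y)).filter (fun n => ∃ p, p.Prime ∧ Y < p ∧ p ∣ r + Q * n)).card : ℝ) ≤
      Y * ((2 * Real.log Q + 10) / Real.log Y) := by
    rw [← mul_div_assoc, le_div_iff₀ hlY]
    exact hX
  have h6 : (Y : ℝ) * (2 * (∑ p ∈ (Ioc y1 Y).filter Nat.Prime,
      if p ∈ Av then 1 / (p : ℝ) else 0) + (2 * Real.log Q + 10) / Real.log Y) =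
      Y * ((2 * Real.log Q + 10) / Real.log Y) + 2 * (Y : ℝ) *
        ∑ p ∈ (Ioc y1 Y).filter Nat.Prime, (if p ∈ Av then 1 / (p : ℝ) else 0) := by
    ring
  rw [h6]
  linarith

end Pool.Agent.Helper12.MM
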