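import Pool.Agent.Helper12.MM.NCnt

/-!
PROJECT MM, module MM-22. The mean number of divisors coprime to `Q` in the progression.

Let `Y ≤ n < 2 Y`, `t = r + Q n`, `0 < t ≤ Y ^ 2`. Let `f` be the largest divisor of `t` coprime to `Q` (e.g. `f = t / ...`; or avoid `f`: the set `S` of the divisors of `t` coprime to `Q` is closed under lcm, so it is the set of divisors of `f = S.lcm id`;
or use `Nat.Coprime`-part by factorization). `S = f.divisors`, and `e ↦ f / e` maps the `e > Y` of `S` into the `e ≤ Y` (as `f ≤ t ≤ Y ^ 2`): `|S| ≤ 2 #{e ∈ S : e ≤ Y}`. Hence the sum is at most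
`2 ∑_{e ≤ Y, coprime to Q} #{n : e ∣ r + Q n} ≤ 2 ∑_{e ≤ Y} (Y/e + 1) ≤ 2 ∑_{e ≤ Y} 2 Y/e ≤ 4 Y (1 + log Y)` (`ncnt_le`, `harmonic_le_one_add_log`).
-/

set_option autoImplicit false

namespace Pool.Agent.Helper12.MM

open Finset

private lemma lcm_cop (Q : ℕ) (S : Finset ℕ) (h : ∀ e ∈ S, e.Coprime Q) : (S.lcm id).Coprime Q := by
  induction S using Finset.induction_on with
  | empty => simp
  | insert a S ha ih =>
    rw [Finset.lcm_insert]
    have h1 : a.Coprime Q := h a (Finset.mem_insert_self a S)
    have h2 : (S.lcm id).Coprime Q := ih fun e he => h e (Finset.mem_insert_of_mem he)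
    have h3 : (a * S.lcm id).Coprime Q := Nat.Coprime.mul_left h1 h2
    exact Nat.Coprime.coprime_dvd_left (Nat.lcm_dvd_mul a (S.lcm id)) h3

private lemma card_half (t Q Y : ℕ) (ht : 0 < t) (hY : t ≤ Y ^ 2) :
    (t.divisors.filter (fun e => e.Coprime Q)).card ≤
      2 * ((Icc 1 Y).filter (fun e => e.Coprime Q ∧ e ∣ t)).card := by
  classical
  set S := t.divisors.filter (fun e => e.Coprime Q) with hS
  set T := (Icc 1 Y).filter (fun e => e.Coprime Q ∧ e ∣ t) with hT
  set f := S.lcm id with hf
  have hfQ : f.Coprime Q := by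
    apply lcm_cop
    intro e he
    exact (Finset.mem_filter.1 he).2
  have hft : f ∣ t := by
    apply Finset.lcm_dvd
    intro e he
    exact Nat.dvd_of_mem_divisors (Finset.mem_filter.1 he).1
  have hf0 : 0 < f := Nat.pos_of_dvd_of_pos hft ht
  have hfle : f ≤ Y ^ 2 := (Nat.le_of_dvd ht hft).trans hY
  have hSf : ∀ e ∈ S, e ∣ f := by
    intro e he
    exact Finset.dvd_lcm he
  have hsplit : S = S.filter (fun e => e ≤ Y) ∪ S.filter (fun e => ¬ e ≤ Y) :=
    (Finset.filter_union_filter_not_eq _ _).symm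
  have h1 : (S.filter (fun e => e ≤ Y)).card ≤ T.card := by
    apply Finset.card_le_card
    intro e he
    rw [Finset.mem_filter] at he
    have he1 := Finset.mem_filter.1 he.1
    have hd := Nat.dvd_of_mem_divisors he1.1
    rw [hT, Finset.mem_filter, Finset.mem_Icc]
    exact ⟨⟨Nat.pos_of_dvd_of_pos hd ht, he.2⟩, he1.2, hd⟩
  have h2 : (S.filter (fun e => ¬ e ≤ Y)).card ≤ T.card := by
    apply Finset.card_le_card_of_injOn (fun e => f / e)
    · intro e he
      have he' := Finset.mem_filter.1 (Finset.mem_coe.1 he)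
      obtain ⟨g, hg⟩ := hSf e he'.1
      have he1 := Finset.mem_filter.1 he'.1
      have hepos : 0 < e := Nat.pos_of_dvd_of_pos (Nat.dvd_of_mem_divisors he1.1) ht
      have hfe : f / e = g := by
        rw [hg]
        exact Nat.mul_div_cancel_left g hepos
      have hgf : g ∣ f := ⟨e, by rw [hg, mul_comm]⟩
      have hg0 : 0 < g := Nat.pos_of_dvd_of_pos hgf hf0
      have hgY : g ≤ Y := by
        by_contra hcon
        push Not at hcon
        have hY' : Y < e := by
          have := he'.2
          omega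
        have : Y * Y < e * g := by
          calc Y * Y ≤ Y * g := Nat.mul_le_mul_left _ hcon.le
            _ < e * g := Nat.mul_lt_mul_of_pos_right hY' hg0
        rw [← hg] at this
        have h3 := hfle
        rw [pow_two] at h3
        omega
      show f / e ∈ (T : Set ℕ)
      rw [hfe, Finset.mem_coe, hT, Finset.mem_filter, Finset.mem_Icc]
      exact ⟨⟨hg0, hgY⟩, Nat.Coprime.coprime_dvd_left hgf hfQ, hgf.trans hft⟩
    · intro e he e' he' hee
      have h1 := (Finset.mem_filter.1 (Finset.mem_coe.1 he)).1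
      have h2 := (Finset.mem_filter.1 (Finset.mem_coe.1 he')).1
      obtain ⟨g, hg⟩ := hSf e h1
      obtain ⟨g', hg'⟩ := hSf e' h2
      have p1 : 0 < e := Nat.pos_of_dvd_of_pos (hSf e h1) hf0
      have p2 : 0 < e' := Nat.pos_of_dvd_of_pos (hSf e' h2) hf0
      have q1 : f / e = g := by
        rw [hg]
        exact Nat.mul_div_cancel_left g p1
      have q2 : f / e' = g' := by
        rw [hg']
        exact Nat.mul_div_cancel_left g' p2
      have hee' : f / e = f / e' := hee
      rw [q1, q2] at hee'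
      have hg0 : 0 < g := by
        rcases Nat.eq_zero_or_pos g with h0 | h0
        · rw [h0, mul_zero] at hg
          omega
        · exact h0
      have : e * g = e' * g := by
        rw [← hg, hg', ← hee']
      exact Nat.eq_of_mul_eq_mul_right hg0 this
  calc S.card = (S.filter (fun e => e ≤ Y)).card + (S.filter (fun e => ¬ e ≤ Y)).card :=
        (Finset.card_filter_add_card_filter_not _).symm
    _ ≤ T.card + T.card := add_le_add h1 h2
    _ = 2 * T.card := by ring

theorem avg_div (r Q Y : ℕ) (hY : 1 ≤ Y) (hQ0 : 0 < Q) (hsz : r + Q * (2 * Y) ≤ Y ^ 2) :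
    (∑ n ∈ Ico Y (2 * Y), (((r + Q * n).divisors.filter (fun e => e.Coprime Q)).card : ℝ)) ≤
      4 * Y * (1 + Real.log Y) := by
  classical
  have hY0 : (0 : ℝ) < Y := by exact_mod_cast hY
  have step1 : ∀ n ∈ Ico Y (2 * Y), (((r + Q * n).divisors.filter (fun e => e.Coprime Q)).card : ℝ) ≤
      2 * ∑ e ∈ (Icc 1 Y).filter (fun e => e.Coprime Q), (if e ∣ r + Q * n then (1 : ℝ) else 0) := by
    intro n hn
    rw [Finset.mem_Ico] at hn
    have hpos : 0 < r + Q * n := by
      have : 0 < Q * n := Nat.mul_pos hQ0 (by omega)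
      omega
    have hle : r + Q * n ≤ Y ^ 2 := by
      have : Q * n ≤ Q * (2 * Y) := Nat.mul_le_mul_left Q hn.2.le
      omega
    have h := card_half (r + Q * n) Q Y hpos hle
    have h' : (((r + Q * n).divisors.filter (fun e => e.Coprime Q)).card : ℝ) ≤
        2 * (((Icc 1 Y).filter (fun e => e.Coprime Q ∧ e ∣ r + Q * n)).card : ℝ) := by
      exact_mod_cast h
    refine h'.trans (le_of_eq ?_)
    rw [← Finset.filter_filter, Finset.card_filter]
    push_cast
    rfl
  calc (∑ n ∈ Ico Y (2 * Y), (((r + Q * n).divisors.filter (fun e => e.Coprime Q)).card : ℝ))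
      ≤ ∑ n ∈ Ico Y (2 * Y), 2 * ∑ e ∈ (Icc 1 Y).filter (fun e => e.Coprime Q),
          (if e ∣ r + Q * n then (1 : ℝ) else 0) := Finset.sum_le_sum step1
    _ = 2 * ∑ e ∈ (Icc 1 Y).filter (fun e => e.Coprime Q),
          (((Ico Y (2 * Y)).filter (fun n => e ∣ r + Q * n)).card : ℝ) := by
        rw [← Finset.mul_sum, Finset.sum_comm]
        congr 1
        apply Finset.sum_congr rfl
        intro e _
        rw [Finset.card_filter]
        push_cast
        rfl
    _ ≤ 2 * ∑ e ∈ (Icc 1 Y).filter (fun e => e.Coprime Q), (2 * (Y : ℝ)) * (e : ℝ)⁻¹ := by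
        apply mul_le_mul_of_nonneg_left _ (by norm_num)
        apply Finset.sum_le_sum
        intro e he
        rw [Finset.mem_filter, Finset.mem_Icc] at he
        have he0 : 0 < e := by omega
        have he0' : (0 : ℝ) < e := by exact_mod_cast he0
        have h := ncnt_le r Q Y e he0 he.2
        refine h.trans ?_
        have heY : (e : ℝ) ≤ Y := by exact_mod_cast he.1.2
        have h1 : (1 : ℝ) ≤ Y / e := by
          rw [le_div_iff₀ he0']
          linarith
        have h2 : (Y : ℝ) / e = Y * (e : ℝ)⁻¹ := div_eq_mul_inv _ _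
        rw [h2] at h1 ⊢
        linarith
    _ ≤ 2 * ∑ e ∈ Icc 1 Y, (2 * (Y : ℝ)) * (e : ℝ)⁻¹ := by
        apply mul_le_mul_of_nonneg_left _ (by norm_num)
        apply Finset.sum_le_sum_of_subset_of_nonneg (Finset.filter_subset _ _)
        intro e _ _
        positivity
    _ = 4 * Y * ((harmonic Y : ℚ) : ℝ) := by
        rw [← Finset.mul_sum, harmonic_eq_sum_Icc]
        push_cast
        ring
    _ ≤ 4 * Y * (1 + Real.log Y) := by
        apply mul_le_mul_of_nonneg_left (harmonic_le_one_add_log Y) (by positivity)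

end Pool.Agent.Helper12.MM
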