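import Mathlib

/-!
PROJECT MM, module MM-20. The number of `n ∈ [Y, 2Y)` with `e ∣ r + Q n`, `e` coprime to `Q`.

These `n` are exactly one residue class modulo `e`; an interval of length `Y` contains at least `Y / e - 1` (real) and at most `Y / e + 1` of them (`Nat.Ico_filter_modEq_card`, `Int.Ico_filter_modEq_card`, or see the proof of
`moment` in `Pool/Agent/Helper9/PF/Moment.lean`).
-/

set_option autoImplicit false

namespace Pool.Agent.Helper12.MM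

open Finset

private lemma ncnt_key (r Q e : ℕ) (he : 0 < e) (hc : e.Coprime Q) :
    ∃ v : ℕ, ∀ n : ℕ, e ∣ r + Q * n ↔ n ≡ v [MOD e] := by
  obtain ⟨v, hv⟩ : ∃ v : ℕ, e ∣ r + Q * v := by
    have h : IsUnit (Q : ZMod e) := (ZMod.isUnit_iff_coprime Q e).2 hc.symm
    obtain ⟨u, hu⟩ := h
    have : NeZero e := ⟨he.ne'⟩
    refine ⟨(-(r : ZMod e) * ((u⁻¹ : (ZMod e)ˣ) : ZMod e)).val, ?_⟩
    rw [← ZMod.natCast_eq_zero_iff]
    push_cast
    rw [ZMod.natCast_zmod_val, ← hu]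
    have h1 : (u : ZMod e) * (-(r : ZMod e) * ((u⁻¹ : (ZMod e)ˣ) : ZMod e)) =
        -(r : ZMod e) * ((u : ZMod e) * ((u⁻¹ : (ZMod e)ˣ) : ZMod e)) := by ring
    rw [h1, Units.mul_inv, mul_one, add_neg_cancel]
  refine ⟨v, fun n => ?_⟩
  constructor
  · intro h
    have h1 : r + Q * n ≡ r + Q * v [MOD e] :=
      (Nat.modEq_zero_iff_dvd.2 h).trans (Nat.modEq_zero_iff_dvd.2 hv).symm
    have h2 := Nat.ModEq.add_left_cancel' r h1
    exact Nat.ModEq.cancel_left_of_coprime hc h2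
  · intro h
    have h1 : r + Q * n ≡ r + Q * v [MOD e] := (h.mul_left Q).add_left r
    exact Nat.modEq_zero_iff_dvd.1 (h1.trans (Nat.modEq_zero_iff_dvd.2 hv))

private lemma ncnt_card (r Q Y e : ℕ) (he : 0 < e) (hc : e.Coprime Q) :
    (((Ico Y (2 * Y)).filter (fun n => e ∣ r + Q * n)).card : ℝ) ≤ Y / e + 1 ∧
    (Y : ℝ) / e - 1 ≤ (((Ico Y (2 * Y)).filter (fun n => e ∣ r + Q * n)).card : ℝ) := by
  obtain ⟨v, hv⟩ := ncnt_key r Q e he hc
  have h1 : (Ico Y (2 * Y)).filter (fun n => e ∣ r + Q * n) =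
      (Ico Y (2 * Y)).filter (fun n => n ≡ v [MOD e]) := by
    apply Finset.filter_congr
    intro n _
    exact hv n
  have h2 := Nat.Ico_filter_modEq_card Y (2 * Y) he v
  rw [h1]
  set c := ((Ico Y (2 * Y)).filter (fun n => n ≡ v [MOD e])).card with hcdef
  have he' : (0 : ℚ) < e := by exact_mod_cast he
  set A : ℚ := (((2 * Y : ℕ) : ℚ) - v) / (e : ℚ) with hA
  set B : ℚ := (((Y : ℕ) : ℚ) - v) / (e : ℚ) with hB
  have hAB : A - B = (Y : ℚ) / e := by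
    rw [hA, hB]
    push_cast
    field_simp
    ring
  have hA1 := Int.ceil_lt_add_one A
  have hA2 := Int.le_ceil A
  have hB1 := Int.ceil_lt_add_one B
  have hB2 := Int.le_ceil B
  have hY : (0 : ℚ) ≤ (Y : ℚ) / e := by positivity
  have h3 : ((c : ℤ) : ℚ) = ((max (⌈A⌉ - ⌈B⌉) 0 : ℤ) : ℚ) := by
    rw [← h2]
  have h4 : (c : ℚ) = max ((⌈A⌉ : ℚ) - ⌈B⌉) 0 := by
    have : ((max (⌈A⌉ - ⌈B⌉) 0 : ℤ) : ℚ) = max ((⌈A⌉ : ℚ) - ⌈B⌉) 0 := by
      push_cast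
      rfl
    rw [← this, ← h3]
    push_cast
    rfl
  have h5 : (c : ℚ) ≤ (Y : ℚ) / e + 1 := by
    rw [h4]
    apply max_le
    · linarith
    · linarith
  have h6 : (Y : ℚ) / e - 1 ≤ (c : ℚ) := by
    rw [h4]
    refine le_trans ?_ (le_max_left _ _)
    linarith
  have h7 : (((c : ℚ) : ℝ)) ≤ (((Y : ℚ) / e + 1 : ℚ) : ℝ) := Rat.cast_le.2 h5
  have h8 : (((Y : ℚ) / e - 1 : ℚ) : ℝ) ≤ (((c : ℚ) : ℝ)) := Rat.cast_le.2 h6
  push_cast at h7 h8
  exact ⟨h7, h8⟩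

theorem ncnt_le (r Q Y e : ℕ) (he : 0 < e) (hc : e.Coprime Q) :
    (((Ico Y (2 * Y)).filter (fun n => e ∣ r + Q * n)).card : ℝ) ≤ Y / e + 1 :=
  (ncnt_card r Q Y e he hc).1

theorem ncnt_ge (r Q Y e : ℕ) (he : 0 < e) (hc : e.Coprime Q) :
    (Y : ℝ) / e - 1 ≤ (((Ico Y (2 * Y)).filter (fun n => e ∣ r + Q * n)).card : ℝ) :=
  (ncnt_card r Q Y e he hc).2

end Pool.Agent.Helper12.MM
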