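import Pool.Agent.Helper12.MM.Defs
import Pool.Agent.Helper12.MM.NCnt

/-!
PROJECT MM, module MM-23. The variance of the number of prime factors (Turan-Kubilius).

`PP` = the set of the primes `p ≤ z`, `p ∈ B`, `p ∤ Q`; `X n = om1 B Q z (r + Q n) = ∑_{p ∈ PP} [p ∣ r + Q n]`, `mu = ∑_{PP} 1/p ≤ |PP| ≤ z`. By `ncnt_le`, `ncnt_ge`:
`∑_n X n ≥ Y mu - |PP|`, and `∑_n (X n)^2 = ∑_{p, p'} #{n : p, p' ∣ r + Q n} ≤ ∑_p (Y/p + 1) + ∑_{p ≠ p'} (Y/(p p') + 1) ≤ Y mu + Y mu^2 + |PP|^2` (for `p ≠ p'` both divide iff `p p'` divides).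
So `∑ (X n - mu)^2 = ∑ (X n)^2 - 2 mu ∑ X n + Y mu^2 ≤ Y mu + |PP|^2 + 2 mu |PP| ≤ Y mu + 3 z^2 ≤ Y (mu + 1)`. (`|PP| ≤ z`: the primes are in `[1, z]`.)
-/

set_option autoImplicit false

namespace Pool.Agent.Helper12.MM

open Finset

open Classical in
private theorem om1_eq_nv (B : Set ℕ) (Q z n : ℕ) :
    (om1 B Q z n : ℝ) = ∑ p ∈ (range (z + 1)).filter (fun p => p.Prime ∧ p ∈ B ∧ ¬ p ∣ Q),
      (if p ∣ n then (1 : ℝ) else 0) := by
  rw [← Finset.sum_filter, Finset.sum_const, nsmul_eq_mul, mul_one, om1, Finset.filter_filter]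
  congr 2
  ext p
  simp only [mem_filter]
  tauto

theorem avg_var (B : Set ℕ) (r Q Y z : ℕ) (hY : 1 ≤ Y) (hz : 3 * z ^ 2 ≤ Y) :
    (∑ n ∈ Ico Y (2 * Y), ((om1 B Q z (r + Q * n) : ℝ) - mu1 B Q z) ^ 2) ≤ Y * (mu1 B Q z + 1) := by
  classical
  set PP := (range (z + 1)).filter (fun p => p.Prime ∧ p ∈ B ∧ ¬ p ∣ Q) with hPP
  set mu := mu1 B Q z with hmu
  have hmu' : mu = ∑ p ∈ PP, 1 / (p : ℝ) := by
    rw [hmu, mu1, hPP]
  have hpr : ∀ p ∈ PP, p.Prime := fun p hp => (mem_filter.1 hp).2.1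
  have hcop : ∀ p ∈ PP, p.Coprime Q := fun p hp =>
    ((hpr p hp).coprime_iff_not_dvd).2 (mem_filter.1 hp).2.2.2
  have hcard : PP.card ≤ z := by
    have h1 : PP ⊆ Icc 1 z := by
      intro p hp
      have h2 := (hpr p hp).one_lt
      have h3 := mem_range.1 (mem_filter.1 hp).1
      rw [mem_Icc]
      omega
    have h2 := Finset.card_le_card h1
    rw [Nat.card_Icc] at h2
    omega
  have hmu0 : 0 ≤ mu := by
    rw [hmu']
    exact Finset.sum_nonneg fun p _ => by positivity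
  have hmuc : mu ≤ PP.card := by
    rw [hmu']
    have : ∑ p ∈ PP, 1 / (p : ℝ) ≤ ∑ p ∈ PP, (1 : ℝ) := by
      refine Finset.sum_le_sum fun p hp => ?_
      have h2 : (1 : ℝ) ≤ p := by exact_mod_cast (hpr p hp).one_lt.le
      rw [div_le_one (by linarith)]
      exact h2
    refine this.trans (le_of_eq ?_)
    rw [Finset.sum_const, nsmul_eq_mul, mul_one]
  have hX : ∀ n, (om1 B Q z (r + Q * n) : ℝ) =
      ∑ p ∈ PP, (if p ∣ r + Q * n then (1 : ℝ) else 0) := fun n => om1_eq_nv B Q z _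
  -- first moment
  have hS1 : (Y : ℝ) * mu - PP.card ≤ ∑ n ∈ Ico Y (2 * Y), (om1 B Q z (r + Q * n) : ℝ) := by
    rw [Finset.sum_congr rfl fun n _ => hX n, Finset.sum_comm]
    have h1 : ∀ p ∈ PP, (Y : ℝ) * (1 / (p : ℝ)) - 1 ≤
        ∑ n ∈ Ico Y (2 * Y), (if p ∣ r + Q * n then (1 : ℝ) else 0) := by
      intro p hp
      rw [← Finset.sum_filter, Finset.sum_const, nsmul_eq_mul, mul_one]
      have := ncnt_ge r Q Y p (hpr p hp).pos (hcop p hp)
      rw [mul_one_div]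
      exact this
    refine le_trans (le_of_eq ?_) (Finset.sum_le_sum h1)
    rw [Finset.sum_sub_distrib, ← Finset.mul_sum, ← hmu', Finset.sum_const, nsmul_eq_mul, mul_one]
  -- second moment
  have hS2 : ∑ n ∈ Ico Y (2 * Y), (om1 B Q z (r + Q * n) : ℝ) ^ 2 ≤
      (Y : ℝ) * mu ^ 2 + (PP.card : ℝ) ^ 2 + Y * mu := by
    have h0 : ∀ n ∈ Ico Y (2 * Y), (om1 B Q z (r + Q * n) : ℝ) ^ 2 =
        ∑ p ∈ PP, ∑ q ∈ PP, (if p ∣ r + Q * n ∧ q ∣ r + Q * n then (1 : ℝ) else 0) := by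
      intro n _
      rw [hX n, sq, Finset.sum_mul_sum]
      refine Finset.sum_congr rfl fun p _ => Finset.sum_congr rfl fun q _ => ?_
      by_cases h1 : p ∣ r + Q * n <;> by_cases h2 : q ∣ r + Q * n <;> simp [h1, h2]
    rw [Finset.sum_congr rfl h0, Finset.sum_comm]
    have h1 : ∀ p ∈ PP, ∑ n ∈ Ico Y (2 * Y), ∑ q ∈ PP,
        (if p ∣ r + Q * n ∧ q ∣ r + Q * n then (1 : ℝ) else 0) ≤
        (Y : ℝ) * (1 / (p : ℝ)) * mu + PP.card + Y * (1 / (p : ℝ)) := by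
      intro p hp
      rw [Finset.sum_comm]
      have h2 : ∀ q ∈ PP, ∑ n ∈ Ico Y (2 * Y),
          (if p ∣ r + Q * n ∧ q ∣ r + Q * n then (1 : ℝ) else 0) ≤
          (Y : ℝ) * (1 / (p : ℝ)) * (1 / (q : ℝ)) + 1 +
            (if q = p then (Y : ℝ) * (1 / (p : ℝ)) else 0) := by
        intro q hq
        rw [← Finset.sum_filter, Finset.sum_const, nsmul_eq_mul, mul_one]
        by_cases hqp : q = p
        · subst hqp
          rw [if_pos rfl]
          have h3 : (Ico Y (2 * Y)).filter (fun n => q ∣ r + Q * n ∧ q ∣ r + Q * n) =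
              (Ico Y (2 * Y)).filter (fun n => q ∣ r + Q * n) := by
            simp only [and_self]
          rw [h3]
          have h4 := ncnt_le r Q Y q (hpr q hq).pos (hcop q hq)
          have h5 : 0 ≤ (Y : ℝ) * (1 / (q : ℝ)) * (1 / (q : ℝ)) := by positivity
          have h6 : (Y : ℝ) * (1 / (q : ℝ)) = Y / q := by rw [mul_one_div]
          linarith
        · rw [if_neg hqp, add_zero]
          have hpq : p.Coprime q := (Nat.coprime_primes (hpr p hp) (hpr q hq)).2 (Ne.symm hqp)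
          have h3 : (Ico Y (2 * Y)).filter (fun n => p ∣ r + Q * n ∧ q ∣ r + Q * n) =
              (Ico Y (2 * Y)).filter (fun n => p * q ∣ r + Q * n) := by
            refine Finset.filter_congr fun n _ => ?_
            constructor
            · rintro ⟨h1, h2⟩
              exact hpq.mul_dvd_of_dvd_of_dvd h1 h2
            · intro h
              exact ⟨(dvd_mul_right p q).trans h, (dvd_mul_left q p).trans h⟩
          rw [h3]
          have h4 := ncnt_le r Q Y (p * q) (Nat.mul_pos (hpr p hp).pos (hpr q hq).pos)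
            (Nat.Coprime.mul_left (hcop p hp) (hcop q hq))
          have h5 : (Y : ℝ) * (1 / (p : ℝ)) * (1 / (q : ℝ)) = Y / ((p * q : ℕ) : ℝ) := by
            push_cast
            rw [mul_assoc, one_div_mul_one_div, mul_one_div]
          rw [h5]
          exact h4
      refine (Finset.sum_le_sum h2).trans (le_of_eq ?_)
      rw [Finset.sum_add_distrib, Finset.sum_add_distrib, ← Finset.mul_sum, ← hmu',
        Finset.sum_const, nsmul_eq_mul, mul_one, Finset.sum_ite_eq' PP p, if_pos hp]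
    refine (Finset.sum_le_sum h1).trans (le_of_eq ?_)
    rw [Finset.sum_add_distrib, Finset.sum_add_distrib, ← Finset.sum_mul, ← Finset.mul_sum,
      ← hmu', Finset.sum_const, nsmul_eq_mul]
    ring
  have hexp : ∑ n ∈ Ico Y (2 * Y), ((om1 B Q z (r + Q * n) : ℝ) - mu) ^ 2 =
      ∑ n ∈ Ico Y (2 * Y), (om1 B Q z (r + Q * n) : ℝ) ^ 2 -
        2 * mu * ∑ n ∈ Ico Y (2 * Y), (om1 B Q z (r + Q * n) : ℝ) + Y * mu ^ 2 := by
    have h1 : ∀ n ∈ Ico Y (2 * Y), ((om1 B Q z (r + Q * n) : ℝ) - mu) ^ 2 =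
        (om1 B Q z (r + Q * n) : ℝ) ^ 2 - 2 * mu * (om1 B Q z (r + Q * n) : ℝ) + mu ^ 2 := by
      intro n _
      ring
    rw [Finset.sum_congr rfl h1, Finset.sum_add_distrib, Finset.sum_sub_distrib,
      ← Finset.mul_sum, Finset.sum_const, nsmul_eq_mul, Nat.card_Ico]
    congr 3
    omega
  rw [hexp]
  have hc0 : (0 : ℝ) ≤ PP.card := Nat.cast_nonneg _
  have hcz : (PP.card : ℝ) ≤ z := by exact_mod_cast hcard
  have hzY : 3 * (z : ℝ) ^ 2 ≤ Y := by exact_mod_cast hz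
  have hm : 2 * mu * ((Y : ℝ) * mu - PP.card) ≤
      2 * mu * ∑ n ∈ Ico Y (2 * Y), (om1 B Q z (r + Q * n) : ℝ) :=
    mul_le_mul_of_nonneg_left hS1 (by linarith)
  have h1 : mu * (PP.card : ℝ) ≤ (z : ℝ) ^ 2 := by
    have : mu * (PP.card : ℝ) ≤ z * z :=
      mul_le_mul (hmuc.trans hcz) hcz hc0 (hc0.trans hcz)
    nlinarith
  have h2 : (PP.card : ℝ) ^ 2 ≤ (z : ℝ) ^ 2 := by
    exact pow_le_pow_left₀ hc0 hcz 2
  nlinarith

theorem mu1_nonneg (B : Set ℕ) (Q z : ℕ) : 0 ≤ mu1 B Q z := by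
  rw [mu1]
  exact Finset.sum_nonneg fun p _ => by positivity

end Pool.Agent.Helper12.MM
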