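import Pool.Agent.Helper12.MM.NSq
import Pool.Agent.Helper12.MM.NDiv
import Pool.Agent.Helper12.MM.NVar
import Pool.Agent.Helper12.MM.NAv
import Pool.Agent.Helper12.MM.Per

/-!
PROJECT MM, module MM-25. A good `n`.

Write `c + Q2 * n + i = (c + i) + Q2 * n`. Count the `n ∈ [Y, 2Y)` which violate one of the four conditions:
1. `∑_{i ∈ (E, E+W]} (Y/y1 + Z) ≤ Y/8` by `avg_sq` (`r = c + i ≤ c + V`) and `h1`.
2. for each `i ≤ V`: `avg_div` and Markov: at most `4 Y (1 + log Y) / B2`; total `≤ Y/8` by `h2`.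
3. `∑_n ∑_i w i [T < |...|] ≤ ∑_i w i * Y (mu + 1)/T ^ 2` (Chebyshev, `avg_var`) `≤ Y S3/8`; so at most `Y/8` of the `n` have the sum `> S3` (`markov_card` or directly).
4. the same with `avg_av` and `h4`.
The total is at most `Y/2 < Y`, the number of all `n`.
-/

set_option autoImplicit false

namespace Pool.Agent.Helper12.MM

open Finset

private theorem exn_cov (Y : ℕ) (hY : 2 ≤ Y) (S1 S2 S3 S4 : Finset ℕ)
    (h1 : 8 * (S1.card : ℝ) ≤ Y) (h2 : 8 * (S2.card : ℝ) ≤ Y) (h3 : 8 * (S3.card : ℝ) ≤ Y)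
    (h4 : 8 * (S4.card : ℝ) ≤ Y) :
    ∃ n ∈ Ico Y (2 * Y), n ∉ S1 ∧ n ∉ S2 ∧ n ∉ S3 ∧ n ∉ S4 := by
  classical
  by_contra hcon
  push Not at hcon
  have hsub : Ico Y (2 * Y) ⊆ ((S1 ∪ S2) ∪ S3) ∪ S4 := by
    intro n hn
    simp only [mem_union]
    by_contra hx
    push Not at hx
    exact hx.2 (hcon n hn hx.1.1.1 hx.1.1.2 hx.1.2)
  have hc := card_le_card hsub
  have h5 := card_union_le ((S1 ∪ S2) ∪ S3) S4
  have h6 := card_union_le (S1 ∪ S2) S3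
  have h7 := card_union_le S1 S2
  rw [Nat.card_Ico] at hc
  have h8 : Y ≤ S1.card + S2.card + S3.card + S4.card := by omega
  have h9 : (Y : ℝ) ≤ S1.card + S2.card + S3.card + S4.card := by exact_mod_cast h8
  have h10 : (2 : ℝ) ≤ Y := by exact_mod_cast hY
  linarith

open Classical in
private theorem exn_union (I J : Finset ℕ) (P : ℕ → ℕ → Prop) (K : ℝ)
    (h : ∀ i ∈ J, ((I.filter (fun n => P n i)).card : ℝ) ≤ K) :
    ∃ S : Finset ℕ, (∀ n ∈ I, (∃ i ∈ J, P n i) → n ∈ S) ∧ (S.card : ℝ) ≤ J.card * K := by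
  refine ⟨J.biUnion (fun i => I.filter (fun n => P n i)), ?_, ?_⟩
  · rintro n hn ⟨i, hi, hP⟩
    rw [mem_biUnion]
    exact ⟨i, hi, mem_filter.2 ⟨hn, hP⟩⟩
  · have h1 : ((J.biUnion (fun i => I.filter (fun n => P n i))).card : ℝ) ≤
        ∑ i ∈ J, ((I.filter (fun n => P n i)).card : ℝ) := by
      exact_mod_cast card_biUnion_le
    refine h1.trans ((sum_le_sum h).trans (le_of_eq ?_))
    rw [sum_const, nsmul_eq_mul]

open Classical in
theorem exists_n (B Av : Set ℕ) (Q2 c Y z Z y1 E W V B2 : ℕ) (w : ℕ → ℕ) (T S3 S4 : ℝ)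
    (hY : 2 ≤ Y) (hQ0 : 0 < Q2) (hy1 : 1 ≤ y1) (hB2 : 0 < B2) (hT : 0 < T) (hS3 : 0 < S3) (hS4 : 0 < S4)
    (hV : E + W ≤ V) (hsz : c + V + Q2 * (2 * Y) ≤ Y ^ 2) (hZ : c + V + Q2 * (2 * Y) ≤ Z ^ 2)
    (hr : c + V ≤ Q2 * Y) (hz : 3 * z ^ 2 ≤ Y) (hQ : ∀ p, p.Prime → p ≤ y1 → p ∣ Q2)
    (h1 : 8 * (W * ((Y : ℝ) / y1 + Z)) ≤ Y)
    (h2 : 8 * ((V + 1) * (4 * (1 + Real.log Y))) ≤ B2)
    (h3 : 8 * ((∑ i ∈ Ioc E (E + W), (w i : ℝ)) * ((mu1 B Q2 z + 1) / T ^ 2)) ≤ S3)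
    (h4 : 8 * (W * (2 * (∑ p ∈ (Ioc y1 Y).filter Nat.Prime, if p ∈ Av then 1 / (p : ℝ) else 0) +
        (2 * Real.log Q2 + 10) / Real.log Y)) ≤ S4) :
    ∃ n, Y ≤ n ∧ n < 2 * Y ∧
      (∀ i, E < i → i ≤ E + W → ∀ p, p.Prime → ¬ p ∣ Q2 → ¬ p ^ 2 ∣ c + Q2 * n + i) ∧
      (∀ i ≤ V, ((c + Q2 * n + i).divisors.filter (fun e => e.Coprime Q2)).card ≤ B2) ∧
      (∑ i ∈ (Ioc E (E + W)).filter
        (fun i => T < |(om1 B Q2 z (c + Q2 * n + i) : ℝ) - mu1 B Q2 z|), (w i : ℝ)) ≤ S3 ∧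
      (((Ioc E (E + W)).filter
        (fun i => ∃ p, p.Prime ∧ p ∈ Av ∧ ¬ p ∣ Q2 ∧ p ∣ c + Q2 * n + i)).card : ℝ) ≤ S4 := by
  have hYr : (0 : ℝ) < Y := by exact_mod_cast (by omega : 0 < Y)
  have hB2r : (0 : ℝ) < B2 := by exact_mod_cast hB2
  have hre : ∀ n i : ℕ, c + Q2 * n + i = (c + i) + Q2 * n := fun n i => by ring
  set I := Ico Y (2 * Y) with hI
  set J := Ioc E (E + W) with hJ
  have hJc : J.card = W := by
    rw [hJ, Nat.card_Ioc]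
    omega
  have hJV : ∀ i ∈ J, i ≤ V := by
    intro i hi
    rw [hJ, mem_Ioc] at hi
    omega
  -- the four bad sets
  have b1 : ∃ S1 : Finset ℕ, (∀ n ∈ I, (∃ i ∈ J, ∃ p, p.Prime ∧ ¬ p ∣ Q2 ∧
      p ^ 2 ∣ c + Q2 * n + i) → n ∈ S1) ∧ 8 * (S1.card : ℝ) ≤ Y := by
    obtain ⟨S, hS, h⟩ := exn_union I J (fun n i => ∃ p, p.Prime ∧ ¬ p ∣ Q2 ∧ p ^ 2 ∣ c + Q2 * n + i)
      ((Y : ℝ) / y1 + Z) (by
        intro i hi
        have hiV := hJV i hi
        have h5 := avg_sq (c + i) Q2 Y Z y1 hy1 (by omega) hQ0 hQ (by omega)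
        simp only [hre]
        exact h5)
    rw [hJc] at h
    exact ⟨S, hS, by linarith⟩
  have b2 : ∃ S2 : Finset ℕ, (∀ n ∈ I, (∃ i ∈ range (V + 1), (B2 : ℝ) <
      (((c + Q2 * n + i).divisors.filter (fun e => e.Coprime Q2)).card : ℝ)) → n ∈ S2) ∧
      8 * (S2.card : ℝ) ≤ Y := by
    obtain ⟨S, hS, h⟩ := exn_union I (range (V + 1)) (fun n i => (B2 : ℝ) <
      (((c + Q2 * n + i).divisors.filter (fun e => e.Coprime Q2)).card : ℝ))
      (4 * Y * (1 + Real.log Y) / B2) (by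
        intro i hi
        rw [mem_range] at hi
        have h5 := avg_div (c + i) Q2 Y (by omega) hQ0 (by omega)
        have h6 := markov_card I (fun n =>
          (((c + i + Q2 * n).divisors.filter (fun e => e.Coprime Q2)).card : ℝ))
          (4 * Y * (1 + Real.log Y)) B2 hB2r (fun n _ => Nat.cast_nonneg _) h5
        simp only [hre]
        exact h6)
    rw [card_range] at h
    push_cast at h
    have h7 : ((V : ℝ) + 1) * (4 * Y * (1 + Real.log Y) / B2) =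
        Y * (((V : ℝ) + 1) * (4 * (1 + Real.log Y)) / B2) := by ring
    rw [h7] at h
    have h8 : ((V : ℝ) + 1) * (4 * (1 + Real.log Y)) / B2 ≤ 1 / 8 := by
      rw [div_le_iff₀ hB2r]
      linarith
    have h9 := mul_le_mul_of_nonneg_left h8 hYr.le
    exact ⟨S, hS, by linarith⟩
  have b3 : 8 * ((I.filter (fun n => S3 < ∑ i ∈ J.filter
      (fun i => T < |(om1 B Q2 z (c + Q2 * n + i) : ℝ) - mu1 B Q2 z|), (w i : ℝ))).card : ℝ) ≤ Y := by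
    have h5 : ∑ n ∈ I, ∑ i ∈ J.filter
        (fun i => T < |(om1 B Q2 z (c + Q2 * n + i) : ℝ) - mu1 B Q2 z|), (w i : ℝ) ≤
        (∑ i ∈ J, (w i : ℝ)) * (Y * (mu1 B Q2 z + 1) / T ^ 2) := by
      simp only [sum_filter]
      rw [sum_comm, sum_mul]
      apply sum_le_sum
      intro i hi
      rw [← sum_filter, sum_const, nsmul_eq_mul, mul_comm]
      refine mul_le_mul_of_nonneg_left ?_ (Nat.cast_nonneg _)
      have h6 := markov_card I (fun n => ((om1 B Q2 z (c + i + Q2 * n) : ℝ) - mu1 B Q2 z) ^ 2)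
        (Y * (mu1 B Q2 z + 1)) (T ^ 2) (by positivity) (fun n _ => sq_nonneg _)
        (avg_var B (c + i) Q2 Y z (by omega) hz)
      refine le_trans ?_ h6
      have h7 : I.filter (fun n => T < |(om1 B Q2 z (c + Q2 * n + i) : ℝ) - mu1 B Q2 z|) ⊆
          I.filter (fun n => T ^ 2 < ((om1 B Q2 z (c + i + Q2 * n) : ℝ) - mu1 B Q2 z) ^ 2) := by
        intro n hn
        rw [mem_filter] at hn ⊢
        refine ⟨hn.1, ?_⟩
        rw [← hre]
        have h8 := hn.2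
        rw [← sq_abs ((om1 B Q2 z (c + Q2 * n + i) : ℝ) - mu1 B Q2 z)]
        exact pow_lt_pow_left₀ h8 hT.le (by norm_num)
      exact_mod_cast card_le_card h7
    have h6 := markov_card I (fun n => ∑ i ∈ J.filter
        (fun i => T < |(om1 B Q2 z (c + Q2 * n + i) : ℝ) - mu1 B Q2 z|), (w i : ℝ))
        _ S3 hS3 (fun n _ => sum_nonneg fun i _ => Nat.cast_nonneg _) h5
    have h7 : (∑ i ∈ J, (w i : ℝ)) * (Y * (mu1 B Q2 z + 1) / T ^ 2) / S3 =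
        Y * ((∑ i ∈ J, (w i : ℝ)) * ((mu1 B Q2 z + 1) / T ^ 2) / S3) := by ring
    rw [h7] at h6
    have h8 : (∑ i ∈ J, (w i : ℝ)) * ((mu1 B Q2 z + 1) / T ^ 2) / S3 ≤ 1 / 8 := by
      rw [div_le_iff₀ hS3]
      linarith
    have h9 := mul_le_mul_of_nonneg_left h8 hYr.le
    linarith
  have b4 : 8 * ((I.filter (fun n => S4 < ((J.filter
      (fun i => ∃ p, p.Prime ∧ p ∈ Av ∧ ¬ p ∣ Q2 ∧ p ∣ c + Q2 * n + i)).card : ℝ))).card : ℝ) ≤ Y := by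
    have h5 : ∑ n ∈ I, ((J.filter
        (fun i => ∃ p, p.Prime ∧ p ∈ Av ∧ ¬ p ∣ Q2 ∧ p ∣ c + Q2 * n + i)).card : ℝ) ≤
        W * (Y * (2 * (∑ p ∈ (Ioc y1 Y).filter Nat.Prime, if p ∈ Av then 1 / (p : ℝ) else 0) +
        (2 * Real.log Q2 + 10) / Real.log Y)) := by
      simp only [card_filter, Nat.cast_sum]
      rw [sum_comm, ← hJc]
      rw [← nsmul_eq_mul]
      apply sum_le_card_nsmul
      intro i hi
      have hiV := hJV i hi
      have h6 := avg_av Av (c + i) Q2 Y y1 hY hQ0 (by omega) hQ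
      refine le_trans (le_of_eq ?_) h6
      rw [card_filter, Nat.cast_sum]
      simp only [hre]
      rfl
    have h6 := markov_card I (fun n => ((J.filter
        (fun i => ∃ p, p.Prime ∧ p ∈ Av ∧ ¬ p ∣ Q2 ∧ p ∣ c + Q2 * n + i)).card : ℝ))
        _ S4 hS4 (fun n _ => Nat.cast_nonneg _) h5
    rw [mul_left_comm, mul_div_assoc] at h6
    have h8 : (W * (2 * (∑ p ∈ (Ioc y1 Y).filter Nat.Prime, if p ∈ Av then 1 / (p : ℝ) else 0) +
        (2 * Real.log Q2 + 10) / Real.log Y)) / S4 ≤ 1 / 8 := by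
      rw [div_le_iff₀ hS4]
      linarith
    have h9 := mul_le_mul_of_nonneg_left h8 hYr.le
    linarith
  obtain ⟨T1, c1, b1⟩ := b1
  obtain ⟨T2, c2, b2⟩ := b2
  obtain ⟨n, hn, n1, n2, n3, n4⟩ := exn_cov Y hY _ _ _ _ b1 b2 b3 b4
  have hn' := hn
  rw [mem_Ico] at hn'
  refine ⟨n, hn'.1, hn'.2, ?_, ?_, ?_, ?_⟩
  · intro i hi1 hi2 p hp hpQ hd
    exact n1 (c1 n hn ⟨i, mem_Ioc.2 ⟨hi1, hi2⟩, p, hp, hpQ, hd⟩)
  · intro i hi
    by_contra hcon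
    push Not at hcon
    exact n2 (c2 n hn ⟨i, mem_range.2 (by omega), by exact_mod_cast hcon⟩)
  · by_contra hcon
    push Not at hcon
    exact n3 (mem_filter.2 ⟨hn, hcon⟩)
  · by_contra hcon
    push Not at hcon
    exact n4 (mem_filter.2 ⟨hn, hcon⟩)

end Pool.Agent.Helper12.MM
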