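import Pool.Agent.Helper12.MM.Defs

/-!
PROJECT MM, module MM-41. The places which are bad for `N`.

* `ww_sum`: `∑_{i ∈ core} ww i = W + #{pairs whose end is in core} ≤ W + #pairs` (every pair has one end; `Finset.card_eq_sum_card_fiberwise` / `card_biUnion`).
* `nbad_le`: let `i` be in the set on the left, `h ≤ H0` with `Same i h`, `¬ typ (i + h q_i)`. As `i` is not `ABad`, `q_i ≤ D` and `i + H0 D ≤ E + W`, so `i' = i + h q_i ∈ (E, E + W]`, `¬ typ i'`. If `h = 0`, `i = i'` (the summand `1` of `ww i'`); if `h ≥ 1`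
  the pair `(i, h)` is counted in `ww i'`. So the left side is at most the number of all such `(i', 0)` and `(i, h)`: the sum on the right.
-/

set_option autoImplicit false

namespace Pool.Agent.Helper12.MM

open Finset

open Classical in
private theorem ww_fib (Q b H0 E W : ℕ) (t : Finset ℕ) :
    ∑ i ∈ t, ww Q b H0 E W i = t.card +
      (((Ioc E (E + W)) ×ˢ (Icc 1 H0)).filter
        (fun x => Same Q b x.1 x.2 ∧ x.1 + x.2 * (b + x.1).gcd Q ∈ t)).card := by
  unfold ww
  rw [Finset.sum_add_distrib, Finset.sum_const, smul_eq_mul, mul_one]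
  congr 1
  have h2 := Finset.sum_card_fiberwise_eq_card_filter
    (((Ioc E (E + W)) ×ˢ (Icc 1 H0)).filter (fun x => Same Q b x.1 x.2)) t
    (fun x : ℕ × ℕ => x.1 + x.2 * (b + x.1).gcd Q)
  rw [Finset.filter_filter] at h2
  rw [← h2]
  refine Finset.sum_congr rfl fun i _ => ?_
  rw [Finset.filter_filter]

open Classical in
theorem ww_sum (Q b H0 E W : ℕ) :
    ∑ i ∈ Ioc E (E + W), ww Q b H0 E W i ≤
      W + (((Ioc E (E + W)) ×ˢ (Icc 1 H0)).filter (fun x => Same Q b x.1 x.2)).card := by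
  rw [ww_fib, Nat.card_Ioc]
  have h1 : E + W - E = W := by omega
  rw [h1]
  refine Nat.add_le_add_left (Finset.card_le_card ?_) _
  intro x hx
  rw [Finset.mem_filter] at hx ⊢
  exact ⟨hx.1, hx.2.1⟩

open Classical in
theorem nbad_le (Q G y y1 E0 D H0 T E W b : ℕ) (typ : ℕ → Prop) :
    ((Ioc E (E + W)).filter (fun i => ¬ ABad Q G y y1 E0 D H0 T E W b i ∧
      ∃ h, h ≤ H0 ∧ Same Q b i h ∧ ¬ typ (i + h * (b + i).gcd Q))).card ≤
      ∑ i ∈ (Ioc E (E + W)).filter (fun i => ¬ typ i), ww Q b H0 E W i := by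
  rw [ww_fib]
  set R := (Ioc E (E + W)).filter (fun i => ¬ typ i) with hR
  set S := ((Ioc E (E + W)) ×ˢ (Icc 1 H0)).filter
        (fun x => Same Q b x.1 x.2 ∧ x.1 + x.2 * (b + x.1).gcd Q ∈ R) with hS
  have hsub : (Ioc E (E + W)).filter (fun i => ¬ ABad Q G y y1 E0 D H0 T E W b i ∧
      ∃ h, h ≤ H0 ∧ Same Q b i h ∧ ¬ typ (i + h * (b + i).gcd Q)) ⊆ R ∪ S.image Prod.fst := by
    intro i hi
    rw [Finset.mem_filter] at hi
    obtain ⟨hi1, hi2, h, hh, hsame, htyp⟩ := hi
    rw [Finset.mem_union]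
    rcases Nat.eq_zero_or_pos h with h0 | h0
    · left
      rw [hR, Finset.mem_filter]
      refine ⟨hi1, ?_⟩
      rw [h0, zero_mul, add_zero] at htyp
      exact htyp
    · right
      rw [Finset.mem_image]
      refine ⟨(i, h), ?_, rfl⟩
      unfold ABad at hi2
      rw [not_or, not_or] at hi2
      obtain ⟨g1, g2, -⟩ := hi2
      rw [not_lt] at g1 g2
      rw [Finset.mem_Ioc] at hi1
      have hle : h * (b + i).gcd Q ≤ H0 * D := Nat.mul_le_mul hh g1
      rw [hS, Finset.mem_filter, Finset.mem_product, Finset.mem_Ioc, Finset.mem_Icc, hR,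
        Finset.mem_filter, Finset.mem_Ioc]
      refine ⟨⟨hi1, h0, hh⟩, hsame, ⟨?_, ?_⟩, htyp⟩
      · show E < i + h * (b + i).gcd Q
        omega
      · show i + h * (b + i).gcd Q ≤ E + W
        omega
  calc _ ≤ (R ∪ S.image Prod.fst).card := Finset.card_le_card hsub
    _ ≤ R.card + (S.image Prod.fst).card := Finset.card_union_le _ _
    _ ≤ R.card + S.card := Nat.add_le_add_left Finset.card_image_le _

end Pool.Agent.Helper12.MM
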