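import Pool.Agent.Helper12.MM.CoreB
import Pool.Agent.Helper12.MM.Desi
import Pool.Agent.Helper12.MM.ExN
import Pool.Agent.Helper12.MM.NBad

/-!
PROJECT MM, core, part C: good integers exist.
-/

set_option autoImplicit false

namespace Pool.Agent.Helper12.MM

open Finset Pool.Agent.Helper9.PF

variable {A B Av : Set ℕ} {M s0 M' P k b Q2 : ℕ} {q : ℕ → ℕ → ℕ} {ζ : ℝ}

lemma Env.qgt (e : Env A B Av M s0 M' P k b Q2 q) {i j : ℕ} (hi : i ∈ core k) (hj : j < mm k) :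
    2 ^ J1 k < q i j := by
  have h1 := (e.qp i hi j hj).2.2.2
  have h2 := e.y1V
  omega

lemma Env.qsq (e : Env A B Av M s0 M' P k b Q2 q) {i j : ℕ} (hi : i ∈ core k) (hj : j < mm k) :
    (q i j) ^ 2 ∣ Q2 := by
  rw [e.Q2e]
  refine Dvd.dvd.mul_left ?_ _
  exact (dvd_prod_of_mem (fun j => (q i j) ^ 2) (mem_range.2 hj)).trans
    (dvd_prod_of_mem (fun i => ∏ j ∈ range (mm k), (q i j) ^ 2) hi)

lemma Env.Q2pos (e : Env A B Av M s0 M' P k b Q2 q) : 0 < Q2 := by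
  rw [e.Q2e]
  refine Nat.mul_pos (Q1_pos _ _) (Finset.prod_pos fun i hi => Finset.prod_pos fun j hj => ?_)
  exact pow_pos (e.qp i hi j (mem_range.1 hj)).1.pos _

open Classical in
theorem Env.exists_GN (e : Env A B Av M s0 M' P k b Q2 q) (hζ : 0 < ζ)
    (hpar : ∀ c < Q2, 2 ≤ YY k ∧ c + VV k + Q2 * (2 * YY k) ≤ YY k ^ 2 ∧
      c + VV k + Q2 * (2 * YY k) ≤ ZZ k ^ 2 ∧ c + VV k ≤ Q2 * YY k ∧
      (2 * Real.log Q2 + 10) / Real.log (YY k) ≤ 4 / 2 ^ k)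
    (hp1 : 3 * zz k ^ 2 ≤ YY k)
    (hp2 : 8 * ((WW k : ℝ) * ((YY k : ℝ) / ((2 ^ J1 k : ℕ) : ℝ) + ZZ k)) ≤ YY k)
    (hp3 : 8 * (((VV k : ℝ) + 1) * (4 * (1 + Real.log (YY k)))) ≤ ((2 ^ (6 * k ^ 50) : ℕ) : ℝ))
    (hmu : mu1 B Q2 (zz k) + 1 ≤ 4 * (k : ℝ) ^ 50)
    (hpd : ∀ mu Sw : ℝ, 0 ≤ mu → mu + 1 ≤ 4 * (k : ℝ) ^ 50 → 0 ≤ Sw →
      Sw ≤ WW k + WW k * (k : ℝ) ^ 14 →
      8 * (Sw * ((mu + 1) / ((k : ℝ) ^ 34) ^ 2)) ≤ (WW k : ℝ) / k ^ 3)
    (hb4 : ((((core k) ×ˢ (Icc 1 (H0 k))).filter (fun x => Same (Qk k) b x.1 x.2)).card : ℝ) ≤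
      WW k * (k : ℝ) ^ 14)
    (htail : 8 * (2 * (∑ p ∈ (Ioc (2 ^ J1 k) (YY k)).filter Nat.Prime,
      if p ∈ Av then 1 / (p : ℝ) else 0) + 4 / 2 ^ k) ≤ ζ) (t : Finset ℕ) :
    ∃ N, GN B Av ζ k b Q2 q t N := by
  have hk := e.hk
  have hQ20 := e.Q2pos
  obtain ⟨c, hc1, hc2, hc3, hc4⟩ := design (Q1 (2 ^ J1 k) (E0 k)) b (mm k) (core k) t q (Q1_pos _ _)
    (fun i hi j hj => ⟨(e.qp i hi j hj).1, fun h => by
      have h1 := le_of_dvd_Q1 (e.qp i hi j hj).1 h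
      have h2 := e.qgt hi hj
      omega⟩) e.qinj
  rw [← e.Q2e] at hc1
  obtain ⟨hY, hs1, hs2, hs3, hs4⟩ := hpar c hc1
  have hkr : (0:ℝ) < (k:ℝ) := by
    have : (2:ℝ) ≤ k := by exact_mod_cast hk
    linarith
  have hW : (0:ℝ) < WW k := by
    unfold WW
    positivity
  have hw : ∑ i ∈ core k, (wk k b i : ℝ) ≤ WW k + WW k * (k : ℝ) ^ 14 := by
    have h1 := ww_sum (Qk k) b (H0 k) (EE k) (WW k)
    have h2 : (∑ i ∈ core k, (wk k b i : ℝ)) ≤ (WW k : ℝ) +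
        ((((core k) ×ˢ (Icc 1 (H0 k))).filter (fun x => Same (Qk k) b x.1 x.2)).card : ℝ) := by
      exact_mod_cast h1
    linarith
  obtain ⟨n, hn1, hn2, hn3, hn4, hn5, hn6⟩ := exists_n B Av Q2 c (YY k) (zz k) (ZZ k) (2 ^ J1 k) (EE k)
    (WW k) (VV k) (2 ^ (6 * k ^ 50)) (fun i => wk k b i) ((k : ℝ) ^ 34) ((WW k : ℝ) / k ^ 3)
    (ζ * WW k) hY hQ20 (le_trans (by norm_num) e.y12) (by positivity) (by positivity) (by positivity)
    (by positivity) (by unfold VV; omega) hs1 hs2 hs3 hp1 e.Q2d hp2 hp3 (by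
      have h1 := hpd (mu1 B Q2 (zz k)) (∑ i ∈ core k, (wk k b i : ℝ)) (mu1_nonneg _ _ _) hmu
        (Finset.sum_nonneg fun i _ => Nat.cast_nonneg _) hw
      exact h1) (by
      have h1 : 8 * ((WW k : ℝ) * (2 * (∑ p ∈ (Ioc (2 ^ J1 k) (YY k)).filter Nat.Prime,
          if p ∈ Av then 1 / (p : ℝ) else 0) + (2 * Real.log Q2 + 10) / Real.log (YY k))) ≤
          (8 * (2 * (∑ p ∈ (Ioc (2 ^ J1 k) (YY k)).filter Nat.Prime,
          if p ∈ Av then 1 / (p : ℝ) else 0) + 4 / 2 ^ k)) * WW k := by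
        have h2 := mul_le_mul_of_nonneg_left hs4 hW.le
        nlinarith
      refine h1.trans ?_
      exact mul_le_mul_of_nonneg_right htail hW.le)
  refine ⟨c + Q2 * n, ?_⟩
  have hQ1d : Q1 (2 ^ J1 k) (E0 k) ∣ Q2 := by
    rw [e.Q2e]
    exact dvd_mul_right _ _
  have hmodc : ∀ d, d ∣ Q2 → c + Q2 * n ≡ c [MOD d] := by
    intro d hd
    have h1 : Q2 * n ≡ 0 [MOD d] := (Nat.modEq_zero_iff_dvd).2 (hd.mul_right n)
    simpa using h1.add_left c
  constructor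
  · exact (hmodc _ hQ1d).trans hc2
  · have := Nat.mul_le_mul hQ20 hn1
    omega
  · have h1 : Q2 * n ≤ Q2 * (2 * YY k) := Nat.mul_le_mul_left _ hn2.le
    omega
  · intro i hi p hp
    unfold DP at hp
    split_ifs at hp with hit
    · obtain ⟨j, hj, rfl⟩ := mem_image.1 hp
      rw [mem_range] at hj
      have h1 := e.qp i hit.1 j hj
      have h2 := e.qsq hit.1 hj
      have h3 : c + Q2 * n + i ≡ q i j [MOD (q i j) ^ 2] :=
        ((hmodc _ h2).add_right i).trans (hc3 i hit.1 hit.2 j hj)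
      refine ⟨h1.1, h1.2.1, e.qgt hit.1 hj, (dvd_pow_self _ (by norm_num)).trans h2, ?_, ?_⟩
      · have h4 : c + Q2 * n + i ≡ q i j [MOD q i j] := h3.of_dvd (dvd_pow_self _ (by norm_num))
        exact (h4.dvd_iff dvd_rfl).2 dvd_rfl
      · intro h4
        have h5 := (h3.dvd_iff dvd_rfl).1 h4
        have h6 := Nat.le_of_dvd h1.1.pos h5
        have h7 := h1.1.two_le
        nlinarith
    · simp at hp
  · intro i hi p hp hpQ hpN hpy
    rw [e.Q2e] at hpQ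
    rcases (hp.dvd_mul).1 hpQ with h | h
    · exact absurd (le_of_dvd_Q1 hp h) (not_le.2 hpy)
    · obtain ⟨i', hi'c, h1⟩ := (hp.prime.dvd_finsetProd_iff _).1 h
      obtain ⟨j, hj, h2⟩ := (hp.prime.dvd_finsetProd_iff _).1 h1
      rw [mem_range] at hj
      have h3 := e.qp i' hi'c j hj
      have h4 := (Nat.prime_dvd_prime_iff_eq hp h3.1).1 (hp.dvd_of_dvd_pow h2)
      have hi'V := e.core_le hi'c
      have hpV := h3.2.2.2
      have hsq := e.qsq hi'c hj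
      rw [← h4] at hpV hsq
      have hpQ2 : p ∣ Q2 := (dvd_pow_self _ (by norm_num)).trans hsq
      by_cases hi't : i' ∈ t
      · have h5 : c + Q2 * n + i' ≡ 0 [MOD p] := by
          have h6 := (hmodc _ hsq).add_right i'
          have h7 := hc3 i' hi'c hi't j hj
          rw [← h4] at h7
          have h8 := (h6.trans h7).of_dvd (dvd_pow_self p (by norm_num : 2 ≠ 0))
          exact h8.trans ((Nat.modEq_zero_iff_dvd).2 dvd_rfl)
        have h6 : i ≡ i' [MOD p] := by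
          have h7 : c + Q2 * n + i ≡ c + Q2 * n + i' [MOD p] :=
            ((Nat.modEq_zero_iff_dvd).2 hpN).trans h5.symm
          exact Nat.ModEq.add_left_cancel' _ h7
        have h7 : i = i' := Nat.ModEq.eq_of_lt_of_lt h6 (by omega) (by omega)
        unfold DP
        rw [h7, if_pos ⟨hi'c, hi't⟩, mem_image]
        exact ⟨j, mem_range.2 hj, h4.symm⟩
      · exfalso
        have h7 := hc4 i' hi'c hi't j hj
        rw [← h4] at h7
        have h8 : c + Q2 * n + i ≡ 1 + i [MOD p] :=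
          (((hmodc _ hsq).trans h7).of_dvd (dvd_pow_self p (by norm_num : 2 ≠ 0))).add_right i
        have h9 := (h8.dvd_iff dvd_rfl).1 hpN
        have h10 := Nat.le_of_dvd (by omega) h9
        omega
  · intro i hi p hp hpQ
    unfold core at hi
    rw [mem_Ioc] at hi
    exact hn3 i hi.1 hi.2 p hp hpQ
  · exact hn4
  · refine le_trans (le_of_eq ?_) hn5
    refine Finset.sum_congr ?_ fun _ _ => rfl
    unfold core
    refine Finset.filter_congr fun i _ => ?_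
    unfold Typ
    rw [not_le]
  · exact hn6

end Pool.Agent.Helper12.MM
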