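import Pool.Agent.Helper12.MM.Defs

/-!
PROJECT MM, module MM-26. The smooth part `sm y1 E0 b i = gcd (b + i, (∏_{p ≤ y1} p) ^ E0)`.

The primes dividing `Q1 y1 E0` are the primes `≤ y1` (`1 ≤ E0`), each with exponent exactly `E0`. If `p ^ E0 ∤ b + i` then the exponent of `p` in `sm` is that of `b + i`, which is `< E0`, so it is also the exponent of `p` in `N + i`
when `N ≡ b` modulo `Q1` (`N + i ≡ b + i` modulo `p ^ E0`).
* `sm_dvd`: `sm ∣ b + i`, `sm ∣ Q1 ∣ (N + i) - (b + i)` (as integers, or `Nat.ModEq.dvd_iff`).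
* `sm_rough`: if `p ∣ (N + i) / sm` then `p ^ (e + 1) ∣ N + i` where `p ^ e` is the exact power dividing `sm` and `b + i`, `e + 1 ≤ E0`, so `p ^ (e + 1) ∣ b + i`, contradiction. Use `padicValNat` / `Nat.factorization` or: `p * sm ∣ N + i`, `p * sm` divides..
* `sm_even`: `2 ∣ Q1`.
* `gcd_dvd_sm`: `QQ G y ∣ Q1 y1 E0`.
* `sm_prime`: a prime dividing `sm` divides `Q1`, so it is `≤ y1`.
-/

set_option autoImplicit false

namespace Pool.Agent.Helper12.MM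

open Finset Pool.Agent.Helper9.PF

theorem Q1_pos (y1 E0 : ℕ) : 0 < Q1 y1 E0 :=
  Nat.pow_pos (primorial_pos y1)

theorem prime_dvd_Q1 {y1 E0 p : ℕ} (hE0 : 1 ≤ E0) (hp : p.Prime) (h : p ≤ y1) : p ^ E0 ∣ Q1 y1 E0 :=
  pow_dvd_pow_of_dvd (hp.dvd_primorial_iff.2 h) E0

theorem le_of_dvd_Q1 {y1 E0 p : ℕ} (hp : p.Prime) (h : p ∣ Q1 y1 E0) : p ≤ y1 :=
  hp.dvd_primorial_iff.1 (hp.dvd_of_dvd_pow h)

theorem QQ_dvd_Q1 {G y y1 E0 : ℕ} (hy : y ≤ y1) (hE0 : 1 ≤ E0) : QQ G y ∣ Q1 y1 E0 := by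
  have h1 : QQ G y ∣ primorial y1 := by
    unfold QQ primorial
    apply Finset.prod_dvd_prod_of_subset
    intro p hp
    rw [Finset.mem_filter, Finset.mem_Ioc] at hp
    rw [Finset.mem_filter, Finset.mem_range]
    exact ⟨by omega, hp.2⟩
  exact h1.trans (dvd_pow_self _ (by omega))

theorem sm_pos (y1 E0 b i : ℕ) : 0 < sm y1 E0 b i :=
  Nat.gcd_pos_of_pos_right _ (Q1_pos y1 E0)

private theorem sm_modEq {b i N m : ℕ} (hN : N ≡ b [MOD m]) {d : ℕ} (hd : d ∣ m) :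
    d ∣ N + i ↔ d ∣ b + i := by
  have h1 : N + i ≡ b + i [MOD d] := (hN.of_dvd hd).add_right i
  exact h1.dvd_iff dvd_rfl

theorem sm_dvd {y1 E0 b i N : ℕ} (hN : N ≡ b [MOD Q1 y1 E0]) : sm y1 E0 b i ∣ N + i :=
  (sm_modEq hN (Nat.gcd_dvd_right _ _)).2 (Nat.gcd_dvd_left _ _)

theorem sm_prime {y1 E0 b i p : ℕ} (hp : p.Prime) (h : p ∣ sm y1 E0 b i) : p ≤ y1 :=
  le_of_dvd_Q1 (E0 := E0) hp (h.trans (Nat.gcd_dvd_right _ _))

theorem sm_rough {y1 E0 b i N p : ℕ} (hE0 : 1 ≤ E0) (hN : N ≡ b [MOD Q1 y1 E0])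
    (hb : ∀ p, p.Prime → p ≤ y1 → ¬ p ^ E0 ∣ b + i) (hp : p.Prime) (hpy : p ≤ y1) (hNi : 0 < N + i) :
    ¬ p ∣ (N + i) / sm y1 E0 b i := by
  intro h
  haveI : Fact p.Prime := ⟨hp⟩
  have hb0 := hb p hp hpy
  have hbi : b + i ≠ 0 := by
    intro h0
    rw [h0] at hb0
    exact hb0 (dvd_zero _)
  have h1 : p ^ padicValNat p (b + i) ∣ b + i := pow_padicValNat_dvd
  have h2 : ¬ p ^ (padicValNat p (b + i) + 1) ∣ b + i := pow_succ_padicValNat_not_dvd hbi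
  have h3 : padicValNat p (b + i) < E0 := by
    by_contra hc
    exact hb0 ((pow_dvd_pow p (not_lt.1 hc)).trans h1)
  have hQ := prime_dvd_Q1 hE0 hp hpy
  have h4 : p ^ padicValNat p (b + i) ∣ sm y1 E0 b i :=
    Nat.dvd_gcd h1 ((pow_dvd_pow p h3.le).trans hQ)
  have h5 : sm y1 E0 b i * p ∣ N + i := Nat.mul_dvd_of_dvd_div (sm_dvd hN) h
  have h6 : p ^ (padicValNat p (b + i) + 1) ∣ N + i := by
    rw [pow_succ]
    exact (Nat.mul_dvd_mul_right h4 p).trans h5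
  exact h2 ((sm_modEq hN ((pow_dvd_pow p h3).trans hQ)).1 h6)

theorem prime_dvd_sm {y1 E0 b i p : ℕ} (hE0 : 1 ≤ E0) (hp : p.Prime) (hpy : p ≤ y1) (h : p ∣ b + i) :
    p ∣ sm y1 E0 b i :=
  Nat.dvd_gcd h ((dvd_pow_self p (by omega)).trans (prime_dvd_Q1 hE0 hp hpy))

theorem sm_even {y1 E0 b i : ℕ} (hy1 : 2 ≤ y1) (hE0 : 1 ≤ E0) : Even (sm y1 E0 b i) ↔ Even (b + i) := by
  rw [even_iff_two_dvd, even_iff_two_dvd]
  exact ⟨fun h => h.trans (Nat.gcd_dvd_left _ _), fun h => prime_dvd_sm hE0 Nat.prime_two hy1 h⟩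

theorem gcd_dvd_sm {G y y1 E0 b i : ℕ} (hy : y ≤ y1) (hE0 : 1 ≤ E0) :
    (b + i).gcd (QQ G y) ∣ sm y1 E0 b i :=
  Nat.gcd_dvd_gcd_of_dvd_right _ (QQ_dvd_Q1 hy hE0)

end Pool.Agent.Helper12.MM
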