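import Pool.Agent.Helper12.MM.ParDefs
import Pool.Agent.Helper12.MM.Smooth

/-!
PROJECT MM, module MM-43. The data `P`, `M'`.

* `data_P`: the tails of the convergent sums `∑_{p ∈ Av} 1/p`, `∑ 1/n ^ 2` are `≤ 1/4` beyond some `P`; enlarge `P` so that all prime factors of `s0 M` are `≤ P`. `M' = M * primorial P`.
* `data_ev`: for large `k`: `P ≤ GG k = 16 k^34`; every prime factor of `s0 M'` is `≤ P ≤ 2 ^ J1 k` and its exponent is `≤ s0 M' ≤ E0 k = 4 k^50`, so `s0 M' ∣ (primorial (2 ^ J1)) ^ E0` (e.g. `Nat.factorization_le_iff_dvd`, or: `n ∣ (rad n) ^ n`, `rad n ∣ primorial`).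
* `tail_ev`: `2 ^ J1 k → ∞` and the tail of a convergent series tends to `0`; `4/2^k → 0`.
-/

set_option autoImplicit false

namespace Pool.Agent.Helper12.MM

open Finset Filter

private theorem tail_small (f : ℕ → ℝ) (hf : Summable f) (ε : ℝ) (hε : 0 < ε) :
    ∃ N : ℕ, ∀ a b : ℕ, N ≤ a → ∑ p ∈ (Ioc a b).filter Nat.Prime, f p < ε := by
  obtain ⟨s, hs⟩ := (summable_iff_vanishing_norm).1 hf ε hε
  refine ⟨s.sup id, fun a b hab => ?_⟩
  have hd : Disjoint ((Ioc a b).filter Nat.Prime) s := by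
    rw [Finset.disjoint_left]
    intro x hx hxs
    have h1 : x ≤ s.sup id := Finset.le_sup (f := id) hxs
    have h2 := (Finset.mem_Ioc.1 (Finset.mem_filter.1 hx).1).1
    omega
  exact lt_of_le_of_lt (le_abs_self _) (by simpa [Real.norm_eq_abs] using hs _ hd)

private theorem prime_dvd_primorial' {p n : ℕ} (hp : p.Prime) (h : p ≤ n) : p ∣ primorial n := by
  unfold primorial
  exact Finset.dvd_prod_of_mem _ (Finset.mem_filter.2 ⟨Finset.mem_range.2 (by omega), hp⟩)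

private theorem le_of_dvd_primorial' {p n : ℕ} (hp : p.Prime) (h : p ∣ primorial n) : p ≤ n := by
  unfold primorial at h
  obtain ⟨q, hq, hpq⟩ := (Prime.dvd_finsetProd_iff hp.prime _).1 h
  have hq' := Finset.mem_filter.1 hq
  have : p = q := (Nat.prime_dvd_prime_iff_eq hp hq'.2).1 hpq
  have := Finset.mem_range.1 hq'.1
  omega

private theorem dvd_primorial_pow {n P E : ℕ} (hn : 0 < n) (hP : ∀ p, p.Prime → p ∣ n → p ≤ P)
    (hE : n ≤ E) : n ∣ primorial P ^ E := by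
  have hpos : primorial P ≠ 0 := (primorial_pos P).ne'
  rw [← Nat.factorization_prime_le_iff_dvd hn.ne' (pow_ne_zero _ hpos)]
  intro p hp
  by_cases hd : p ∣ n
  · have h1 : p ∣ primorial P := prime_dvd_primorial' hp (hP p hp hd)
    have h2 : 1 ≤ (primorial P).factorization p := (hp.dvd_iff_one_le_factorization hpos).1 h1
    have h3 : n.factorization p < n := Nat.factorization_lt p hn.ne'
    have h4 : (primorial P ^ E).factorization p = E * (primorial P).factorization p := by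
      rw [Nat.factorization_pow]; rfl
    rw [h4]
    calc n.factorization p ≤ E * 1 := by omega
      _ ≤ _ := Nat.mul_le_mul_left _ h2
  · rw [Nat.factorization_eq_zero_of_not_dvd hd]
    exact Nat.zero_le _

private theorem tendsto_J1 : Tendsto (fun k : ℕ => 2 ^ J1 k) atTop atTop := by
  refine tendsto_atTop_mono (f := fun k : ℕ => k) (fun k => ?_) tendsto_id
  show k ≤ 2 ^ J1 k
  rcases Nat.eq_zero_or_pos k with h | h
  · subst h; exact Nat.zero_le _
  · have h1 : k ≤ J1 k := by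
      unfold J1
      have : k ≤ k ^ 45 := Nat.le_self_pow (by norm_num) k
      omega
    exact h1.trans (Nat.lt_two_pow_self).le

open Classical in
theorem data_P (Av : Set ℕ) (hAv : Summable (fun p : ℕ => if p ∈ Av then 1 / (p : ℝ) else 0))
    (s0 M : ℕ) (hs0 : 0 < s0) (hM : 0 < M) :
    ∃ P M' : ℕ, 0 < M' ∧ M ∣ M' ∧ (∀ p, p.Prime → p ≤ P → p ∣ M') ∧
      (∀ p, p.Prime → p ∣ s0 * M' → p ≤ P) ∧
      ∀ y1 : ℕ, ∑ p ∈ (Ioc P y1).filter Nat.Prime,
        ((if p ∈ Av then 1 / (p : ℝ) else 0) + 1 / (p : ℝ) ^ 2) ≤ 1 / 2 := by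
  have hsq : Summable (fun n : ℕ => 1 / (n : ℝ) ^ 2) :=
    Real.summable_one_div_nat_pow.2 (by norm_num)
  obtain ⟨N, hN⟩ := tail_small _ (hAv.add hsq) (1 / 2) (by norm_num)
  have hsM : 0 < s0 * M := Nat.mul_pos hs0 hM
  refine ⟨N + s0 * M, M * primorial (N + s0 * M), Nat.mul_pos hM (primorial_pos _), dvd_mul_right _ _,
    fun p hp h => (prime_dvd_primorial' hp h).mul_left _, fun p hp h => ?_, fun y1 => ?_⟩
  · rw [← mul_assoc] at h
    rcases (hp.dvd_mul).1 h with h | h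
    · have := Nat.le_of_dvd hsM h
      omega
    · exact le_of_dvd_primorial' hp h
  · exact (hN _ y1 (by omega)).le

theorem data_ev (s0 M' P : ℕ) (hs0 : 0 < s0) (hM' : 0 < M')
    (hP : ∀ p, p.Prime → p ∣ s0 * M' → p ≤ P) :
    ∀ᶠ k in atTop, P ≤ GG k ∧ s0 * M' ∣ Q1 (2 ^ J1 k) (E0 k) := by
  have hn : 0 < s0 * M' := Nat.mul_pos hs0 hM'
  have h0 : ∀ᶠ k : ℕ in atTop, P + s0 * M' + 1 ≤ k := eventually_ge_atTop _
  have h1 : ∀ᶠ k : ℕ in atTop, P ≤ 2 ^ J1 k := tendsto_J1.eventually_ge_atTop P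
  filter_upwards [h0, h1] with k hk0 hk1
  have hk : 0 < k := by omega
  refine ⟨?_, ?_⟩
  · have : k ≤ k ^ 34 := Nat.le_self_pow (by norm_num) k
    unfold GG
    omega
  · unfold Q1
    refine dvd_primorial_pow hn (fun p hp h => (hP p hp h).trans hk1) ?_
    have : k ≤ k ^ 50 := Nat.le_self_pow (by norm_num) k
    unfold E0
    omega

open Classical in
theorem tail_ev (Av : Set ℕ) (hAv : Summable (fun p : ℕ => if p ∈ Av then 1 / (p : ℝ) else 0))
    (ζ : ℝ) (hζ : 0 < ζ) :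
    ∀ᶠ k in atTop, 8 * (2 * (∑ p ∈ (Ioc (2 ^ J1 k) (YY k)).filter Nat.Prime,
      if p ∈ Av then 1 / (p : ℝ) else 0) + 4 / 2 ^ k) ≤ ζ := by
  obtain ⟨N, hN⟩ := tail_small _ hAv (ζ / 32) (by positivity)
  have h1 : ∀ᶠ k : ℕ in atTop, N ≤ 2 ^ J1 k := tendsto_J1.eventually_ge_atTop N
  have h2 : Tendsto (fun k : ℕ => (4 : ℝ) / 2 ^ k) atTop (nhds 0) := by
    have h := (tendsto_pow_atTop_nhds_zero_of_lt_one (r := (1 / 2 : ℝ)) (by norm_num)
      (by norm_num)).const_mul 4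
    refine (h.congr (fun k => ?_)).trans (by simp)
    rw [one_div, inv_pow, div_eq_mul_inv]
  have h3 : ∀ᶠ k : ℕ in atTop, (4 : ℝ) / 2 ^ k < ζ / 16 := h2.eventually_lt_const (by positivity)
  filter_upwards [h1, h3] with k hk1 hk3
  have h4 := hN (2 ^ J1 k) (YY k) hk1
  linarith

end Pool.Agent.Helper12.MM
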