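import Pool.Agent.Helper12.MM.ABadLe
import Pool.Agent.Helper12.MM.AvgA
import Pool.Agent.Helper12.MM.AvgB
import Pool.Agent.Helper12.MM.AvgJ

/-!
PROJECT MM, module MM-18. A good residue `b`.

`R1 = Q1 y1 E0 > 0`, `y1 = 2 ^ J1`. Sum of `abad_le` over `b` with `avg_gcd`, `avg_same1`, `avg_sq_small`, `avg_tau_big` (`I = Ioc E (E + W)`, `I.card = W`, `K = 2 ^ T`): the sum of the numbers of bad places is at most `R1 * SA`;
`markov_card`: at most `R1 * SA / Sa` of the `b` have more than `Sa` bad places. In the same way for the pairs with `avg_pairs`. `avg_val`, `avg_tau_max` for the first two conditions.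
`avg_J`: at least `R1/(4 s0 M')` of the `b` satisfy the last condition. As the sum of the failure bounds is `< R1/(4 s0 M')`, one of these `b` has all properties (`Finset.card_le_card` of a union).
-/

set_option autoImplicit false

namespace Pool.Agent.Helper12.MM

open Finset Pool.Agent.Helper9.PF

/-- Markov. -/
private theorem markov_aux {S : Finset ℕ} (f : ℕ → ℕ) (c X : ℝ) (hc : 0 < c) (h : (∑ b ∈ S, (f b : ℝ)) ≤ X) :
    ((S.filter (fun b => c < (f b : ℝ))).card : ℝ) ≤ X / c := by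
  rw [le_div_iff₀ hc]
  refine le_trans ?_ h
  calc ((S.filter (fun b => c < (f b : ℝ))).card : ℝ) * c = ∑ b ∈ S.filter (fun b => c < (f b : ℝ)), c := by
        rw [Finset.sum_const, nsmul_eq_mul]
    _ ≤ ∑ b ∈ S.filter (fun b => c < (f b : ℝ)), (f b : ℝ) := by
        refine Finset.sum_le_sum fun b hb => ?_
        exact (Finset.mem_filter.1 hb).2.le
    _ ≤ ∑ b ∈ S, (f b : ℝ) := by
        refine Finset.sum_le_sum_of_subset_of_nonneg (Finset.filter_subset _ _) fun b _ _ => ?_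
        exact Nat.cast_nonneg _

private theorem exists_good_aux {S GJ B1 B2 B3 B4 : Finset ℕ} {R g a1 a2 a3 a4 : ℝ}
    (hR : 0 < R) (hJ : R * g ≤ (GJ.card : ℝ)) (hJS : GJ ⊆ S) (h1 : (B1.card : ℝ) ≤ R * a1) (h2 : (B2.card : ℝ) ≤ R * a2)
    (h3 : (B3.card : ℝ) ≤ R * a3) (h4 : (B4.card : ℝ) ≤ R * a4) (h : a3 + a4 + a1 + a2 < g) :
    ∃ b ∈ S, b ∈ GJ ∧ b ∉ B1 ∧ b ∉ B2 ∧ b ∉ B3 ∧ b ∉ B4 := by
  by_contra hcon
  push Not at hcon
  have hsub : GJ ⊆ B1 ∪ B2 ∪ B3 ∪ B4 := by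
    intro b hb
    have h5 := hcon b (hJS hb) hb
    simp only [Finset.mem_union]
    tauto
  have h6 : (GJ.card : ℝ) ≤ (B1.card : ℝ) + B2.card + B3.card + B4.card := by
    have h7 := Finset.card_le_card hsub
    have h8 := Finset.card_union_le (B1 ∪ B2 ∪ B3) B4
    have h9 := Finset.card_union_le (B1 ∪ B2) B3
    have h10 := Finset.card_union_le B1 B2
    have h11 : GJ.card ≤ B1.card + B2.card + B3.card + B4.card := by omega
    exact_mod_cast h11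
  have h7 : R * (a3 + a4 + a1 + a2) < R * g := mul_lt_mul_of_pos_left h hR
  nlinarith

open Classical in
private theorem sum_abad (G y J1 JG E0 D H0 T E W : ℕ)
    (hG : 2 ≤ G) (hG4 : G ^ 2 ≤ 2 ^ G) (hGy : G ≤ y) (hJG : 1 ≤ JG) (hGJ : G ≤ 2 ^ JG)
    (hJ1 : 1 ≤ J1) (hy1 : y ≤ 2 ^ J1) (hE0 : 2 ≤ E0) (hD : 2 ≤ D) :
    (∑ b ∈ range (Q1 (2 ^ J1) E0), ((((Ioc E (E + W)).filter
      (fun i => ABad (QQ G y) G y (2 ^ J1) E0 D H0 T E W b i)).card : ℕ) : ℝ)) ≤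
      (Q1 (2 ^ J1) E0 : ℝ) * (W * ((Real.log y + 2) / Real.log D) + W * (G * (400 * (JG : ℝ) ^ 2 / Real.log y)) +
        W * (1 / (G : ℝ)) + (H0 + 1) * (W * (200 * (J1 : ℝ) ^ 2 / 2 ^ T)) + H0 * D) := by
  have hy : 1 ≤ y := by omega
  have hE01 : 1 ≤ E0 := by omega
  have e1 := avg_gcd G y (2 ^ J1) E0 D E W hy hy1 hE01 hD
  have e2 := avg_same1 G y (2 ^ J1) E0 JG E W hG hG4 hGy hJG hGJ hy1 hE01
  have e3 := avg_sq_small G y (2 ^ J1) E0 E W hG hy1 hE0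
  have e4 := avg_tau_big J1 E0 (2 ^ T) (pow_pos two_pos T) (Ioc E (E + W)) hJ1
  have hcard : (((Ioc E (E + W)).card : ℕ) : ℝ) = W := by
    rw [Nat.card_Ioc]
    congr 1
    omega
  rw [hcard] at e4
  push_cast at e4
  have e5 : (∑ b ∈ range (Q1 (2 ^ J1) E0), ((((Ioc E (E + W)).filter
      (fun i => ABad (QQ G y) G y (2 ^ J1) E0 D H0 T E W b i)).card : ℕ) : ℝ)) ≤
      ∑ b ∈ range (Q1 (2 ^ J1) E0), ((((Ioc E (E + W)).filter (fun i => D < (b + i).gcd (QQ G y))).card : ℝ) +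
        (((Ioc E (E + W)).filter (fun i => ∃ j, 1 ≤ j ∧ j ≤ G ∧ Same (QQ G y) b i j)).card : ℝ) +
        (((Ioc E (E + W)).filter (fun i => ∃ p, p.Prime ∧ G < p ∧ p ≤ y ∧ p ^ 2 ∣ b + i)).card : ℝ) +
        (H0 + 1) * (((Ioc E (E + W)).filter (fun i => 2 ^ T < (sm (2 ^ J1) E0 b i).divisors.card)).card : ℝ) +
        H0 * D) := by
    refine Finset.sum_le_sum fun b _ => ?_
    have h := abad_le (QQ G y) G y (2 ^ J1) E0 D H0 T E W b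
    exact_mod_cast h
  refine e5.trans ?_
  rw [Finset.sum_add_distrib, Finset.sum_add_distrib, Finset.sum_add_distrib, Finset.sum_add_distrib, ← Finset.mul_sum,
    Finset.sum_const, Finset.card_range, nsmul_eq_mul]
  have e6 : ((H0 : ℝ) + 1) * (∑ b ∈ range (Q1 (2 ^ J1) E0),
      (((Ioc E (E + W)).filter (fun i => 2 ^ T < (sm (2 ^ J1) E0 b i).divisors.card)).card : ℝ)) ≤
      ((H0 : ℝ) + 1) * ((Q1 (2 ^ J1) E0 : ℝ) * (W * (200 * (J1 : ℝ) ^ 2 / 2 ^ T))) := by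
    refine mul_le_mul_of_nonneg_left e4 ?_
    positivity
  calc _ ≤ (Q1 (2 ^ J1) E0 : ℝ) * (W * ((Real.log y + 2) / Real.log D)) +
        (Q1 (2 ^ J1) E0 : ℝ) * (W * (G * (400 * (JG : ℝ) ^ 2 / Real.log y))) +
        (Q1 (2 ^ J1) E0 : ℝ) * (W * (1 / (G : ℝ))) +
        ((H0 : ℝ) + 1) * ((Q1 (2 ^ J1) E0 : ℝ) * (W * (200 * (J1 : ℝ) ^ 2 / 2 ^ T))) +
        (Q1 (2 ^ J1) E0 : ℝ) * (H0 * D) := by linarith
    _ = _ := by ring

open Classical in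
theorem exists_b (Av : Set ℕ) (G y J1 JG E0 D H0 T E W V B4 s0 M' P : ℕ) (Sa Sp : ℝ)
    (hG : 2 ≤ G) (hG4 : G ^ 2 ≤ 2 ^ G) (hGy : G ≤ y) (hJG : 1 ≤ JG) (hGJ : G ≤ 2 ^ JG)
    (hH : H0 ^ 2 ≤ 2 ^ G) (hJ1 : 1 ≤ J1) (hy1 : y ≤ 2 ^ J1) (hE0 : 2 ≤ E0) (hD : 2 ≤ D) (hB4 : 0 < B4)
    (hs0 : 0 < s0) (hM' : 0 < M') (hdvd : s0 * M' ∣ Q1 (2 ^ J1) E0)
    (hP : ∀ p, p.Prime → p ∣ s0 * M' → p ≤ P)
    (hsum : ∑ p ∈ (Ioc P (2 ^ J1)).filter Nat.Prime,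
      ((if p ∈ Av then 1 / (p : ℝ) else 0) + 1 / (p : ℝ) ^ 2) ≤ 1 / 2)
    (hSa : 0 < Sa) (hSp : 0 < Sp)
    (hsmall : (W * ((Real.log y + 2) / Real.log D) + W * (G * (400 * (JG : ℝ) ^ 2 / Real.log y)) +
        W * (1 / (G : ℝ)) + (H0 + 1) * (W * (200 * (J1 : ℝ) ^ 2 / 2 ^ T)) + H0 * D) / Sa +
      (W * (H0 * (400 * (JG : ℝ) ^ 2 / Real.log y))) / Sp +
      (V + 1) * (3 / 2 ^ E0) + (V + 1) * (200 * (J1 : ℝ) ^ 2 / B4) < 1 / (4 * (s0 * M' : ℕ))) :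
    ∃ b, (∀ i ≤ V, ∀ p, p.Prime → p ≤ 2 ^ J1 → ¬ p ^ E0 ∣ b + i) ∧
      (∀ i ≤ V, (sm (2 ^ J1) E0 b i).divisors.card ≤ B4) ∧
      (((Ioc E (E + W)).filter
        (fun i => ABad (QQ G y) G y (2 ^ J1) E0 D H0 T E W b i)).card : ℝ) ≤ Sa ∧
      ((((Ioc E (E + W)) ×ˢ (Icc 1 H0)).filter (fun x => Same (QQ G y) b x.1 x.2)).card : ℝ) ≤ Sp ∧
      (W : ℝ) / (4 * (s0 * M' : ℕ)) ≤
        (((Ioc E (E + W)).filter (fun i => InJ Av s0 M' P (2 ^ J1) b i)).card : ℝ) := by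
  have hR : 0 < Q1 (2 ^ J1) E0 := by
    unfold Q1
    exact pow_pos (primorial_pos _) _
  have hRr : (0 : ℝ) < (Q1 (2 ^ J1) E0 : ℝ) := by exact_mod_cast hR
  have hy : 1 ≤ y := by omega
  have hE01 : 1 ≤ E0 := by omega
  have hA := sum_abad G y J1 JG E0 D H0 T E W hG hG4 hGy hJG hGJ hJ1 hy1 hE0 hD
  have hP2 := avg_pairs G y (2 ^ J1) E0 JG H0 E W hG hH hGy hJG hGJ hy1 hE01
  have k3 : ((((range (Q1 (2 ^ J1) E0)).filter (fun b => Sa < ((((Ioc E (E + W)).filter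
      (fun i => ABad (QQ G y) G y (2 ^ J1) E0 D H0 T E W b i)).card : ℕ) : ℝ))).card : ℕ) : ℝ) ≤ _ / Sa :=
    markov_aux _ _ _ hSa hA
  have k4 : ((((range (Q1 (2 ^ J1) E0)).filter (fun b => Sp < (((((Ioc E (E + W)) ×ˢ (Icc 1 H0)).filter
      (fun x => Same (QQ G y) b x.1 x.2)).card : ℕ) : ℝ))).card : ℕ) : ℝ) ≤ _ / Sp :=
    markov_aux _ _ _ hSp hP2
  have k1 := avg_val (2 ^ J1) E0 V hE0
  have k2 := avg_tau_max J1 E0 V B4 hB4 hJ1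
  have k0 := avg_J Av s0 M' P (2 ^ J1) E0 E W hE0 hs0 hM' hdvd hP hsum
  rw [mul_div_assoc] at k3 k4
  rw [div_eq_mul_one_div] at k0
  obtain ⟨b, _, hbJ, hb1, hb2, hb3, hb4⟩ := exists_good_aux hRr k0 (Finset.filter_subset _ _) k1 k2 k3 k4 hsmall
  have hbS : b ∈ range (Q1 (2 ^ J1) E0) := (Finset.mem_filter.1 hbJ).1
  refine ⟨b, ?_, ?_, ?_, ?_, (Finset.mem_filter.1 hbJ).2⟩
  · intro i hi p hp hp1 hd
    exact hb1 (Finset.mem_filter.2 ⟨hbS, i, hi, p, hp, hp1, hd⟩)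
  · intro i hi
    by_contra hcon
    push Not at hcon
    exact hb2 (Finset.mem_filter.2 ⟨hbS, i, hi, hcon⟩)
  · by_contra hcon
    push Not at hcon
    exact hb3 (Finset.mem_filter.2 ⟨hbS, hcon⟩)
  · by_contra hcon
    push Not at hcon
    exact hb4 (Finset.mem_filter.2 ⟨hbS, hcon⟩)

end Pool.Agent.Helper12.MM
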