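import Pool.Agent.Helper12.MM.ParDefs

/-!
PROJECT MM, module MM-40. The final inequality.

Take `c1 ≥ 32 / c0`, `c1 ≥ 1` and `ζ = c0 / (8 (1 + log_2 c1))`. Divide the logarithm in base `2` of the left side by `W = 2 ^ (2 k^45)`:
`nD log_2 nB / W ≤ 2^(k^45) * 28 k^50 / 2^(2 k^45)`, `S1 log_2 c1 / W ≤ (2/k^2 + ζ) log_2 c1 ≤ c0/8 + (2/k^2) log_2 c1`, `S2 log_2 (80 k^51) / W ≤ (2/k^2) log_2 (80 k^51)`,
`log_2 (1 + 2/c1 + 2 nV/(80 k^51)) ≤ 2 (2/c1 + 1/k) ≤ c0/8 + 2/k` (`nV ≤ 40 k^50`; `log_2 (1 + x) ≤ 2 x`, i.e. `1 + x ≤ 2 ^ (2 x)`, from `log (1+x) ≤ x ≤ 2 x log 2`).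
The sum is `≤ c0/4 + o(1) < c0 ≤ nJ / W`.
-/

set_option autoImplicit false

namespace Pool.Agent.Helper12.MM

open Filter

theorem final_ineq (c0 : ℝ) (hc0 : 0 < c0) : ∃ c1 : ℕ, 1 ≤ c1 ∧ ∃ ζ : ℝ, 0 < ζ ∧
    ∀ᶠ k in atTop, ∀ nJ nB nD S1 S2 nV : ℕ, c0 * WW k ≤ nJ → (nB : ℝ) ≤ 2 ^ (28 * k ^ 50) →
      1 ≤ nB → nD ≤ DD k → (S2 : ℝ) ≤ 2 * WW k / k ^ 2 → (S1 : ℝ) ≤ 2 * WW k / k ^ 2 + ζ * WW k →
      nV ≤ 40 * k ^ 50 →
      (nB : ℝ) ^ nD * ((c1 : ℝ) ^ S1 * ((80 * k ^ 51 : ℕ) : ℝ) ^ S2 *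
        (1 + 2 / (c1 : ℝ) + 2 * nV / ((80 * k ^ 51 : ℕ) : ℝ)) ^ WW k) < (2 : ℝ) ^ nJ := by
  set c1 : ℕ := max 1 ⌈32 / c0⌉₊ with hc1def
  have hc1 : 1 ≤ c1 := le_max_left _ _
  have hc1R : (1 : ℝ) ≤ c1 := by exact_mod_cast hc1
  have hc32 : 32 / c0 ≤ (c1 : ℝ) := by
    refine (Nat.le_ceil _).trans ?_
    exact_mod_cast le_max_right _ _
  have hc4 : 4 / (c1 : ℝ) ≤ c0 / 8 := by
    rw [div_le_iff₀ hc0] at hc32
    rw [div_le_div_iff₀ (by linarith) (by norm_num)]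
    linarith
  set Lc : ℝ := Real.logb 2 c1 with hLc
  have hLc0 : 0 ≤ Lc := Real.logb_nonneg (by norm_num) hc1R
  refine ⟨c1, hc1, c0 / (8 * (1 + Lc)), by positivity, ?_⟩
  have hζ : c0 / (8 * (1 + Lc)) * Lc ≤ c0 / 8 := by
    rw [div_mul_eq_mul_div, div_le_div_iff₀ (by positivity) (by norm_num)]
    nlinarith
  set ζ : ℝ := c0 / (8 * (1 + Lc)) with hζdef
  have h1 : Tendsto (fun k : ℕ => (1 : ℝ) / k) atTop (nhds 0) := tendsto_one_div_atTop_nhds_zero_nat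
  have h2 : Tendsto (fun k : ℕ => (k : ℝ) ^ 50 / 2 ^ k) atTop (nhds 0) :=
    tendsto_pow_const_div_const_pow_of_one_lt 50 (by norm_num)
  have lim : Tendsto (fun k : ℕ => 28 * ((k : ℝ) ^ 50 / 2 ^ k) + 2 * Lc * (1 / (k : ℝ) * (1 / k)) +
      (14 * (1 / (k : ℝ) * (1 / k)) + 102 * (1 / (k : ℝ))) + 2 * (1 / (k : ℝ))) atTop (nhds 0) := by
    have h3 := ((h2.const_mul 28).add ((h1.mul h1).const_mul (2 * Lc))).add
      (((h1.mul h1).const_mul 14).add (h1.const_mul 102)) |>.add (h1.const_mul 2)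
    simpa using h3
  filter_upwards [lim.eventually_lt_const (show (0 : ℝ) < c0 / 4 by positivity),
    eventually_ge_atTop 1] with k hk hk1
  intro nJ nB nD S1 S2 nV hJ hB hB1 hD hS2 hS1 hV
  have hkR : (1 : ℝ) ≤ k := by exact_mod_cast hk1
  have hk0 : (0 : ℝ) < k := by linarith
  have hBR : (1 : ℝ) ≤ nB := by exact_mod_cast hB1
  set W : ℝ := (WW k : ℝ) with hW
  have hWeq : W = 2 ^ (2 * k ^ 45) := by simp [hW, WW]
  have hW0 : 0 < W := by rw [hWeq]; positivity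
  have hDD : (DD k : ℝ) = 2 ^ (k ^ 45) := by simp [DD]
  have hWD : W = (DD k : ℝ) * DD k := by rw [hWeq, hDD, ← pow_add, two_mul]
  have hDD0 : (0 : ℝ) < DD k := by rw [hDD]; positivity
  -- the four logarithms
  have l1 : Real.logb 2 nB ≤ 28 * (k : ℝ) ^ 50 := by
    have h3 := Real.logb_le_logb_of_le (b := 2) (by norm_num) (by linarith) hB
    rw [Real.logb_pow, Real.logb_self_eq_one (by norm_num), mul_one] at h3
    push_cast at h3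
    exact h3
  have l1' : 0 ≤ Real.logb 2 nB := Real.logb_nonneg (by norm_num) hBR
  have g1 : (nD : ℝ) * Real.logb 2 nB ≤ W * (28 * ((k : ℝ) ^ 50 / 2 ^ k)) := by
    have h3 : (nD : ℝ) ≤ DD k := by exact_mod_cast hD
    have h4 : (2 : ℝ) ^ k ≤ DD k := by
      rw [hDD]
      exact pow_le_pow_right₀ (by norm_num) (Nat.le_self_pow (by norm_num) k)
    calc (nD : ℝ) * Real.logb 2 nB ≤ DD k * (28 * (k : ℝ) ^ 50) :=
          mul_le_mul h3 l1 l1' hDD0.le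
      _ = W * (28 * ((k : ℝ) ^ 50 / DD k)) := by
          rw [hWD]; field_simp
      _ ≤ W * (28 * ((k : ℝ) ^ 50 / 2 ^ k)) := by
          refine mul_le_mul_of_nonneg_left ?_ hW0.le
          refine mul_le_mul_of_nonneg_left ?_ (by norm_num)
          exact div_le_div_of_nonneg_left (by positivity) (by positivity) h4
  have g2 : (S1 : ℝ) * Lc ≤ W * (2 * Lc * (1 / (k : ℝ) * (1 / k)) + c0 / 8) := by
    calc (S1 : ℝ) * Lc ≤ (2 * W / k ^ 2 + ζ * W) * Lc := mul_le_mul_of_nonneg_right hS1 hLc0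
      _ = W * (2 * Lc * (1 / (k : ℝ) * (1 / k)) + ζ * Lc) := by field_simp
      _ ≤ W * (2 * Lc * (1 / (k : ℝ) * (1 / k)) + c0 / 8) := by
          refine mul_le_mul_of_nonneg_left ?_ hW0.le
          linarith
  have hcast : ((80 * k ^ 51 : ℕ) : ℝ) = 80 * (k : ℝ) ^ 51 := by push_cast; ring
  have h80 : (1 : ℝ) ≤ 80 * (k : ℝ) ^ 51 := by
    have : (1 : ℝ) ≤ (k : ℝ) ^ 51 := one_le_pow₀ hkR
    linarith
  have l3 : Real.logb 2 (80 * (k : ℝ) ^ 51) ≤ 7 + 51 * k := by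
    have e1 : (80 : ℝ) * (k : ℝ) ^ 51 ≤ 2 ^ (7 + 51 * k) := by
      have a1 : (k : ℝ) ≤ 2 ^ k := by exact_mod_cast (Nat.lt_two_pow_self (n := k)).le
      have a2 : (k : ℝ) ^ 51 ≤ (2 ^ k) ^ 51 := pow_le_pow_left₀ hk0.le a1 51
      have a3 : (2 : ℝ) ^ (7 + 51 * k) = 128 * (2 ^ k) ^ 51 := by
        rw [pow_add, mul_comm 51 k, pow_mul]; norm_num
      rw [a3]
      have a4 : (0 : ℝ) ≤ (2 ^ k) ^ 51 := by positivity
      nlinarith
    have e2 := Real.logb_le_logb_of_le (b := 2) (by norm_num) (by linarith) e1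
    rw [Real.logb_pow, Real.logb_self_eq_one (by norm_num), mul_one] at e2
    push_cast at e2
    exact e2
  have l3' : 0 ≤ Real.logb 2 (80 * (k : ℝ) ^ 51) := Real.logb_nonneg (by norm_num) h80
  have g3 : (S2 : ℝ) * Real.logb 2 (80 * (k : ℝ) ^ 51) ≤
      W * (14 * (1 / (k : ℝ) * (1 / k)) + 102 * (1 / (k : ℝ))) := by
    calc (S2 : ℝ) * Real.logb 2 (80 * (k : ℝ) ^ 51) ≤ (2 * W / k ^ 2) * (7 + 51 * k) :=
          mul_le_mul hS2 l3 l3' (by positivity)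
      _ = W * (14 * (1 / (k : ℝ) * (1 / k)) + 102 * (1 / (k : ℝ))) := by
          field_simp; ring
  set x : ℝ := 2 / (c1 : ℝ) + 2 * nV / (80 * (k : ℝ) ^ 51) with hx
  have hx0 : 0 ≤ x := by positivity
  have hxle : x ≤ 2 / (c1 : ℝ) + 1 / k := by
    have h3 : (nV : ℝ) ≤ 40 * (k : ℝ) ^ 50 := by exact_mod_cast hV
    have h4 : 2 * (nV : ℝ) / (80 * (k : ℝ) ^ 51) ≤ 1 / k := by
      rw [div_le_div_iff₀ (by positivity) hk0]
      have h5 : (k : ℝ) ^ 51 = (k : ℝ) ^ 50 * k := by rw [pow_succ]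
      rw [h5]
      nlinarith
    linarith
  have l4 : Real.logb 2 (1 + x) ≤ 2 * x := by
    have e1 : Real.log (1 + x) ≤ x := by
      have := Real.log_le_sub_one_of_pos (show 0 < 1 + x by linarith)
      linarith
    have e2 : (0.6931471803 : ℝ) < Real.log 2 := Real.log_two_gt_d9
    rw [Real.logb, div_le_iff₀ (by linarith)]
    nlinarith
  have g4 : W * Real.logb 2 (1 + x) ≤ W * (c0 / 8 + 2 * (1 / (k : ℝ))) := by
    refine mul_le_mul_of_nonneg_left ?_ hW0.le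
    have h3 : 2 * (2 / (c1 : ℝ)) = 4 / c1 := by ring
    linarith
  -- conclusion
  have hc10 : (0 : ℝ) < c1 := by linarith
  have hpos : 0 < (nB : ℝ) ^ nD * ((c1 : ℝ) ^ S1 * (80 * (k : ℝ) ^ 51) ^ S2 * (1 + x) ^ WW k) := by
    positivity
  have hlog : Real.logb 2 ((nB : ℝ) ^ nD * ((c1 : ℝ) ^ S1 * (80 * (k : ℝ) ^ 51) ^ S2 *
      (1 + x) ^ WW k)) = nD * Real.logb 2 nB + (S1 * Lc + S2 * Real.logb 2 (80 * (k : ℝ) ^ 51) +
        W * Real.logb 2 (1 + x)) := by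
    rw [Real.logb_mul (by positivity) (by positivity), Real.logb_mul (by positivity) (by positivity),
      Real.logb_mul (by positivity) (by positivity), Real.logb_pow, Real.logb_pow, Real.logb_pow,
      Real.logb_pow]
  have hfin : Real.logb 2 ((nB : ℝ) ^ nD * ((c1 : ℝ) ^ S1 * (80 * (k : ℝ) ^ 51) ^ S2 *
      (1 + x) ^ WW k)) < (nJ : ℝ) := by
    rw [hlog]
    have h5 : W * (28 * ((k : ℝ) ^ 50 / 2 ^ k) + 2 * Lc * (1 / (k : ℝ) * (1 / k)) +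
      (14 * (1 / (k : ℝ) * (1 / k)) + 102 * (1 / (k : ℝ))) + 2 * (1 / (k : ℝ))) < W * (c0 / 4) :=
      mul_lt_mul_of_pos_left hk hW0
    have h6 : 0 < W * c0 := by positivity
    nlinarith
  rw [Real.logb_lt_iff_lt_rpow (by norm_num) hpos, Real.rpow_natCast] at hfin
  rw [hcast, add_assoc]
  exact hfin

end Pool.Agent.Helper12.MM
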