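import Mathlib

/-!
PROJECT MM, module MM-34. Many primes of a set with divergent sum of reciprocals.

Let `z k = 2 ^ (2 ^ (k ^ 50))`. Suppose that for all `k ≥ k₀` the set `{p ∈ P0 : p ≤ z k}` has less than `2 ^ (4 * k ^ 50)` elements. Then the sum of `1/p` over the `p ∈ P0` in `(z k, z (k+1)]` is at most `2 ^ (4 (k+1)^50) / z k`, and these bounds are summable
(`2 ^ (k ^ 50) ≥ 4 (k+1) ^ 50 + k` for large `k`), so all finite partial sums of `∑_{p ∈ P0} 1/p` are bounded (every `p > z k₀` is in exactly one block), contradiction (`summable_of_sum_le`; compare `many` in `Pool/Agent/Helper9/PF/Primes.lean`).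
-/

set_option autoImplicit false

namespace Pool.Agent.Helper12.MM

open Finset

private lemma cube_le (n : ℕ) (hn : 10 ≤ n) : n ^ 3 ≤ 2 ^ n := by
  induction n, hn using Nat.le_induction with
  | base => norm_num
  | succ n hn ih =>
    have h1 : (n + 1) ^ 3 ≤ 2 * n ^ 3 := by nlinarith [mul_self_nonneg (n - 10 : ℤ), pow_pos (show 0 < n by omega) 2, Nat.mul_le_mul hn (le_refl (n ^ 2)), Nat.mul_le_mul hn (le_refl n)]
    calc (n + 1) ^ 3 ≤ 2 * n ^ 3 := h1
      _ ≤ 2 * 2 ^ n := Nat.mul_le_mul_left 2 ih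
      _ = 2 ^ (n + 1) := by rw [pow_succ, mul_comm]

private lemma expo (k N M : ℕ) (hN : 2 ^ 50 ≤ N) (hM : M ≤ 2 ^ 50 * N) (hk : k ≤ N) :
    4 * M + k ≤ 2 ^ N := by
  have h1 : N ^ 3 ≤ 2 ^ N := cube_le N (by omega)
  have h2 : (4 * 2 ^ 50 + 1) * N ≤ N ^ 3 := by
    have h3 : 4 * 2 ^ 50 + 1 ≤ N ^ 2 := by
      calc 4 * 2 ^ 50 + 1 ≤ (2 ^ 50) ^ 2 := by norm_num
        _ ≤ N ^ 2 := Nat.pow_le_pow_left hN 2
    calc (4 * 2 ^ 50 + 1) * N ≤ N ^ 2 * N := Nat.mul_le_mul_right N h3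
      _ = N ^ 3 := by rw [← pow_succ]
  have h4 : 4 * M + k ≤ (4 * 2 ^ 50 + 1) * N := by
    calc 4 * M + k ≤ 4 * (2 ^ 50 * N) + N := Nat.add_le_add (Nat.mul_le_mul_left 4 hM) hk
      _ = (4 * 2 ^ 50 + 1) * N := by ring
  exact h4.trans (h2.trans h1)

private lemma expo' (k : ℕ) (hk : 2 ≤ k) : 4 * (k + 1) ^ 50 + k ≤ 2 ^ (k ^ 50) := by
  refine expo k (k ^ 50) ((k + 1) ^ 50) (Nat.pow_le_pow_left hk 50) ?_ ?_
  · calc (k + 1) ^ 50 ≤ (2 * k) ^ 50 := Nat.pow_le_pow_left (by omega) 50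
      _ = 2 ^ 50 * k ^ 50 := mul_pow 2 k 50
  · exact Nat.le_self_pow (by norm_num) k

open Classical in
theorem many_k (P0 : Set ℕ) (hns : ¬ Summable (fun p : ℕ => if p ∈ P0 then 1 / (p : ℝ) else 0))
    (k₀ : ℕ) :
    ∃ k ≥ k₀, 2 ^ (4 * k ^ 50) ≤ ((Icc 1 (2 ^ (2 ^ (k ^ 50)))).filter (fun p => p ∈ P0)).card := by
  by_contra hcon
  push Not at hcon
  apply hns
  set f : ℕ → ℝ := fun p => if p ∈ P0 then 1 / (p : ℝ) else 0 with hf
  have hf0 : ∀ p, 0 ≤ f p := by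
    intro p
    simp only [hf]
    split_ifs
    · positivity
    · exact le_refl _
  obtain ⟨z, hz⟩ : ∃ z : ℕ → ℕ, z = fun k => 2 ^ (2 ^ (k ^ 50)) := ⟨_, rfl⟩
  have hzk : ∀ k, z k = 2 ^ (2 ^ (k ^ 50)) := fun k => by rw [hz]
  have hcon' : ∀ k ≥ k₀, ((Icc 1 (z k)).filter (fun p => p ∈ P0)).card < 2 ^ (4 * k ^ 50) := by
    intro k hk
    rw [hzk]
    exact hcon k hk
  have hzpos : ∀ k, 0 < z k := fun k => by rw [hzk]; positivity
  have hzmono : ∀ k, z k ≤ z (k + 1) := by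
    intro k
    rw [hzk, hzk]
    exact Nat.pow_le_pow_right (by norm_num) (Nat.pow_le_pow_right (by norm_num)
      (Nat.pow_le_pow_left (by omega) 50))
  have hzge : ∀ k, k ≤ z k := by
    intro k
    rw [hzk]
    have h1 : k ≤ k ^ 50 := Nat.le_self_pow (by norm_num) k
    have h2 : k ^ 50 ≤ 2 ^ (k ^ 50) := Nat.lt_two_pow_self.le
    have h3 : 2 ^ (k ^ 50) ≤ 2 ^ (2 ^ (k ^ 50)) := Nat.lt_two_pow_self.le
    exact h1.trans (h2.trans h3)
  set m := max k₀ 2 with hm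
  have hblock : ∀ k ≥ m, ∑ p ∈ Ioc (z k) (z (k + 1)), f p ≤ (1 / 2 : ℝ) ^ k := by
    intro k hk
    have hk0 : k₀ ≤ k + 1 := by omega
    have hk2 : 2 ≤ k := by omega
    have h1 : ∑ p ∈ Ioc (z k) (z (k + 1)), f p ≤
        ∑ p ∈ (Icc 1 (z (k + 1))).filter (fun p => p ∈ P0), 1 / (z k : ℝ) := by
      have e1 : ∑ p ∈ Ioc (z k) (z (k + 1)), f p =
          ∑ p ∈ (Ioc (z k) (z (k + 1))).filter (fun p => p ∈ P0), 1 / (p : ℝ) := by
        rw [sum_filter]
      rw [e1]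
      calc ∑ p ∈ (Ioc (z k) (z (k + 1))).filter (fun p => p ∈ P0), 1 / (p : ℝ)
          ≤ ∑ p ∈ (Ioc (z k) (z (k + 1))).filter (fun p => p ∈ P0), 1 / (z k : ℝ) := by
            refine sum_le_sum fun p hp => ?_
            rw [mem_filter, mem_Ioc] at hp
            have : (0 : ℝ) < z k := by exact_mod_cast hzpos k
            exact one_div_le_one_div_of_le this (by exact_mod_cast hp.1.1.le)
        _ ≤ _ := by
            refine sum_le_sum_of_subset_of_nonneg ?_ fun p _ _ => by positivity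
            refine filter_subset_filter _ fun p hp => ?_
            rw [mem_Ioc] at hp
            rw [mem_Icc]
            exact ⟨by have := hzpos k; omega, hp.2⟩
    refine h1.trans ?_
    rw [sum_const, nsmul_eq_mul]
    have h2 : (((Icc 1 (z (k + 1))).filter (fun p => p ∈ P0)).card : ℝ) ≤
        (2 : ℝ) ^ (4 * (k + 1) ^ 50) := by
      exact_mod_cast (hcon' (k + 1) hk0).le
    have h3 : (z k : ℝ) = (2 : ℝ) ^ (2 ^ (k ^ 50)) := by
      rw [hzk]
      push_cast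
      rfl
    have h4 : (2 : ℝ) ^ (4 * (k + 1) ^ 50) * 2 ^ k ≤ (2 : ℝ) ^ (2 ^ (k ^ 50)) := by
      rw [← pow_add]
      exact pow_le_pow_right₀ (by norm_num) (expo' k hk2)
    have h5 : (0 : ℝ) < z k := by exact_mod_cast hzpos k
    rw [mul_one_div, div_le_iff₀ h5, one_div, inv_pow, ← div_eq_inv_mul, le_div_iff₀ (by positivity),
      h3]
    calc _ ≤ (2 : ℝ) ^ (4 * (k + 1) ^ 50) * 2 ^ k := by gcongr
      _ ≤ _ := h4
  have hind : ∀ K ≥ m, ∑ p ∈ Icc 1 (z K), f p ≤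
      ∑ p ∈ Icc 1 (z m), f p + ∑ k ∈ Ico m K, (1 / 2 : ℝ) ^ k := by
    intro K hK
    induction K, hK using Nat.le_induction with
    | base => simp
    | succ K hK ih =>
      have e1 : Icc 1 (z (K + 1)) = Icc 1 (z K) ∪ Ioc (z K) (z (K + 1)) := by
        ext p
        have := hzmono K
        have := hzpos K
        simp only [mem_union, mem_Icc, mem_Ioc]
        omega
      have e2 : Disjoint (Icc 1 (z K)) (Ioc (z K) (z (K + 1))) := by
        rw [disjoint_left]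
        intro p hp hp'
        rw [mem_Icc] at hp
        rw [mem_Ioc] at hp'
        omega
      rw [e1, sum_union e2, Finset.sum_Ico_succ_top hK]
      have := hblock K hK
      linarith
  have hgeo : ∀ K, ∑ k ∈ Ico m K, (1 / 2 : ℝ) ^ k ≤ 2 := by
    intro K
    calc ∑ k ∈ Ico m K, (1 / 2 : ℝ) ^ k ≤ ∑ k ∈ range K, (1 / 2 : ℝ) ^ k :=
          sum_le_sum_of_subset_of_nonneg (fun k hk => by
            rw [mem_Ico] at hk
            rw [mem_range]
            exact hk.2) fun _ _ _ => by positivity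
      _ ≤ ∑' k : ℕ, (1 / 2 : ℝ) ^ k := summable_geometric_two.sum_le_tsum _ fun _ _ => by positivity
      _ = 2 := tsum_geometric_two
  refine summable_of_sum_le (c := ∑ p ∈ Icc 1 (z m), f p + 2) hf0 fun u => ?_
  obtain ⟨K, hK⟩ : ∃ K, ∀ p ∈ u, p ≤ K := ⟨u.sup id, fun p hp => le_sup (f := id) hp⟩
  have hf00 : f 0 = 0 := by simp [hf]
  have h1 : ∑ p ∈ u, f p ≤ ∑ p ∈ Icc 0 (z (max K m)), f p := by
    refine sum_le_sum_of_subset_of_nonneg (fun p hp => ?_) fun p _ _ => hf0 p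
    rw [mem_Icc]
    exact ⟨Nat.zero_le _, (hK p hp).trans ((le_max_left K m).trans (hzge _))⟩
  have h2 : ∑ p ∈ Icc 0 (z (max K m)), f p = ∑ p ∈ Icc 1 (z (max K m)), f p := by
    refine (sum_subset (fun p hp => ?_) fun p hp hp' => ?_).symm
    · rw [mem_Icc] at hp ⊢
      omega
    · rw [mem_Icc] at hp hp'
      have : p = 0 := by omega
      rw [this, hf00]
  have h3 := hind (max K m) (le_max_right K m)
  have h4 := hgeo (max K m)
  linarith

end Pool.Agent.Helper12.MM
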