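import Pool.Agent.Helper12.MM.ParDefs

/-!
PROJECT MM, module MM-36. Parameter inequalities, part A (all elementary; everything is a comparison of a power of `k` with an exponential, or of exponents).

`par_a`: `16 k ^ 34 ≤ 2 ^ k` for large `k`, `n ^ 2 ≤ 2 ^ n` for `n ≥ 4`, `(32 k ^ 50) ^ 2 ≤ 2 ^ (16 k ^ 34)`.
`small_b`: `log yy = k ^ 40 log 2`, `log DD = k ^ 45 log 2`. Divide by `W`:
`((k^40 log 2 + 2)/(k^45 log 2) + 16 k^34 * 400 k^2/(k^40 log 2) + 1/(16 k^34) + (32 k^50 + 1) * 200 * 9 k^90/2^(k^34) + 32 k^50 / 2^(k^45)) * k^2 + 32 k^50 * 400 k^2/(k^40 log 2)/k^14 + (V+1) * 3/2^(4 k^50) + (V+1) * 1800 k^90/2^(4 k^50)`,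
`V + 1 ≤ 2 ^ (3 k ^ 50)`: every term tends to `0`.
(Use `Filter.Tendsto` facts, or explicit bounds for `k ≥ 10^6` or whatever.)
-/

set_option autoImplicit false

namespace Pool.Agent.Helper12.MM

open Filter

private theorem h86_pow (C a : ℕ) : ∀ᶠ k : ℕ in atTop, C * k ^ a ≤ 2 ^ k := by
  have h := tendsto_pow_const_div_const_pow_of_one_lt a (r := (2 : ℝ)) (by norm_num)
  have h1 : (0 : ℝ) < 1 / ((C : ℝ) + 1) := by positivity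
  filter_upwards [h.eventually_lt_const h1] with k hk
  have h2 : (0 : ℝ) < 2 ^ k := by positivity
  rw [div_lt_div_iff₀ h2 (by positivity)] at hk
  have h3 : (0 : ℝ) ≤ (k : ℝ) ^ a := by positivity
  have h4 : (C : ℝ) * (k : ℝ) ^ a ≤ 2 ^ k := by nlinarith
  exact_mod_cast h4

private theorem h86_sq : ∀ n : ℕ, 4 ≤ n → n ^ 2 ≤ 2 ^ n := by
  intro n hn
  induction n, hn using Nat.le_induction with
  | base => norm_num
  | succ n hn ih =>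
    have h1 : (n + 1) ^ 2 ≤ 2 * n ^ 2 := by nlinarith
    calc (n + 1) ^ 2 ≤ 2 * n ^ 2 := h1
      _ ≤ 2 * 2 ^ n := by omega
      _ = 2 ^ (n + 1) := by ring

private theorem h86_VV (k : ℕ) (hk : 2 ≤ k) : VV k + 1 ≤ 2 ^ (3 * k ^ 50) := by
  have hk0 : 0 < k := by omega
  have e1 : k ^ 45 + 5 ≤ k ^ 50 := by
    have h1 : 2 ^ 5 ≤ k ^ 5 := Nat.pow_le_pow_left hk 5
    have h2 : 1 ≤ k ^ 45 := Nat.one_le_pow _ _ hk0
    have h3 : k ^ 50 = k ^ 45 * k ^ 5 := by rw [← pow_add]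
    rw [h3]
    nlinarith
  unfold VV EE WW DD H1
  have h1 : 2 ^ (2 * k ^ 50 + 2) + 2 ≤ 2 ^ (2 * k ^ 50 + 3) := by
    have h2 : 1 ≤ 2 ^ (2 * k ^ 50) := Nat.one_le_two_pow
    have h3 : 2 ^ (2 * k ^ 50 + 2) = 4 * 2 ^ (2 * k ^ 50) := by rw [pow_add]; ring
    have h4 : 2 ^ (2 * k ^ 50 + 3) = 8 * 2 ^ (2 * k ^ 50) := by rw [pow_add]; ring
    omega
  have h2 : 2 * (2 ^ k ^ 45 * (2 ^ (2 * k ^ 50 + 2) + 2)) ≤ 2 ^ (k ^ 45 + 2 * k ^ 50 + 4) := by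
    calc 2 * (2 ^ k ^ 45 * (2 ^ (2 * k ^ 50 + 2) + 2)) ≤ 2 * (2 ^ k ^ 45 * 2 ^ (2 * k ^ 50 + 3)) :=
          Nat.mul_le_mul_left _ (Nat.mul_le_mul_left _ h1)
      _ = 2 ^ (k ^ 45 + 2 * k ^ 50 + 4) := by
          rw [← pow_add, ← pow_succ']
          congr 1
  have h3 : 2 ^ (2 * k ^ 45) + 1 ≤ 2 ^ (k ^ 45 + 2 * k ^ 50 + 4) := by
    have h4 : 2 ^ (2 * k ^ 45) ≤ 2 ^ (k ^ 45 + 2 * k ^ 50 + 3) := Nat.pow_le_pow_right (by norm_num) (by omega)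
    have h5 : 2 ^ (k ^ 45 + 2 * k ^ 50 + 4) = 2 * 2 ^ (k ^ 45 + 2 * k ^ 50 + 3) := by
      rw [← pow_succ']
    have h6 : 1 ≤ 2 ^ (k ^ 45 + 2 * k ^ 50 + 3) := Nat.one_le_two_pow
    omega
  have h4 : 2 ^ (k ^ 45 + 2 * k ^ 50 + 5) ≤ 2 ^ (3 * k ^ 50) := Nat.pow_le_pow_right (by norm_num) (by omega)
  have h5 : 2 ^ (k ^ 45 + 2 * k ^ 50 + 5) = 2 * 2 ^ (k ^ 45 + 2 * k ^ 50 + 4) := by
    rw [← pow_succ']
  omega

theorem par_a : ∀ᶠ k in atTop, 2 ≤ k ∧ 2 ≤ GG k ∧ GG k ^ 2 ≤ 2 ^ GG k ∧ GG k ≤ yy k ∧ GG k ≤ 2 ^ k ∧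
    H0 k ^ 2 ≤ 2 ^ GG k ∧ 1 ≤ J1 k ∧ yy k ≤ 2 ^ J1 k ∧ 2 ≤ E0 k ∧ 2 ≤ DD k ∧ 2 ≤ yy k ∧
    VV k + 1 ≤ 2 ^ (3 * k ^ 50) := by
  filter_upwards [eventually_ge_atTop 2, h86_pow 16 34, h86_pow 1024 100] with k hk h1 h2
  have hk0 : 0 < k := by omega
  have p34 : 1 ≤ k ^ 34 := Nat.one_le_pow _ _ hk0
  have p40 : 1 ≤ k ^ 40 := Nat.one_le_pow _ _ hk0
  have p45 : 1 ≤ k ^ 45 := Nat.one_le_pow _ _ hk0
  have p50 : 1 ≤ k ^ 50 := Nat.one_le_pow _ _ hk0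
  have k34 : k ≤ k ^ 34 := Nat.le_self_pow (by norm_num) k
  have k40 : k ≤ k ^ 40 := Nat.le_self_pow (by norm_num) k
  have k4045 : k ^ 40 ≤ k ^ 45 := Nat.pow_le_pow_right hk0 (by norm_num)
  have hG : GG k ≤ 2 ^ k := h1
  refine ⟨hk, ?_, ?_, ?_, hG, ?_, ?_, ?_, ?_, ?_, ?_, h86_VV k hk⟩
  · unfold GG; omega
  · apply h86_sq; unfold GG; omega
  · exact hG.trans (Nat.pow_le_pow_right (by norm_num) k40)
  · unfold H0 GG
    calc (32 * k ^ 50) ^ 2 = 1024 * k ^ 100 := by ring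
      _ ≤ 2 ^ k := h2
      _ ≤ 2 ^ (16 * k ^ 34) := Nat.pow_le_pow_right (by norm_num) (by omega)
  · unfold J1; omega
  · unfold yy J1
    exact Nat.pow_le_pow_right (by norm_num) (by omega)
  · unfold E0; omega
  · unfold DD
    calc 2 = 2 ^ 1 := by norm_num
      _ ≤ 2 ^ (k ^ 45) := Nat.pow_le_pow_right (by norm_num) p45
  · unfold yy
    calc 2 = 2 ^ 1 := by norm_num
      _ ≤ 2 ^ (k ^ 40) := Nat.pow_le_pow_right (by norm_num) p40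

private theorem h86_T1 (x L A B : ℝ) (hx : 1 ≤ x) (hL : 1 / 2 ≤ L) (hA : 60000 * x ^ 143 ≤ A)
    (hB : 32 * x ^ 53 ≤ B) :
    (B ^ 2 * ((x ^ 40 * L + 2) / (x ^ 45 * L)) + B ^ 2 * (16 * x ^ 34 * (400 * x ^ 2 / (x ^ 40 * L))) +
        B ^ 2 * (1 / (16 * x ^ 34)) + (32 * x ^ 50 + 1) * (B ^ 2 * (200 * (3 * x ^ 45) ^ 2 / A)) +
        32 * x ^ 50 * B) / (B ^ 2 / x ^ 2) ≤ 12808 / x := by
  have hx0 : 0 < x := by linarith
  have hL0 : 0 < L := by linarith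
  have hA0 : 0 < A := lt_of_lt_of_le (by positivity) hA
  have hB0 : 0 < B := lt_of_lt_of_le (by positivity) hB
  have e : (B ^ 2 * ((x ^ 40 * L + 2) / (x ^ 45 * L)) + B ^ 2 * (16 * x ^ 34 * (400 * x ^ 2 / (x ^ 40 * L))) +
        B ^ 2 * (1 / (16 * x ^ 34)) + (32 * x ^ 50 + 1) * (B ^ 2 * (200 * (3 * x ^ 45) ^ 2 / A)) +
        32 * x ^ 50 * B) / (B ^ 2 / x ^ 2) =
      x ^ 2 * (x ^ 40 * L + 2) / (x ^ 45 * L) + 6400 / (x ^ 2 * L) + 1 / (16 * x ^ 32) +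
        (32 * x ^ 50 + 1) * 1800 * x ^ 92 / A + 32 * x ^ 52 / B := by
    field_simp
    ring
  have hp : ∀ m n : ℕ, m ≤ n → x ^ m ≤ x ^ n := fun m n h => pow_le_pow_right₀ hx h
  have a1 : x ^ 2 * (x ^ 40 * L + 2) / (x ^ 45 * L) ≤ 5 / x := by
    rw [div_le_div_iff₀ (by positivity) hx0]
    have h1 := hp 43 45 (by norm_num)
    have h2 := hp 3 45 (by norm_num)
    have h3 : x ^ 43 * L ≤ x ^ 45 * L := mul_le_mul_of_nonneg_right h1 hL0.le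
    have h4 : (1 / 2) * x ^ 45 ≤ L * x ^ 45 := mul_le_mul_of_nonneg_right hL (by positivity)
    have h5 : x ^ 2 * (x ^ 40 * L + 2) * x = x ^ 43 * L + 2 * x ^ 3 := by ring
    rw [h5]
    linarith
  have a2 : 6400 / (x ^ 2 * L) ≤ 12800 / x := by
    rw [div_le_div_iff₀ (by positivity) hx0]
    have h1 := hp 1 2 (by norm_num)
    rw [pow_one] at h1
    have h4 : (1 / 2) * x ^ 2 ≤ L * x ^ 2 := mul_le_mul_of_nonneg_right hL (by positivity)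
    linarith
  have a3 : 1 / (16 * x ^ 32) ≤ 1 / x := by
    rw [div_le_div_iff₀ (by positivity) hx0]
    have h1 := hp 1 32 (by norm_num)
    rw [pow_one] at h1
    have h2 : 0 < x ^ 32 := by positivity
    linarith
  have a4 : (32 * x ^ 50 + 1) * 1800 * x ^ 92 / A ≤ 1 / x := by
    rw [div_le_div_iff₀ hA0 hx0]
    have h1 := hp 93 143 (by norm_num)
    have h2 : 0 < x ^ 143 := by positivity
    have h5 : (32 * x ^ 50 + 1) * 1800 * x ^ 92 * x = 57600 * x ^ 143 + 1800 * x ^ 93 := by ring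
    rw [h5]
    linarith
  have a5 : 32 * x ^ 52 / B ≤ 1 / x := by
    rw [div_le_div_iff₀ hB0 hx0]
    have h5 : 32 * x ^ 52 * x = 32 * x ^ 53 := by ring
    rw [h5]
    linarith
  rw [e]
  have h6 : 12808 / x = 5 / x + 12800 / x + 1 / x + 1 / x + 1 / x := by ring
  rw [h6]
  linarith

private theorem h86_T2 (x L B : ℝ) (hx : 1 ≤ x) (hL : 1 / 2 ≤ L) (hB : 0 < B) :
    (B ^ 2 * (32 * x ^ 50 * (400 * x ^ 2 / (x ^ 40 * L)))) / (B ^ 2 * x ^ 14) ≤ 25600 / x := by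
  have hx0 : 0 < x := by linarith
  have hL0 : 0 < L := by linarith
  have e : (B ^ 2 * (32 * x ^ 50 * (400 * x ^ 2 / (x ^ 40 * L)))) / (B ^ 2 * x ^ 14) = 12800 / (x ^ 2 * L) := by
    field_simp
    ring
  rw [e, div_le_div_iff₀ (by positivity) hx0]
  have h1 : x ≤ x ^ 2 := by nlinarith
  have h4 : (1 / 2) * x ^ 2 ≤ L * x ^ 2 := mul_le_mul_of_nonneg_right hL (by positivity)
  linarith

private theorem h86_T3 (x V M c : ℝ) (hx : 1 ≤ x) (hV : V ≤ M ^ 3) (hM : 0 < M) (hc : 0 ≤ c) (hM1 : c * x ≤ M) :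
    V * (c / M ^ 4) ≤ 1 / x := by
  have hx0 : 0 < x := by linarith
  have h1 : V * (c / M ^ 4) ≤ M ^ 3 * (c / M ^ 4) := mul_le_mul_of_nonneg_right hV (by positivity)
  have h2 : M ^ 3 * (c / M ^ 4) = c / M := by
    field_simp
  rw [h2] at h1
  refine h1.trans ?_
  rw [div_le_div_iff₀ hM hx0]
  linarith

theorem small_b (ε : ℝ) (hε : 0 < ε) : ∀ᶠ k in atTop,
    ((WW k : ℝ) * ((Real.log (yy k) + 2) / Real.log (DD k)) +
        WW k * (GG k * (400 * (k : ℝ) ^ 2 / Real.log (yy k))) +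
        WW k * (1 / (GG k : ℝ)) + (H0 k + 1) * (WW k * (200 * (J1 k : ℝ) ^ 2 / 2 ^ (k ^ 34))) +
        H0 k * DD k) / ((WW k : ℝ) / k ^ 2) +
      (WW k * (H0 k * (400 * (k : ℝ) ^ 2 / Real.log (yy k)))) / (WW k * (k : ℝ) ^ 14) +
      (VV k + 1) * (3 / 2 ^ (E0 k)) + (VV k + 1) * (200 * (J1 k : ℝ) ^ 2 / ((2 ^ (4 * k ^ 50) : ℕ) : ℝ)) < ε := by
  obtain ⟨K, hK⟩ := exists_nat_gt (40000 / ε)
  filter_upwards [par_a, eventually_gt_atTop K, h86_pow 60000 143, h86_pow 32 53, h86_pow 1800 91]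
    with k hpa hkK h1 h2 h3
  obtain ⟨hk, -, -, -, -, -, -, -, -, -, -, hV⟩ := hpa
  have hk0 : 0 < k := by omega
  have hL : (1 : ℝ) / 2 ≤ Real.log 2 := by
    have := Real.log_two_gt_d9
    linarith
  have hx : (1 : ℝ) ≤ k := by exact_mod_cast hk0
  have hx0 : (0 : ℝ) < k := by linarith
  have k34 : k ≤ k ^ 34 := Nat.le_self_pow (by norm_num) k
  have k45 : k ≤ k ^ 45 := Nat.le_self_pow (by norm_num) k
  have k50 : k ≤ k ^ 50 := Nat.le_self_pow (by norm_num) k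
  have hA : 60000 * (k : ℝ) ^ 143 ≤ 2 ^ (k ^ 34) := by
    have h4 : 60000 * k ^ 143 ≤ 2 ^ (k ^ 34) := h1.trans (Nat.pow_le_pow_right (by norm_num) k34)
    exact_mod_cast h4
  have hB : 32 * (k : ℝ) ^ 53 ≤ 2 ^ (k ^ 45) := by
    have h4 : 32 * k ^ 53 ≤ 2 ^ (k ^ 45) := h2.trans (Nat.pow_le_pow_right (by norm_num) k45)
    exact_mod_cast h4
  have hM : 1800 * (k : ℝ) ^ 91 ≤ 2 ^ (k ^ 50) := by
    have h4 : 1800 * k ^ 91 ≤ 2 ^ (k ^ 50) := h3.trans (Nat.pow_le_pow_right (by norm_num) k50)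
    exact_mod_cast h4
  have hV' : (VV k : ℝ) + 1 ≤ ((2 : ℝ) ^ (k ^ 50)) ^ 3 := by
    rw [← pow_mul, mul_comm (k ^ 50) 3]
    exact_mod_cast hV
  have eW : (WW k : ℝ) = ((2 : ℝ) ^ (k ^ 45)) ^ 2 := by
    unfold WW
    rw [← pow_mul, mul_comm (k ^ 45) 2]
    push_cast
    rfl
  have eD : (DD k : ℝ) = (2 : ℝ) ^ (k ^ 45) := by
    unfold DD
    push_cast
    rfl
  have eG : (GG k : ℝ) = 16 * (k : ℝ) ^ 34 := by
    unfold GG
    push_cast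
    rfl
  have eH : (H0 k : ℝ) = 32 * (k : ℝ) ^ 50 := by
    unfold H0
    push_cast
    rfl
  have eJ : (J1 k : ℝ) = 3 * (k : ℝ) ^ 45 := by
    unfold J1
    push_cast
    rfl
  have elD : Real.log (DD k) = (k : ℝ) ^ 45 * Real.log 2 := by
    rw [eD, Real.log_pow]
    push_cast
    rfl
  have elY : Real.log (yy k) = (k : ℝ) ^ 40 * Real.log 2 := by
    unfold yy
    push_cast
    rw [Real.log_pow]
    push_cast
    rfl
  have eE : (2 : ℝ) ^ (E0 k) = ((2 : ℝ) ^ (k ^ 50)) ^ 4 := by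
    unfold E0
    rw [← pow_mul, mul_comm (k ^ 50) 4]
  have eE' : ((2 ^ (4 * k ^ 50) : ℕ) : ℝ) = ((2 : ℝ) ^ (k ^ 50)) ^ 4 := by
    rw [← pow_mul, mul_comm (k ^ 50) 4]
    push_cast
    rfl
  rw [elD, elY, eW, eD, eG, eH, eJ, eE, eE']
  have t1 := h86_T1 (k : ℝ) (Real.log 2) (2 ^ (k ^ 34)) (2 ^ (k ^ 45)) hx hL hA hB
  have t2 := h86_T2 (k : ℝ) (Real.log 2) (2 ^ (k ^ 45)) hx hL (by positivity)
  have hp : ∀ m n : ℕ, m ≤ n → (k : ℝ) ^ m ≤ (k : ℝ) ^ n := fun m n h => pow_le_pow_right₀ hx h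
  have t3 := h86_T3 (k : ℝ) (VV k + 1) (2 ^ (k ^ 50)) 3 hx hV' (by positivity) (by norm_num) (by
    have h4 := hp 1 91 (by norm_num)
    rw [pow_one] at h4
    linarith)
  have t4 := h86_T3 (k : ℝ) (VV k + 1) (2 ^ (k ^ 50)) (200 * (3 * (k : ℝ) ^ 45) ^ 2) hx hV' (by positivity)
    (by positivity) (by
    have h5 : 200 * (3 * (k : ℝ) ^ 45) ^ 2 * k = 1800 * (k : ℝ) ^ 91 := by ring
    rw [h5]
    exact hM)
  have t5 : 40000 / (k : ℝ) < ε := by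
    have h4 : (K : ℝ) < k := by exact_mod_cast hkK
    have h5 : 40000 / ε < k := hK.trans h4
    rw [div_lt_iff₀ hε] at h5
    rw [div_lt_iff₀ hx0]
    linarith
  have t6 : 12808 / (k : ℝ) + 25600 / k + 1 / k + 1 / k ≤ 40000 / k := by
    have h4 : 12808 / (k : ℝ) + 25600 / k + 1 / k + 1 / k = 38410 / k := by ring
    rw [h4]
    exact div_le_div_of_nonneg_right (by norm_num) hx0.le
  linarith

end Pool.Agent.Helper12.MM
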