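import Pool.Agent.Helper12.MM.ParDefs

/-!
PROJECT MM, module MM-37. Parameter inequalities, part B: sizes. `L = k ^ 50`. (`V ≤ 2 ^ (3 L)` etc.; `Y = 2 ^ (2 ^ (2 L))` is doubly exponential.)

`par_b`, for `Q2 ≤ 2 ^ (2 ^ (2 L - k))`, `c < Q2`:
* `c + V + Q2 (2 Y) ≤ Q2 * 4 Y ≤ Z ^ 2 = 2 ^ (6 * 2 ^ (2L-2)) = Y ^ (3/2)`: exponents `2 ^ (2L-k) + 2 + 2 ^ (2L) ≤ 6 * 2 ^ (2L-2)`; and `Z ^ 2 ≤ Y ^ 2`.
* `8 (W (Y/y1 + Z)) ≤ Y`: `W/y1 = 2 ^ (- k^45)`, `W Z ≤ Y/16`.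
* `8 ((V+1) (4 (1 + log Y))) ≤ 2 ^ (6 L)`: `log Y ≤ 2 ^ (2 L)`.
* `(2 log Q2 + 10)/log Y ≤ 4/2^k`.
* `(W * m) + V + 1 ≤ 2 ^ (4 L)`.
* `N + V ≤ Y ^ 2 ≤ (3/2) ^ H1`: `(3/2) ^ 2 ≥ 2`, `H1 = 4 * 2 ^ (2 L)`.
* `zz ^ 8 = Y ^ 2`, `3 zz ^ 2 ≤ Y`.
-/

set_option autoImplicit false

namespace Pool.Agent.Helper12.MM

open Filter

private lemma facts {k : ℕ} (hk : 2 ≤ k) :
    32 * k ^ 45 ≤ k ^ 50 ∧ 1000 ≤ k ^ 45 ∧ k ≤ k ^ 45 ∧ 3 * k ^ 34 ≤ k ^ 45 := by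
  have h1 : 2 ^ 5 * k ^ 45 ≤ k ^ 5 * k ^ 45 := Nat.mul_le_mul_right _ (Nat.pow_le_pow_left hk 5)
  have h2 : 2 ^ 45 ≤ k ^ 45 := Nat.pow_le_pow_left hk 45
  have h3 : k ^ 1 ≤ k ^ 45 := Nat.pow_le_pow_right (by omega) (by norm_num)
  have h4 : 2 ^ 11 * k ^ 34 ≤ k ^ 11 * k ^ 34 := Nat.mul_le_mul_right _ (Nat.pow_le_pow_left hk 11)
  rw [← pow_add] at h1 h4
  norm_num at h1 h2 h3 h4
  refine ⟨h1, by omega, h3, by omega⟩

private lemma VV_le {k : ℕ} (hk : 2 ≤ k) : VV k ≤ 2 ^ (3 * k ^ 50) := by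
  obtain ⟨h1, h2, -, -⟩ := facts hk
  have e1 : H1 k + 2 ≤ 2 ^ (2 * k ^ 50 + 3) := by
    have : 2 ^ 1 ≤ 2 ^ (2 * k ^ 50 + 2) := Nat.pow_le_pow_right (by norm_num) (by omega)
    have h3 : 2 ^ (2 * k ^ 50 + 3) = 2 * 2 ^ (2 * k ^ 50 + 2) := by
      rw [pow_succ, mul_comm]
    unfold H1
    omega
  have e2 : EE k ≤ 2 ^ (k ^ 45 + (2 * k ^ 50 + 3)) := by
    unfold EE DD
    rw [pow_add]
    exact Nat.mul_le_mul_left _ e1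
  have e3 : WW k ≤ 2 ^ (k ^ 45 + (2 * k ^ 50 + 3)) := by
    unfold WW
    exact Nat.pow_le_pow_right (by norm_num) (by omega)
  have e4 : VV k ≤ 2 ^ ((k ^ 45 + (2 * k ^ 50 + 3)) + 2) := by
    unfold VV
    rw [pow_add 2 _ 2]
    omega
  exact e4.trans (Nat.pow_le_pow_right (by norm_num) (by omega))

private lemma three_le (L : ℕ) (hL : 1 ≤ L) : 3 * L ≤ 2 ^ (2 * L) := by
  have h1 : L + 1 ≤ 2 ^ L := Nat.lt_two_pow_self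
  have h2 : (L + 1) * (L + 1) ≤ 2 ^ L * 2 ^ L := Nat.mul_le_mul h1 h1
  rw [← pow_add, ← two_mul] at h2
  nlinarith

private lemma YY_eq {k : ℕ} (hk : 2 ≤ k) : YY k = 2 ^ (4 * 2 ^ (2 * k ^ 50 - 2)) := by
  obtain ⟨h1, h2, -, -⟩ := facts hk
  unfold YY
  have : 2 ^ (2 * k ^ 50) = 2 ^ 2 * 2 ^ (2 * k ^ 50 - 2) := by
    rw [← pow_add]
    congr 1
    omega
  rw [this]
  norm_num

private lemma u_ge (k : ℕ) : 2 * k ^ 50 - 1 ≤ 2 ^ (2 * k ^ 50 - 2) := by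
  have h1 : 2 * k ^ 50 - 2 < 2 ^ (2 * k ^ 50 - 2) := Nat.lt_two_pow_self
  omega

private lemma VV_le_YY {k : ℕ} (hk : 2 ≤ k) : VV k ≤ YY k := by
  obtain ⟨h1, h2, -, -⟩ := facts hk
  refine (VV_le hk).trans ?_
  unfold YY
  exact Nat.pow_le_pow_right (by norm_num) (three_le _ (by omega))

private lemma log_YY (k : ℕ) : Real.log (YY k) = (2 : ℝ) ^ (2 * k ^ 50) * Real.log 2 := by
  unfold YY
  rw [Nat.cast_pow, Real.log_pow, Nat.cast_pow]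
  norm_num

theorem par_b : ∀ᶠ k in atTop, ∀ Q2 c : ℕ, Q2 ≤ 2 ^ (2 ^ (2 * k ^ 50 - k)) → 2 ≤ Q2 → c < Q2 →
    2 ≤ YY k ∧ c + VV k + Q2 * (2 * YY k) ≤ YY k ^ 2 ∧ c + VV k + Q2 * (2 * YY k) ≤ ZZ k ^ 2 ∧
    c + VV k ≤ Q2 * YY k ∧ (2 * Real.log Q2 + 10) / Real.log (YY k) ≤ 4 / 2 ^ k := by
  refine eventually_atTop.2 ⟨2, fun k hk Q2 c hQ hQ2 hc => ?_⟩
  obtain ⟨h1, h2, h3, h4⟩ := facts hk
  have hY2 : 2 ≤ YY k := by
    unfold YY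
    calc 2 = 2 ^ 1 := by norm_num
      _ ≤ _ := Nat.pow_le_pow_right (by norm_num) Nat.one_le_two_pow
  have hV := VV_le_YY hk
  have hu := u_ge k
  have hYe := YY_eq hk
  set u := 2 ^ (2 * k ^ 50 - 2) with hu'
  have hQu : Q2 ≤ 2 ^ u := by
    refine hQ.trans (Nat.pow_le_pow_right (by norm_num) ?_)
    exact Nat.pow_le_pow_right (by norm_num) (by omega)
  have hZ : ZZ k ^ 2 = 2 ^ (6 * u) := by
    unfold ZZ
    rw [← pow_mul, ← hu']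
    congr 1
    ring
  have hZY : ZZ k ^ 2 ≤ YY k ^ 2 := by
    rw [hZ, hYe, ← pow_mul]
    exact Nat.pow_le_pow_right (by norm_num) (by omega)
  have hmain : c + VV k + Q2 * (2 * YY k) ≤ ZZ k ^ 2 := by
    have a1 : c + VV k + Q2 * (2 * YY k) ≤ 4 * (Q2 * YY k) := by
      have a2 : Q2 * 1 ≤ Q2 * YY k := Nat.mul_le_mul_left _ (by omega)
      have a3 : 1 * YY k ≤ Q2 * YY k := Nat.mul_le_mul_right _ (by omega)
      have a4 : Q2 * (2 * YY k) = 2 * (Q2 * YY k) := by ring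
      omega
    refine a1.trans ?_
    rw [hZ, hYe]
    calc 4 * (Q2 * 2 ^ (4 * u)) ≤ 2 ^ 2 * (2 ^ u * 2 ^ (4 * u)) := by
          refine Nat.mul_le_mul_left _ (Nat.mul_le_mul_right _ hQu)
      _ = 2 ^ (2 + (u + 4 * u)) := by rw [← pow_add, ← pow_add]
      _ ≤ 2 ^ (6 * u) := Nat.pow_le_pow_right (by norm_num) (by omega)
  refine ⟨hY2, hmain.trans hZY, hmain, ?_, ?_⟩
  · have a1 : c + VV k ≤ Q2 + YY k := by omega
    refine a1.trans ?_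
    nlinarith
  · have hl2 : (1 : ℝ) / 2 < Real.log 2 := by
      have := Real.log_two_gt_d9
      linarith
    have hlQ : Real.log Q2 ≤ (2 : ℝ) ^ (2 * k ^ 50 - k) * Real.log 2 := by
      have b1 : Real.log Q2 ≤ Real.log ((2 : ℝ) ^ (2 ^ (2 * k ^ 50 - k))) := by
        refine Real.log_le_log (by positivity) ?_
        exact_mod_cast hQ
      rw [Real.log_pow] at b1
      push_cast at b1
      exact b1
    have hpow : (2 : ℝ) ^ (2 * k ^ 50) = 2 ^ (2 * k ^ 50 - k) * 2 ^ k := by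
      rw [← pow_add]
      congr 1
      omega
    have hbig : (5 : ℝ) * 2 ≤ 2 ^ (2 * k ^ 50 - k) := by
      have b1 : (2 : ℝ) ^ 4 ≤ 2 ^ (2 * k ^ 50 - k) := pow_le_pow_right₀ (by norm_num) (by omega)
      linarith
    rw [log_YY, div_le_div_iff₀ (by positivity) (by positivity), hpow]
    have hk0 : (0 : ℝ) < 2 ^ k := by positivity
    have b2 : 2 * Real.log Q2 + 10 ≤ 4 * ((2 : ℝ) ^ (2 * k ^ 50 - k) * Real.log 2) := by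
      have b3 : (10 : ℝ) ≤ 2 * ((2 : ℝ) ^ (2 * k ^ 50 - k) * Real.log 2) := by
        have b4 : (10 : ℝ) * (1 / 2) ≤ (2 : ℝ) ^ (2 * k ^ 50 - k) * Real.log 2 :=
          mul_le_mul (by linarith) hl2.le (by norm_num) (by positivity)
        linarith
      linarith
    calc (2 * Real.log Q2 + 10) * 2 ^ k
        ≤ (4 * ((2 : ℝ) ^ (2 * k ^ 50 - k) * Real.log 2)) * 2 ^ k :=
          mul_le_mul_of_nonneg_right b2 hk0.le
      _ = 4 * (2 ^ (2 * k ^ 50 - k) * 2 ^ k * Real.log 2) := by ring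

theorem par_b2 : ∀ᶠ k in atTop, 3 * zz k ^ 2 ≤ YY k ∧ zz k ^ 8 = YY k ^ 2 ∧
    8 * ((WW k : ℝ) * ((YY k : ℝ) / ((2 ^ J1 k : ℕ) : ℝ) + ZZ k)) ≤ YY k ∧
    8 * (((VV k : ℝ) + 1) * (4 * (1 + Real.log (YY k)))) ≤ ((2 ^ (6 * k ^ 50) : ℕ) : ℝ) ∧
    VV k + 1 + WW k * mm k ≤ 2 ^ (4 * k ^ 50) ∧ 0 < EE k ∧ 2 ^ J1 k ≤ VV k ∧
    (∀ lam : ℝ, 3 / 2 ≤ lam → ((YY k ^ 2 : ℕ) : ℝ) ≤ lam ^ H1 k) := by
  refine eventually_atTop.2 ⟨2, fun k hk => ?_⟩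
  obtain ⟨h1, h2, h3, h4⟩ := facts hk
  have hV := VV_le hk
  have hu := u_ge k
  have hYe := YY_eq hk
  have hEpos : 0 < EE k := by
    unfold EE DD
    positivity
  refine ⟨?_, ?_, ?_, ?_, ?_, hEpos, ?_, ?_⟩
  · rw [hYe]
    unfold zz
    set u := 2 ^ (2 * k ^ 50 - 2) with hu'
    rw [← pow_mul]
    calc 3 * 2 ^ (u * 2) ≤ 2 ^ 2 * 2 ^ (u * 2) := Nat.mul_le_mul_right _ (by norm_num)
      _ = 2 ^ (2 + u * 2) := by rw [← pow_add]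
      _ ≤ 2 ^ (4 * u) := Nat.pow_le_pow_right (by norm_num) (by omega)
  · rw [hYe]
    unfold zz
    rw [← pow_mul, ← pow_mul]
    congr 1
    ring
  · have e1 : (WW k : ℝ) * ((YY k : ℝ) / ((2 ^ J1 k : ℕ) : ℝ)) = (YY k : ℝ) / 2 ^ (k ^ 45) := by
      unfold WW J1
      have : (3 * k ^ 45) = 2 * k ^ 45 + k ^ 45 := by ring
      rw [this]
      push_cast
      rw [pow_add]
      field_simp
    have e2 : (YY k : ℝ) / 2 ^ (k ^ 45) ≤ (YY k : ℝ) / 16 := by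
      refine div_le_div_of_nonneg_left (by positivity) (by norm_num) ?_
      calc (16 : ℝ) = 2 ^ 4 := by norm_num
        _ ≤ 2 ^ (k ^ 45) := pow_le_pow_right₀ (by norm_num) (by omega)
    have e3 : 16 * (WW k * ZZ k) ≤ YY k := by
      rw [hYe]
      unfold WW ZZ
      set u := 2 ^ (2 * k ^ 50 - 2) with hu'
      calc 16 * (2 ^ (2 * k ^ 45) * 2 ^ (3 * u)) = 2 ^ (4 + (2 * k ^ 45 + 3 * u)) := by
            rw [pow_add, pow_add]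
            norm_num
        _ ≤ 2 ^ (4 * u) := Nat.pow_le_pow_right (by norm_num) (by omega)
    have e4 : 16 * ((WW k : ℝ) * ZZ k) ≤ YY k := by exact_mod_cast e3
    rw [mul_add, e1]
    linarith
  · rw [log_YY]
    have hl2 : Real.log 2 < 1 := by
      have := Real.log_two_lt_d9
      linarith
    have hl0 : 0 < Real.log 2 := Real.log_pos (by norm_num)
    have hT : (1 : ℝ) ≤ 2 ^ (2 * k ^ 50) := one_le_pow₀ (by norm_num)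
    have hV' : (VV k : ℝ) ≤ 2 ^ (3 * k ^ 50) := by exact_mod_cast hV
    have hS : (1 : ℝ) ≤ 2 ^ (3 * k ^ 50) := one_le_pow₀ (by norm_num)
    have g1 : (1 : ℝ) + 2 ^ (2 * k ^ 50) * Real.log 2 ≤ 2 * 2 ^ (2 * k ^ 50) := by nlinarith
    have g2 : (VV k : ℝ) + 1 ≤ 2 * 2 ^ (3 * k ^ 50) := by linarith
    have g3 : ((VV k : ℝ) + 1) * (4 * (1 + 2 ^ (2 * k ^ 50) * Real.log 2)) ≤
        (2 * 2 ^ (3 * k ^ 50)) * (4 * (2 * 2 ^ (2 * k ^ 50))) := by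
      refine mul_le_mul g2 (by linarith) ?_ (by positivity)
      positivity
    have g4 : (8 : ℝ) * ((2 * 2 ^ (3 * k ^ 50)) * (4 * (2 * 2 ^ (2 * k ^ 50)))) =
        2 ^ (7 + (3 * k ^ 50 + 2 * k ^ 50)) := by
      rw [pow_add, pow_add]
      ring
    have g5 : (2 : ℝ) ^ (7 + (3 * k ^ 50 + 2 * k ^ 50)) ≤ 2 ^ (6 * k ^ 50) :=
      pow_le_pow_right₀ (by norm_num) (by omega)
    push_cast
    calc 8 * (((VV k : ℝ) + 1) * (4 * (1 + 2 ^ (2 * k ^ 50) * Real.log 2)))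
        ≤ 8 * ((2 * 2 ^ (3 * k ^ 50)) * (4 * (2 * 2 ^ (2 * k ^ 50)))) := by linarith
      _ = _ := g4
      _ ≤ _ := g5
  · have e1 : WW k * mm k ≤ 2 ^ (3 * k ^ 50) := by
      unfold WW mm
      calc 2 ^ (2 * k ^ 45) * (3 * k ^ 34) ≤ 2 ^ (2 * k ^ 45) * 2 ^ (3 * k ^ 34) :=
            Nat.mul_le_mul_left _ Nat.lt_two_pow_self.le
        _ = 2 ^ (2 * k ^ 45 + 3 * k ^ 34) := by rw [← pow_add]
        _ ≤ 2 ^ (3 * k ^ 50) := Nat.pow_le_pow_right (by norm_num) (by omega)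
    have e2 : 1 ≤ 2 ^ (3 * k ^ 50) := Nat.one_le_two_pow
    calc VV k + 1 + WW k * mm k ≤ 2 ^ 2 * 2 ^ (3 * k ^ 50) := by omega
      _ = 2 ^ (2 + 3 * k ^ 50) := by rw [← pow_add]
      _ ≤ 2 ^ (4 * k ^ 50) := Nat.pow_le_pow_right (by norm_num) (by omega)
  · unfold VV EE DD H1 J1
    have e1 : 2 ^ (3 * k ^ 45) ≤ 2 ^ (2 * k ^ 50 + 2) :=
      Nat.pow_le_pow_right (by norm_num) (by omega)
    have e2 : 1 ≤ 2 ^ (k ^ 45) := Nat.one_le_two_pow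
    have e3 : 1 * (2 ^ (2 * k ^ 50 + 2) + 2) ≤ 2 ^ (k ^ 45) * (2 ^ (2 * k ^ 50 + 2) + 2) :=
      Nat.mul_le_mul_right _ e2
    omega
  · intro lam hlam
    have e1 : H1 k = 2 * (2 * 2 ^ (2 * k ^ 50)) := by
      unfold H1
      rw [pow_add]
      ring
    have e2 : ((YY k ^ 2 : ℕ) : ℝ) = 2 ^ (2 * 2 ^ (2 * k ^ 50)) := by
      unfold YY
      rw [← pow_mul, Nat.cast_pow]
      congr 1
      ring
    rw [e1, e2, pow_mul lam]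
    exact pow_le_pow_left₀ (by norm_num) (by nlinarith) _

end Pool.Agent.Helper12.MM
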