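import Pool.Agent.Helper12.MM.ParDefs

/-!
PROJECT MM, module MM-38. Parameter inequalities, part C. `L = k ^ 50`.

* `q2_le`: `primorial n ≤ 4 ^ n` (`primorial_le_4_pow`): `Q1 (2 ^ J1) E0 ≤ 2 ^ (2 * 2 ^ (3 k^45) * 4 k^50)`; the product of the squares is at most `(2 ^ (2 ^ L)) ^ (2 W m)`. The sum of the exponents is `8 k^50 2^(3 k^45) + 2^L * 2 * 2^(2 k^45) * 3 k^34 ≤ 2 ^ (2 L - k)` for large `k`.
* `par_c`: `4 * 2 ^ (T + 2 m) * lam⁻¹ ^ G ≤ 1/4`: `T + 2 m = 7 k ^ 34`, `lam ^ G ≥ (3/2) ^ (16 k^34) ≥ 2 ^ (8 k^34)`. `2 (5 * 2 ^ (11 L) + 20) lam⁻¹ ^ H0 ≤ 1/4`: `lam ^ (32 L) ≥ 2 ^ (16 L)`.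
* `par_c2`: `C (1 + 5 * 2 ^ (11 L) + 20) ≤ 2 ^ (13 L)`.
* `par_c3`: `3 k^34 ≥ 2 k^34 + 9`.
-/

set_option autoImplicit false

namespace Pool.Agent.Helper12.MM

open Filter Finset

private theorem k45 {k : ℕ} (hk : 3 ≤ k) : k ≤ k ^ 45 ∧ 1 ≤ k ^ 45 ∧ 243 * k ^ 45 ≤ k ^ 50 := by
  refine ⟨Nat.le_self_pow (by norm_num) k, Nat.one_le_pow _ _ (by omega), ?_⟩
  have h1 : k ^ 50 = k ^ 5 * k ^ 45 := by rw [← pow_add]
  rw [h1]
  refine Nat.mul_le_mul_right _ ?_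
  calc 243 = 3 ^ 5 := by norm_num
    _ ≤ k ^ 5 := Nat.pow_le_pow_left hk 5

private theorem k34 {k : ℕ} (hk : 3 ≤ k) : 9 ≤ k ^ 34 ∧ 3 * k ^ 34 ≤ k ^ 50 := by
  constructor
  · calc 9 = 3 ^ 2 := by norm_num
      _ ≤ k ^ 2 := Nat.pow_le_pow_left hk 2
      _ ≤ k ^ 34 := Nat.pow_le_pow_right (by omega) (by norm_num)
  · have h1 : k ^ 50 = k ^ 16 * k ^ 34 := by rw [← pow_add]
    rw [h1]
    refine Nat.mul_le_mul_right _ (hk.trans (Nat.le_self_pow (by norm_num) k))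

private theorem pow_le_two (k n : ℕ) : k ^ n ≤ 2 ^ (n * k) := by
  rw [mul_comm, pow_mul]
  exact Nat.pow_le_pow_left (Nat.lt_two_pow_self).le n

theorem q2_le : ∀ᶠ k in atTop, ∀ (I : Finset ℕ) (q : ℕ → ℕ → ℕ), I.card ≤ WW k →
    (∀ i ∈ I, ∀ j < mm k, q i j ≤ zd k) → (∀ i ∈ I, ∀ j < mm k, 1 ≤ q i j) →
    Q1 (2 ^ J1 k) (E0 k) * ∏ i ∈ I, ∏ j ∈ range (mm k), (q i j) ^ 2 ≤ 2 ^ (2 ^ (2 * k ^ 50 - k)) := by
  filter_upwards [eventually_ge_atTop 3] with k hk I q hI hq hq1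
  obtain ⟨a1, a2, a3⟩ := k45 hk
  have h1 : Q1 (2 ^ J1 k) (E0 k) ≤ 2 ^ (2 ^ (2 * k ^ 50 - k - 1)) := by
    rw [Q1]
    calc (primorial (2 ^ J1 k)) ^ E0 k ≤ (4 ^ (2 ^ J1 k)) ^ E0 k := Nat.pow_le_pow_left (primorial_le_four_pow _) _
      _ = 2 ^ (2 * 2 ^ J1 k * E0 k) := by
        rw [show (4 : ℕ) = 2 ^ 2 by norm_num, ← pow_mul, ← pow_mul, mul_assoc]
      _ ≤ 2 ^ (2 ^ (2 * k ^ 50 - k - 1)) := by
        refine Nat.pow_le_pow_right (by norm_num) ?_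
        rw [J1, E0]
        calc 2 * 2 ^ (3 * k ^ 45) * (4 * k ^ 50) = 2 ^ (3 * k ^ 45 + 3) * k ^ 50 := by ring
          _ ≤ 2 ^ (3 * k ^ 45 + 3) * 2 ^ (50 * k) := Nat.mul_le_mul_left _ (pow_le_two k 50)
          _ = 2 ^ (3 * k ^ 45 + 3 + 50 * k) := by rw [← pow_add]
          _ ≤ 2 ^ (2 * k ^ 50 - k - 1) := Nat.pow_le_pow_right (by norm_num) (by omega)
  have h2 : ∏ i ∈ I, ∏ j ∈ range (mm k), (q i j) ^ 2 ≤ 2 ^ (2 ^ (2 * k ^ 50 - k - 1)) := by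
    calc ∏ i ∈ I, ∏ j ∈ range (mm k), (q i j) ^ 2 ≤ ∏ _i ∈ I, ((zd k) ^ 2) ^ mm k := by
          refine Finset.prod_le_prod' fun i hi => ?_
          calc ∏ j ∈ range (mm k), (q i j) ^ 2 ≤ ∏ _j ∈ range (mm k), (zd k) ^ 2 :=
                Finset.prod_le_prod' fun j hj => Nat.pow_le_pow_left (hq i hi j (mem_range.1 hj)) 2
            _ = ((zd k) ^ 2) ^ mm k := by rw [prod_const, card_range]
      _ = (((zd k) ^ 2) ^ mm k) ^ I.card := by rw [prod_const]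
      _ ≤ (((zd k) ^ 2) ^ mm k) ^ WW k := by
          refine Nat.pow_le_pow_right ?_ hI
          have : 0 < zd k := by rw [zd]; positivity
          positivity
      _ = 2 ^ (2 ^ (k ^ 50) * 2 * (3 * k ^ 34) * 2 ^ (2 * k ^ 45)) := by
          rw [zd, mm, WW, ← pow_mul, ← pow_mul, ← pow_mul, mul_assoc, mul_assoc, mul_assoc, mul_assoc]
      _ ≤ 2 ^ (2 ^ (2 * k ^ 50 - k - 1)) := by
          refine Nat.pow_le_pow_right (by norm_num) ?_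
          calc 2 ^ (k ^ 50) * 2 * (3 * k ^ 34) * 2 ^ (2 * k ^ 45)
              ≤ 2 ^ (k ^ 50) * 2 * (2 ^ 2 * 2 ^ (34 * k)) * 2 ^ (2 * k ^ 45) := by
                refine Nat.mul_le_mul_right _ (Nat.mul_le_mul_left _ (Nat.mul_le_mul (by norm_num) (pow_le_two k 34)))
            _ = 2 ^ (k ^ 50 + 3 + 34 * k + 2 * k ^ 45) := by
                rw [pow_add 2 (k ^ 50 + 3 + 34 * k), pow_add 2 (k ^ 50 + 3), pow_add 2 (k ^ 50)]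
                ring
            _ ≤ 2 ^ (2 * k ^ 50 - k - 1) := Nat.pow_le_pow_right (by norm_num) (by omega)
  calc Q1 (2 ^ J1 k) (E0 k) * ∏ i ∈ I, ∏ j ∈ range (mm k), (q i j) ^ 2
      ≤ 2 ^ (2 ^ (2 * k ^ 50 - k - 1)) * 2 ^ (2 ^ (2 * k ^ 50 - k - 1)) := Nat.mul_le_mul h1 h2
    _ = 2 ^ (2 ^ (2 * k ^ 50 - k)) := by
        rw [← pow_add, ← two_mul, ← pow_succ']
        congr 2
        omega

theorem par_c : ∀ᶠ k in atTop, ∀ lam : ℝ, 3 / 2 ≤ lam →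
    4 * 2 ^ (k ^ 34 + 2 * mm k) * lam⁻¹ ^ GG k ≤ 1 / 4 ∧
    2 * (5 * ((2 ^ (11 * k ^ 50) : ℕ) : ℝ) + 20) * lam⁻¹ ^ H0 k ≤ 1 / 4 := by
  filter_upwards [eventually_ge_atTop 3] with k hk lam hlam
  have hl0 : (0 : ℝ) ≤ lam⁻¹ := by positivity
  have hl : lam⁻¹ ≤ 2 / 3 := by
    rw [show (2 / 3 : ℝ) = (3 / 2)⁻¹ by norm_num]
    exact inv_anti₀ (by norm_num) hlam
  have a1 := (k34 hk).1
  have b1 : 1 ≤ k ^ 50 := Nat.one_le_pow _ _ (by omega)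
  rw [mm, GG, H0]
  generalize k ^ 34 = a at *
  generalize k ^ 50 = L at *
  constructor
  · calc 4 * 2 ^ (a + 2 * (3 * a)) * lam⁻¹ ^ (16 * a) ≤ 4 * 2 ^ (a + 2 * (3 * a)) * (2 / 3 : ℝ) ^ (16 * a) := by
          gcongr
      _ = 4 * (2 ^ 7 * (2 / 3 : ℝ) ^ 16) ^ a := by
          rw [show a + 2 * (3 * a) = 7 * a by ring, pow_mul, pow_mul, mul_pow, mul_assoc]
      _ ≤ 4 * (1 / 4 : ℝ) ^ a := by
          gcongr
          norm_num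
      _ ≤ 4 * (1 / 4 : ℝ) ^ 2 := by
          gcongr 4 * ?_
          exact pow_le_pow_of_le_one (by norm_num) (by norm_num) (by omega)
      _ = 1 / 4 := by norm_num
  · have h1 : (1 : ℝ) ≤ 2 ^ (11 * L) := one_le_pow₀ (by norm_num)
    push_cast
    calc 2 * (5 * (2 : ℝ) ^ (11 * L) + 20) * lam⁻¹ ^ (32 * L) ≤ 2 * (25 * (2 : ℝ) ^ (11 * L)) * (2 / 3 : ℝ) ^ (32 * L) := by
          gcongr
          linarith
      _ = 50 * (2 ^ 11 * (2 / 3 : ℝ) ^ 32) ^ L := by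
          rw [pow_mul, pow_mul, mul_pow]
          ring
      _ ≤ 50 * (1 / 200 : ℝ) ^ L := by
          gcongr
          norm_num
      _ ≤ 50 * (1 / 200 : ℝ) ^ 1 := by
          gcongr 50 * ?_
          exact pow_le_pow_of_le_one (by norm_num) (by norm_num) b1
      _ = 1 / 4 := by norm_num

theorem par_c2 (C : ℝ) : ∀ᶠ k in atTop,
    C * (1 + (5 * ((2 ^ (11 * k ^ 50) : ℕ) : ℝ) + 20)) ≤ ((2 ^ (13 * k ^ 50) : ℕ) : ℝ) := by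
  filter_upwards [eventually_ge_atTop 3, (tendsto_natCast_atTop_atTop (R := ℝ)).eventually_ge_atTop (26 * |C|)]
    with k hk hC
  have h0 : k ≤ 2 ^ (2 * k ^ 50) := by
    calc k ≤ k ^ 50 := Nat.le_self_pow (by norm_num) k
      _ ≤ 2 * k ^ 50 := by omega
      _ ≤ 2 ^ (2 * k ^ 50) := (Nat.lt_two_pow_self).le
  generalize k ^ 50 = L at *
  have h2 : (k : ℝ) ≤ 2 ^ (2 * L) := by exact_mod_cast h0
  have h1 : (1 : ℝ) ≤ 2 ^ (11 * L) := one_le_pow₀ (by norm_num)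
  push_cast
  calc C * (1 + (5 * (2 : ℝ) ^ (11 * L) + 20)) ≤ |C| * (1 + (5 * (2 : ℝ) ^ (11 * L) + 20)) :=
        mul_le_mul_of_nonneg_right (le_abs_self C) (by positivity)
    _ ≤ |C| * (26 * (2 : ℝ) ^ (11 * L)) := by
        gcongr
        linarith
    _ = (26 * |C|) * (2 : ℝ) ^ (11 * L) := by ring
    _ ≤ 2 ^ (2 * L) * (2 : ℝ) ^ (11 * L) := by
        gcongr
        exact hC.trans h2
    _ = 2 ^ (13 * L) := by
        rw [← pow_add]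
        congr 1
        ring

theorem par_c3 : ∀ᶠ k in atTop, 2 * k ^ 34 + 9 ≤ mm k ∧
    2 ^ (4 * k ^ 50) * (2 ^ mm k * 2 ^ (6 * k ^ 50)) ≤ 2 ^ (11 * k ^ 50) ∧
    mm k + 6 * k ^ 50 ≤ 7 * k ^ 50 := by
  filter_upwards [eventually_ge_atTop 3] with k hk
  obtain ⟨a1, a2⟩ := k34 hk
  rw [mm]
  refine ⟨by omega, ?_, by omega⟩
  rw [← pow_add, ← pow_add]
  exact Nat.pow_le_pow_right (by norm_num) (by omega)

end Pool.Agent.Helper12.MM
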