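import Mathlib

/-!
PROJECT MM, module MM-05. The sum of the reciprocals of the primes, dyadic form.

The primes `≤ 2`: `1/2`. For `1 ≤ j < J` let `n_j` be the number of the primes in `(2 ^ j, 2 ^ (j + 1)]`. Their product divides `Nat.centralBinom (2 ^ j) = choose (2 * 2 ^ j) (2 ^ j)` (each of them divides
`(2 * 2 ^ j)!` and not `(2 ^ j)!`), which is at most `4 ^ (2 ^ j)`; all of them are `≥ 2 ^ j`, so `(2 ^ j) ^ n_j ≤ 4 ^ (2 ^ j)`, `j n_j ≤ 2 * 2 ^ j`.
(Or use `primorial_le_4_pow`: `∏_{p ≤ n} p ≤ 4 ^ n` with `n = 2 ^ (j + 1)`: `j n_j ≤ 4 * 2 ^ j`; this gives only `4 log J`, so please do the version with the central binomial coefficient.)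
The sum of `1/p` over these primes is at most `n_j / 2 ^ j ≤ 2 / j`. Total `≤ 1/2 + 2 ∑_{1 ≤ j < J} 1/j ≤ 1/2 + 2 (1 + log J)` (`harmonic_le_one_add_log`).
-/

set_option autoImplicit false

namespace Pool.Agent.Helper12.MM

open Finset

private lemma mm05_card (j : ℕ) :
    j * ((Ioc (2 ^ j) (2 ^ (j + 1))).filter Nat.Prime).card ≤ 2 * 2 ^ j := by
  set A := (Ioc (2 ^ j) (2 ^ (j + 1))).filter Nat.Prime with hA
  have hdvd : ∏ p ∈ A, p ∣ (2 ^ j + 2 ^ j).choose (2 ^ j) := by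
    refine Finset.prod_primes_dvd _ ?_ ?_
    · intro p hp
      exact (Finset.mem_filter.mp hp).2.prime
    · intro p hp
      obtain ⟨h1, h2⟩ := Finset.mem_filter.mp hp
      rw [Finset.mem_Ioc] at h1
      exact h2.dvd_choose_add h1.1 h1.1 (by rw [pow_succ] at h1; omega)
  have hpos : 0 < (2 ^ j + 2 ^ j).choose (2 ^ j) := Nat.choose_pos (Nat.le_add_left _ _)
  have h1 : ∏ p ∈ A, p ≤ (2 ^ j + 2 ^ j).choose (2 ^ j) := Nat.le_of_dvd hpos hdvd
  have h2 : (2 ^ j + 2 ^ j).choose (2 ^ j) ≤ 2 ^ (2 ^ j + 2 ^ j) := Nat.choose_le_two_pow _ _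
  have h3 : (2 ^ j) ^ A.card ≤ ∏ p ∈ A, p := by
    rw [← Finset.prod_const]
    refine Finset.prod_le_prod (fun _ _ => Nat.zero_le _) ?_
    intro p hp
    obtain ⟨h1, _⟩ := Finset.mem_filter.mp hp
    rw [Finset.mem_Ioc] at h1
    exact h1.1.le
  have h4 : 2 ^ (j * A.card) ≤ 2 ^ (2 ^ j + 2 ^ j) := by
    rw [pow_mul]
    exact h3.trans (h1.trans h2)
  have h5 := (Nat.pow_le_pow_iff_right (by norm_num : 1 < 2)).mp h4
  omega

private lemma mm05_block (j : ℕ) (hj : 1 ≤ j) :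
    ∑ p ∈ (Ioc (2 ^ j) (2 ^ (j + 1))).filter Nat.Prime, 1 / (p : ℝ) ≤ 2 * (1 / (j : ℝ)) := by
  have hj0 : (0 : ℝ) < j := by exact_mod_cast hj
  have h2 : (0 : ℝ) < 2 ^ j := by positivity
  have h1 : ∑ p ∈ (Ioc (2 ^ j) (2 ^ (j + 1))).filter Nat.Prime, 1 / (p : ℝ) ≤
      ((Ioc (2 ^ j) (2 ^ (j + 1))).filter Nat.Prime).card • (1 / (2 : ℝ) ^ j) := by
    refine Finset.sum_le_card_nsmul _ _ _ ?_
    intro p hp
    obtain ⟨h1, _⟩ := Finset.mem_filter.mp hp
    rw [Finset.mem_Ioc] at h1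
    have h3 : (2 : ℝ) ^ j ≤ p := by exact_mod_cast h1.1.le
    exact one_div_le_one_div_of_le h2 h3
  refine h1.trans ?_
  have h3 : (j : ℝ) * (((Ioc (2 ^ j) (2 ^ (j + 1))).filter Nat.Prime).card : ℝ) ≤ 2 * 2 ^ j := by
    exact_mod_cast mm05_card j
  rw [nsmul_eq_mul, mul_one_div, mul_one_div, div_le_div_iff₀ h2 hj0]
  linarith

private lemma mm05_ind (K : ℕ) :
    ∑ p ∈ (range (2 ^ (K + 1) + 1)).filter Nat.Prime, 1 / (p : ℝ) ≤
      1 / 2 + 2 * ((harmonic K : ℚ) : ℝ) := by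
  induction K with
  | zero =>
    have : (range (2 ^ (0 + 1) + 1)).filter Nat.Prime = {2} := by decide
    rw [this]
    simp
  | succ K ih =>
    have hsplit : (range (2 ^ (K + 1 + 1) + 1)).filter Nat.Prime =
        (range (2 ^ (K + 1) + 1)).filter Nat.Prime ∪
          (Ioc (2 ^ (K + 1)) (2 ^ (K + 1 + 1))).filter Nat.Prime := by
      ext p
      have h2 : 2 ^ (K + 1) ≤ 2 ^ (K + 1 + 1) := Nat.pow_le_pow_right (by norm_num) (by omega)
      simp only [mem_filter, mem_range, mem_union, mem_Ioc]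
      constructor
      · rintro ⟨h1, hp⟩
        rcases Nat.lt_or_ge p (2 ^ (K + 1) + 1) with h | h
        · exact Or.inl ⟨h, hp⟩
        · exact Or.inr ⟨⟨by omega, by omega⟩, hp⟩
      · rintro (⟨h1, hp⟩ | ⟨⟨h1, h3⟩, hp⟩)
        · exact ⟨by omega, hp⟩
        · exact ⟨by omega, hp⟩
    have hdisj : Disjoint ((range (2 ^ (K + 1) + 1)).filter Nat.Prime)
        ((Ioc (2 ^ (K + 1)) (2 ^ (K + 1 + 1))).filter Nat.Prime) := by
      rw [Finset.disjoint_left]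
      intro p hp hp2
      simp only [mem_filter, mem_range, mem_Ioc] at hp hp2
      omega
    rw [hsplit, Finset.sum_union hdisj, harmonic_succ]
    have hb := mm05_block (K + 1) (by omega)
    push_cast at hb ⊢
    rw [one_div ((K : ℝ) + 1)] at hb
    linarith

theorem recip_le (J : ℕ) (hJ : 1 ≤ J) :
    ∑ p ∈ (range (2 ^ J + 1)).filter Nat.Prime, 1 / (p : ℝ) ≤ 2 * Real.log J + 3 := by
  obtain ⟨K, rfl⟩ : ∃ K, J = K + 1 := ⟨J - 1, by omega⟩
  have h1 := mm05_ind K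
  have h2 := harmonic_le_one_add_log K
  have h3 : Real.log K ≤ Real.log ((K + 1 : ℕ) : ℝ) := by
    rcases Nat.eq_zero_or_pos K with h0 | h0
    · subst h0
      simp
    · apply Real.log_le_log (by exact_mod_cast h0)
      exact_mod_cast Nat.le_succ K
  linarith

end Pool.Agent.Helper12.MM
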