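import Pool.Agent.Helper12.MM.ParDefs
import Pool.Agent.Helper12.MM.Recip

/-!
PROJECT MM, module MM-39. The mean `mu1` and the third condition of `exists_n`.

`mu1 B Q2 (zz k) ≤ ∑_{p ≤ 2 ^ J} 1/p ≤ 2 log J + 3` with `J = 2 ^ (2 k^50 - 2)` (`recip_le`), `2 log J ≤ 2 * 2 k^50 * 0.7 ≤ 3 k^50`. So `mu1 + 1 ≤ 4 k ^ 50` for large `k`.
`8 * (W (1 + k^14) * (4 k^50 / k^68)) = 32 (1 + k^14) W / k^18 ≤ 64 W/k^4 ≤ W/k^3`.
-/

set_option autoImplicit false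

namespace Pool.Agent.Helper12.MM

open Filter

private theorem mu1_le_aux (B : Set ℕ) (Q2 J : ℕ) (hJ : 1 ≤ J) : mu1 B Q2 (2 ^ J) ≤ 2 * Real.log J + 3 := by
  classical
  refine le_trans ?_ (recip_le J hJ)
  unfold mu1
  apply Finset.sum_le_sum_of_subset_of_nonneg
  · intro p hp
    rw [Finset.mem_filter] at hp ⊢
    exact ⟨hp.1, hp.2.1⟩
  · intro p _ _
    positivity

theorem mu_le : ∀ᶠ k in atTop, ∀ (B : Set ℕ) (Q2 : ℕ), mu1 B Q2 (zz k) + 1 ≤ 4 * (k : ℝ) ^ 50 := by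
  rw [eventually_atTop]
  refine ⟨2, ?_⟩
  intro k hk B Q2
  have h1 := mu1_le_aux B Q2 (2 ^ (2 * k ^ 50 - 2)) Nat.one_le_two_pow
  have hk2 : (2 : ℝ) ≤ (k : ℝ) := by exact_mod_cast hk
  have h50 : (2 : ℝ) ^ 50 ≤ (k : ℝ) ^ 50 := pow_le_pow_left₀ (by norm_num) hk2 50
  have hlog : Real.log ((2 ^ (2 * k ^ 50 - 2) : ℕ) : ℝ) ≤ 2 * (k : ℝ) ^ 50 * 0.7 := by
    rw [Nat.cast_pow, Real.log_pow]
    have h2 : ((2 * k ^ 50 - 2 : ℕ) : ℝ) ≤ 2 * (k : ℝ) ^ 50 := by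
      calc ((2 * k ^ 50 - 2 : ℕ) : ℝ) ≤ ((2 * k ^ 50 : ℕ) : ℝ) := by exact_mod_cast Nat.sub_le _ _
        _ = 2 * (k : ℝ) ^ 50 := by push_cast; ring
    have h3 : Real.log ((2 : ℕ) : ℝ) ≤ 0.7 := by
      have := Real.log_two_lt_d9
      push_cast
      linarith
    have h4 : 0 ≤ Real.log ((2 : ℕ) : ℝ) := Real.log_natCast_nonneg 2
    exact mul_le_mul h2 h3 h4 (by positivity)
  have hzz : zz k = 2 ^ (2 ^ (2 * k ^ 50 - 2)) := rfl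
  rw [hzz]
  norm_num at h50
  linarith

theorem par_d : ∀ᶠ k : ℕ in atTop, ∀ mu Sw : ℝ, 0 ≤ mu → mu + 1 ≤ 4 * (k : ℝ) ^ 50 → 0 ≤ Sw →
    Sw ≤ WW k + WW k * (k : ℝ) ^ 14 →
    8 * (Sw * ((mu + 1) / ((k : ℝ) ^ 34) ^ 2)) ≤ (WW k : ℝ) / k ^ 3 := by
  rw [eventually_atTop]
  refine ⟨64, ?_⟩
  intro k hk mu Sw hmu hmu2 hS hS2
  have hK : (64 : ℝ) ≤ (k : ℝ) := by exact_mod_cast hk
  have hK0 : (0 : ℝ) < (k : ℝ) := by linarith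
  have hW : (0 : ℝ) ≤ (WW k : ℝ) := Nat.cast_nonneg _
  generalize (WW k : ℝ) = W at *
  generalize (k : ℝ) = K at *
  have h1 : (mu + 1) / (K ^ 34) ^ 2 ≤ 4 / K ^ 18 := by
    rw [div_le_div_iff₀ (by positivity) (by positivity)]
    calc (mu + 1) * K ^ 18 ≤ (4 * K ^ 50) * K ^ 18 := by
          apply mul_le_mul_of_nonneg_right hmu2 (by positivity)
      _ = 4 * (K ^ 34) ^ 2 := by ring
  have h2 : Sw ≤ W * (2 * K ^ 14) := by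
    have h14 : (1 : ℝ) ≤ K ^ 14 := one_le_pow₀ (by linarith)
    nlinarith
  have h3 : Sw * ((mu + 1) / (K ^ 34) ^ 2) ≤ (W * (2 * K ^ 14)) * (4 / K ^ 18) :=
    mul_le_mul h2 h1 (by positivity) (by positivity)
  have h4 : 8 * ((W * (2 * K ^ 14)) * (4 / K ^ 18)) = (64 / K) * (W / K ^ 3) := by
    field_simp
    ring
  have h5 : (64 / K) * (W / K ^ 3) ≤ 1 * (W / K ^ 3) := by
    apply mul_le_mul_of_nonneg_right _ (by positivity)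
    rw [div_le_one hK0]
    exact hK
  linarith

end Pool.Agent.Helper12.MM
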