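import Mathlib

/-!
PROJECT MM, module MM-35. Choice of the design primes.

The set `P = {p ∈ P0 : V + 1 < p ≤ z}` has at least `K - (V + 1) ≥ I.card * m` elements. Enumerate `P` (`Finset.equivFin`, `orderEmbOfFin`) and `I`, and use the number `(index of i) * m + j`. (See `exists_q` in `Pool/Agent/Helper9/PF/Primes.lean`: it can be
imported and applied directly to the finset `P`.)
-/

set_option autoImplicit false

namespace Pool.Agent.Helper12.MM

open Finset

open Classical in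
theorem pick_q (P0 : Set ℕ) (V z K m : ℕ) (I : Finset ℕ)
    (h : K ≤ ((Icc 1 z).filter (fun p => p ∈ P0)).card) (hK : V + 1 + I.card * m ≤ K) :
    ∃ q : ℕ → ℕ → ℕ, (∀ i ∈ I, ∀ j < m, q i j ∈ P0 ∧ V + 1 < q i j ∧ q i j ≤ z) ∧
      (∀ i ∈ I, ∀ i' ∈ I, ∀ j < m, ∀ j' < m, q i j = q i' j' → i = i' ∧ j = j') := by
  set P : Finset ℕ := (Icc 1 z).filter (fun p => p ∈ P0 ∧ V + 1 < p) with hP
  set s : Finset (ℕ × ℕ) := I ×ˢ range m with hs
  have hsub : (Icc 1 z).filter (fun p => p ∈ P0) ⊆ P ∪ Icc 1 (V + 1) := by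
    intro p hp
    rw [mem_filter, mem_Icc] at hp
    rw [mem_union, hP, mem_filter, mem_Icc, mem_Icc]
    by_cases h1 : V + 1 < p
    · exact Or.inl ⟨hp.1, hp.2, h1⟩
    · exact Or.inr ⟨hp.1.1, by omega⟩
  have hc1 : ((Icc 1 z).filter (fun p => p ∈ P0)).card ≤ P.card + (V + 1) := by
    have h1 := card_le_card hsub
    have h2 := card_union_le P (Icc 1 (V + 1))
    rw [Nat.card_Icc] at h2
    omega
  have hc2 : s.card ≤ P.card := by
    rw [hs, card_product, card_range]
    omega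
  obtain ⟨e⟩ : Nonempty (s ↪ P) := by
    apply Function.Embedding.nonempty_of_card_le
    rw [Fintype.card_coe, Fintype.card_coe]
    exact hc2
  have hmem : ∀ i ∈ I, ∀ j < m, (i, j) ∈ s := by
    intro i hi j hj
    rw [hs, mem_product, mem_range]
    exact ⟨hi, hj⟩
  refine ⟨fun i j => if hij : (i, j) ∈ s then ((e ⟨(i, j), hij⟩ : P) : ℕ) else 0, ?_, ?_⟩
  · intro i hi j hj
    have h1 := hmem i hi j hj
    simp only [dif_pos h1]
    have h2 := (e ⟨(i, j), h1⟩).2
    have h3 : ∀ p ∈ P, p ∈ P0 ∧ V + 1 < p ∧ p ≤ z := by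
      intro p hp
      rw [hP, mem_filter, mem_Icc] at hp
      exact ⟨hp.2.1, hp.2.2, hp.1.2⟩
    exact h3 _ h2
  · intro i hi i' hi' j hj j' hj' h1
    have h2 := hmem i hi j hj
    have h3 := hmem i' hi' j' hj'
    simp only [dif_pos h2, dif_pos h3] at h1
    have h4 := e.injective (Subtype.ext h1)
    have h5 : (i, j) = (i', j') := congrArg Subtype.val h4
    exact ⟨congrArg Prod.fst h5, congrArg Prod.snd h5⟩

end Pool.Agent.Helper12.MM
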