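import Pool.Agent.Helper12.MM.CoreC
import Pool.Agent.Helper12.MM.ExB
import Pool.Agent.Helper12.MM.Code
import Pool.Agent.Helper12.MM.ManyK
import Pool.Agent.Helper12.MM.PickQ
import Pool.Agent.Helper12.MM.ParA
import Pool.Agent.Helper12.MM.ParB
import Pool.Agent.Helper12.MM.ParC
import Pool.Agent.Helper12.MM.ParD
import Pool.Agent.Helper12.MM.Final
import Pool.Agent.Helper12.MM.Data

/-!
PROJECT MM, core, part D: the core theorem.
-/

set_option autoImplicit false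

namespace Pool.Agent.Helper12.MM

open Finset Filter Pool.Agent.Helper9.PF

section
variable {A B Av : Set ℕ} {M s0 M' P k b Q2 : ℕ} {q : ℕ → ℕ → ℕ} {ζ : ℝ}

open Classical in
/-- the recorded places as a finset -/
noncomputable def RC (B Av : Set ℕ) (s0 M' P k b Q2 N : ℕ) : Finset ℕ :=
  (core k).filter (fun i => Rec B Av s0 M' P k b Q2 N i)

open Classical in
lemma mem_RC {N i : ℕ} : i ∈ RC B Av s0 M' P k b Q2 N ↔ i ∈ core k ∧ Rec B Av s0 M' P k b Q2 N i := by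
  unfold RC
  rw [mem_filter]

open Classical in
theorem Env.rc_bound (e : Env A B Av M s0 M' P k b Q2 q) {t : Finset ℕ} {N : ℕ}
    (gn : GN B Av ζ k b Q2 q t N) :
    (((RC B Av s0 M' P k b Q2 N).filter (fun i => xk B k b N i ≠ 0)).card : ℝ) ≤ 2 * WW k / k ^ 2 ∧
    (((RC B Av s0 M' P k b Q2 N).filter (fun i => xk B k b N i = 0)).card : ℝ) ≤
      2 * WW k / k ^ 2 + ζ * WW k := by
  have hk := e.hk
  have hkr : (2:ℝ) ≤ (k:ℝ) := by exact_mod_cast hk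
  have hW : (0:ℝ) < WW k := by
    unfold WW
    positivity
  obtain ⟨S, hS⟩ : ∃ S, S = (core k).filter (fun i => AB k b i) := ⟨_, rfl⟩
  obtain ⟨T, hT⟩ : ∃ T, T = (core k).filter (fun i => ¬ AB k b i ∧
      ∃ h, h ≤ H0 k ∧ Same (Qk k) b i h ∧ ¬ Typ B k Q2 N (i + h * (b + i).gcd (Qk k))) := ⟨_, rfl⟩
  obtain ⟨U, hU⟩ : ∃ U, U = (core k).filter
      (fun i => ∃ p, p.Prime ∧ p ∈ Av ∧ ¬ p ∣ Q2 ∧ p ∣ N + i) := ⟨_, rfl⟩
  have hSc : (S.card : ℝ) ≤ (WW k : ℝ) / k ^ 2 := by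
    rw [hS]
    exact e.b3
  have hTc : (T.card : ℝ) ≤ (WW k : ℝ) / k ^ 2 := by
    have h1 := nbad_le (Qk k) (GG k) (yy k) (2 ^ J1 k) (E0 k) (DD k) (H0 k) (k ^ 34) (EE k) (WW k) b
      (Typ B k Q2 N)
    have h2 : (T.card : ℝ) ≤ ∑ i ∈ (core k).filter (fun i => ¬ Typ B k Q2 N i), (wk k b i : ℝ) := by
      rw [hT]
      exact_mod_cast h1
    refine h2.trans (gn.ty.trans ?_)
    refine div_le_div_of_nonneg_left hW.le (by positivity) ?_
    exact pow_le_pow_right₀ (by linarith) (by norm_num)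
  have hUc : (U.card : ℝ) ≤ ζ * WW k := by
    rw [hU]
    exact gn.av
  have h1 : (RC B Av s0 M' P k b Q2 N).filter (fun i => xk B k b N i ≠ 0) ⊆ S ∪ T := by
    intro i hi
    rw [mem_filter, mem_RC] at hi
    obtain ⟨⟨hic, hR⟩, hx⟩ := hi
    rw [mem_union, hS, hT, mem_filter, mem_filter]
    by_cases hab : AB k b i
    · exact Or.inl ⟨hic, hab⟩
    · rcases hR with hR | hR | hR
      · exact absurd hR hab
      · exact Or.inr ⟨hic, hab, hR⟩
      · exact absurd hR.2 hx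
  have h2 : (RC B Av s0 M' P k b Q2 N).filter (fun i => xk B k b N i = 0) ⊆ (S ∪ T) ∪ U := by
    intro i hi
    rw [mem_filter, mem_RC] at hi
    obtain ⟨⟨hic, hR⟩, hx⟩ := hi
    rw [mem_union, mem_union, hS, hT, hU, mem_filter, mem_filter, mem_filter]
    by_cases hab : AB k b i
    · exact Or.inl (Or.inl ⟨hic, hab⟩)
    · rcases hR with hR | hR | hR
      · exact absurd hR hab
      · exact Or.inl (Or.inr ⟨hic, hab, hR⟩)
      · exact Or.inr ⟨hic, e.J_zero gn hR.1 hR.2⟩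
  have h3 : ((S ∪ T).card : ℝ) ≤ 2 * WW k / k ^ 2 := by
    have := card_union_le S T
    have h4 : ((S ∪ T).card : ℝ) ≤ S.card + T.card := by exact_mod_cast this
    refine h4.trans ?_
    have h5 : 2 * (WW k : ℝ) / k ^ 2 = (WW k : ℝ) / k ^ 2 + (WW k : ℝ) / k ^ 2 := by ring
    rw [h5]
    exact add_le_add hSc hTc
  constructor
  · refine le_trans ?_ h3
    exact_mod_cast card_le_card h1
  · have h4 := (card_le_card h2).trans (card_union_le _ _)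
    have h5 : (((RC B Av s0 M' P k b Q2 N).filter (fun i => xk B k b N i = 0)).card : ℝ) ≤
      (S ∪ T).card + U.card := by exact_mod_cast h4
    linarith

theorem Env.st_bound (e : Env A B Av M s0 M' P k b Q2 q) {t : Finset ℕ} {N : ℕ} {KA : ℝ}
    (hKA : 0 ≤ KA) (dyn : Dyn Real.goldenRatio (Pool.Agent.Helper9.Fib.a A) KA)
    (gn : GN B Av ζ k b Q2 q t N)
    (hpc2 : KA * (1 + (5 * ((2 ^ (11 * k ^ 50) : ℕ) : ℝ) + 20)) ≤ ((2 ^ (13 * k ^ 50) : ℕ) : ℝ))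
    {d : ℕ} (hd0 : 0 < d) (hdQ : d ∣ Qk k) (hdD : d ≤ DD k) :
    |(dyn.w ((N + i0 b (EE k) d) / d - 1)).1| ≤ ((2 ^ (13 * k ^ 50) : ℕ) : ℤ) ∧
    |(dyn.w ((N + i0 b (EE k) d) / d - 1)).2| ≤ ((2 ^ (13 * k ^ 50) : ℕ) : ℤ) := by
  have e1 := i0_gt b (EE k) hd0
  have e2 := i0_dvd b (EE k) hd0
  have e3 := i0_le b (EE k) hd0
  have hED : DD k ≤ EE k := by
    unfold EE
    exact Nat.le_mul_of_pos_right _ (by omega)
  have hDW : DD k ≤ WW k := by
    unfold DD WW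
    exact Nat.pow_le_pow_right (by norm_num) (by omega)
  have e4 : d ∣ N + i0 b (EE k) d := (e.dvd_iff gn hdQ).2 e2
  have e5 : d ∣ N + (i0 b (EE k) d - d) := by
    have : N + (i0 b (EE k) d - d) = N + i0 b (EE k) d - d := by omega
    rw [this]
    exact Nat.dvd_sub e4 dvd_rfl
  have e6 : (N + i0 b (EE k) d) / d - 1 = (N + (i0 b (EE k) d - d)) / d := by
    have : N + i0 b (EE k) d = N + (i0 b (EE k) d - d) + d := by omega
    rw [this, Nat.add_div_right _ hd0]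
    rfl
  have e7 := e.bet_bound gn (i := i0 b (EE k) d - d) hd0 hdQ hdD e5 (by omega) (by omega)
  rw [e6]
  have h1 := dyn.bd1 ((N + (i0 b (EE k) d - d)) / d)
  have h2 := dyn.bd2 ((N + (i0 b (EE k) d - d)) / d)
  have h3 : KA * (1 + bet Real.goldenRatio (Pool.Agent.Helper9.Fib.a A)
      ((N + (i0 b (EE k) d - d)) / d)) ≤ ((2 ^ (13 * k ^ 50) : ℕ) : ℝ) :=
    (mul_le_mul_of_nonneg_left (by linarith) hKA).trans hpc2
  constructor
  · have h4 := h1.trans h3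
    exact_mod_cast h4
  · have h4 := h2.trans h3
    exact_mod_cast h4

end

open Classical in
/-- the core theorem -/
theorem core_false {A B : Set ℕ} {M : ℕ} (h : MA A B M) (Av P0 : Set ℕ) (s0 : ℕ) (hs0 : 0 < s0)
    (hs0M : ∀ p, p.Prime → p ∣ s0 → p ∣ M) (h0 : Pool.Agent.Helper9.Fib.a A s0 ≠ 0)
    (hC1 : ∀ e, Squarefree e → e.Coprime M → (∀ p ∈ e.primeFactors, p ∉ Av) → XX B s0 e ≠ 0)
    (hAv : Summable (fun p : ℕ => if p ∈ Av then 1 / (p : ℝ) else 0))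
    (hP0 : ∀ p ∈ P0, p.Prime ∧ p ∈ B ∧ p ∉ Av)
    (hns : ¬ Summable (fun p : ℕ => if p ∈ P0 then 1 / (p : ℝ) else 0))
    (hrat : ¬ Irrational (∑' n : ℕ, if n ∈ A then 1 / (Nat.fib n : ℝ) else 0)) : False := by
  -- the dynamical system
  obtain ⟨r, hr⟩ : ∃ r : ℚ, (r : ℝ) = ∑' n : ℕ, if n ∈ A then 1 / (Nat.fib n : ℝ) else 0 := by
    unfold Irrational at hrat
    push Not at hrat
    exact hrat
  have hY : (∑' n : ℕ, if n ∈ A then 1 / (Nat.fib n : ℝ) else 0) = ((r.num : ℤ) : ℝ) / ((r.den : ℕ) : ℝ) := by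
    rw [← hr]
    exact_mod_cast (Rat.num_div_den r).symm
  obtain ⟨dyn⟩ := dyn_of_eq A h.pos r.num r.den r.den_pos hY
  obtain ⟨KA, hKA⟩ : ∃ KA : ℝ, KA = 6 * (((r.den : ℕ) : ℝ) + |((r.num : ℤ) : ℝ)|) := ⟨_, rfl⟩
  rw [← hKA] at dyn
  have hKA0 : 0 ≤ KA := by
    rw [hKA]
    positivity
  -- the data
  obtain ⟨P, M', hM'0, hMM', hPM, hPle, hsum⟩ := data_P Av hAv s0 M hs0 h.M0
  obtain ⟨c0, hc0⟩ : ∃ c0 : ℝ, c0 = 1 / (4 * ((s0 * M' : ℕ) : ℝ)) := ⟨_, rfl⟩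
  have hc0p : 0 < c0 := by
    rw [hc0]
    have : (0:ℝ) < ((s0 * M' : ℕ) : ℝ) := by exact_mod_cast Nat.mul_pos hs0 hM'0
    positivity
  obtain ⟨c1, hc1, ζ, hζ, hfin⟩ := final_ineq c0 hc0p
  obtain ⟨k₀, hk₀⟩ := eventually_atTop.1 (par_a.and ((small_b c0 hc0p).and (par_b.and (par_b2.and
    (q2_le.and (par_c.and ((par_c2 KA).and (par_c3.and (mu_le.and (par_d.and (hfin.and
    ((data_ev s0 M' P hs0 hM'0 hPle).and (tail_ev Av hAv ζ hζ)))))))))))))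
  obtain ⟨k, hk, hmany⟩ := many_k P0 hns k₀
  obtain ⟨⟨a1, a2, a3, a4, a5, a6, a7, a8, a9, a10, a11, a12⟩, hsb, hpb, ⟨b1, b2, b3, b4, b5, b6, b7, b8⟩,
    hq2, hpc, hpc2, ⟨d1, d2, d3⟩, hmu, hpd, hfin', ⟨g1, g2⟩, htail⟩ := hk₀ k hk
  have hkr : (0:ℝ) < (k:ℝ) := by
    have : (2:ℝ) ≤ k := by exact_mod_cast a1
    linarith
  have hW : (0:ℝ) < WW k := by
    unfold WW
    positivity
  -- the residue
  obtain ⟨b, hb1, hb2, hb3, hb4, hb5⟩ := exists_b Av (GG k) (yy k) (J1 k) k (E0 k) (DD k) (H0 k) (k ^ 34)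
    (EE k) (WW k) (VV k) (2 ^ (4 * k ^ 50)) s0 M' P ((WW k : ℝ) / k ^ 2) (WW k * (k : ℝ) ^ 14)
    a2 a3 a4 (by omega) a5 a6 a7 a8 a9 a10 (by positivity) hs0 hM'0 g2 hPle (hsum _) (by positivity)
    (by positivity) (by
      rw [← hc0]
      exact_mod_cast hsb)
  -- the design primes
  have hcc : (core k).card = WW k := by
    unfold core
    rw [Nat.card_Ioc]
    omega
  obtain ⟨q, hq1, hq2'⟩ := pick_q P0 (VV k) (2 ^ (2 ^ (k ^ 50))) (2 ^ (4 * k ^ 50)) (mm k) (core k) hmany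
    (by rw [hcc]; exact b5)
  obtain ⟨Q2, hQ2⟩ : ∃ Q2, Q2 = Q1 (2 ^ J1 k) (E0 k) * ∏ i ∈ core k, ∏ j ∈ range (mm k), (q i j) ^ 2 :=
    ⟨_, rfl⟩
  have hQ2le : Q2 ≤ 2 ^ (2 ^ (2 * k ^ 50 - k)) := by
    rw [hQ2]
    refine hq2 (core k) q hcc.le (fun i hi j hj => (hq1 i hi j hj).2.2) (fun i hi j hj => ?_)
    have := (hq1 i hi j hj).2.1
    omega
  have e : Env A B Av M s0 M' P k b Q2 q := by
    constructor
    · exact h
    · exact a1
    · exact a2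
    · exact a4
    · exact a8
    · exact a11.trans a8
    · exact a9
    · intro p hp hpM
      exact hPle p hp ((hpM.trans hMM').trans (dvd_mul_left _ _))
    · exact g1
    · exact hs0
    · exact hMM'
    · exact hM'0
    · exact hs0M
    · exact hPM
    · exact (dvd_mul_right _ _).trans g2
    · exact h0
    · exact hC1
    · intro i hi j hj
      obtain ⟨h1, h2, h3⟩ := hq1 i hi j hj
      obtain ⟨h4, h5, h6⟩ := hP0 _ h1
      exact ⟨h4, h5, h6, h2⟩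
    · exact hq2'
    · exact hQ2
    · exact b2.ge
    · exact b7
    · exact b6
    · exact hb1
    · exact hb2
    · exact hb3
    · exact d1
    · exact d2
    · exact d3
    · exact b8
    · exact hpc
  have hQ22 : 2 ≤ Q2 := Nat.le_of_dvd e.Q2pos (e.Q2d 2 Nat.prime_two (a11.trans a8))
  have hex : ∀ t : Finset ℕ, ∃ N, GN B Av ζ k b Q2 q t N := fun t =>
    e.exists_GN hζ (fun c hc => hpb Q2 c hQ2le hQ22 hc) b1 b3 b4 (hmu B Q2) hpd hb4 htail t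
  choose N hN using hex
  -- the count
  have hcount := count_code (core k) (JJ Av s0 M' P k b) (fun i hi => (mem_JJ.1 hi).1)
    ((Icc 1 (DD k)).filter (fun d => d ∣ Qk k))
    ((Finset.Icc (-((2 ^ (13 * k ^ 50) : ℕ) : ℤ)) ((2 ^ (13 * k ^ 50) : ℕ) : ℤ)) ×ˢ
      (Finset.Icc (-((2 ^ (13 * k ^ 50) : ℕ) : ℤ)) ((2 ^ (13 * k ^ 50) : ℕ) : ℤ)))
    (vals (7 * k ^ 50)) (fun t i => xk B k b (N t) i)
    (fun t d => dyn.w ((N t + i0 b (EE k) d) / d - 1)) (fun t => RC B Av s0 M' P k b Q2 (N t))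
    ⌊2 * (WW k : ℝ) / k ^ 2 + ζ * WW k⌋₊ ⌊2 * (WW k : ℝ) / k ^ 2⌋₊ c1 (80 * k ^ 51) hc1
    (by
      have : 0 < k ^ 51 := by positivity
      omega) (by
      intro t _ i hi
      exact (mem_RC.1 hi).1) (by
      intro t _ i hi
      have hic := (mem_RC.1 hi).1
      refine mem_vals _ _ (e.x_pow (hN t) hic) ?_
      refine (e.x_bound (hN t) (e.core_le hic)).trans ?_
      have h1 : 2 ^ mm k * 2 ^ (6 * k ^ 50) ≤ 2 ^ (7 * k ^ 50) := by
        rw [← pow_add]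
        exact Nat.pow_le_pow_right (by norm_num) d3
      exact_mod_cast h1) (by
      intro t _
      exact Nat.le_floor (e.rc_bound (hN t)).2) (by
      intro t _
      exact Nat.le_floor (e.rc_bound (hN t)).1) (by
      intro t _ d hd
      rw [mem_filter, mem_Icc] at hd
      have h1 := e.st_bound hKA0 dyn (hN t) hpc2 (by omega : 0 < d) hd.2 hd.1.2
      rw [mem_product, mem_Icc, mem_Icc]
      exact ⟨abs_le.1 h1.1, abs_le.1 h1.2⟩) (by
      intro t ht t' ht' hrc hxx htt hst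
      refine e.inj dyn (hN t) (hN t') ht ht' ?_ ?_ ?_ ?_
      · intro d hd0 hdQ hdD
        exact hst d (by
          rw [mem_filter, mem_Icc]
          exact ⟨⟨hd0, hdD⟩, hdQ⟩)
      · intro i hi
        have h1 : i ∈ RC B Av s0 M' P k b Q2 (N t) ↔ i ∈ RC B Av s0 M' P k b Q2 (N t') := by
          rw [hrc]
        rw [mem_RC, mem_RC] at h1
        constructor
        · intro h2
          exact (h1.1 ⟨hi, h2⟩).2
        · intro h2
          exact (h1.2 ⟨hi, h2⟩).2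
      · intro i hi hR
        exact hxx i (mem_RC.2 ⟨hi, hR⟩)
      · intro i hi hR
        exact htt i (mem_RC.2 ⟨hi, hR⟩))
  rw [hcc] at hcount
  have hfl := hfin' (JJ Av s0 M' P k b).card
    ((Finset.Icc (-((2 ^ (13 * k ^ 50) : ℕ) : ℤ)) ((2 ^ (13 * k ^ 50) : ℕ) : ℤ)) ×ˢ
      (Finset.Icc (-((2 ^ (13 * k ^ 50) : ℕ) : ℤ)) ((2 ^ (13 * k ^ 50) : ℕ) : ℤ))).card
    ((Icc 1 (DD k)).filter (fun d => d ∣ Qk k)).card
    ⌊2 * (WW k : ℝ) / k ^ 2 + ζ * WW k⌋₊ ⌊2 * (WW k : ℝ) / k ^ 2⌋₊ (vals (7 * k ^ 50)).card ?_ ?_ ?_ ?_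
    (Nat.floor_le (by positivity)) (Nat.floor_le (by positivity)) ?_
  · exact absurd hcount (not_le.2 hfl)
  · rw [hc0]
    refine le_trans (le_of_eq ?_) hb5
    ring
  · rw [card_product, Int.card_Icc]
    have h1 : (((2 ^ (13 * k ^ 50) : ℕ) : ℤ) + 1 - -((2 ^ (13 * k ^ 50) : ℕ) : ℤ)).toNat =
        2 * 2 ^ (13 * k ^ 50) + 1 := by
      omega
    rw [h1]
    have hk50 : 1 ≤ k ^ 50 := Nat.one_le_pow _ _ (by omega)
    have h2 : 2 * 2 ^ (13 * k ^ 50) + 1 ≤ 2 ^ (14 * k ^ 50) := by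
      have h3 : 2 ^ (13 * k ^ 50 + 1) ≤ 2 ^ (14 * k ^ 50) := Nat.pow_le_pow_right (by norm_num) (by omega)
      rcases Nat.lt_or_ge (13 * k ^ 50 + 1) (14 * k ^ 50) with h4 | h4
      · have h5 : 2 ^ (13 * k ^ 50 + 2) ≤ 2 ^ (14 * k ^ 50) :=
          Nat.pow_le_pow_right (by norm_num) (by omega)
        have h6 : 1 ≤ 2 ^ (13 * k ^ 50) := Nat.one_le_two_pow
        rw [pow_add] at h5
        omega
      · exfalso
        have h5 : 2 ≤ k ^ 50 := by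
          calc 2 ≤ k := a1
            _ = k ^ 1 := (pow_one k).symm
            _ ≤ k ^ 50 := Nat.pow_le_pow_right (by omega) (by norm_num)
        omega
    have h7 := Nat.mul_le_mul h2 h2
    rw [← pow_add] at h7
    have h8 : 14 * k ^ 50 + 14 * k ^ 50 = 28 * k ^ 50 := by ring
    rw [h8] at h7
    exact_mod_cast h7
  · rw [Nat.one_le_iff_ne_zero, ← Nat.pos_iff_ne_zero, card_pos]
    refine ⟨(0, 0), ?_⟩
    rw [mem_product, mem_Icc]
    have h1 : (0:ℤ) ≤ ((2 ^ (13 * k ^ 50) : ℕ) : ℤ) := Int.natCast_nonneg _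
    exact ⟨⟨by show -((2 ^ (13 * k ^ 50) : ℕ) : ℤ) ≤ 0; omega, h1⟩,
      ⟨by show -((2 ^ (13 * k ^ 50) : ℕ) : ℤ) ≤ 0; omega, h1⟩⟩
  · refine (card_filter_le _ _).trans ?_
    rw [Nat.card_Icc]
    omega
  · refine (vals_card _).trans ?_
    have hk50 : 1 ≤ k ^ 50 := Nat.one_le_pow _ _ (by omega)
    omega

end Pool.Agent.Helper12.MM
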