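import Pool.Agent.Helper9.PF.DynFib

/-!
PROJECT MM (MP_175197_nt): sums of `1 / F_n` over multiplicative sets. Definitions. DONE.

`A` is a set of positive integers which is multiplicative away from the primes dividing `M`, with the
set `B` (only the elements of `B` coprime to `M` matter).
-/

set_option autoImplicit false

namespace Pool.Agent.Helper12.MM

open Finset Pool.Agent.Helper9.PF

/-- `A` is multiplicative away from `M`, with local set `B`; `M` is even. -/
structure MA (A B : Set ℕ) (M : ℕ) : Prop where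
  two : 2 ∣ M
  M0 : 0 < M
  pos : 0 ∉ A
  mul : ∀ m n, 0 < m → 0 < n → m.Coprime n → n.Coprime M → (m * n ∈ A ↔ m ∈ A ∧ n ∈ B)
  one : 1 ∈ B
  mulB : ∀ m n, 0 < m → 0 < n → m.Coprime n → m.Coprime M → n.Coprime M →
    (m * n ∈ B ↔ m ∈ B ∧ n ∈ B)

open Classical in
/-- the number of divisors in `B` -/
noncomputable def gB (B : Set ℕ) (r : ℕ) : ℤ := ∑ n ∈ r.divisors, if n ∈ B then 1 else 0

open Classical in
/-- the sum of `chi` over the divisors in `B` -/
noncomputable def hB (B : Set ℕ) (r : ℕ) : ℤ := ∑ n ∈ r.divisors, if n ∈ B then chi n else 0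

/-- the factor by which `a` changes if a number of the parity of `u` is multiplied by `r` -/
noncomputable def XX (B : Set ℕ) (u r : ℕ) : ℤ := if Even u then gB B r else chi r * hB B r

open Classical in
/-- the number of prime factors in `B` -/
noncomputable def om (B : Set ℕ) (r : ℕ) : ℕ := (r.primeFactors.filter (fun p => p ∈ B)).card

/-- the modulus for the residue `b` -/
def Q1 (y1 E0 : ℕ) : ℕ := (primorial y1) ^ E0

/-- the `y1`-smooth part of `b + i` (when no exponent reaches `E0`) -/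
def sm (y1 E0 b i : ℕ) : ℕ := (b + i).gcd (Q1 y1 E0)

/-- the places `i` and `i + h * q_i` have the same gcd `q_i` with `Q` -/
def Same (Q b i h : ℕ) : Prop := (b + i + h * (b + i).gcd Q).gcd Q = (b + i).gcd Q

/-- the place `i` is bad for the residue `b` -/
def ABad (Q G y y1 E0 D H0 T E W b i : ℕ) : Prop :=
  D < (b + i).gcd Q ∨ E + W < i + H0 * D ∨ (∃ j, 1 ≤ j ∧ j ≤ G ∧ Same Q b i j) ∨
    (∃ p, p.Prime ∧ G < p ∧ p ≤ y ∧ p ^ 2 ∣ b + i) ∨
    (∃ h, h ≤ H0 ∧ Same Q b i h ∧ 2 ^ T < (sm y1 E0 b (i + h * (b + i).gcd Q)).divisors.card)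

/-- the reference places: `b + i = s0` modulo `s0 M'`, no prime factor in `(P, y1]` from `Av`, no square of a prime of
`(P, y1]` -/
def InJ (Av : Set ℕ) (s0 M' P y1 b i : ℕ) : Prop :=
  b + i ≡ s0 [MOD s0 * M'] ∧ ∀ p, p.Prime → P < p → p ≤ y1 → (p ∈ Av → ¬ p ∣ b + i) ∧ ¬ p ^ 2 ∣ b + i

/-- the rough factor of the coefficients at the place `i` -/
noncomputable def xx (B : Set ℕ) (y1 E0 b N i : ℕ) : ℤ := XX B (b + i) ((N + i) / sm y1 E0 b i)

open Classical in
/-- the primes of `B`, `≤ z`, not dividing `Q2`, which divide `n` -/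
noncomputable def om1 (B : Set ℕ) (Q2 z n : ℕ) : ℕ :=
  ((range (z + 1)).filter (fun p => p.Prime ∧ p ∈ B ∧ ¬ p ∣ Q2 ∧ p ∣ n)).card

open Classical in
/-- the mean of `om1` -/
noncomputable def mu1 (B : Set ℕ) (Q2 z : ℕ) : ℝ :=
  ∑ p ∈ (range (z + 1)).filter (fun p => p.Prime ∧ p ∈ B ∧ ¬ p ∣ Q2), 1 / (p : ℝ)

open Classical in
/-- the weight of the place `i`: `1 +` the number of the pairs `(i', h)` with `Same` which lead to `i` -/
noncomputable def ww (Q b H0 E W i : ℕ) : ℕ :=
  1 + (((Ioc E (E + W)) ×ˢ (Icc 1 H0)).filter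
    (fun x => Same Q b x.1 x.2 ∧ x.1 + x.2 * (b + x.1).gcd Q = i)).card

end Pool.Agent.Helper12.MM
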