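import Pool.Agent.Helper12.MM.ParDefs

/-!
PROJECT MM: the environment for the core (fixed `k`, `b`, design primes). DONE.
-/

set_option autoImplicit false

namespace Pool.Agent.Helper12.MM

open Finset Pool.Agent.Helper9.PF

/-- the window -/
def core (k : ℕ) : Finset ℕ := Ioc (EE k) (EE k + WW k)

/-- `Q` -/
def Qk (k : ℕ) : ℕ := QQ (GG k) (yy k)

open Classical in
/-- the reference places -/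
noncomputable def JJ (Av : Set ℕ) (s0 M' P k b : ℕ) : Finset ℕ :=
  (core k).filter (fun i => InJ Av s0 M' P (2 ^ J1 k) b i)

/-- bad places of `b` -/
def AB (k b i : ℕ) : Prop :=
  ABad (Qk k) (GG k) (yy k) (2 ^ J1 k) (E0 k) (DD k) (H0 k) (k ^ 34) (EE k) (WW k) b i

/-- smooth part -/
def smk (k b i : ℕ) : ℕ := sm (2 ^ J1 k) (E0 k) b i

/-- rough factor -/
noncomputable def xk (B : Set ℕ) (k b N i : ℕ) : ℤ := xx B (2 ^ J1 k) (E0 k) b N i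

/-- weights -/
noncomputable def wk (k b i : ℕ) : ℕ := ww (Qk k) b (H0 k) (EE k) (WW k) i

open Classical in
/-- the design primes at the place `i` -/
noncomputable def DP (k : ℕ) (q : ℕ → ℕ → ℕ) (t : Finset ℕ) (i : ℕ) : Finset ℕ :=
  if i ∈ core k ∧ i ∈ t then (range (mm k)).image (q i) else ∅

/-- the place `i` is typical for `N` -/
def Typ (B : Set ℕ) (k Q2 N i : ℕ) : Prop :=
  |(om1 B Q2 (zz k) (N + i) : ℝ) - mu1 B Q2 (zz k)| ≤ (k : ℝ) ^ 34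

open Classical in
/-- good integers -/
structure GN (B Av : Set ℕ) (ζ : ℝ) (k b Q2 : ℕ) (q : ℕ → ℕ → ℕ) (t : Finset ℕ) (N : ℕ) : Prop where
  mod : N ≡ b [MOD Q1 (2 ^ J1 k) (E0 k)]
  pos : 1 ≤ N
  le : N + VV k ≤ YY k ^ 2
  dp : ∀ i, i ≤ VV k → ∀ p ∈ DP k q t i, p.Prime ∧ p ∈ B ∧ 2 ^ J1 k < p ∧ p ∣ Q2 ∧ p ∣ N + i ∧
    ¬ p ^ 2 ∣ N + i
  dp2 : ∀ i, i ≤ VV k → ∀ p, p.Prime → p ∣ Q2 → p ∣ N + i → 2 ^ J1 k < p → p ∈ DP k q t i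
  sq : ∀ i ∈ core k, ∀ p, p.Prime → ¬ p ∣ Q2 → ¬ p ^ 2 ∣ N + i
  dv : ∀ i ≤ VV k, ((N + i).divisors.filter (fun e => e.Coprime Q2)).card ≤ 2 ^ (6 * k ^ 50)
  ty : (∑ i ∈ (core k).filter (fun i => ¬ Typ B k Q2 N i), (wk k b i : ℝ)) ≤ (WW k : ℝ) / k ^ 3
  av : (((core k).filter (fun i => ∃ p, p.Prime ∧ p ∈ Av ∧ ¬ p ∣ Q2 ∧ p ∣ N + i)).card : ℝ) ≤
    ζ * WW k

open Classical in
/-- everything about `k`, `b`, `Q2`, `q` -/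
structure Env (A B Av : Set ℕ) (M s0 M' P : ℕ) (k b Q2 : ℕ) (q : ℕ → ℕ → ℕ) : Prop where
  ma : MA A B M
  hk : 2 ≤ k
  G2 : 2 ≤ GG k
  Gy : GG k ≤ yy k
  yy1 : yy k ≤ 2 ^ J1 k
  y12 : 2 ≤ 2 ^ J1 k
  E02 : 2 ≤ E0 k
  MP : ∀ p, p.Prime → p ∣ M → p ≤ P
  PG : P ≤ GG k
  s00 : 0 < s0
  MM' : M ∣ M'
  M'0 : 0 < M'
  s0M : ∀ p, p.Prime → p ∣ s0 → p ∣ M
  PM : ∀ p, p.Prime → p ≤ P → p ∣ M'
  s0d : s0 ∣ Q1 (2 ^ J1 k) (E0 k)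
  as0 : Pool.Agent.Helper9.Fib.a A s0 ≠ 0
  C1 : ∀ e, Squarefree e → e.Coprime M → (∀ p ∈ e.primeFactors, p ∉ Av) → XX B s0 e ≠ 0
  qp : ∀ i ∈ core k, ∀ j < mm k, (q i j).Prime ∧ q i j ∈ B ∧ q i j ∉ Av ∧ VV k + 1 < q i j
  qinj : ∀ i ∈ core k, ∀ i' ∈ core k, ∀ j < mm k, ∀ j' < mm k, q i j = q i' j' → i = i' ∧ j = j'
  Q2e : Q2 = Q1 (2 ^ J1 k) (E0 k) * ∏ i ∈ core k, ∏ j ∈ range (mm k), (q i j) ^ 2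
  z8 : YY k ^ 2 ≤ zz k ^ 8
  y1V : 2 ^ J1 k ≤ VV k
  E00 : 0 < EE k
  b1 : ∀ i ≤ VV k, ∀ p, p.Prime → p ≤ 2 ^ J1 k → ¬ p ^ E0 k ∣ b + i
  b2 : ∀ i ≤ VV k, (smk k b i).divisors.card ≤ 2 ^ (4 * k ^ 50)
  b3 : (((core k).filter (fun i => AB k b i)).card : ℝ) ≤ (WW k : ℝ) / k ^ 2
  m9 : 2 * k ^ 34 + 9 ≤ mm k
  e11 : 2 ^ (4 * k ^ 50) * (2 ^ mm k * 2 ^ (6 * k ^ 50)) ≤ 2 ^ (11 * k ^ 50)
  e7 : mm k + 6 * k ^ 50 ≤ 7 * k ^ 50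
  bw : ∀ lam : ℝ, 3 / 2 ≤ lam → ((YY k ^ 2 : ℕ) : ℝ) ≤ lam ^ H1 k
  pc : ∀ lam : ℝ, 3 / 2 ≤ lam → 4 * 2 ^ (k ^ 34 + 2 * mm k) * lam⁻¹ ^ GG k ≤ 1 / 4 ∧
    2 * (5 * ((2 ^ (11 * k ^ 50) : ℕ) : ℝ) + 20) * lam⁻¹ ^ H0 k ≤ 1 / 4

end Pool.Agent.Helper12.MM
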