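import Pool.Agent.Helper12.MM.AMul
import Pool.Agent.Helper12.MM.XVal
import Pool.Agent.Helper12.MM.Smooth

/-!
PROJECT MM, module MM-27. The coefficients at the places: `a ((N + i) / d) = a (sm / d) * x_i`.

`s = sm y1 E0 b i`, `r = (N + i) / s`, so `N + i = s r` (`sm_dvd`), `r > 0`, no prime `≤ y1` divides `r` (`sm_rough`), all prime factors of `s` are `≤ y1` (`sm_prime`) and those of `M` too (`hM`): `s / d` and `r` are coprime, `r` is coprime to `M`.
`(N + i) / d = (s / d) * r`. `a_mul` and `XX_parity`: `s / d` is even iff `s` is even (`d` odd) iff `b + i` is even (`sm_even`).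
-/

set_option autoImplicit false

namespace Pool.Agent.Helper12.MM

open Finset Pool.Agent.Helper9.PF

theorem rough_coprime {M y1 E0 b i N : ℕ} (hM : ∀ p, p.Prime → p ∣ M → p ≤ y1) (hM0 : 0 < M)
    (hE0 : 1 ≤ E0) (hN : N ≡ b [MOD Q1 y1 E0]) (hb : ∀ p, p.Prime → p ≤ y1 → ¬ p ^ E0 ∣ b + i)
    (hNi : 0 < N + i) :
    0 < (N + i) / sm y1 E0 b i ∧ ((N + i) / sm y1 E0 b i).Coprime M ∧
      (sm y1 E0 b i).Coprime ((N + i) / sm y1 E0 b i) := by
  have _h0 := hM0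
  refine ⟨Nat.div_pos (Nat.le_of_dvd hNi (sm_dvd hN)) (sm_pos _ _ _ _), ?_, ?_⟩
  · refine Nat.coprime_of_dvd fun p hp h1 h2 => ?_
    exact sm_rough hE0 hN hb hp (hM p hp h2) hNi h1
  · refine Nat.coprime_of_dvd fun p hp h1 h2 => ?_
    exact sm_rough hE0 hN hb hp (sm_prime hp h1) hNi h2

theorem f_one {A B : Set ℕ} {M : ℕ} (h : MA A B M) {y1 E0 b i N d : ℕ} (hy1 : 2 ≤ y1) (hE0 : 1 ≤ E0)
    (hM : ∀ p, p.Prime → p ∣ M → p ≤ y1) (hN : N ≡ b [MOD Q1 y1 E0])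
    (hb : ∀ p, p.Prime → p ≤ y1 → ¬ p ^ E0 ∣ b + i) (hNi : 0 < N + i) (hd : Odd d)
    (hds : d ∣ sm y1 E0 b i) :
    Pool.Agent.Helper9.Fib.a A ((N + i) / d) =
      Pool.Agent.Helper9.Fib.a A (sm y1 E0 b i / d) * xx B y1 E0 b N i := by
  obtain ⟨h1, h2, h3⟩ := rough_coprime hM h.M0 hE0 hN hb hNi
  obtain ⟨u, hu⟩ := hds
  have hd0 : 0 < d := hd.pos
  have hs0 : 0 < sm y1 E0 b i := sm_pos _ _ _ _
  have hu0 : 0 < u := by
    rcases Nat.eq_zero_or_pos u with h0 | h0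
    · rw [h0, mul_zero] at hu
      omega
    · exact h0
  have hsd : sm y1 E0 b i / d = u := by
    rw [hu]
    exact Nat.mul_div_cancel_left u hd0
  have hNd : (N + i) / d = u * ((N + i) / sm y1 E0 b i) := by
    refine Nat.div_eq_of_eq_mul_right hd0 ?_
    rw [← mul_assoc, ← hu]
    exact (Nat.mul_div_cancel' (sm_dvd hN)).symm
  have hcop : u.Coprime ((N + i) / sm y1 E0 b i) :=
    Nat.Coprime.coprime_dvd_left ⟨d, by rw [hu, mul_comm]⟩ h3
  have hpar : Even u ↔ Even (b + i) := by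
    rw [← sm_even (b := b) (i := i) hy1 hE0, hu, Nat.even_mul]
    constructor
    · exact fun h => Or.inr h
    · rintro (h | h)
      · exact absurd h (Nat.not_even_iff_odd.mpr hd)
      · exact h
  rw [hNd, hsd, a_mul h hu0 h1 hcop h2, XX_parity B _ hpar]
  rfl

end Pool.Agent.Helper12.MM
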