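import Mathlib

/-!
PROJECT MM, module MM-G4. Many primes in `(4 H, 16 H ^ 2]` for arbitrarily large `H`.

Let `f x = #{p ∈ P3 : p ≤ x}`. If the statement fails then for all `H ≥ H₀`: `f (16 H^2) < f (4 H) + H ≤ 5 H`. So `f x ≤ 5 (√x / 4 + 1) ≤ 2 √x + 5` for all large `x` (take `H = ⌊√x / 4⌋ + 1`, `x ≤ 16 H ^ 2`). Then the sum of `1/p` over the `p ∈ P3` in `(2^j, 2^(j+1)]` is at most
`f (2 ^ (j+1)) / 2 ^ j ≤ (2 * 2 ^ ((j+1)/2) + 5) / 2 ^ j`, summable: contradiction (bound all finite partial sums, `summable_of_sum_le`). It is convenient to use only `x = 16 * 4 ^ j`, `H = 2 ^ j`: `f (16 * 4 ^ j) ≤ 5 * 2 ^ j`, and blocks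
`(16 * 4 ^ j, 16 * 4 ^ (j+1)]` with sum at most `5 * 2 ^ (j+1) / (16 * 4 ^ j)`.
-/

set_option autoImplicit false

namespace Pool.Agent.Helper12.MM

open Finset

open Classical in
theorem many_h (P3 : Set ℕ) (hns : ¬ Summable (fun p : ℕ => if p ∈ P3 then 1 / (p : ℝ) else 0))
    (H₀ : ℕ) :
    ∃ H ≥ H₀, H ≤ ((Ioc (4 * H) (16 * H ^ 2)).filter (fun p => p ∈ P3)).card := by
  by_contra hcon
  have hcon' : ∀ H, H₀ ≤ H →
      ((Ioc (4 * H) (16 * H ^ 2)).filter (fun p => p ∈ P3)).card < H := by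
    intro H hH
    by_contra hlt
    exact hcon ⟨H, hH, not_lt.1 hlt⟩
  apply hns
  have hf0 : ∀ p : ℕ, 0 ≤ (if p ∈ P3 then 1 / (p : ℝ) else 0) := by
    intro p
    split_ifs
    · positivity
    · exact le_rfl
  have hstep : ∀ j, H₀ ≤ j → ∑ p ∈ Ioc (16 * 4 ^ j) (16 * 4 ^ (j + 1)),
      (if p ∈ P3 then 1 / (p : ℝ) else 0) ≤ (1 / 8) * (1 / 2) ^ j := by
    intro j hj
    have h1 : H₀ ≤ 2 ^ (j + 1) := by
      have h : j + 1 < 2 ^ (j + 1) := Nat.lt_two_pow_self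
      omega
    have h2 := hcon' (2 ^ (j + 1)) h1
    have h4 : (4 : ℕ) ^ j = 2 ^ j * 2 ^ j := by
      rw [← mul_pow]
      norm_num
    have hpos : 1 ≤ 2 ^ j := Nat.one_le_two_pow
    have hsub : (Ioc (16 * 4 ^ j) (16 * 4 ^ (j + 1))).filter (fun p => p ∈ P3) ⊆
        (Ioc (4 * 2 ^ (j + 1)) (16 * (2 ^ (j + 1)) ^ 2)).filter (fun p => p ∈ P3) := by
      refine filter_subset_filter _ (Ioc_subset_Ioc ?_ (le_of_eq ?_))
      · rw [h4, pow_succ]
        nlinarith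
      · rw [pow_succ, h4]
        ring
    have hcard := card_le_card hsub
    rw [← sum_filter]
    have h5 : ∀ p ∈ (Ioc (16 * 4 ^ j) (16 * 4 ^ (j + 1))).filter (fun p => p ∈ P3),
        1 / (p : ℝ) ≤ 1 / (16 * 4 ^ j : ℝ) := by
      intro p hp
      have h6 : 16 * 4 ^ j < p := (mem_Ioc.1 (mem_filter.1 hp).1).1
      have h7 : (16 * 4 ^ j : ℝ) ≤ p := by exact_mod_cast h6.le
      exact one_div_le_one_div_of_le (by positivity) h7
    refine le_trans (sum_le_card_nsmul _ _ _ h5) ?_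
    have h8 : ((((Ioc (16 * 4 ^ j) (16 * 4 ^ (j + 1))).filter (fun p => p ∈ P3)).card : ℕ) : ℝ) ≤
        2 ^ (j + 1) := by
      have := le_trans hcard h2.le
      exact_mod_cast this
    rw [nsmul_eq_mul]
    refine le_trans (mul_le_mul_of_nonneg_right h8 (by positivity)) (le_of_eq ?_)
    have h9 : (4 : ℝ) ^ j = 2 ^ j * 2 ^ j := by
      rw [← mul_pow]
      norm_num
    have h10 : (2 : ℝ) ^ j ≠ 0 := by positivity
    rw [h9, pow_succ, one_div_pow]
    field_simp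
    norm_num
  set S : ℕ → ℝ := fun k => ∑ p ∈ range (16 * 4 ^ (H₀ + k) + 1),
    (if p ∈ P3 then 1 / (p : ℝ) else 0) with hS
  have hSk : ∀ k, S k ≤ S 0 + 1 / 4 - (1 / 4) * (1 / 2) ^ k := by
    intro k
    induction k with
    | zero => norm_num
    | succ k ih =>
      have h1 : S (k + 1) = S k + ∑ p ∈ Ioc (16 * 4 ^ (H₀ + k)) (16 * 4 ^ (H₀ + k + 1)),
          (if p ∈ P3 then 1 / (p : ℝ) else 0) := by
        have hle : 16 * 4 ^ (H₀ + k) + 1 ≤ 16 * 4 ^ (H₀ + k + 1) + 1 := by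
          have : 4 ^ (H₀ + k) ≤ 4 ^ (H₀ + k + 1) := Nat.pow_le_pow_right (by norm_num) (by omega)
          omega
        have h2 := sum_range_add_sum_Ico (fun p : ℕ => (if p ∈ P3 then 1 / (p : ℝ) else 0)) hle
        have h3 : Ico (16 * 4 ^ (H₀ + k) + 1) (16 * 4 ^ (H₀ + k + 1) + 1) =
            Ioc (16 * 4 ^ (H₀ + k)) (16 * 4 ^ (H₀ + k + 1)) := by
          ext x
          rw [mem_Ico, mem_Ioc]
          omega
        rw [h3] at h2
        exact h2.symm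
      have h2 := hstep (H₀ + k) (by omega)
      have h3 : ((1 : ℝ) / 2) ^ (H₀ + k) ≤ (1 / 2) ^ k := by
        exact pow_le_pow_of_le_one (by norm_num) (by norm_num) (by omega)
      have h5 : ((1 : ℝ) / 2) ^ (k + 1) = (1 / 2) ^ k * (1 / 2) := pow_succ _ _
      rw [h1, h5]
      linarith
  refine summable_of_sum_range_le (c := S 0 + 1 / 4) hf0 fun n => ?_
  have h1 : n ≤ 16 * 4 ^ (H₀ + n) + 1 := by
    have h2 : H₀ + n < 4 ^ (H₀ + n) := Nat.lt_pow_self (by norm_num)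
    omega
  have h2 : ∑ p ∈ range n, (if p ∈ P3 then 1 / (p : ℝ) else 0) ≤ S n := by
    refine sum_le_sum_of_subset_of_nonneg (range_subset_range.2 h1) fun p _ _ => hf0 p
  have h3 := hSk n
  have h4 : 0 ≤ (1 / 4 : ℝ) * (1 / 2) ^ n := by positivity
  linarith

end Pool.Agent.Helper12.MM
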