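import Mathlib

/-!
PROJECT MM, module MM-G5. Sums of two squares modulo `p ^ 2`.

* `sq_sum`: `ZMod.sq_add_sq p` gives `a₀ ^ 2 + b₀ ^ 2 = x` in `ZMod p` (reduce `x` modulo `p`); not both are `0` as `x` is a unit; exchange them so that `a₀ ≠ 0`. Lift `b₀` to any `b` and `a₀` to `a₁` in `ZMod (p ^ 2)`; `x - b ^ 2 - a₁ ^ 2 = p c` for some `c` (it is `0` modulo `p`);
  `a = a₁ + p t` with `2 a₁ t = c` (`2 a₁` is a unit): `a ^ 2 = a₁ ^ 2 + 2 a₁ p t + p ^ 2 t ^ 2 = a₁ ^ 2 + p c`. An element of `ZMod (p ^ 2)` is a unit iff it is nonzero modulo `p`. (Working with integers/naturals and congruences instead of `ZMod` is fine.)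
* `one_mod_four`: `-1` is a square modulo `p` (`p ∤ v`: otherwise `p ∣ u` too; `(u/v) ^ 2 = -1`), e.g. `ZMod.isSquare_neg_one_of_eq_sq_add_sq_of_coprime` and `ZMod.isSquare_neg_one_of_dvd`, `ZMod.exists_sq_eq_neg_one_iff : IsSquare (-1 : ZMod p) ↔ p % 4 ≠ 3`.
-/

set_option autoImplicit false

namespace Pool.Agent.Helper12.MM

open Finset

private theorem gsq_base (p : ℕ) (hp : p.Prime) (x : ℕ) (hx : ¬ p ∣ x) :
    ∃ a b : ℕ, ¬ p ∣ a ∧ a ^ 2 + b ^ 2 ≡ x [MOD p] := by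
  have : Fact p.Prime := ⟨hp⟩
  obtain ⟨a, b, hab⟩ := ZMod.sq_add_sq p (x : ZMod p)
  have hx0 : (x : ZMod p) ≠ 0 := fun h => hx ((ZMod.natCast_eq_zero_iff x p).1 h)
  have key : ∀ a b : ZMod p, a ≠ 0 → a ^ 2 + b ^ 2 = x →
      ∃ a b : ℕ, ¬ p ∣ a ∧ a ^ 2 + b ^ 2 ≡ x [MOD p] := by
    intro a b ha h
    refine ⟨a.val, b.val, ?_, ?_⟩
    · intro hd
      apply ha
      have h1 := (ZMod.natCast_eq_zero_iff a.val p).2 hd
      rwa [ZMod.natCast_zmod_val] at h1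
    · rw [← ZMod.natCast_eq_natCast_iff]
      push_cast
      rw [ZMod.natCast_zmod_val, ZMod.natCast_zmod_val]
      exact h
  by_cases ha : a = 0
  · have hb : b ≠ 0 := by
      rintro rfl
      apply hx0
      rw [← hab, ha]
      ring
    exact key b a hb (by rw [add_comm]; exact hab)
  · exact key a b ha hab

theorem sq_sum (p : ℕ) (hp : p.Prime) (hp2 : p ≠ 2) (x : ℕ) (hx : ¬ p ∣ x) :
    ∃ a b : ℕ, ¬ p ∣ a ∧ a ^ 2 + b ^ 2 ≡ x [MOD p ^ 2] := by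
  have : Fact p.Prime := ⟨hp⟩
  obtain ⟨a, b, ha, hab⟩ := gsq_base p hp x hx
  have h1 : ((x : ℤ)) ≡ ((a ^ 2 + b ^ 2 : ℕ) : ℤ) [ZMOD p] := (Int.natCast_modEq_iff.2 hab).symm
  obtain ⟨c, hc⟩ := h1.dvd
  push_cast at hc
  have h2 : ((2 * a : ℕ) : ZMod p) ≠ 0 := by
    intro h0
    have h3 := (ZMod.natCast_eq_zero_iff (2 * a) p).1 h0
    rcases (hp.dvd_mul).1 h3 with h4 | h4
    · exact hp2 ((Nat.prime_dvd_prime_iff_eq hp Nat.prime_two).1 h4)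
    · exact ha h4
  set t : ZMod p := -(c : ZMod p) * ((2 * a : ℕ) : ZMod p)⁻¹ with ht
  have h5 : ((2 * a * t.val + c : ℤ) : ZMod p) = 0 := by
    push_cast
    rw [ZMod.natCast_zmod_val, ht]
    have h6 : ((2 * a : ℕ) : ZMod p) = 2 * (a : ZMod p) := by push_cast; ring
    rw [h6] at h2 ⊢
    linear_combination (-(c : ZMod p)) * mul_inv_cancel₀ h2
  obtain ⟨e, he⟩ := (ZMod.intCast_zmod_eq_zero_iff_dvd _ p).1 h5
  refine ⟨a + p * t.val, b, ?_, ?_⟩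
  · intro h
    exact ha ((Nat.dvd_add_left (Dvd.intro _ rfl)).1 h)
  · rw [← Int.natCast_modEq_iff]
    refine (Int.modEq_iff_dvd.2 ?_).symm
    refine ⟨e + t.val ^ 2, ?_⟩
    push_cast
    linear_combination hc + (p : ℤ) * he

theorem one_mod_four (u v p : ℕ) (huv : u.Coprime v) (hp : p.Prime) (hp2 : p ≠ 2)
    (h : p ∣ u ^ 2 + v ^ 2) : p % 4 = 1 := by
  have : Fact p.Prime := ⟨hp⟩
  have h1 : IsSquare (-1 : ZMod (u ^ 2 + v ^ 2)) :=
    ZMod.isSquare_neg_one_of_eq_sq_add_sq_of_coprime rfl huv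
  have h2 : IsSquare (-1 : ZMod p) := ZMod.isSquare_neg_one_of_dvd h h1
  have h3 := ZMod.exists_sq_eq_neg_one_iff.1 h2
  have h4 := (hp.eq_two_or_odd).resolve_left hp2
  omega

end Pool.Agent.Helper12.MM
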