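import Mathlib

/-!
PROJECT MM, module MM-G1. The divisor bound.

`n = ∏ p ^ v_p`, `tau n = ∏ (v_p + 1)` over the prime factors (`Nat.card_divisors`). For every prime: `(v + 1) ^ t ≤ t ^ t * 2 ^ v ≤ t ^ t * p ^ v`: write `v = q t + r`, `r < t`; `v + 1 ≤ (q + 1) t ≤ 2 ^ q t`, so `(v+1) ^ t ≤ 2 ^ (q t) t ^ t ≤ 2 ^ v t ^ t`.
If `p ≥ 2 ^ t`: `(v + 1) ^ t ≤ (2 ^ v) ^ t = (2 ^ t) ^ v ≤ p ^ v`. There are at most `2 ^ t` primes `p < 2 ^ t`, and `t ^ t ≥ 1`. Multiply.
-/

set_option autoImplicit false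

namespace Pool.Agent.Helper12.MM

open Finset

private theorem tau_aux1 (v t : ℕ) (ht : 1 ≤ t) : (v + 1) ^ t ≤ t ^ t * 2 ^ v := by
  have h1 : v + 1 ≤ 2 ^ (v / t) * t := by
    have h2 : v < (v / t + 1) * t := by
      have := Nat.lt_div_mul_add (a := v) (b := t) (by omega)
      nlinarith
    have h3 : v / t + 1 ≤ 2 ^ (v / t) := Nat.lt_two_pow_self
    calc v + 1 ≤ (v / t + 1) * t := h2
      _ ≤ 2 ^ (v / t) * t := Nat.mul_le_mul_right _ h3
  calc (v + 1) ^ t ≤ (2 ^ (v / t) * t) ^ t := Nat.pow_le_pow_left h1 t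
    _ = 2 ^ (v / t * t) * t ^ t := by rw [mul_pow, ← pow_mul]
    _ ≤ 2 ^ v * t ^ t := by
        apply Nat.mul_le_mul_right
        exact Nat.pow_le_pow_right (by norm_num) (Nat.div_mul_le_self v t)
    _ = t ^ t * 2 ^ v := mul_comm _ _

private theorem tau_aux2 (v t p : ℕ) (hp : 2 ^ t ≤ p) : (v + 1) ^ t ≤ p ^ v := by
  have h3 : v + 1 ≤ 2 ^ v := Nat.lt_two_pow_self
  calc (v + 1) ^ t ≤ (2 ^ v) ^ t := Nat.pow_le_pow_left h3 t
    _ = (2 ^ t) ^ v := by rw [← pow_mul, ← pow_mul, mul_comm]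
    _ ≤ p ^ v := Nat.pow_le_pow_left hp v

theorem tau_pow (n t : ℕ) (hn : 0 < n) (ht : 1 ≤ t) :
    n.divisors.card ^ t ≤ n * t ^ (t * 2 ^ t) := by
  have hc : ∀ p ∈ n.primeFactors, (n.factorization p + 1) ^ t ≤
      p ^ n.factorization p * (if p < 2 ^ t then t ^ t else 1) := by
    intro p hp
    have hpp := (Nat.prime_of_mem_primeFactors hp).two_le
    split_ifs with h
    · calc (n.factorization p + 1) ^ t ≤ t ^ t * 2 ^ n.factorization p := tau_aux1 _ _ ht
        _ ≤ t ^ t * p ^ n.factorization p :=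
            Nat.mul_le_mul_left _ (Nat.pow_le_pow_left hpp _)
        _ = _ := mul_comm _ _
    · rw [mul_one]
      exact tau_aux2 _ _ _ (by omega)
  rw [Nat.card_divisors hn.ne', ← Finset.prod_pow]
  calc ∏ p ∈ n.primeFactors, (n.factorization p + 1) ^ t
      ≤ ∏ p ∈ n.primeFactors, (p ^ n.factorization p * (if p < 2 ^ t then t ^ t else 1)) :=
        Finset.prod_le_prod' hc
    _ = n * ∏ p ∈ n.primeFactors, (if p < 2 ^ t then t ^ t else 1) := by
        rw [Finset.prod_mul_distrib]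
        congr 1
        exact Nat.prod_factorization_pow_eq_self hn.ne'
    _ ≤ n * t ^ (t * 2 ^ t) := by
        apply Nat.mul_le_mul_left
        rw [← Finset.prod_filter, Finset.prod_const, pow_mul]
        apply Nat.pow_le_pow_right (Nat.pos_of_ne_zero (by positivity))
        calc ((n.primeFactors).filter (fun p => p < 2 ^ t)).card
            ≤ (range (2 ^ t)).card := by
              apply card_le_card
              intro p hp
              simp only [mem_filter] at hp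
              simp [hp.2]
          _ = 2 ^ t := card_range _

end Pool.Agent.Helper12.MM
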