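import Mathlib

/-!
PROJECT MM, module MM-G2. Numbers not exactly divisible by any prime of a finite set.

`M1 = ∏_{p ∈ S} p ^ 2`. The predicate is periodic modulo `M1`; an interval of length `len` is covered by `len / M1 + 1` periods, and a period contains exactly `∏ (p ^ 2 - (p - 1))` such numbers: induction over `S` (`S = insert p S'`, Chinese remainder theorem for
`p ^ 2` and `∏_{S'} q ^ 2`): modulo `p ^ 2` the excluded classes are `p, 2 p, ..., (p - 1) p`. (`Nat.filter_Ico_card_eq_of_periodic`; `≤` is enough everywhere.)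
-/

set_option autoImplicit false

namespace Pool.Agent.Helper12.MM

open Finset

private theorem unk_class (p : ℕ) (hp : p.Prime) :
    ((range (p ^ 2)).filter (fun n => ¬ (p ∣ n ∧ ¬ p ^ 2 ∣ n))).card ≤ p ^ 2 - (p - 1) := by
  have h1 : ((range (p ^ 2)).filter (fun n => p ∣ n ∧ ¬ p ^ 2 ∣ n)).card +
      ((range (p ^ 2)).filter (fun n => ¬ (p ∣ n ∧ ¬ p ^ 2 ∣ n))).card = p ^ 2 := by
    rw [Finset.card_filter_add_card_filter_not, card_range]
  have h2 : p - 1 ≤ ((range (p ^ 2)).filter (fun n => p ∣ n ∧ ¬ p ^ 2 ∣ n)).card := by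
    have h3 : ((range (p - 1)).image fun j => p * (j + 1)).card = p - 1 := by
      rw [card_image_of_injective, card_range]
      intro a b hab
      have := Nat.eq_of_mul_eq_mul_left hp.pos hab
      omega
    rw [← h3]
    refine card_le_card ?_
    intro n hn
    obtain ⟨j, hj, rfl⟩ := mem_image.1 hn
    rw [mem_range] at hj
    have h4 : p * (j + 1) < p ^ 2 := by
      rw [pow_two]
      exact Nat.mul_lt_mul_of_pos_left (by omega) hp.pos
    rw [mem_filter, mem_range]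
    refine ⟨h4, dvd_mul_right _ _, fun h5 => ?_⟩
    have h6 := Nat.eq_zero_of_dvd_of_lt h5 h4
    rcases Nat.mul_eq_zero.1 h6 with h7 | h7
    · exact hp.ne_zero h7
    · omega
  omega

private theorem unk_period (S : Finset ℕ) (hS : ∀ p ∈ S, p.Prime) :
    ((range (∏ p ∈ S, p ^ 2)).filter (fun n => ∀ p ∈ S, ¬ (p ∣ n ∧ ¬ p ^ 2 ∣ n))).card ≤
      ∏ p ∈ S, (p ^ 2 - (p - 1)) := by
  classical
  have h1 : (S.pi fun p => (range (p ^ 2)).filter (fun n => ¬ (p ∣ n ∧ ¬ p ^ 2 ∣ n))).card ≤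
      ∏ p ∈ S, (p ^ 2 - (p - 1)) := by
    rw [card_pi]
    exact Finset.prod_le_prod' fun p hp => unk_class p (hS p hp)
  refine le_trans ?_ h1
  refine card_le_card_of_injOn (fun n p _ => n % p ^ 2) ?_ ?_
  · intro n hn
    rw [mem_coe, mem_filter] at hn
    rw [mem_coe, mem_pi]
    intro p hp
    have hpp := hS p hp
    rw [mem_filter, mem_range]
    refine ⟨Nat.mod_lt _ (pow_pos hpp.pos 2), ?_⟩
    rintro ⟨h2, h3⟩
    refine hn.2 p hp ⟨?_, ?_⟩
    · exact (Nat.dvd_mod_iff (dvd_pow_self p two_ne_zero)).1 h2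
    · intro h4
      apply h3
      have h5 : n % p ^ 2 = 0 := Nat.mod_eq_zero_of_dvd h4
      change p ^ 2 ∣ n % p ^ 2
      rw [h5]
      exact dvd_zero _
  · intro n hn m hm hnm
    rw [mem_coe, mem_filter, mem_range] at hn hm
    have h2 : ∀ p ∈ S, n % p ^ 2 = m % p ^ 2 := fun p hp =>
      congrFun (congrFun hnm p) hp
    have h3 : n ≡ m [MOD ∏ p ∈ S, p ^ 2] := by
      rw [Nat.modEq_iff_dvd]
      rw [Nat.cast_prod]
      refine Finset.prod_dvd_of_coprime ?_ ?_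
      · intro p hp q hq hpq
        have h4 : Nat.Coprime (p ^ 2) (q ^ 2) :=
          Nat.Coprime.pow 2 2 ((Nat.coprime_primes (hS p hp) (hS q hq)).2 hpq)
        exact Nat.isCoprime_iff_coprime.2 h4
      · intro p hp
        exact Nat.modEq_iff_dvd.1 (h2 p hp)
    exact Nat.ModEq.eq_of_lt_of_lt h3 hn.1 hm.1

private theorem unk_mult (P : ℕ → Prop) [DecidablePred P] (M : ℕ) (hP : Function.Periodic P M)
    (x k : ℕ) : ((Ico x (x + k * M)).filter P).card = k * M.count P := by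
  induction k with
  | zero => simp
  | succ k ih =>
    have h1 : Ico x (x + (k + 1) * M) = Ico x (x + k * M) ∪ Ico (x + k * M) (x + k * M + M) := by
      rw [Ico_union_Ico_eq_Ico (Nat.le_add_right _ _) (Nat.le_add_right _ _)]
      congr 1
      ring
    rw [h1, filter_union, card_union_of_disjoint, ih, Nat.filter_Ico_card_eq_of_periodic _ _ _ hP]
    · ring
    · refine Finset.disjoint_filter_filter ?_
      exact Ico_disjoint_Ico_consecutive _ _ _

theorem unk_count (S : Finset ℕ) (hS : ∀ p ∈ S, p.Prime) (x len : ℕ) :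
    ((Ico x (x + len)).filter (fun n => ∀ p ∈ S, ¬ (p ∣ n ∧ ¬ p ^ 2 ∣ n))).card ≤
      (len / (∏ p ∈ S, p ^ 2) + 1) * ∏ p ∈ S, (p ^ 2 - (p - 1)) := by
  have hM : 0 < ∏ p ∈ S, p ^ 2 := Finset.prod_pos fun p hp => pow_pos (hS p hp).pos 2
  have hper : Function.Periodic (fun n : ℕ => ∀ p ∈ S, ¬ (p ∣ n ∧ ¬ p ^ 2 ∣ n))
      (∏ p ∈ S, p ^ 2) := by
    intro n
    have h1 : ∀ p ∈ S, p ^ 2 ∣ ∏ p ∈ S, p ^ 2 := fun p hp => Finset.dvd_prod_of_mem _ hp
    refine propext (forall₂_congr fun p hp => ?_)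
    rw [Nat.dvd_add_left (h1 p hp), Nat.dvd_add_left
      (dvd_trans (dvd_pow_self p two_ne_zero) (h1 p hp))]
  have h2 : len ≤ (len / (∏ p ∈ S, p ^ 2) + 1) * ∏ p ∈ S, p ^ 2 :=
    (Nat.lt_div_mul_add hM).le.trans (by rw [add_mul, one_mul])
  calc ((Ico x (x + len)).filter (fun n => ∀ p ∈ S, ¬ (p ∣ n ∧ ¬ p ^ 2 ∣ n))).card
      ≤ ((Ico x (x + (len / (∏ p ∈ S, p ^ 2) + 1) * ∏ p ∈ S, p ^ 2)).filter
        (fun n => ∀ p ∈ S, ¬ (p ∣ n ∧ ¬ p ^ 2 ∣ n))).card := by
        refine card_le_card (filter_subset_filter _ ?_)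
        exact Ico_subset_Ico_right (Nat.add_le_add_left h2 x)
    _ = (len / (∏ p ∈ S, p ^ 2) + 1) *
        (∏ p ∈ S, p ^ 2).count (fun n => ∀ p ∈ S, ¬ (p ∣ n ∧ ¬ p ^ 2 ∣ n)) :=
        unk_mult _ _ hper _ _
    _ ≤ _ := by
        rw [Nat.count_eq_card_filter_range]
        exact Nat.mul_le_mul_left _ (unk_period S hS)

end Pool.Agent.Helper12.MM
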