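import Mathlib

/-!
PROJECT MM, module MM-07. `∑_{p ≤ n} (log p) / p ≤ log n + 2`.

`log n! = ∑_p v_p (n!) log p ≥ ∑_{p ≤ n} ⌊n/p⌋ log p ≥ ∑_{p ≤ n} (n/p - 1) log p` (`p ^ (n/p) ∣ n!`, and these prime powers are coprime: their product divides `n!`; e.g. `Nat.factorial` and
`Nat.Prime.pow_dvd_factorial_iff`, or `sub_one_mul_padicValNat_factorial`; or `Nat.factorization_prod_pow_eq_self`). So `∑ (log p)/p ≤ (log n!)/n + (∑_{p ≤ n} log p)/n ≤ log n + log 4`,
by `n! ≤ n ^ n` (`Nat.factorial_le_pow`) and `primorial_le_4_pow` (or `Chebyshev.theta_le_log4_mul_x`); `log 4 ≤ 2`.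
-/

set_option autoImplicit false

namespace Pool.Agent.Helper12.MM

open Finset

theorem logp_up (n : ℕ) (hn : 1 ≤ n) :
    ∑ p ∈ (range (n + 1)).filter Nat.Prime, Real.log p / (p : ℝ) ≤ Real.log n + 2 := by
  set S := (range (n + 1)).filter Nat.Prime with hS
  have hp : ∀ p ∈ S, p.Prime := fun p h => (Finset.mem_filter.1 h).2
  have hdvd : ∏ p ∈ S, p ^ (n / p) ∣ n.factorial := by
    refine Finset.prod_dvd_of_isRelPrime ?_ ?_
    · intro p h q h' hne
      have hc : Nat.Coprime p q := (Nat.coprime_primes (hp p h) (hp q h')).2 hne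
      exact Nat.coprime_iff_isRelPrime.1 (Nat.Coprime.pow _ _ hc)
    · intro p h
      refine (Nat.Prime.pow_dvd_factorial_iff (hp p h) (b := Nat.log p n + 2) (by omega)).2 ?_
      have h1 : (1 : ℕ) ∈ Finset.Ico 1 (Nat.log p n + 2) := by simp
      have h2 := Finset.single_le_sum (f := fun i => n / p ^ i) (fun i _ => Nat.zero_le _) h1
      simpa using h2
  have hle : ∏ p ∈ S, p ^ (n / p) ≤ n ^ n :=
    (Nat.le_of_dvd (Nat.factorial_pos n) hdvd).trans (Nat.factorial_le_pow n)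
  have hlog : ∑ p ∈ S, ((n / p : ℕ) : ℝ) * Real.log p ≤ n * Real.log n := by
    have h1 : Real.log ((∏ p ∈ S, p ^ (n / p) : ℕ) : ℝ) ≤ Real.log ((n ^ n : ℕ) : ℝ) := by
      refine Real.log_le_log ?_ (by exact_mod_cast hle)
      exact_mod_cast Finset.prod_pos fun p h => pow_pos (hp p h).pos _
    rw [Nat.cast_prod, Real.log_prod, Nat.cast_pow, Real.log_pow] at h1
    · refine le_trans (le_of_eq ?_) h1
      refine Finset.sum_congr rfl fun p _ => ?_
      rw [Nat.cast_pow, Real.log_pow]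
    · intro p h
      exact_mod_cast (pow_pos (hp p h).pos _).ne'
  have htheta : ∑ p ∈ S, Real.log p ≤ n * Real.log 4 := by
    have h1 : Real.log ((primorial n : ℕ) : ℝ) ≤ Real.log ((4 ^ n : ℕ) : ℝ) := by
      refine Real.log_le_log ?_ (by exact_mod_cast primorial_le_four_pow n)
      exact_mod_cast primorial_pos n
    have h2 : primorial n = ∏ p ∈ S, p := rfl
    rw [h2, Nat.cast_prod, Real.log_prod, Nat.cast_pow, Real.log_pow] at h1
    · exact_mod_cast h1
    · intro p h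
      exact_mod_cast (hp p h).pos.ne'
  have h4 : Real.log 4 ≤ 2 := by
    have : (4 : ℝ) = 2 ^ 2 := by norm_num
    rw [this, Real.log_pow]
    have := Real.log_two_lt_d9
    push_cast
    linarith
  have hn' : (0 : ℝ) < n := by exact_mod_cast hn
  have hterm : ∀ p ∈ S, (n : ℝ) * (Real.log p / (p : ℝ)) ≤ ((n / p : ℕ) : ℝ) * Real.log p + Real.log p := by
    intro p h
    have hp0 : (0 : ℝ) < p := by exact_mod_cast (hp p h).pos
    have hl : 0 ≤ Real.log p := Real.log_natCast_nonneg p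
    have h1 : (n : ℝ) ≤ p * (((n / p : ℕ) : ℝ) + 1) := by
      exact_mod_cast (Nat.lt_mul_div_succ n (hp p h).pos).le
    have h2 : (n : ℝ) / p ≤ ((n / p : ℕ) : ℝ) + 1 := by
      rw [div_le_iff₀ hp0]
      linarith
    calc (n : ℝ) * (Real.log p / (p : ℝ)) = (n : ℝ) / p * Real.log p := by ring
      _ ≤ (((n / p : ℕ) : ℝ) + 1) * Real.log p := mul_le_mul_of_nonneg_right h2 hl
      _ = _ := by ring
  have hsum : (n : ℝ) * ∑ p ∈ S, Real.log p / (p : ℝ) ≤ n * Real.log n + n * Real.log 4 := by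
    rw [Finset.mul_sum]
    refine (Finset.sum_le_sum hterm).trans ?_
    rw [Finset.sum_add_distrib]
    linarith
  have h5 : (n : ℝ) * ∑ p ∈ S, Real.log p / (p : ℝ) ≤ n * (Real.log n + 2) := by
    nlinarith
  exact le_of_mul_le_mul_left h5 hn'

end Pool.Agent.Helper12.MM
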