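import Pool.Agent.Helper12.MM.Defs
import Pool.Agent.Helper12.MM.LogUp

/-!
PROJECT MM, module MM-09. Few `n` modulo `Q` have a large gcd with `Q = QQ G y` (sharper than PF-06).

Copy `Pool/Agent/Helper9/PF/GcdLarge.lean` (theorem `gcd_large`): `log gcd (n, Q) = ∑ log p` over the primes `p ∈ (G, y]` with `p ∣ n`, so
`∑_{n < Q} log gcd (n, Q) = ∑_p (Q / p) log p ≤ Q (log y + 2)` by `logp_up`; the `n` with `D < gcd (n, Q)` contribute at least `log D` each, the others at least `0`.
-/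

set_option autoImplicit false

namespace Pool.Agent.Helper12.MM

open Finset Pool.Agent.Helper9.PF

private theorem gl_pos (G y : ℕ) : 0 < QQ G y :=
  Finset.prod_pos fun _ hp => (Finset.mem_filter.1 hp).2.pos

private theorem gl_sqf (G y : ℕ) : Squarefree (QQ G y) := by
  unfold QQ
  refine Finset.squarefree_prod_of_pairwise_isCoprime ?_ ?_
  · intro p hp q hq hpq
    have h1 := (Finset.mem_filter.1 hp).2
    have h2 := (Finset.mem_filter.1 hq).2
    exact Nat.coprime_iff_isRelPrime.1 ((Nat.coprime_primes h1 h2).2 hpq)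
  · intro p hp
    exact (Finset.mem_filter.1 hp).2.prime.squarefree

private theorem gl_log (G y n : ℕ) :
    Real.log (n.gcd (QQ G y)) ≤
      ∑ p ∈ (Ioc G y).filter Nat.Prime, if p ∣ n then Real.log p else 0 := by
  have hg : Squarefree (n.gcd (QQ G y)) :=
    (gl_sqf G y).squarefree_of_dvd (Nat.gcd_dvd_right _ _)
  have h1 : ((n.gcd (QQ G y) : ℕ) : ℝ) = ∏ p ∈ (n.gcd (QQ G y)).primeFactors, (p : ℝ) := by
    rw [← Nat.cast_prod, Nat.prod_primeFactors_of_squarefree hg]
  have h2 : (n.gcd (QQ G y)).primeFactors ⊆ ((Ioc G y).filter Nat.Prime).filter (· ∣ n) := by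
    intro p hp
    have hp1 := Nat.prime_of_mem_primeFactors hp
    have hp2 := Nat.dvd_of_mem_primeFactors hp
    have hp3 : p ∣ QQ G y := hp2.trans (Nat.gcd_dvd_right _ _)
    obtain ⟨q, hq, hpq⟩ := (hp1.prime.dvd_finsetProd_iff _).1 hp3
    have hq2 := (Finset.mem_filter.1 hq).2
    have hpq' : p = q := (Nat.prime_dvd_prime_iff_eq hp1 hq2).1 hpq
    subst hpq'
    exact Finset.mem_filter.2 ⟨hq, hp2.trans (Nat.gcd_dvd_left _ _)⟩
  rw [h1, Real.log_prod (fun p hp => by
    have := (Nat.prime_of_mem_primeFactors hp).pos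
    exact_mod_cast this.ne'), ← Finset.sum_filter]
  exact Finset.sum_le_sum_of_subset_of_nonneg h2 fun p _ _ => Real.log_natCast_nonneg p

private theorem gl_card {Q p : ℕ} (hp : 0 < p) (hpQ : p ∣ Q) :
    (((range Q).filter (p ∣ ·)).card : ℝ) ≤ (Q : ℝ) * (p : ℝ)⁻¹ := by
  obtain ⟨m, rfl⟩ := hpQ
  have h1 : ((range (p * m)).filter (p ∣ ·)) ⊆ (range m).image (p * ·) := by
    intro n hn
    obtain ⟨h2, k, rfl⟩ := Finset.mem_filter.1 hn
    refine Finset.mem_image.2 ⟨k, Finset.mem_range.2 ?_, rfl⟩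
    exact lt_of_mul_lt_mul_left (Finset.mem_range.1 h2) (Nat.zero_le p)
  have h3 : ((range (p * m)).filter (p ∣ ·)).card ≤ m := by
    refine (Finset.card_le_card h1).trans ?_
    refine Finset.card_image_le.trans ?_
    rw [Finset.card_range]
  have h4 : (p : ℝ) ≠ 0 := by exact_mod_cast hp.ne'
  have h5 : ((p * m : ℕ) : ℝ) * (p : ℝ)⁻¹ = m := by
    push_cast
    field_simp
  rw [h5]
  exact_mod_cast h3

theorem gcd_large2 (G y D : ℕ) (hy : 1 ≤ y) (hD : 1 ≤ D) :
    (((range (QQ G y)).filter (fun n => D < n.gcd (QQ G y))).card : ℝ) * Real.log D ≤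
      (QQ G y : ℝ) * (Real.log y + 2) := by
  have hQ := gl_pos G y
  -- the sum of the logarithms
  have h1 : (((range (QQ G y)).filter (fun n => D < n.gcd (QQ G y))).card : ℝ) * Real.log D ≤
      ∑ n ∈ range (QQ G y), Real.log (n.gcd (QQ G y)) := by
    have h2 : (((range (QQ G y)).filter (fun n => D < n.gcd (QQ G y))).card : ℝ) * Real.log D ≤
        ∑ n ∈ (range (QQ G y)).filter (fun n => D < n.gcd (QQ G y)),
          Real.log (n.gcd (QQ G y)) := by
      rw [← nsmul_eq_mul]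
      apply Finset.card_nsmul_le_sum
      intro n hn
      have h3 := (Finset.mem_filter.1 hn).2
      apply Real.log_le_log
      · exact_mod_cast hD
      · exact_mod_cast h3.le
    refine h2.trans ?_
    exact Finset.sum_le_sum_of_subset_of_nonneg (Finset.filter_subset _ _)
      fun n _ _ => Real.log_natCast_nonneg _
  refine h1.trans ?_
  have h4 : ∑ n ∈ range (QQ G y), Real.log (n.gcd (QQ G y)) ≤
      ∑ n ∈ range (QQ G y), ∑ p ∈ (Ioc G y).filter Nat.Prime,
        (if p ∣ n then Real.log p else 0) :=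
    Finset.sum_le_sum fun n _ => gl_log G y n
  refine h4.trans ?_
  rw [Finset.sum_comm]
  have h5 : ∀ p ∈ (Ioc G y).filter Nat.Prime,
      ∑ n ∈ range (QQ G y), (if p ∣ n then Real.log p else 0) ≤
        (QQ G y : ℝ) * (Real.log p / (p : ℝ)) := by
    intro p hp
    obtain ⟨hp1, hp2⟩ := Finset.mem_filter.1 hp
    have hpQ : p ∣ QQ G y := Finset.dvd_prod_of_mem _ hp
    rw [← Finset.sum_filter, Finset.sum_const, nsmul_eq_mul]
    have h6 := gl_card hp2.pos hpQ
    have h8 : (0 : ℝ) ≤ Real.log p := Real.log_natCast_nonneg p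
    calc (((range (QQ G y)).filter (p ∣ ·)).card : ℝ) * Real.log p
        ≤ ((QQ G y : ℝ) * (p : ℝ)⁻¹) * Real.log p := mul_le_mul_of_nonneg_right h6 h8
      _ = (QQ G y : ℝ) * (Real.log p / (p : ℝ)) := by rw [div_eq_mul_inv]; ring
  refine (Finset.sum_le_sum h5).trans ?_
  rw [← Finset.mul_sum]
  refine mul_le_mul_of_nonneg_left ?_ (by positivity)
  refine le_trans ?_ (logp_up y hy)
  refine Finset.sum_le_sum_of_subset_of_nonneg ?_ ?_
  · intro p hp
    obtain ⟨hp1, hp2⟩ := Finset.mem_filter.1 hp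
    refine Finset.mem_filter.2 ⟨Finset.mem_range.2 ?_, hp2⟩
    have := (Finset.mem_Ioc.1 hp1).2
    omega
  · intro p _ _
    exact div_nonneg (Real.log_natCast_nonneg p) (Nat.cast_nonneg p)

end Pool.Agent.Helper12.MM
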