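import Pool.Agent.Helper12.MM.CoreD
import Pool.Agent.Helper12.MM.CaseG
import Pool.Agent.Helper12.MM.ConvA

/-!
PROJECT MM: the main theorem.
-/

set_option autoImplicit false

namespace Pool.Agent.Helper12.MM

open Finset Filter Pool.Agent.Helper9.Fib

open Classical in
theorem main_MA {A B : Set ℕ} {M : ℕ} (h : MA A B M) (hinf : A.Infinite) :
    Irrational (∑' n : ℕ, if n ∈ A then 1 / (Nat.fib n : ℝ) else 0) := by
  by_cases hs : Summable (fun p : ℕ => if p.Prime ∧ p.Coprime M ∧ p ∈ B then 1 / (p : ℝ) else 0)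
  · exact irrational_set A h.pos hinf (conv_a h hs)
  by_cases hev : ∃ m ∈ A, Even m
  · obtain ⟨m, hm, hme⟩ := hev
    obtain ⟨s0, h1, h2, h3, h4⟩ := a_even_mem h hm hme
    by_contra hrat
    refine core_false h ∅ {p | p.Prime ∧ p.Coprime M ∧ p ∈ B} s0 h1 h3 h4 ?_ ?_ ?_ ?_ hrat
    · intro e he _ _
      exact XX_even_ne h h2 he.ne_zero
    · simp only [Set.mem_empty_iff_false, ↓reduceIte]
      exact summable_zero
    · intro p hp
      exact ⟨hp.1, hp.2.2, Set.notMem_empty _⟩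
    · intro hc
      refine hs (hc.congr fun p => ?_)
      by_cases hp : p.Prime ∧ p.Coprime M ∧ p ∈ B
      · have hp' : p ∈ {p | p.Prime ∧ p.Coprime M ∧ p ∈ B} := hp
        rw [if_pos hp, if_pos hp']
      · have hp' : ¬ p ∈ {p | p.Prime ∧ p.Coprime M ∧ p ∈ B} := hp
        rw [if_neg hp, if_neg hp']
  · push Not at hev
    by_cases h3 : Summable (fun p : ℕ =>
        if p.Prime ∧ p.Coprime M ∧ p ∈ B ∧ p % 4 = 3 then 1 / (p : ℝ) else 0)
    · obtain ⟨s0, h1, -, h4, h5⟩ := a_min h hinf.nonempty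
      by_contra hrat
      refine core_false h {p | p.Prime ∧ p.Coprime M ∧ p ∈ B ∧ p % 4 = 3}
        {p | p.Prime ∧ p.Coprime M ∧ p ∈ B ∧ p % 4 = 1} s0 h1 h4 (by rw [h5]; norm_num) ?_
        (h3.congr fun p => ?_) ?_ ?_ hrat
      · intro e he heM heA
        refine XX_odd_ne h s0 he heM ?_
        intro p hp hpB hp3
        refine heA p hp ?_
        have hpp := Nat.prime_of_mem_primeFactors hp
        exact ⟨hpp, Nat.Coprime.coprime_dvd_left (Nat.dvd_of_mem_primeFactors hp) heM, hpB, hp3⟩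
      · by_cases hp : p.Prime ∧ p.Coprime M ∧ p ∈ B ∧ p % 4 = 3
        · have hp' : p ∈ {p | p.Prime ∧ p.Coprime M ∧ p ∈ B ∧ p % 4 = 3} := hp
          rw [if_pos hp, if_pos hp']
        · have hp' : ¬ p ∈ {p | p.Prime ∧ p.Coprime M ∧ p ∈ B ∧ p % 4 = 3} := hp
          rw [if_neg hp, if_neg hp']
      · intro p hp
        refine ⟨hp.1, hp.2.2.1, ?_⟩
        intro hc
        have h6 := hp.2.2.2
        have h7 := hc.2.2.2
        omega
      · intro hc
        refine hs ((h3.add hc).congr fun p => ?_)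
        by_cases hp : p.Prime ∧ p.Coprime M ∧ p ∈ B
        · obtain ⟨hp1, hp2, hp3⟩ := hp
          have hodd : ¬ 2 ∣ p := by
            intro h8
            have h9 := Nat.Coprime.coprime_dvd_left h8 hp2
            have h10 := Nat.Coprime.coprime_dvd_right h.two h9
            norm_num at h10
          have h11 : p % 4 = 1 ∨ p % 4 = 3 := by omega
          rcases h11 with h11 | h11
          · have e1 : ¬ (p.Prime ∧ p.Coprime M ∧ p ∈ B ∧ p % 4 = 3) := by
              rintro ⟨-, -, -, h12⟩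
              omega
            have e2 : p ∈ {p | p.Prime ∧ p.Coprime M ∧ p ∈ B ∧ p % 4 = 1} := ⟨hp1, hp2, hp3, h11⟩
            rw [if_neg e1, if_pos e2, if_pos ⟨hp1, hp2, hp3⟩, zero_add]
          · have e1 : p.Prime ∧ p.Coprime M ∧ p ∈ B ∧ p % 4 = 3 := ⟨hp1, hp2, hp3, h11⟩
            have e2 : ¬ p ∈ {p | p.Prime ∧ p.Coprime M ∧ p ∈ B ∧ p % 4 = 1} := by
              rintro ⟨-, -, -, h12⟩
              omega
            rw [if_pos e1, if_neg e2, if_pos ⟨hp1, hp2, hp3⟩, add_zero]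
        · have e1 : ¬ (p.Prime ∧ p.Coprime M ∧ p ∈ B ∧ p % 4 = 3) := by
            rintro ⟨a, b, c, -⟩
            exact hp ⟨a, b, c⟩
          have e2 : ¬ p ∈ {p | p.Prime ∧ p.Coprime M ∧ p ∈ B ∧ p % 4 = 1} := by
            rintro ⟨a, b, c, -⟩
            exact hp ⟨a, b, c⟩
          rw [if_neg e1, if_neg e2, if_neg hp, add_zero]
    · exact case_G h hev hinf.nonempty h3

private lemma mn_split (M : ℕ) : ∀ n : ℕ, 0 < n → ∃ s r, n = s * r ∧ 0 < s ∧ 0 < r ∧ r.Coprime M ∧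
    ∀ p, p.Prime → p ∣ s → p ∣ M := by
  intro n
  induction n using Nat.strong_induction_on with
  | _ n ih =>
    intro hn
    by_cases hc : n.Coprime M
    · exact ⟨1, n, by simp, one_pos, hn, hc, fun p hp h => absurd h hp.not_dvd_one⟩
    · obtain ⟨p, hp, hpn, hpM⟩ := Nat.Prime.not_coprime_iff_dvd.mp hc
      obtain ⟨n', rfl⟩ := hpn
      have hn' : 0 < n' := Nat.pos_of_mul_pos_left hn
      obtain ⟨s, r, h1, hs, hr, h2, h3⟩ := ih n' (by nlinarith [hp.two_le]) hn'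
      refine ⟨p * s, r, by rw [h1, mul_assoc], Nat.mul_pos hp.pos hs, hr, h2, ?_⟩
      intro q hq hqs
      rcases (Nat.Prime.dvd_mul hq).mp hqs with h | h
      · rw [(Nat.prime_dvd_prime_iff_eq hq hp).mp h]
        exact hpM
      · exact h3 q hq h

private lemma mn_cop {M s r : ℕ} (hr : r.Coprime M) (hs : ∀ p, p.Prime → p ∣ s → p ∣ M) :
    s.Coprime r := by
  refine Nat.Coprime.symm ?_
  by_contra hc
  obtain ⟨p, hp, hpr, hps⟩ := Nat.Prime.not_coprime_iff_dvd.mp hc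
  exact Nat.not_coprime_of_dvd_of_dvd hp.one_lt hpr (hs p hp hps) hr

/-- The hypothesis of the theorem gives the structure `MA`. -/
theorem MA_of {A B : Set ℕ} {M : ℕ} (hM : 0 < M) (hpos : 0 ∉ A) (hne : A.Nonempty)
    (hmul : ∀ a b : ℕ, 0 < a → 0 < b → a.Coprime b → b.Coprime M → (a * b ∈ A ↔ a ∈ A ∧ b ∈ B)) :
    MA A B (2 * M) := by
  have hcop : ∀ n : ℕ, n.Coprime (2 * M) → n.Coprime M := fun n hn =>
    Nat.Coprime.coprime_dvd_right (dvd_mul_left _ _) hn
  obtain ⟨m, hm⟩ := hne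
  have hm0 : 0 < m := by
    rcases Nat.eq_zero_or_pos m with h | h
    · rw [h] at hm
      exact absurd hm hpos
    · exact h
  obtain ⟨s, r, h1, h2, h3, h4, h5⟩ := mn_split (2 * M) m hm0
  have hsr := mn_cop h4 h5
  have hsA : s ∈ A := ((hmul s r h2 h3 hsr (hcop r h4)).1 (h1 ▸ hm)).1
  refine ⟨dvd_mul_right _ _, by omega, hpos, ?_, ?_, ?_⟩
  · intro a b ha hb hab hbM
    exact hmul a b ha hb hab (hcop b hbM)
  · exact ((hmul s 1 h2 one_pos (Nat.coprime_one_right _) (Nat.coprime_one_left _)).1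
      (by rwa [mul_one])).2
  · intro a b ha hb hab haM hbM
    have hsa : s.Coprime a := mn_cop haM h5
    have hsb : s.Coprime b := mn_cop hbM h5
    have e1 := hmul s (a * b) h2 (Nat.mul_pos ha hb) (Nat.Coprime.mul_right hsa hsb)
      (Nat.Coprime.mul_left (hcop a haM) (hcop b hbM))
    have e2 := hmul (s * a) b (Nat.mul_pos h2 ha) hb (Nat.Coprime.mul_left hsb hab) (hcop b hbM)
    have e3 := hmul s a h2 ha hsa (hcop a haM)
    rw [mul_assoc] at e2
    constructor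
    · intro h6
      have h7 := e1.2 ⟨hsA, h6⟩
      have h8 := e2.1 h7
      exact ⟨(e3.1 h8.1).2, h8.2⟩
    · intro h6
      have h7 := e2.2 ⟨e3.2 ⟨hsA, h6.1⟩, h6.2⟩
      exact (e1.1 h7).2

open Classical in
theorem main {A B : Set ℕ} {M : ℕ} (hM : 0 < M) (hpos : 0 ∉ A) (hinf : A.Infinite)
    (hmul : ∀ a b : ℕ, 0 < a → 0 < b → a.Coprime b → b.Coprime M → (a * b ∈ A ↔ a ∈ A ∧ b ∈ B)) :
    Irrational (∑' n : ℕ, if n ∈ A then 1 / (Nat.fib n : ℝ) else 0) :=
  main_MA (MA_of hM hpos hinf.nonempty hmul) hinf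

end Pool.Agent.Helper12.MM
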