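import Pool.Agent.Helper12.MM.NCnt

/-!
PROJECT MM, module MM-21. Squares of primes in the progression.

Let `Y ≤ n < 2 Y`, `t = r + Q n ≤ Z ^ 2`, `0 < t`. If `p` is a prime, `p ∤ Q`, `p ^ 2 ∣ t` then `y1 < p ≤ Z`. So the number of the `n` is at most `∑_{y1 < p ≤ Z} (Y / p ^ 2 + 1) ≤ Y / y1 + Z` (`ncnt_le` with `e = p ^ 2`, coprime to `Q`;
`∑_{p > y1} 1/p ^ 2 ≤ ∑_{n > y1} 1/(n (n - 1)) ≤ 1/y1`).
-/

set_option autoImplicit false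

namespace Pool.Agent.Helper12.MM

open Finset

private theorem nsq_sum (y1 Z : ℕ) (hy1 : 1 ≤ y1) :
    ∑ p ∈ Ioc y1 Z, ((p : ℝ) ^ 2)⁻¹ ≤ ((y1 : ℝ))⁻¹ := by
  rcases le_or_gt y1 Z with h | h
  · have h1 := sum_Ioc_inv_sq_le_sub (α := ℝ) (k := y1) (n := Z) (by omega) h
    have h2 : (0 : ℝ) ≤ (Z : ℝ)⁻¹ := by positivity
    linarith
  · rw [Ioc_eq_empty_of_le h.le]
    simp

open Classical in
theorem avg_sq (r Q Y Z y1 : ℕ) (hy1 : 1 ≤ y1) (hY : 1 ≤ Y) (hQ0 : 0 < Q)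
    (hQ : ∀ p, p.Prime → p ≤ y1 → p ∣ Q) (hZ : r + Q * (2 * Y) ≤ Z ^ 2) :
    (((Ico Y (2 * Y)).filter (fun n => ∃ p, p.Prime ∧ ¬ p ∣ Q ∧ p ^ 2 ∣ r + Q * n)).card : ℝ) ≤
      Y / y1 + Z := by
  have hsub : (Ico Y (2 * Y)).filter (fun n => ∃ p, p.Prime ∧ ¬ p ∣ Q ∧ p ^ 2 ∣ r + Q * n) ⊆
      ((Ioc y1 Z).filter (fun p => p.Prime ∧ ¬ p ∣ Q)).biUnion
        (fun p => (Ico Y (2 * Y)).filter (fun n => p ^ 2 ∣ r + Q * n)) := by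
    intro n hn
    rw [mem_filter] at hn
    obtain ⟨hn1, p, hp, hpQ, hdvd⟩ := hn
    rw [mem_Ico] at hn1
    rw [mem_biUnion]
    refine ⟨p, ?_, ?_⟩
    · rw [mem_filter, mem_Ioc]
      refine ⟨⟨?_, ?_⟩, hp, hpQ⟩
      · by_contra hcon
        exact hpQ (hQ p hp (by omega))
      · have hpos : 0 < r + Q * n := by
          have : 0 < Q * n := Nat.mul_pos hQ0 (by omega)
          omega
        have h1 : p ^ 2 ≤ r + Q * n := Nat.le_of_dvd hpos hdvd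
        have h2 : Q * n ≤ Q * (2 * Y) := Nat.mul_le_mul_left Q (by omega)
        have h3 : p ^ 2 ≤ Z ^ 2 := by omega
        exact (Nat.pow_le_pow_iff_left (by norm_num)).1 h3
    · rw [mem_filter, mem_Ico]
      exact ⟨hn1, hdvd⟩
  have h1 : (((Ico Y (2 * Y)).filter
      (fun n => ∃ p, p.Prime ∧ ¬ p ∣ Q ∧ p ^ 2 ∣ r + Q * n)).card : ℝ) ≤
      ∑ p ∈ (Ioc y1 Z).filter (fun p => p.Prime ∧ ¬ p ∣ Q),
        (((Ico Y (2 * Y)).filter (fun n => p ^ 2 ∣ r + Q * n)).card : ℝ) := by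
    have h2 := (card_le_card hsub).trans card_biUnion_le
    exact_mod_cast h2
  refine h1.trans ?_
  have h3 : ∀ p ∈ (Ioc y1 Z).filter (fun p => p.Prime ∧ ¬ p ∣ Q),
      (((Ico Y (2 * Y)).filter (fun n => p ^ 2 ∣ r + Q * n)).card : ℝ) ≤
        (Y : ℝ) * ((p : ℝ) ^ 2)⁻¹ + 1 := by
    intro p hp
    rw [mem_filter] at hp
    obtain ⟨_, hpp, hpQ⟩ := hp
    have hc : (p ^ 2).Coprime Q := Nat.Coprime.pow_left 2 ((hpp.coprime_iff_not_dvd).2 hpQ)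
    have h4 := ncnt_le r Q Y (p ^ 2) (pow_pos hpp.pos 2) hc
    push_cast at h4
    rw [div_eq_mul_inv] at h4
    exact h4
  refine (sum_le_sum h3).trans ?_
  have h5 : ∑ p ∈ (Ioc y1 Z).filter (fun p => p.Prime ∧ ¬ p ∣ Q),
      ((Y : ℝ) * ((p : ℝ) ^ 2)⁻¹ + 1) ≤ ∑ p ∈ Ioc y1 Z, ((Y : ℝ) * ((p : ℝ) ^ 2)⁻¹ + 1) := by
    refine sum_le_sum_of_subset_of_nonneg (filter_subset _ _) ?_
    intro p _ _
    positivity
  refine h5.trans ?_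
  rw [sum_add_distrib, ← mul_sum, sum_const, nsmul_eq_mul, mul_one, Nat.card_Ioc, div_eq_mul_inv]
  have h6 := nsq_sum y1 Z hy1
  have h7 : ((Z - y1 : ℕ) : ℝ) ≤ Z := by
    exact_mod_cast Nat.sub_le Z y1
  have h8 : (0 : ℝ) ≤ Y := Nat.cast_nonneg Y
  have h9 := mul_le_mul_of_nonneg_left h6 h8
  linarith

end Pool.Agent.Helper12.MM
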