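import Pool.Agent.Helper12.MM.Defs

/-!
PROJECT MM: the parameters as functions of `k` (`L = k ^ 50`). DONE.
-/

set_option autoImplicit false

namespace Pool.Agent.Helper12.MM

/-- number of design primes per place -/
def mm (k : ℕ) : ℕ := 3 * k ^ 34
/-- `G` -/
def GG (k : ℕ) : ℕ := 16 * k ^ 34
/-- `y` -/
def yy (k : ℕ) : ℕ := 2 ^ (k ^ 40)
/-- `D` -/
def DD (k : ℕ) : ℕ := 2 ^ (k ^ 45)
/-- `W` -/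
def WW (k : ℕ) : ℕ := 2 ^ (2 * k ^ 45)
/-- `log_2 y1` -/
def J1 (k : ℕ) : ℕ := 3 * k ^ 45
/-- `E0` -/
def E0 (k : ℕ) : ℕ := 4 * k ^ 50
/-- `H0` -/
def H0 (k : ℕ) : ℕ := 32 * k ^ 50
/-- `H1` -/
def H1 (k : ℕ) : ℕ := 2 ^ (2 * k ^ 50 + 2)
/-- `E` -/
def EE (k : ℕ) : ℕ := DD k * (H1 k + 2)
/-- `V` -/
def VV (k : ℕ) : ℕ := 2 * EE k + WW k
/-- `Y` -/
def YY (k : ℕ) : ℕ := 2 ^ (2 ^ (2 * k ^ 50))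
/-- `Y ^ (3/4)` -/
def ZZ (k : ℕ) : ℕ := 2 ^ (3 * 2 ^ (2 * k ^ 50 - 2))
/-- `Y ^ (1/4)` -/
def zz (k : ℕ) : ℕ := 2 ^ (2 ^ (2 * k ^ 50 - 2))
/-- bound for the design primes -/
def zd (k : ℕ) : ℕ := 2 ^ (2 ^ (k ^ 50))

end Pool.Agent.Helper12.MM
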