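import Pool.Agent.Helper12.MM.Defs
import Pool.Agent.Helper12.MM.ProdUp

/-!
PROJECT MM, module MM-12. The mean of the number of divisors of the smooth part.

`R = Q1 (2 ^ J) E0 = (∏_{p ≤ 2 ^ J} p) ^ E0` (`primorial`). The number of divisors of `gcd (n, R)` is the number of `d ∣ R` with `d ∣ n`. So the sum is `∑_{d ∣ R} #{b < R : d ∣ b + i} = ∑_{d ∣ R} R / d`
(`Nat.count_modEq_card`, or `Nat.filter_Ico_card_eq_of_periodic`, as `d ∣ R`), and
`∑_{d ∣ R} 1/d ≤ ∏_{p ≤ 2 ^ J} (1 - 1/p)⁻¹ ≤ 200 J ^ 2` (`prod_up`): every `d ∣ R` is in `Nat.smoothNumbers (2 ^ J + 1)`, and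
`EulerProduct.summable_and_hasSum_smoothNumbers_prod_primesBelow_geometric` with `f n = 1/n` gives that the sum of `1/d` over all smooth numbers is that product (see `harm_le_prod_pb` in
`Pool/Agent/Helper9/PF/ProdBound.lean`); note `(1 - p⁻¹)⁻¹`.
-/

set_option autoImplicit false

namespace Pool.Agent.Helper12.MM

open Finset Pool.Agent.Helper9.PF

/-- the completely multiplicative function `n ↦ 1/n` -/
private noncomputable def invHomTA : ℕ →* ℝ where
  toFun n := (n : ℝ)⁻¹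
  map_one' := by simp
  map_mul' m n := by push_cast; rw [mul_inv]

private theorem smooth_le_prod_ta (n : ℕ) (D : Finset ℕ)
    (hD : ∀ d ∈ D, d ∈ Nat.smoothNumbers (n + 1)) :
    ∑ i ∈ D, (i : ℝ)⁻¹ ≤ ∏ p ∈ (n + 1).primesBelow, (1 - (p : ℝ)⁻¹)⁻¹ := by
  have h := (EulerProduct.summable_and_hasSum_smoothNumbers_prod_primesBelow_geometric
    (f := invHomTA) (by
      intro p hp
      show ‖(p : ℝ)⁻¹‖ < 1
      rw [norm_inv, Real.norm_natCast]
      exact inv_lt_one_of_one_lt₀ (by exact_mod_cast hp.one_lt)) (n + 1)).2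
  have h2 := sum_le_hasSum (D.subtype (· ∈ Nat.smoothNumbers (n + 1))) (fun i _ => by
    show 0 ≤ ((i : ℕ) : ℝ)⁻¹
    positivity) h
  refine le_trans (le_of_eq ?_) h2
  rw [Finset.sum_subtype_of_mem (p := (· ∈ Nat.smoothNumbers (n + 1)))
    (fun i => (invHomTA i : ℝ))]
  · rfl
  · exact hD

private theorem cnt_ta (R d i : ℕ) (hd : d ∣ R) :
    ((range R).filter (fun b => d ∣ b + i)).card = R / d := by
  have hper : Function.Periodic (fun x => d ∣ x) R := by
    intro x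
    show (d ∣ x + R) = (d ∣ x)
    exact propext (Nat.dvd_add_left hd)
  have h1 := Nat.filter_Ico_card_eq_of_periodic i R (fun x => d ∣ x) hper
  have h2 := Nat.filter_Ico_card_eq_of_periodic 1 R (fun x => d ∣ x) hper
  have h3 := Nat.Ioc_filter_dvd_card_eq_div R d
  have h4 : Ico 1 (1 + R) = Ioc 0 R := by
    ext x; simp only [mem_Ico, mem_Ioc]; omega
  rw [h4] at h2
  have h5 : ((range R).filter (fun b => d ∣ b + i)).card =
      ((Ico i (i + R)).filter (fun x => d ∣ x)).card := by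
    rw [Finset.card_filter, Finset.card_filter, Finset.sum_Ico_eq_sum_range]
    rw [Nat.add_sub_cancel_left]
    refine Finset.sum_congr rfl fun b _ => ?_
    rw [add_comm b i]
  rw [h5, h1, ← h2, h3]

theorem tau_avg (J E0 i : ℕ) (hJ : 1 ≤ J) :
    (∑ b ∈ range (Q1 (2 ^ J) E0), ((sm (2 ^ J) E0 b i).divisors.card : ℝ)) ≤
      (Q1 (2 ^ J) E0 : ℝ) * (200 * (J : ℝ) ^ 2) := by
  set R := Q1 (2 ^ J) E0 with hR
  have hR0 : 0 < R := by
    rw [hR, Q1]
    exact pow_pos (primorial_pos _) _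
  have hdiv : ∀ b, ((sm (2 ^ J) E0 b i).divisors.card : ℝ) =
      ∑ d ∈ R.divisors, (if d ∣ b + i then (1 : ℝ) else 0) := by
    intro b
    rw [← Finset.sum_filter, Finset.sum_const, nsmul_eq_mul, mul_one]
    congr 2
    rw [sm, ← hR]
    ext d
    rw [Nat.mem_divisors, mem_filter, Nat.mem_divisors]
    constructor
    · rintro ⟨h1, h2⟩
      exact ⟨⟨h1.trans (Nat.gcd_dvd_right _ _), hR0.ne'⟩, h1.trans (Nat.gcd_dvd_left _ _)⟩
    · rintro ⟨⟨h1, _⟩, h2⟩
      exact ⟨Nat.dvd_gcd h2 h1, (Nat.gcd_pos_of_pos_right _ hR0).ne'⟩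
  rw [Finset.sum_congr rfl fun b _ => hdiv b, Finset.sum_comm]
  have h1 : ∀ d ∈ R.divisors, ∑ b ∈ range R, (if d ∣ b + i then (1 : ℝ) else 0) =
      (R : ℝ) * (d : ℝ)⁻¹ := by
    intro d hd
    rw [Nat.mem_divisors] at hd
    rw [← Finset.sum_filter, Finset.sum_const, nsmul_eq_mul, mul_one, cnt_ta R d i hd.1]
    have hd0 : (d : ℝ) ≠ 0 := by
      have := Nat.pos_of_dvd_of_pos hd.1 hR0
      exact_mod_cast this.ne'
    rw [Nat.cast_div hd.1 hd0, div_eq_mul_inv]
  rw [Finset.sum_congr rfl h1, ← Finset.mul_sum]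
  refine mul_le_mul_of_nonneg_left ?_ (Nat.cast_nonneg _)
  refine (smooth_le_prod_ta (2 ^ J) R.divisors ?_).trans ?_
  · intro d hd
    rw [Nat.mem_divisors] at hd
    rw [Nat.mem_smoothNumbers']
    intro p hp hpd
    have h2 : p ∣ R := hpd.trans hd.1
    rw [hR, Q1] at h2
    have h3 := hp.dvd_of_dvd_pow h2
    have h4 := (hp.dvd_primorial_iff).1 h3
    omega
  · have h5 := prod_up J hJ
    refine le_trans (le_of_eq ?_) h5
    refine Finset.prod_congr rfl fun p _ => ?_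
    rw [one_div]

end Pool.Agent.Helper12.MM
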