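import Pool.Agent.Helper12.MM.Defs

/-!
PROJECT MM, module MM-03. `XX` is multiplicative.

`gB` and `hB` are multiplicative on coprime numbers which are coprime to `M`: the divisors of `v w` are the products `n₁ n₂`, `n₁ ∣ v`, `n₂ ∣ w` (bijection, `v`, `w` coprime), `n₁`, `n₂` are coprime and coprime to `M`,
so `n₁ n₂ ∈ B ↔ n₁ ∈ B ∧ n₂ ∈ B` by `h.mulB`; `chi (n₁ n₂) = chi n₁ * chi n₂` (`theta_chi.mul`).
`XX_one`: the only divisor of `1` is `1 ∈ B`; `chi 1 = 1`.
`XX_prime`: `Nat.Prime.divisors`: `{1, p}`; `p` is odd (`2 ∣ M`, `p` coprime to `M`), so `chi p ^ 2 = 1`.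
-/

set_option autoImplicit false

namespace Pool.Agent.Helper12.MM

open Finset Pool.Agent.Helper9.PF

private lemma sum_div_mul (f : ℕ → ℤ) {v w : ℕ} (hvw : v.Coprime w)
    (hf : ∀ a ∈ v.divisors, ∀ b ∈ w.divisors, f (a * b) = f a * f b) :
    ∑ n ∈ (v * w).divisors, f n = (∑ n ∈ v.divisors, f n) * ∑ n ∈ w.divisors, f n := by
  have h1 : (v * w).divisors = (v.divisors ×ˢ w.divisors).image (fun p : ℕ × ℕ => p.1 * p.2) := by
    rw [Nat.divisors_mul, Finset.mul_def]
  rw [h1, Finset.sum_image (by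
    intro a ha b hb hab
    exact hvw.mul_injOn_divisors ha hb hab), Finset.sum_product, Finset.sum_mul_sum]
  refine Finset.sum_congr rfl (fun a ha => Finset.sum_congr rfl (fun b hb => ?_))
  exact hf a ha b hb

private lemma ite_and_mul (P Q R : Prop) [Decidable P] [Decidable Q] [Decidable R] (h : P ↔ Q ∧ R)
    (x y z : ℤ) (hx : x = y * z) :
    (if P then x else 0) = (if Q then y else 0) * (if R then z else 0) := by
  by_cases hq : Q <;> by_cases hr : R
  · rw [if_pos (h.mpr ⟨hq, hr⟩), if_pos hq, if_pos hr, hx]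
  · rw [if_neg (fun hp => hr (h.mp hp).2), if_neg hr, mul_zero]
  · rw [if_neg (fun hp => hq (h.mp hp).1), if_neg hq, zero_mul]
  · rw [if_neg (fun hp => hq (h.mp hp).1), if_neg hq, zero_mul]

private lemma mem_mul_iff {A B : Set ℕ} {M : ℕ} (h : MA A B M) {v w : ℕ} (hv : 0 < v) (hw : 0 < w)
    (hvw : v.Coprime w) (hvM : v.Coprime M) (hwM : w.Coprime M) {a b : ℕ} (ha : a ∈ v.divisors)
    (hb : b ∈ w.divisors) : a * b ∈ B ↔ a ∈ B ∧ b ∈ B := by
  have ha' := Nat.dvd_of_mem_divisors ha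
  have hb' := Nat.dvd_of_mem_divisors hb
  exact h.mulB a b (Nat.pos_of_dvd_of_pos ha' hv) (Nat.pos_of_dvd_of_pos hb' hw)
    ((hvw.coprime_dvd_left ha').coprime_dvd_right hb') (hvM.coprime_dvd_left ha')
    (hwM.coprime_dvd_left hb')

open Classical in
private lemma gB_mul {A B : Set ℕ} {M : ℕ} (h : MA A B M) {v w : ℕ} (hv : 0 < v) (hw : 0 < w)
    (hvw : v.Coprime w) (hvM : v.Coprime M) (hwM : w.Coprime M) :
    gB B (v * w) = gB B v * gB B w := by
  unfold gB
  refine sum_div_mul _ hvw (fun a ha b hb => ?_)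
  exact ite_and_mul _ _ _ (mem_mul_iff h hv hw hvw hvM hwM ha hb) _ _ _ (by norm_num)

open Classical in
private lemma hB_mul {A B : Set ℕ} {M : ℕ} (h : MA A B M) {v w : ℕ} (hv : 0 < v) (hw : 0 < w)
    (hvw : v.Coprime w) (hvM : v.Coprime M) (hwM : w.Coprime M) :
    hB B (v * w) = hB B v * hB B w := by
  unfold hB
  refine sum_div_mul _ hvw (fun a ha b hb => ?_)
  exact ite_and_mul _ _ _ (mem_mul_iff h hv hw hvw hvM hwM ha hb) _ _ _ (theta_chi.mul a b)

private lemma chi_sq {p : ℕ} (hp : Odd p) : chi p * chi p = 1 := by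
  obtain ⟨k, hk⟩ := hp
  unfold chi
  split_ifs with h1 h2
  · norm_num
  · norm_num
  · omega

private lemma odd_of_coprime {A B : Set ℕ} {M : ℕ} (h : MA A B M) {p : ℕ} (hpM : p.Coprime M) :
    Odd p := by
  have h2 : p.Coprime 2 := hpM.coprime_dvd_right h.two
  rcases Nat.even_or_odd p with he | ho
  · exfalso
    have : 2 ∣ Nat.gcd p 2 := Nat.dvd_gcd he.two_dvd (dvd_refl 2)
    rw [h2] at this
    omega
  · exact ho

private lemma chi_one : chi 1 = 1 := by
  unfold chi
  norm_num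

theorem XX_mul {A B : Set ℕ} {M : ℕ} (h : MA A B M) (u : ℕ) {v w : ℕ} (hv : 0 < v) (hw : 0 < w)
    (hvw : v.Coprime w) (hvM : v.Coprime M) (hwM : w.Coprime M) :
    XX B u (v * w) = XX B u v * XX B u w := by
  unfold XX
  split_ifs with hu
  · exact gB_mul h hv hw hvw hvM hwM
  · rw [hB_mul h hv hw hvw hvM hwM, theta_chi.mul]
    ring

theorem XX_one {A B : Set ℕ} {M : ℕ} (h : MA A B M) (u : ℕ) : XX B u 1 = 1 := by
  unfold XX
  split_ifs with hu
  · unfold gB
    rw [Nat.divisors_one, Finset.sum_singleton, if_pos h.one]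
  · unfold hB
    rw [Nat.divisors_one, Finset.sum_singleton, if_pos h.one, chi_one]
    norm_num

open Classical in
theorem XX_prime {A B : Set ℕ} {M : ℕ} (h : MA A B M) (u : ℕ) {p : ℕ} (hp : p.Prime)
    (hpM : p.Coprime M) :
    XX B u p = (if Even u then 1 else chi p) + (if p ∈ B then 1 else 0) := by
  unfold XX
  have hne : (1 : ℕ) ∉ ({p} : Finset ℕ) := by
    rw [Finset.mem_singleton]
    exact hp.one_lt.ne
  split_ifs with hu hB1 hB2
  · unfold gB
    rw [hp.divisors, Finset.sum_insert hne, Finset.sum_singleton, if_pos h.one, if_pos hB1]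
  · unfold gB
    rw [hp.divisors, Finset.sum_insert hne, Finset.sum_singleton, if_pos h.one, if_neg hB1]
  · unfold hB
    rw [hp.divisors, Finset.sum_insert hne, Finset.sum_singleton, if_pos h.one, if_pos hB2,
      chi_one, mul_add, chi_sq (odd_of_coprime h hpM), mul_one]
  · unfold hB
    rw [hp.divisors, Finset.sum_insert hne, Finset.sum_singleton, if_pos h.one, if_neg hB2,
      chi_one, add_zero, mul_one, add_zero]

end Pool.Agent.Helper12.MM
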